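import Mathlib

/-! Basic definitions for the frog model on a tree with 2 or 5 children (MP_9e3593_pr).

Environment: `e : List ℕ → Bool`, `true` = 2 children, `false` = 5 children. Child `i` of `v` is `i :: v`.
`Cc e k v`: conductance from (the parent of) `v` to the leaves, when `v` has `k` levels below it.
`Sc e k v`: sum of the conductances of the children of `v`, when the children have `k` levels below them.
`Gr e k v κ s`: generating function `E (1-s)^U` where `U` is the number of frogs of the activated set in the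
subtree of `v` (with `k` levels) leaving it upwards. -/

set_option autoImplicit false

namespace Pool.Agent.Work.MP_9e3593_pr

open Finset MeasureTheory ProbabilityTheory

/-- number of children -/
def deg (b : Bool) : ℕ := if b = true then 2 else 5

/-- conductance -/
noncomputable def Cc (e : List ℕ → Bool) : ℕ → List ℕ → ℝ
  | 0, _ => 1
  | k + 1, v => (∑ c ∈ range (deg (e v)), Cc e k (c :: v)) /
      (1 + ∑ c ∈ range (deg (e v)), Cc e k (c :: v))

/-- sum of the conductances of the children (children of height `k`) -/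
noncomputable def Sc (e : List ℕ → Bool) (k : ℕ) (v : List ℕ) : ℝ :=
  ∑ c ∈ range (deg (e v)), Cc e k (c :: v)

/-- `mixL B α t js y = ∑_{A ⊆ js} ∏_{A} (1 - B j) ∏_{js \ A} B j * t (y + ∑_{A} α j)` -/
def mixL (B α : ℕ → ℝ) (t : ℝ → ℝ) : List ℕ → ℝ → ℝ
  | [], y => t y
  | j :: js, y => B j * mixL B α t js y + (1 - B j) * mixL B α t js (y + α j)

/-- weight of child `i` of `v` (children of height `k`) -/
noncomputable def wt (e : List ℕ → Bool) (k : ℕ) (v : List ℕ) (i : ℕ) : ℝ :=
  Cc e k (i :: v) / Sc e k v

/-- the kappa parameter of child `j` of `v`, if `v` has parameter `κ` and the children height `k` -/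
noncomputable def kch (e : List ℕ → Bool) (k : ℕ) (v : List ℕ) (κ : ℝ) (j : ℕ) : ℝ :=
  1 - (1 - κ / (1 + Sc e k v)) * wt e k v j

/-- the generating function (in the variable `s = 1 - x`) -/
noncomputable def Gr (e : List ℕ → Bool) : ℕ → List ℕ → ℝ → ℝ → ℝ
  | 0, _, _, _ => 1
  | k + 1, v, κ, s =>
    ∑ i ∈ range (deg (e v)), wt e k v i *
      mixL (fun j => Gr e k (j :: v) (kch e k v κ j) (κ / (1 + Sc e k v) * s / kch e k v κ j))
        (fun j => (1 - κ / (1 + Sc e k v)) * wt e k v j)
        (fun y => (1 - y) * Gr e k (i :: v) (kch e k v κ i) (y / kch e k v κ i))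
        ((List.range (deg (e v))).erase i) (κ / (1 + Sc e k v) * s)

/-- the law of one coordinate of the environment -/
noncomputable def bern (p : ℝ) : Measure Bool :=
  ENNReal.ofReal p • Measure.dirac true + ENNReal.ofReal (1 - p) • Measure.dirac false

lemma bern_prob {p : ℝ} (h0 : 0 ≤ p) (h1 : p ≤ 1) : IsProbabilityMeasure (bern p) := by
  constructor
  simp [bern]
  rw [← ENNReal.ofReal_add h0 (by linarith)]
  norm_num

lemma Cc_succ (e : List ℕ → Bool) (k : ℕ) (v : List ℕ) :
    Cc e (k + 1) v = Sc e k v / (1 + Sc e k v) := rfl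

lemma Gr_succ (e : List ℕ → Bool) (k : ℕ) (v : List ℕ) (κ s : ℝ) :
    Gr e (k + 1) v κ s =
    ∑ i ∈ range (deg (e v)), wt e k v i *
      mixL (fun j => Gr e k (j :: v) (kch e k v κ j) (κ / (1 + Sc e k v) * s / kch e k v κ j))
        (fun j => (1 - κ / (1 + Sc e k v)) * wt e k v j)
        (fun y => (1 - y) * Gr e k (i :: v) (kch e k v κ i) (y / kch e k v κ i))
        ((List.range (deg (e v))).erase i) (κ / (1 + Sc e k v) * s) := by
  rw [Gr]

end Pool.Agent.Work.MP_9e3593_pr
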