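import Mathlib
import Pool.Agent.Work.MP_9e3593_pr.Defs

/-! Analytic part, file 1: elementary bounds for the conductances, and for `mixL`. -/

set_option autoImplicit false

namespace Pool.Agent.Work.MP_9e3593_pr

open Finset MeasureTheory ProbabilityTheory

lemma deg_true : deg true = 2 := by simp [deg]
lemma deg_false : deg false = 5 := by simp [deg]
lemma deg_ge (b : Bool) : 2 ≤ deg b := by cases b <;> simp [deg]
lemma deg_le (b : Bool) : deg b ≤ 5 := by cases b <;> simp [deg]

lemma Cc_bounds (e : List ℕ → Bool) : ∀ (k : ℕ) (v : List ℕ), 1 / 2 ≤ Cc e k v ∧ Cc e k v ≤ 1 := by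
  intro k
  induction k with
  | zero => intro v; simp only [Cc]; norm_num
  | succ k ih =>
    intro v
    have h1 : (1 : ℝ) ≤ ∑ c ∈ range (deg (e v)), Cc e k (c :: v) := by
      calc (1 : ℝ) = ∑ c ∈ range 2, (1 / 2 : ℝ) := by simp
        _ ≤ ∑ c ∈ range (deg (e v)), (1 / 2 : ℝ) :=
          sum_le_sum_of_subset_of_nonneg (range_mono (deg_ge _)) (fun _ _ _ => by norm_num)
        _ ≤ _ := sum_le_sum (fun c _ => (ih (c :: v)).1)
    simp only [Cc]
    constructor
    · rw [le_div_iff₀ (by linarith)]; linarith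
    · rw [div_le_one (by linarith)]; linarith

lemma Cc_ge (e : List ℕ → Bool) (k : ℕ) (v : List ℕ) : 1 / 2 ≤ Cc e k v := (Cc_bounds e k v).1
lemma Cc_le (e : List ℕ → Bool) (k : ℕ) (v : List ℕ) : Cc e k v ≤ 1 := (Cc_bounds e k v).2
lemma Cc_pos (e : List ℕ → Bool) (k : ℕ) (v : List ℕ) : 0 < Cc e k v := by
  linarith [Cc_ge e k v]

lemma Sc_ge_deg (e : List ℕ → Bool) (k : ℕ) (v : List ℕ) : (deg (e v) : ℝ) / 2 ≤ Sc e k v := by
  calc (deg (e v) : ℝ) / 2 = ∑ c ∈ range (deg (e v)), (1 / 2 : ℝ) := by simp; ring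
    _ ≤ _ := sum_le_sum (fun c _ => Cc_ge e k (c :: v))

lemma Sc_le_deg (e : List ℕ → Bool) (k : ℕ) (v : List ℕ) : Sc e k v ≤ (deg (e v) : ℝ) := by
  calc Sc e k v ≤ ∑ c ∈ range (deg (e v)), (1 : ℝ) := sum_le_sum (fun c _ => Cc_le e k (c :: v))
    _ = (deg (e v) : ℝ) := by simp

lemma Sc_ge_one (e : List ℕ → Bool) (k : ℕ) (v : List ℕ) : 1 ≤ Sc e k v := by
  have h := Sc_ge_deg e k v
  have h2 : (2 : ℝ) ≤ (deg (e v) : ℝ) := by exact_mod_cast deg_ge (e v)
  linarith

lemma Sc_pos (e : List ℕ → Bool) (k : ℕ) (v : List ℕ) : 0 < Sc e k v := by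
  linarith [Sc_ge_one e k v]

lemma Sc_le_five (e : List ℕ → Bool) (k : ℕ) (v : List ℕ) : Sc e k v ≤ 5 := by
  have h := Sc_le_deg e k v
  have h2 : (deg (e v) : ℝ) ≤ 5 := by exact_mod_cast deg_le (e v)
  linarith

lemma wt_pos (e : List ℕ → Bool) (k : ℕ) (v : List ℕ) (i : ℕ) : 0 < wt e k v i :=
  div_pos (Cc_pos _ _ _) (Sc_pos _ _ _)

lemma wt_sum (e : List ℕ → Bool) (k : ℕ) (v : List ℕ) :
    ∑ i ∈ range (deg (e v)), wt e k v i = 1 := by
  unfold wt
  rw [← sum_div]
  exact div_self (Sc_pos e k v).ne'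

/-- admissible values of the parameter `κ` -/
def Adm (e : List ℕ → Bool) (k : ℕ) (v : List ℕ) (κ : ℝ) : Prop :=
  κ ≤ 1 ∧ 1 ≤ κ * (1 + Cc e k v)

lemma Adm.pos {e : List ℕ → Bool} {k : ℕ} {v : List ℕ} {κ : ℝ} (h : Adm e k v κ) : 1 / 2 ≤ κ := by
  obtain ⟨h1, h2⟩ := h
  have h3 := Cc_bounds e k v
  nlinarith

lemma Adm_one (e : List ℕ → Bool) (k : ℕ) (v : List ℕ) : Adm e k v 1 := by
  constructor
  · exact le_rfl
  · linarith [Cc_pos e k v]

lemma q_bounds {e : List ℕ → Bool} {k : ℕ} {v : List ℕ} {κ : ℝ} (h : Adm e (k + 1) v κ) :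
    0 < κ / (1 + Sc e k v) ∧ κ / (1 + Sc e k v) ≤ 1 / (1 + Sc e k v) ∧
    1 / (1 + 2 * Sc e k v) ≤ κ / (1 + Sc e k v) ∧ κ / (1 + Sc e k v) ≤ 1 / 2 := by
  have h1 := Sc_ge_one e k v
  have h0 := h.pos
  obtain ⟨h2, h3⟩ := h
  have h4 : Cc e (k + 1) v = Sc e k v / (1 + Sc e k v) := Cc_succ e k v
  set S := Sc e k v with hS
  refine ⟨by positivity, ?_, ?_, ?_⟩
  · gcongr
  · rw [h4] at h3
    have h5 : 1 + S / (1 + S) = (1 + 2 * S) / (1 + S) := by field_simp; ring
    rw [h5] at h3
    rw [div_le_div_iff₀ (by linarith) (by linarith)]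
    rw [← mul_div_assoc, le_div_iff₀ (by linarith)] at h3
    linarith
  · rw [div_le_iff₀ (by linarith)]
    linarith

lemma kch_adm {e : List ℕ → Bool} {k : ℕ} {v : List ℕ} {κ : ℝ} (h : Adm e (k + 1) v κ) {j : ℕ}
    (hj : j ∈ range (deg (e v))) : Adm e k (j :: v) (kch e k v κ j) := by
  obtain ⟨hq0, hq1, hq2, hq3⟩ := q_bounds h
  have hS := Sc_ge_one e k v
  have hC := Cc_bounds e k (j :: v)
  have hw := wt_pos e k v j
  unfold kch
  constructor
  · have : 0 ≤ (1 - κ / (1 + Sc e k v)) * wt e k v j := by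
      apply mul_nonneg <;> linarith
    linarith
  · -- need (1 - q) (1 + C) ≤ S, i.e. C ≤ S - 1/2
    have hCS : Cc e k (j :: v) + 1 / 2 ≤ Sc e k v := by
      -- another child exists
      have hd := deg_ge (e v)
      have : ∃ i ∈ range (deg (e v)), i ≠ j := by
        by_cases hj0 : j = 0
        · exact ⟨1, by simp; omega, by omega⟩
        · exact ⟨0, by simp; omega, by omega⟩
      obtain ⟨i, hi, hij⟩ := this
      have h1 : Cc e k (i :: v) + Cc e k (j :: v) ≤ Sc e k v := by
        unfold Sc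
        rw [← sum_pair hij (f := fun c => Cc e k (c :: v))]
        apply sum_le_sum_of_subset_of_nonneg
        · intro x hx
          simp only [Finset.mem_insert, Finset.mem_singleton] at hx
          rcases hx with rfl | rfl <;> assumption
        · intro c _ _
          exact (Cc_pos e k _).le
      linarith [Cc_ge e k (i :: v)]
    unfold wt
    set C := Cc e k (j :: v)
    set S := Sc e k v
    set q := κ / (1 + S)
    have h3 : (1 - q) * (1 + C) ≤ S := by
      have h4 : 1 - q ≤ 2 * S / (1 + 2 * S) := by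
        have : 1 - 1 / (1 + 2 * S) = 2 * S / (1 + 2 * S) := by field_simp; ring
        linarith
      calc (1 - q) * (1 + C) ≤ 2 * S / (1 + 2 * S) * (1 + C) := by
            apply mul_le_mul_of_nonneg_right h4; linarith
        _ ≤ S := by
            rw [div_mul_eq_mul_div, div_le_iff₀ (by linarith)]
            nlinarith
    have h5 : (1 - (1 - q) * (C / S)) * (1 + C) = 1 + C - (1 - q) * (1 + C) * C / S := by ring
    rw [h5]
    have h6 : (1 - q) * (1 + C) * C / S ≤ C := by
      rw [div_le_iff₀ (by linarith)]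
      nlinarith
    linarith

lemma kch_pos {e : List ℕ → Bool} {k : ℕ} {v : List ℕ} {κ : ℝ} (h : Adm e (k + 1) v κ) {j : ℕ}
    (hj : j ∈ range (deg (e v))) : 1 / 2 ≤ kch e k v κ j := (kch_adm h hj).pos

/-! ### `mixL` -/

lemma mixL_le_mixL {B α : ℕ → ℝ} {t t' : ℝ → ℝ} {Y : ℝ} : ∀ (js : List ℕ) (y : ℝ),
    (∀ j ∈ js, 0 ≤ B j ∧ B j ≤ 1) → (∀ j ∈ js, 0 ≤ α j) →
    (∀ z, y ≤ z → z ≤ Y → t z ≤ t' z) → y + (js.map α).sum ≤ Y →
    mixL B α t js y ≤ mixL B α t' js y := by
  intro js
  induction js with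
  | nil =>
    intro y _ _ ht hY
    simp only [mixL]
    apply ht y le_rfl
    simpa using hY
  | cons j js ih =>
    intro y hB hα ht hY
    simp only [List.map_cons, List.sum_cons] at hY
    have hαj := hα j (by simp)
    have hBj := hB j (by simp)
    have hsum : 0 ≤ (js.map α).sum := by
      apply List.sum_nonneg
      intro x hx
      simp only [List.mem_map] at hx
      obtain ⟨a, ha, rfl⟩ := hx
      exact hα a (by simp [ha])
    simp only [mixL]
    apply add_le_add
    · apply mul_le_mul_of_nonneg_left _ hBj.1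
      apply ih y (fun a ha => hB a (by simp [ha])) (fun a ha => hα a (by simp [ha])) ht
      linarith
    · apply mul_le_mul_of_nonneg_left _ (by linarith [hBj.2])
      apply ih (y + α j) (fun a ha => hB a (by simp [ha])) (fun a ha => hα a (by simp [ha]))
      · intro z hz1 hz2
        exact ht z (by linarith) hz2
      · linarith

lemma mixL_const (B α : ℕ → ℝ) (c : ℝ) : ∀ (js : List ℕ) (y : ℝ),
    mixL B α (fun _ => c) js y = c := by
  intro js
  induction js with
  | nil => intro y; simp [mixL]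
  | cons j js ih => intro y; simp only [mixL, ih]; ring

lemma mixL_le_const {B α : ℕ → ℝ} {t : ℝ → ℝ} {Y c : ℝ} (js : List ℕ) (y : ℝ)
    (hB : ∀ j ∈ js, 0 ≤ B j ∧ B j ≤ 1) (hα : ∀ j ∈ js, 0 ≤ α j)
    (ht : ∀ z, y ≤ z → z ≤ Y → t z ≤ c) (hY : y + (js.map α).sum ≤ Y) :
    mixL B α t js y ≤ c :=
  (mixL_le_mixL js y hB hα ht hY).trans_eq (mixL_const B α c js y)

lemma mixL_ge_const {B α : ℕ → ℝ} {t : ℝ → ℝ} {Y c : ℝ} (js : List ℕ) (y : ℝ)
    (hB : ∀ j ∈ js, 0 ≤ B j ∧ B j ≤ 1) (hα : ∀ j ∈ js, 0 ≤ α j)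
    (ht : ∀ z, y ≤ z → z ≤ Y → c ≤ t z) (hY : y + (js.map α).sum ≤ Y) :
    c ≤ mixL B α t js y :=
  (mixL_const B α c js y).symm.trans_le (mixL_le_mixL js y hB hα ht hY)

lemma mixL_exp (B α : ℕ → ℝ) (c : ℝ) : ∀ (js : List ℕ) (y : ℝ),
    mixL B α (fun y => Real.exp (-(y * c))) js y =
      Real.exp (-(y * c)) * (js.map (fun j => B j + (1 - B j) * Real.exp (-(α j * c)))).prod := by
  intro js
  induction js with
  | nil => intro y; simp [mixL]
  | cons j js ih =>
    intro y
    simp only [mixL, ih, List.map_cons, List.prod_cons]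
    have : Real.exp (-((y + α j) * c)) = Real.exp (-(y * c)) * Real.exp (-(α j * c)) := by
      rw [← Real.exp_add]; congr 1; ring
    rw [this]; ring

lemma mixL_sum {ι : Type} (s : Finset ι) (B α : ℕ → ℝ) (p : ι → ℝ) (t : ι → ℝ → ℝ) :
    ∀ (js : List ℕ) (y : ℝ),
    mixL B α (fun y => ∑ l ∈ s, p l * t l y) js y = ∑ l ∈ s, p l * mixL B α (t l) js y := by
  intro js
  induction js with
  | nil => intro y; simp [mixL]
  | cons j js ih =>
    intro y
    simp only [mixL, ih, mul_sum, ← sum_add_distrib]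
    apply sum_congr rfl
    intro l _
    ring

/-- the product appearing in `mixL_exp` is monotone in `B` and in the exponential -/
lemma prod_le_prod_aux {B b ε ε' : ℕ → ℝ} : ∀ (js : List ℕ),
    (∀ j ∈ js, 0 ≤ B j ∧ B j ≤ b j ∧ b j ≤ 1) → (∀ j ∈ js, 0 ≤ ε j ∧ ε j ≤ ε' j ∧ ε' j ≤ 1) →
    0 ≤ (js.map (fun j => B j + (1 - B j) * ε j)).prod ∧
    (js.map (fun j => B j + (1 - B j) * ε j)).prod ≤
      (js.map (fun j => b j + (1 - b j) * ε' j)).prod := by
  intro js
  induction js with
  | nil => intro _ _; simp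
  | cons j js ih =>
    intro hB hε
    have h1 := ih (fun a ha => hB a (by simp [ha])) (fun a ha => hε a (by simp [ha]))
    have hBj := hB j (by simp)
    have hεj := hε j (by simp)
    simp only [List.map_cons, List.prod_cons]
    have h2 : 0 ≤ B j + (1 - B j) * ε j := by
      have : 0 ≤ (1 - B j) * ε j := mul_nonneg (by linarith) hεj.1
      linarith
    have h3 : B j + (1 - B j) * ε j ≤ b j + (1 - b j) * ε' j := by
      nlinarith [mul_nonneg (sub_nonneg.2 hBj.2.1) (sub_nonneg.2 hεj.2.2),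
        mul_nonneg (show 0 ≤ 1 - B j by linarith) (sub_nonneg.2 hεj.2.1)]
    exact ⟨mul_nonneg h2 h1.1, mul_le_mul h3 h1.2 h1.1 (by linarith)⟩

/-- union type bound for the product -/
lemma prod_le_prod_add_sum {b : ℕ → ℝ} {ε : ℝ} (hε0 : 0 ≤ ε) (hε1 : ε ≤ 1) : ∀ (js : List ℕ),
    (∀ j ∈ js, 0 ≤ b j ∧ b j ≤ 1) →
    (js.map (fun j => b j + (1 - b j) * ε)).prod ≤ (js.map b).prod + js.length * ε ∧
    0 ≤ (js.map (fun j => b j + (1 - b j) * ε)).prod ∧ 0 ≤ (js.map b).prod ∧ (js.map b).prod ≤ 1 ∧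
    (js.map (fun j => b j + (1 - b j) * ε)).prod ≤ 1 := by
  intro js
  induction js with
  | nil => intro _; simp
  | cons j js ih =>
    intro hb
    obtain ⟨h1, h2, h3, h4, h5⟩ := ih (fun a ha => hb a (by simp [ha]))
    obtain ⟨hb0, hb1⟩ := hb j (by simp)
    simp only [List.map_cons, List.prod_cons, List.length_cons]
    set P := (js.map (fun j => b j + (1 - b j) * ε)).prod
    set Q := (js.map b).prod
    have h6 : 0 ≤ (1 - b j) * ε := mul_nonneg (by linarith) hε0
    have h7 : (1 - b j) * ε ≤ 1 - b j := mul_le_of_le_one_right (by linarith) hε1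
    have h8 : (1 - b j) * ε ≤ ε := mul_le_of_le_one_left hε0 (by linarith)
    refine ⟨?_, by positivity, by positivity, mul_le_one₀ hb1 h3 h4, ?_⟩
    · calc (b j + (1 - b j) * ε) * P = b j * P + (1 - b j) * ε * P := by ring
        _ ≤ b j * (Q + js.length * ε) + ε := by
            apply add_le_add (mul_le_mul_of_nonneg_left h1 hb0)
            calc (1 - b j) * ε * P ≤ (1 - b j) * ε * 1 := mul_le_mul_of_nonneg_left h5 h6
              _ ≤ ε := by linarith
        _ ≤ b j * Q + js.length * ε + ε := by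
            have : b j * (js.length * ε) ≤ 1 * (js.length * ε) :=
              mul_le_mul_of_nonneg_right hb1 (by positivity)
            linarith
        _ = _ := by push_cast; ring
    · apply mul_le_one₀ (by linarith) h2 h5

/-- the other children -/
def oth (n i : ℕ) : List ℕ := (List.range n).erase i

lemma mem_oth {n i j : ℕ} (h : j ∈ oth n i) : j ∈ range n := by
  have := List.mem_of_mem_erase h
  simpa using this

lemma oth_sum {n i : ℕ} (hi : i ∈ range n) (f : ℕ → ℝ) :
    f i + ((oth n i).map f).sum = ∑ j ∈ range n, f j := by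
  have h1 : i ∈ List.range n := by simpa using hi
  have h2 := (List.perm_cons_erase h1).map f
  have h3 := h2.sum_eq
  rw [List.map_cons, List.sum_cons] at h3
  have h4 : ∑ j ∈ range n, f j = ((List.range n).map f).sum := by
    rw [← List.toFinset_range, List.sum_toFinset f List.nodup_range]
  rw [h4, h3]
  rfl

lemma oth_prod {n i : ℕ} (hi : i ∈ range n) (f : ℕ → ℝ) :
    f i * ((oth n i).map f).prod = ∏ j ∈ range n, f j := by
  have h1 : i ∈ List.range n := by simpa using hi
  have h2 := (List.perm_cons_erase h1).map f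
  have h3 := h2.prod_eq
  rw [List.map_cons, List.prod_cons] at h3
  have h4 : ∏ j ∈ range n, f j = ((List.range n).map f).prod := by
    rw [← List.toFinset_range, List.prod_toFinset f List.nodup_range]
  rw [h4, h3]
  rfl

lemma oth_length {n i : ℕ} (hi : i ∈ range n) : (oth n i).length + 1 = n := by
  have h1 : i ∈ List.range n := by simpa using hi
  have h2 := (List.perm_cons_erase h1).length_eq
  simp only [List.length_range, List.length_cons] at h2
  exact h2.symm

/-! ### bounds for `Gr` -/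

/-- the total of the increments: the argument never exceeds `κ_i` -/
lemma range_y {e : List ℕ → Bool} {k : ℕ} {v : List ℕ} {κ s : ℝ} (h : Adm e (k + 1) v κ)
    (hs : s ∈ Set.Icc (0 : ℝ) 1) {i : ℕ} (hi : i ∈ range (deg (e v))) :
    κ / (1 + Sc e k v) * s + ((oth (deg (e v)) i).map
      (fun j => (1 - κ / (1 + Sc e k v)) * wt e k v j)).sum ≤ kch e k v κ i := by
  obtain ⟨hq0, hq1, hq2, hq3⟩ := q_bounds h
  have h1 := oth_sum hi (fun j => (1 - κ / (1 + Sc e k v)) * wt e k v j)
  rw [← mul_sum, wt_sum, mul_one] at h1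
  unfold kch
  have h2 : κ / (1 + Sc e k v) * s ≤ κ / (1 + Sc e k v) :=
    mul_le_of_le_one_right hq0.le hs.2
  linarith

lemma Gr_mem (e : List ℕ → Bool) : ∀ (k : ℕ) (v : List ℕ) (κ s : ℝ), Adm e k v κ →
    s ∈ Set.Icc (0 : ℝ) 1 → Gr e k v κ s ∈ Set.Icc (0 : ℝ) 1 := by
  intro k
  induction k with
  | zero => intro v κ s _ _; simp [Gr]
  | succ k ih =>
    intro v κ s hκ hs
    obtain ⟨hq0, hq1, hq2, hq3⟩ := q_bounds hκ
    rw [Gr_succ]
    have hchild : ∀ j ∈ range (deg (e v)), ∀ y, 0 ≤ y → y ≤ kch e k v κ j →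
        Gr e k (j :: v) (kch e k v κ j) (y / kch e k v κ j) ∈ Set.Icc (0 : ℝ) 1 := by
      intro j hj y hy0 hy1
      have hk := kch_pos hκ hj
      apply ih _ _ _ (kch_adm hκ hj)
      exact ⟨by positivity, by rw [div_le_one (by linarith)]; exact hy1⟩
    have hα : ∀ j, 0 ≤ (1 - κ / (1 + Sc e k v)) * wt e k v j := by
      intro j
      apply mul_nonneg (by linarith) (wt_pos e k v j).le
    have hqs : κ / (1 + Sc e k v) * s ≤ κ / (1 + Sc e k v) :=
      mul_le_of_le_one_right hq0.le hs.2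
    have hqs0 : 0 ≤ κ / (1 + Sc e k v) * s := mul_nonneg hq0.le hs.1
    have hB : ∀ j ∈ range (deg (e v)), 0 ≤ Gr e k (j :: v) (kch e k v κ j)
        (κ / (1 + Sc e k v) * s / kch e k v κ j) ∧ Gr e k (j :: v) (kch e k v κ j)
        (κ / (1 + Sc e k v) * s / kch e k v κ j) ≤ 1 := by
      intro j hj
      have hk := kch_pos hκ hj
      exact hchild j hj _ hqs0 (by linarith)
    have hmix : ∀ i ∈ range (deg (e v)), 0 ≤ mixL
        (fun j => Gr e k (j :: v) (kch e k v κ j) (κ / (1 + Sc e k v) * s / kch e k v κ j))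
        (fun j => (1 - κ / (1 + Sc e k v)) * wt e k v j)
        (fun y => (1 - y) * Gr e k (i :: v) (kch e k v κ i) (y / kch e k v κ i))
        ((List.range (deg (e v))).erase i) (κ / (1 + Sc e k v) * s) ∧ mixL
        (fun j => Gr e k (j :: v) (kch e k v κ j) (κ / (1 + Sc e k v) * s / kch e k v κ j))
        (fun j => (1 - κ / (1 + Sc e k v)) * wt e k v j)
        (fun y => (1 - y) * Gr e k (i :: v) (kch e k v κ i) (y / kch e k v κ i))
        ((List.range (deg (e v))).erase i) (κ / (1 + Sc e k v) * s) ≤ 1 := by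
      intro i hi
      have hki := (kch_adm hκ hi).1
      have hr := range_y hκ hs hi
      constructor
      · apply mixL_ge_const (Y := kch e k v κ i)
        · intro j hj; exact hB j (mem_oth hj)
        · intro j _; exact hα j
        · intro z hz1 hz2
          have := hchild i hi z (by linarith) hz2
          exact mul_nonneg (by linarith) this.1
        · exact hr
      · apply mixL_le_const (Y := kch e k v κ i)
        · intro j hj; exact hB j (mem_oth hj)
        · intro j _; exact hα j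
        · intro z hz1 hz2
          have := hchild i hi z (by linarith) hz2
          exact mul_le_one₀ (by linarith) this.1 this.2
        · exact hr
    constructor
    · apply sum_nonneg
      intro i hi
      exact mul_nonneg (wt_pos e k v i).le (hmix i hi).1
    · calc _ ≤ ∑ i ∈ range (deg (e v)), wt e k v i * 1 := by
            apply sum_le_sum
            intro i hi
            exact mul_le_mul_of_nonneg_left (hmix i hi).2 (wt_pos e k v i).le
        _ = 1 := by simp only [mul_one]; exact wt_sum e k v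

end Pool.Agent.Work.MP_9e3593_pr
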