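import Mathlib
import Pool.Agent.Work.MP_9e3593_pr.An1

/-! Analytic part, file 2: finite mixtures of exponentials and the general recursion step. -/

set_option autoImplicit false

namespace Pool.Agent.Work.MP_9e3593_pr

open Finset MeasureTheory ProbabilityTheory

/-- Laplace transforms of finitely supported probability measures on `[0,∞)`. -/
def IsLap (Φ : ℝ → ℝ) : Prop :=
  ∃ (ι : Type) (_ : Fintype ι) (p θ : ι → ℝ), (∀ i, 0 ≤ p i) ∧ (∀ i, 0 ≤ θ i) ∧
    (∑ i, p i = 1) ∧ ∀ σ, Φ σ = ∑ i, p i * Real.exp (-(σ * θ i))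

lemma IsLap.nonneg {Φ : ℝ → ℝ} (h : IsLap Φ) (σ : ℝ) : 0 ≤ Φ σ := by
  obtain ⟨ι, _, p, θ, hp, hθ, hs, hv⟩ := h
  rw [hv]
  exact sum_nonneg (fun i _ => mul_nonneg (hp i) (Real.exp_pos _).le)

lemma IsLap.anti {Φ : ℝ → ℝ} (h : IsLap Φ) {σ σ' : ℝ} (hσ : σ ≤ σ') : Φ σ' ≤ Φ σ := by
  obtain ⟨ι, _, p, θ, hp, hθ, hs, hv⟩ := h
  rw [hv, hv]
  apply sum_le_sum
  intro i _
  apply mul_le_mul_of_nonneg_left _ (hp i)
  apply Real.exp_le_exp.2
  have := mul_le_mul_of_nonneg_right hσ (hθ i)
  linarith

lemma IsLap.zero {Φ : ℝ → ℝ} (h : IsLap Φ) : Φ 0 = 1 := by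
  obtain ⟨ι, _, p, θ, hp, hθ, hs, hv⟩ := h
  rw [hv]
  simpa using hs

lemma IsLap.le_one {Φ : ℝ → ℝ} (h : IsLap Φ) {σ : ℝ} (hσ : 0 ≤ σ) : Φ σ ≤ 1 := by
  rw [← h.zero]
  exact h.anti hσ

lemma isLap_exp {θ : ℝ} (hθ : 0 ≤ θ) : IsLap (fun σ => Real.exp (-(σ * θ))) :=
  ⟨Unit, inferInstance, fun _ => 1, fun _ => θ, fun _ => zero_le_one, fun _ => hθ, by simp,
    fun σ => by simp⟩

lemma isLap_one : IsLap (fun _ => 1) := by
  have := isLap_exp (θ := 0) le_rfl
  simpa using this

lemma IsLap.mix {ι : Type} [Fintype ι] {p : ι → ℝ} {Φ : ι → ℝ → ℝ} (hp : ∀ i, 0 ≤ p i)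
    (hs : ∑ i, p i = 1) (h : ∀ i, IsLap (Φ i)) : IsLap (fun σ => ∑ i, p i * Φ i σ) := by
  unfold IsLap at h
  choose κ inst r θ hr hθ hrs hv using h
  refine ⟨Σ i, κ i, inferInstance, fun x => p x.1 * r x.1 x.2, fun x => θ x.1 x.2, ?_, ?_, ?_, ?_⟩
  · intro x; exact mul_nonneg (hp _) (hr _ _)
  · intro x; exact hθ _ _
  · rw [Fintype.sum_sigma]
    simp only [← mul_sum, hrs, mul_one]
    exact hs
  · intro σ
    rw [Fintype.sum_sigma]
    apply sum_congr rfl
    intro i _
    simp only [hv i σ, mul_sum, mul_assoc]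

lemma IsLap.mixS {s : Finset ℕ} {p : ℕ → ℝ} {Φ : ℕ → ℝ → ℝ} (hp : ∀ i ∈ s, 0 ≤ p i)
    (hs : ∑ i ∈ s, p i = 1) (h : ∀ i ∈ s, IsLap (Φ i)) :
    IsLap (fun σ => ∑ i ∈ s, p i * Φ i σ) := by
  have h1 : IsLap (fun σ => ∑ i : s, p i * Φ i σ) := by
    apply IsLap.mix (Φ := fun (i : s) => Φ i) (fun i => hp i i.2)
    · rw [← hs]; exact Finset.sum_coe_sort s p
    · intro i; exact h i i.2
  have h2 : (fun σ => ∑ i ∈ s, p i * Φ i σ) = (fun σ => ∑ i : s, p i * Φ i σ) := by
    funext σ
    exact (Finset.sum_coe_sort s (fun i => p i * Φ i σ)).symm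
  rw [h2]
  exact h1

lemma IsLap.mul {Φ Ψ : ℝ → ℝ} (h : IsLap Φ) (h' : IsLap Ψ) : IsLap (fun σ => Φ σ * Ψ σ) := by
  obtain ⟨ι, _, p, θ, hp, hθ, hs, hv⟩ := h
  obtain ⟨κ, _, r, η, hr, hη, hs', hv'⟩ := h'
  refine ⟨ι × κ, inferInstance, fun x => p x.1 * r x.2, fun x => θ x.1 + η x.2, ?_, ?_, ?_, ?_⟩
  · intro x; exact mul_nonneg (hp _) (hr _)
  · intro x; exact add_nonneg (hθ _) (hη _)
  · rw [Fintype.sum_prod_type]
    simp only [← mul_sum, hs', mul_one]
    exact hs
  · intro σ
    beta_reduce
    rw [Fintype.sum_prod_type, hv, hv', sum_mul_sum]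
    apply sum_congr rfl
    intro i _
    apply sum_congr rfl
    intro j _
    have : Real.exp (-(σ * (θ i + η j))) = Real.exp (-(σ * θ i)) * Real.exp (-(σ * η j)) := by
      rw [← Real.exp_add]; congr 1; ring
    rw [this]; ring

lemma IsLap.comp_mul {Φ : ℝ → ℝ} (h : IsLap Φ) {w : ℝ} (hw : 0 ≤ w) :
    IsLap (fun σ => Φ (w * σ)) := by
  obtain ⟨ι, _, p, θ, hp, hθ, hs, hv⟩ := h
  refine ⟨ι, inferInstance, p, fun i => w * θ i, hp, fun i => mul_nonneg hw (hθ i), hs, ?_⟩
  intro σ
  beta_reduce
  rw [hv]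
  apply sum_congr rfl
  intro i _
  congr 2
  ring

lemma IsLap.affine {Φ : ℝ → ℝ} (h : IsLap Φ) {ε : ℝ} (h0 : 0 ≤ ε) (h1 : ε ≤ 1) :
    IsLap (fun σ => Φ σ + (1 - Φ σ) * ε) := by
  have h2 : IsLap (fun σ => ∑ b : Bool, (if b then ε else 1 - ε) * (if b then 1 else Φ σ)) := by
    apply IsLap.mix (p := fun b : Bool => if b then ε else 1 - ε)
      (Φ := fun (b : Bool) (σ : ℝ) => if b then 1 else Φ σ)
    · intro b; cases b <;> simp <;> linarith
    · simp
    · intro b
      cases b
      · simpa using h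
      · simpa using isLap_one
  have h3 : (fun σ => ∑ b : Bool, (if b then ε else 1 - ε) * (if b then 1 else Φ σ)) =
      (fun σ => Φ σ + (1 - Φ σ) * ε) := by
    funext σ
    simp
    ring
  rw [h3] at h2
  exact h2

lemma IsLap.listProd {Ψ : ℕ → ℝ → ℝ} : ∀ (js : List ℕ), (∀ j ∈ js, IsLap (Ψ j)) →
    IsLap (fun σ => (js.map (fun j => Ψ j σ)).prod) := by
  intro js
  induction js with
  | nil => intro _; simpa using isLap_one
  | cons j js ih =>
    intro h
    have h1 := ih (fun a ha => h a (by simp [ha]))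
    have h2 := h j (by simp)
    simpa using h2.mul h1

lemma IsLap.holder {Φ : ℝ → ℝ} (h : IsLap Φ) {w : ℝ} (hw : 0 ≤ w) (hw1 : w ≤ 1) (σ : ℝ) :
    Φ (w * σ) ≤ (Φ σ) ^ w := by
  obtain ⟨ι, _, p, θ, hp, hθ, hs, hv⟩ := h
  rw [hv, hv]
  have h1 := (Real.concaveOn_rpow hw hw1).le_map_sum (t := Finset.univ) (w := p)
    (p := fun i => Real.exp (-(σ * θ i))) (fun i _ => hp i) hs
    (fun i _ => Set.mem_Ici.2 (Real.exp_pos _).le)
  simp only [smul_eq_mul] at h1
  refine le_trans (le_of_eq ?_) h1
  apply sum_congr rfl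
  intro i _
  rw [← Real.exp_mul]
  congr 2
  ring

lemma IsLap.prod_le {n : ℕ} {Φ : ℕ → ℝ → ℝ} (h : ∀ i, IsLap (Φ i)) {w : ℕ → ℝ}
    (hw : ∀ i ∈ range n, 0 ≤ w i) (hs : ∑ i ∈ range n, w i = 1) {σ : ℝ} :
    ∏ i ∈ range n, Φ i (w i * σ) ≤ ∑ i ∈ range n, w i * Φ i σ := by
  have hw1 : ∀ i ∈ range n, w i ≤ 1 := by
    intro i hi
    rw [← hs]
    exact single_le_sum hw hi
  calc ∏ i ∈ range n, Φ i (w i * σ) ≤ ∏ i ∈ range n, (Φ i σ) ^ (w i) := by
        apply prod_le_prod
        · intro i _; exact (h i).nonneg _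
        · intro i hi; exact (h i).holder (hw i hi) (hw1 i hi) σ
    _ ≤ _ := Real.geom_mean_le_arith_mean_weighted _ _ _ hw hs (fun i _ => (h i).nonneg _)

/-- The general recursion step. -/
theorem step_general (e : List ℕ → Bool) (k : ℕ) (v : List ℕ) (Φ : ℕ → ℝ → ℝ)
    (hΦ : ∀ j, IsLap (Φ j)) (c0 : ℝ) (hc0 : 0 ≤ c0)
    (hc : ∀ i ∈ range (deg (e v)), ∀ j ∈ range (deg (e v)),
      c0 ≤ Cc e k (i :: v) * Cc e k (j :: v) / (1 + Sc e k v)) :
    ∃ Ψ : ℝ → ℝ, IsLap Ψ ∧
      (∀ κ, Adm e (k + 1) v κ →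
        (∀ j ∈ range (deg (e v)), ∀ s ∈ Set.Icc (0 : ℝ) 1,
          Gr e k (j :: v) (kch e k v κ j) s ≤ Φ j (kch e k v κ j * Cc e k (j :: v) * s)) →
        ∀ s ∈ Set.Icc (0 : ℝ) 1, Gr e (k + 1) v κ s ≤ Ψ (κ * Cc e (k + 1) v * s)) ∧
      ∀ σ, 0 ≤ σ → Ψ σ ≤ Real.exp (-(σ / Sc e k v)) *
        (∏ j ∈ range (deg (e v)), Φ j (wt e k v j * σ) +
          (deg (e v) - 1) * ∑ i ∈ range (deg (e v)), wt e k v i * Φ i c0) := by
  have hΦ' := hΦ
  unfold IsLap at hΦ'
  choose ι inst p θ hp hθ hsum hval using hΦ'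
  set n := deg (e v) with hn
  have hSpos := Sc_pos e k v
  set S := Sc e k v with hS
  set w := wt e k v with hw
  have hwpos : ∀ i, 0 < w i := wt_pos e k v
  have hwsum : ∑ i ∈ range n, w i = 1 := wt_sum e k v
  let ε : (i : ℕ) → ι i → ℝ := fun i l => Real.exp (-(c0 * θ i l))
  have hε0 : ∀ i l, 0 ≤ ε i l := fun i l => (Real.exp_pos _).le
  have hε1 : ∀ i l, ε i l ≤ 1 := by
    intro i l
    apply Real.exp_le_one_iff.2
    have := mul_nonneg hc0 (hθ i l)
    linarith
  let Ψ : ℝ → ℝ := fun σ => ∑ i ∈ range n, w i * ∑ l, p i l *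
    (Real.exp (-(σ * (1 / S + w i * θ i l))) *
      ((oth n i).map (fun j => Φ j (w j * σ) + (1 - Φ j (w j * σ)) * ε i l)).prod)
  refine ⟨Ψ, ?_, ?_, ?_⟩
  · apply IsLap.mixS (Φ := fun i σ => ∑ l, p i l *
      (Real.exp (-(σ * (1 / S + w i * θ i l))) *
      ((oth n i).map (fun j => Φ j (w j * σ) + (1 - Φ j (w j * σ)) * ε i l)).prod))
      (fun i _ => (hwpos i).le) hwsum
    intro i _
    apply IsLap.mix (hp i) (hsum i)
    intro l
    apply IsLap.mul
    · apply isLap_exp
      have := mul_nonneg (hwpos i).le (hθ i l)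
      have := hSpos
      positivity
    · apply IsLap.listProd (Ψ := fun j σ => Φ j (w j * σ) + (1 - Φ j (w j * σ)) * ε i l)
      intro j _
      exact ((hΦ j).comp_mul (hwpos j).le).affine (hε0 i l) (hε1 i l)
  · intro κ hκ hle s hs
    obtain ⟨hq0, hq1, hq2, hq3⟩ := q_bounds hκ
    rw [← hS] at hq0 hq1 hq2 hq3
    set q := κ / (1 + S) with hq
    have hσ : κ * Cc e (k + 1) v * s = q * s * S := by
      rw [Cc_succ, hq, ← hS]; field_simp
    rw [hσ, Gr_succ]
    have hqs0 : 0 ≤ q * s := mul_nonneg hq0.le hs.1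
    have hqs1 : q * s ≤ q := mul_le_of_le_one_right hq0.le hs.2
    have hα : ∀ j, 0 ≤ (1 - q) * w j := by
      intro j
      apply mul_nonneg (by linarith) (hwpos j).le
    have hCw : ∀ j, Cc e k (j :: v) = w j * S := by
      intro j
      rw [hw]; unfold wt; rw [← hS]; field_simp
    have hBj : ∀ j ∈ range n, 0 ≤ Gr e k (j :: v) (kch e k v κ j) (q * s / kch e k v κ j) ∧
        Gr e k (j :: v) (kch e k v κ j) (q * s / kch e k v κ j) ≤ Φ j (w j * (q * s * S)) := by
      intro j hj
      have hk := kch_pos hκ hj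
      have hk0 : kch e k v κ j ≠ 0 := by linarith
      have hmem : q * s / kch e k v κ j ∈ Set.Icc (0 : ℝ) 1 :=
        ⟨by positivity, by rw [div_le_one (by linarith)]; linarith⟩
      refine ⟨(Gr_mem e k _ _ _ (kch_adm hκ hj) hmem).1, ?_⟩
      refine (hle j hj _ hmem).trans (le_of_eq ?_)
      congr 1
      rw [hCw]
      field_simp
    apply sum_le_sum
    intro i hi
    apply mul_le_mul_of_nonneg_left _ (hwpos i).le
    have hki := (kch_adm hκ hi).1
    have hki2 := kch_pos hκ hi
    have hr := range_y hκ hs hi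
    rw [← hS, ← hw, ← hq, ← hn] at hr
    calc mixL (fun j => Gr e k (j :: v) (kch e k v κ j) (q * s / kch e k v κ j))
          (fun j => (1 - q) * w j)
          (fun y => (1 - y) * Gr e k (i :: v) (kch e k v κ i) (y / kch e k v κ i))
          (oth n i) (q * s)
        ≤ mixL (fun j => Gr e k (j :: v) (kch e k v κ j) (q * s / kch e k v κ j))
          (fun j => (1 - q) * w j)
          (fun y => ∑ l, p i l * Real.exp (-(y * (1 + w i * S * θ i l)))) (oth n i) (q * s) := by
          apply mixL_le_mixL (Y := kch e k v κ i)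
          · intro j hj
            have hj' := mem_oth hj
            refine ⟨(hBj j hj').1, (hBj j hj').2.trans ((hΦ j).le_one ?_)⟩
            have := hwpos j
            positivity
          · intro j _; exact hα j
          · intro z hz1 hz2
            have hz0 : 0 ≤ z := by linarith
            have hk0 : kch e k v κ i ≠ 0 := by linarith
            have hmem : z / kch e k v κ i ∈ Set.Icc (0 : ℝ) 1 :=
              ⟨by positivity, by rw [div_le_one (by linarith)]; linarith⟩
            have h1 := hle i hi _ hmem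
            have h2 : kch e k v κ i * Cc e k (i :: v) * (z / kch e k v κ i) = z * (w i * S) := by
              rw [hCw]; field_simp
            rw [h2, hval] at h1
            have h3 : 1 - z ≤ Real.exp (-z) := by
              have := Real.add_one_le_exp (-z)
              linarith
            have h4 := (Gr_mem e k _ _ _ (kch_adm hκ hi) hmem).1
            calc (1 - z) * Gr e k (i :: v) (kch e k v κ i) (z / kch e k v κ i)
                ≤ Real.exp (-z) * ∑ l, p i l * Real.exp (-(z * (w i * S) * θ i l)) :=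
                  mul_le_mul h3 h1 h4 (Real.exp_pos _).le
              _ = _ := by
                  rw [mul_sum]
                  apply sum_congr rfl
                  intro l _
                  rw [mul_left_comm, ← Real.exp_add]
                  congr 2
                  ring
          · exact hr
      _ = ∑ l, p i l * (Real.exp (-(q * s * (1 + w i * S * θ i l))) *
            ((oth n i).map (fun j => Gr e k (j :: v) (kch e k v κ j) (q * s / kch e k v κ j) +
              (1 - Gr e k (j :: v) (kch e k v κ j) (q * s / kch e k v κ j)) *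
              Real.exp (-((1 - q) * w j * (1 + w i * S * θ i l))))).prod) := by
          rw [mixL_sum Finset.univ]
          apply sum_congr rfl
          intro l _
          rw [mixL_exp]
      _ ≤ ∑ l, p i l * (Real.exp (-(q * s * S * (1 / S + w i * θ i l))) *
            ((oth n i).map (fun j => Φ j (w j * (q * s * S)) +
              (1 - Φ j (w j * (q * s * S))) * ε i l)).prod) := by
          apply sum_le_sum
          intro l _
          apply mul_le_mul_of_nonneg_left _ (hp i l)
          have h5 : q * s * (1 + w i * S * θ i l) = q * s * S * (1 / S + w i * θ i l) := by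
            field_simp
          rw [h5]
          apply mul_le_mul_of_nonneg_left _ (Real.exp_pos _).le
          refine (prod_le_prod_aux (oth n i) (B := fun j => Gr e k (j :: v) (kch e k v κ j)
            (q * s / kch e k v κ j)) (b := fun j => Φ j (w j * (q * s * S)))
            (ε := fun j => Real.exp (-((1 - q) * w j * (1 + w i * S * θ i l))))
            (ε' := fun _ => ε i l) ?_ ?_).2
          · intro j hj
            have hj' := mem_oth hj
            refine ⟨(hBj j hj').1, (hBj j hj').2, (hΦ j).le_one ?_⟩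
            have := hwpos j
            positivity
          · intro j hj
            have hj' := mem_oth hj
            refine ⟨(Real.exp_pos _).le, ?_, hε1 i l⟩
            apply Real.exp_le_exp.2
            have h6 := hc i hi j hj'
            have h7 : Cc e k (i :: v) * Cc e k (j :: v) / (1 + S) ≤ (1 - q) * w j * (w i * S) := by
              rw [hCw i, hCw j]
              have h8 : S / (1 + S) ≤ 1 - q := by
                have : 1 - 1 / (1 + S) = S / (1 + S) := by field_simp; ring
                linarith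
              have h9 : w i * S * (w j * S) / (1 + S) = S / (1 + S) * (w j * (w i * S)) := by
                field_simp
              rw [h9, mul_assoc]
              apply mul_le_mul_of_nonneg_right h8
              have := hwpos i
              have := hwpos j
              positivity
            have h10 : c0 * θ i l ≤ (1 - q) * w j * (w i * S) * θ i l :=
              mul_le_mul_of_nonneg_right (h6.trans h7) (hθ i l)
            have h11 : 0 ≤ (1 - q) * w j := hα j
            nlinarith
  · intro σ hσ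
    have hb : ∀ j, 0 ≤ Φ j (w j * σ) ∧ Φ j (w j * σ) ≤ 1 := by
      intro j
      refine ⟨(hΦ j).nonneg _, (hΦ j).le_one ?_⟩
      have := hwpos j
      positivity
    have hterm : ∀ i ∈ range n, ∑ l, p i l *
        (Real.exp (-(σ * (1 / S + w i * θ i l))) *
          ((oth n i).map (fun j => Φ j (w j * σ) + (1 - Φ j (w j * σ)) * ε i l)).prod) ≤
        Real.exp (-(σ / S)) * (∏ j ∈ range n, Φ j (w j * σ) + ((n : ℝ) - 1) * Φ i c0) := by
      intro i hi
      have hlen : ((oth n i).length : ℝ) = (n : ℝ) - 1 := by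
        have := oth_length hi
        rw [eq_sub_iff_add_eq]
        exact_mod_cast this
      calc ∑ l, p i l *
          (Real.exp (-(σ * (1 / S + w i * θ i l))) *
            ((oth n i).map (fun j => Φ j (w j * σ) + (1 - Φ j (w j * σ)) * ε i l)).prod)
          ≤ ∑ l, p i l * (Real.exp (-(σ * (1 / S + w i * θ i l))) *
            (((oth n i).map (fun j => Φ j (w j * σ))).prod + ((n : ℝ) - 1) * ε i l)) := by
            apply sum_le_sum
            intro l _
            apply mul_le_mul_of_nonneg_left _ (hp i l)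
            apply mul_le_mul_of_nonneg_left _ (Real.exp_pos _).le
            have := (prod_le_prod_add_sum (b := fun j => Φ j (w j * σ)) (hε0 i l) (hε1 i l)
              (oth n i) (fun j _ => hb j)).1
            rw [hlen] at this
            exact this
        _ ≤ ∑ l, (Real.exp (-(σ / S)) * (((oth n i).map (fun j => Φ j (w j * σ))).prod *
              (p i l * Real.exp (-(w i * σ * θ i l))) + ((n : ℝ) - 1) *
              (p i l * Real.exp (-(c0 * θ i l))))) := by
            apply sum_le_sum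
            intro l _
            have h1 : Real.exp (-(σ * (1 / S + w i * θ i l))) =
                Real.exp (-(σ / S)) * Real.exp (-(w i * σ * θ i l)) := by
              rw [← Real.exp_add]; congr 1; ring
            have h2 : Real.exp (-(w i * σ * θ i l)) ≤ 1 := by
              apply Real.exp_le_one_iff.2
              have := hwpos i
              have := hθ i l
              have : 0 ≤ w i * σ * θ i l := by positivity
              linarith
            have h3 : 0 ≤ (n : ℝ) - 1 := by rw [← hlen]; positivity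
            rw [h1]
            have h4 : 0 ≤ Real.exp (-(σ / S)) * (((n : ℝ) - 1) * (p i l * ε i l)) :=
              mul_nonneg (Real.exp_pos _).le (mul_nonneg h3 (mul_nonneg (hp i l) (hε0 i l)))
            have h5 : Real.exp (-(σ / S)) * (((n : ℝ) - 1) * (p i l * ε i l)) *
                Real.exp (-(w i * σ * θ i l)) ≤
                Real.exp (-(σ / S)) * (((n : ℝ) - 1) * (p i l * ε i l)) :=
              mul_le_of_le_one_right h4 h2
            have h6 : ε i l = Real.exp (-(c0 * θ i l)) := rfl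
            rw [← h6]
            nlinarith
        _ = Real.exp (-(σ / S)) * (((oth n i).map (fun j => Φ j (w j * σ))).prod *
              Φ i (w i * σ) + ((n : ℝ) - 1) * Φ i c0) := by
            rw [hval i (w i * σ), hval i c0, ← mul_sum, sum_add_distrib, ← mul_sum, ← mul_sum]
        _ = _ := by
            have h7 := oth_prod hi (fun j => Φ j (w j * σ))
            rw [← h7]
            ring
    calc Ψ σ ≤ ∑ i ∈ range n, w i * (Real.exp (-(σ / S)) *
          (∏ j ∈ range n, Φ j (w j * σ) + ((n : ℝ) - 1) * Φ i c0)) := by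
          apply sum_le_sum
          intro i hi
          exact mul_le_mul_of_nonneg_left (hterm i hi) (hwpos i).le
      _ = Real.exp (-(σ / S)) * ((∑ i ∈ range n, w i) * ∏ j ∈ range n, Φ j (w j * σ) +
            ((n : ℝ) - 1) * ∑ i ∈ range n, w i * Φ i c0) := by
          rw [sum_mul, mul_sum, ← sum_add_distrib, mul_sum]
          apply sum_congr rfl
          intro i _
          ring
      _ = _ := by rw [hwsum, one_mul]

end Pool.Agent.Work.MP_9e3593_pr
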