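import Mathlib
import Pool.Agent.Work.MP_9e3593_pr.An2

/-! Analytic part, file 3: the bracket of the homogeneous binary recursion. -/

set_option autoImplicit false

namespace Pool.Agent.Work.MP_9e3593_pr

open Finset MeasureTheory ProbabilityTheory

lemma key_ineq {u τ : ℝ} (hu : 0 ≤ u) (hu1 : u < 1) :
    (1 + u) * (Real.exp (-(τ * u)) - Real.exp (-τ)) < 1 - u := by
  rcases hu.eq_or_lt with rfl | hu0
  · have := Real.exp_pos (-τ)
    simp
    exact this
  · have hA : Real.exp (u * (-τ - Real.log u) + (1 - u) * (u / (1 - u) * Real.log u)) ≤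
        u * Real.exp (-τ - Real.log u) + (1 - u) * Real.exp (u / (1 - u) * Real.log u) := by
      have := convexOn_exp.2 (Set.mem_univ (-τ - Real.log u))
        (Set.mem_univ (u / (1 - u) * Real.log u)) hu0.le (show 0 ≤ 1 - u by linarith) (by ring)
      simpa only [smul_eq_mul] using this
    have h1u : (1 - u) ≠ 0 := by linarith
    have h1 : u * (-τ - Real.log u) + (1 - u) * (u / (1 - u) * Real.log u) = -(τ * u) := by
      field_simp
      ring
    have h2 : u * Real.exp (-τ - Real.log u) = Real.exp (-τ) := by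
      rw [Real.exp_sub, Real.exp_log hu0]
      field_simp
    rw [h1, h2] at hA
    have h3 : u / (1 - u) * Real.log u ≤ -u := by
      have h4 : Real.log u ≤ u - 1 := Real.log_le_sub_one_of_pos hu0
      have h5 : 0 ≤ u / (1 - u) := div_nonneg hu0.le (by linarith)
      calc u / (1 - u) * Real.log u ≤ u / (1 - u) * (u - 1) := mul_le_mul_of_nonneg_left h4 h5
        _ = -u := by field_simp; ring
    have h6 : Real.exp (u / (1 - u) * Real.log u) ≤ Real.exp (-u) := Real.exp_le_exp.2 h3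
    have h7 : (1 + u) * Real.exp (-u) < 1 := by
      have h8 : u + 1 < Real.exp u := Real.add_one_lt_exp hu0.ne'
      calc (1 + u) * Real.exp (-u) < Real.exp u * Real.exp (-u) := by
            apply mul_lt_mul_of_pos_right _ (Real.exp_pos _); linarith
        _ = 1 := by rw [← Real.exp_add]; simp
    have h9 : Real.exp (-(τ * u)) - Real.exp (-τ) ≤ (1 - u) * Real.exp (-u) := by
      have := mul_le_mul_of_nonneg_left h6 (show 0 ≤ 1 - u by linarith)
      linarith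
    calc (1 + u) * (Real.exp (-(τ * u)) - Real.exp (-τ))
        ≤ (1 + u) * ((1 - u) * Real.exp (-u)) := mul_le_mul_of_nonneg_left h9 (by linarith)
      _ = (1 - u) * ((1 + u) * Real.exp (-u)) := by ring
      _ < (1 - u) * 1 := by apply mul_lt_mul_of_pos_left h7; linarith
      _ = 1 - u := mul_one _

/-- `(e^x - 1)/x` -/
noncomputable def Ex (x : ℝ) : ℝ := dslope Real.exp 0 x

lemma Ex_mul (x : ℝ) : x * Ex x = Real.exp x - 1 := by
  have := sub_smul_dslope Real.exp 0 x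
  simpa [Ex] using this

lemma Ex_zero : Ex 0 = 1 := by
  simp [Ex, dslope_same]

lemma Ex_cont : Continuous Ex := by
  unfold Ex
  rw [← continuousOn_univ]
  rw [continuousOn_dslope (Filter.univ_mem)]
  exact ⟨Real.continuous_exp.continuousOn, Real.differentiableAt_exp⟩

/-- the slope of the bracket -/
noncomputable def Fb (x : (ℝ × ℝ) × (ℝ × ℝ)) : ℝ :=
  -x.1.2 + x.2.1 * x.1.1 * x.1.2 * Ex (x.2.1 * x.1.1 * x.1.2 * x.2.2) *
    ((1 + x.1.2) / 2 - x.1.2 * x.2.2) * Real.exp (-(x.2.1 * x.1.1 * ((1 - x.1.2) / 2)))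

lemma Fb_cont : Continuous Fb := by
  unfold Fb
  have := Ex_cont
  fun_prop

lemma Fb_neg {t s : ℝ} (ht : 0 ≤ t) (hs : s ∈ Set.Icc (0 : ℝ) 1) :
    Fb ((1 / 2, 1 / 3), (t, s)) < 0 := by
  obtain ⟨hs0, hs1⟩ := hs
  rcases hs0.eq_or_lt with rfl | hs0
  · have h1 : Fb ((1 / 2, 1 / 3), (t, 0)) = -(1 / 3) + t / 6 * (2 / 3) * Real.exp (-(t / 6)) := by
      simp only [Fb]
      have : t * (1 / 2) * (1 / 3) * (0 : ℝ) = 0 := by ring
      rw [this, Ex_zero]
      have h2 : t * (1 / 2) * ((1 - 1 / 3) / 2 : ℝ) = t / 6 := by ring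
      rw [h2]
      ring
    rw [h1]
    set τ := t / 6 with hτ
    have hτ0 : 0 ≤ τ := by positivity
    have h2 : 1 + τ + τ ^ 2 / 2 ≤ Real.exp τ := Real.quadratic_le_exp_of_nonneg hτ0
    have h3 : 2 * τ < Real.exp τ := by nlinarith [sq_nonneg (τ - 1)]
    have h4 : τ * Real.exp (-τ) < 1 / 2 := by
      have h5 : Real.exp τ * Real.exp (-τ) = 1 := by rw [← Real.exp_add]; simp
      have := mul_lt_mul_of_pos_right h3 (Real.exp_pos (-τ))
      rw [h5] at this
      linarith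
    nlinarith
  · have h1 : s * Fb ((1 / 2, 1 / 3), (t, s)) = -(s / 3) +
        (Real.exp (t / 6 * s) - 1) * ((2 - s) / 3) * Real.exp (-(t / 6)) := by
      simp only [Fb]
      have h2 : t * (1 / 2) * (1 / 3) * s = t / 6 * s := by ring
      have h3 : t * (1 / 2) * ((1 - 1 / 3) / 2 : ℝ) = t / 6 := by ring
      rw [h2, h3, ← Ex_mul (t / 6 * s)]
      ring
    have h2 := key_ineq (u := 1 - s) (τ := t / 6) (by linarith) (by linarith)
    have h3 : Real.exp (-(t / 6 * (1 - s))) = Real.exp (t / 6 * s) * Real.exp (-(t / 6)) := by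
      rw [← Real.exp_add]; congr 1; ring
    rw [h3] at h2
    have h4 : s * Fb ((1 / 2, 1 / 3), (t, s)) < 0 := by
      rw [h1]
      nlinarith
    by_contra hcon
    push Not at hcon
    have := mul_nonneg hs0.le hcon
    linarith

/-- uniform negativity of the slope of the bracket, near `C = 1/2`, `q = 1/3` -/
lemma exists_eps (T : ℝ) (hT : 0 ≤ T) : ∃ ε > 0, ∃ η > 0, ∀ C q : ℝ, |C - 1 / 2| ≤ η →
    |q - 1 / 3| ≤ η → ∀ t ∈ Set.Icc (0 : ℝ) T, ∀ s ∈ Set.Icc (0 : ℝ) 1,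
      Fb ((C, q), (t, s)) ≤ -ε := by
  have hK : IsCompact (Set.Icc (0 : ℝ) T ×ˢ Set.Icc (0 : ℝ) 1) :=
    isCompact_Icc.prod isCompact_Icc
  have hne : (Set.Icc (0 : ℝ) T ×ˢ Set.Icc (0 : ℝ) 1).Nonempty :=
    ⟨(0, 0), ⟨⟨le_rfl, hT⟩, ⟨le_rfl, zero_le_one⟩⟩⟩
  have hcont : Continuous (fun x : ℝ × ℝ => Fb ((1 / 2, 1 / 3), x)) := by
    apply Fb_cont.comp; fun_prop
  obtain ⟨x0, hx0, hmax⟩ := hK.exists_isMaxOn hne hcont.continuousOn
  have hneg : Fb ((1 / 2, 1 / 3), x0) < 0 := Fb_neg hx0.1.1 hx0.2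
  set m := Fb ((1 / 2, 1 / 3), x0) with hm
  have hopen : IsOpen {x : (ℝ × ℝ) × (ℝ × ℝ) | Fb x < m / 2} := isOpen_lt Fb_cont continuous_const
  have hsub : ({((1 / 2 : ℝ), (1 / 3 : ℝ))} : Set (ℝ × ℝ)) ×ˢ
      (Set.Icc (0 : ℝ) T ×ˢ Set.Icc (0 : ℝ) 1) ⊆ {x | Fb x < m / 2} := by
    rintro ⟨p, x⟩ ⟨hp, hx⟩
    simp only [Set.mem_singleton_iff] at hp
    subst hp
    have : Fb ((1 / 2, 1 / 3), x) ≤ m := hmax hx
    show Fb ((1 / 2, 1 / 3), x) < m / 2
    linarith
  obtain ⟨U, V, hU, hV, hpU, hKV, hUV⟩ := generalized_tube_lemma isCompact_singleton hK hopen hsub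
  obtain ⟨r, hr, hball⟩ := Metric.isOpen_iff.1 hU _ (hpU rfl)
  refine ⟨-m / 2, by linarith, r / 2, by positivity, ?_⟩
  intro C q hC hq t ht s hs
  have h1 : (C, q) ∈ U := by
    apply hball
    rw [Metric.mem_ball, Prod.dist_eq, Real.dist_eq, Real.dist_eq]
    simp only
    rw [max_lt_iff]
    constructor <;> linarith
  have h2 : (t, s) ∈ V := hKV ⟨ht, hs⟩
  have h3 : Fb ((C, q), (t, s)) < m / 2 := hUV ⟨h1, h2⟩
  linarith

end Pool.Agent.Work.MP_9e3593_pr
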