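import Mathlib
import Pool.Agent.Work.MP_9e3593_pr.An3

/-! Analytic part, file 4: the binary block. -/

set_option autoImplicit false

namespace Pool.Agent.Work.MP_9e3593_pr

open Finset MeasureTheory ProbabilityTheory

/-- all the vertices of the binary subtree of `v` of height `k` have two children -/
def Bin (e : List ℕ → Bool) : ℕ → List ℕ → Prop
  | 0, _ => True
  | k + 1, v => e v = true ∧ Bin e k (0 :: v) ∧ Bin e k (1 :: v)

/-- conductance of the homogeneous binary tree -/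
noncomputable def cb : ℕ → ℝ
  | 0 => 1
  | k + 1 => 2 * cb k / (1 + 2 * cb k)

lemma cb_bounds : ∀ k, 1 / 2 ≤ cb k ∧ cb k ≤ 1 := by
  intro k
  induction k with
  | zero => norm_num [cb]
  | succ k ih =>
    simp only [cb]
    constructor
    · rw [le_div_iff₀ (by linarith)]; linarith
    · rw [div_le_one (by linarith)]; linarith

lemma cb_sub (k : ℕ) : cb k - 1 / 2 ≤ (1 / 2) ^ k := by
  induction k with
  | zero => norm_num [cb]
  | succ k ih =>
    have h := cb_bounds k
    have h1 : cb (k + 1) - 1 / 2 = (cb k - 1 / 2) / (1 + 2 * cb k) := by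
      simp only [cb]
      have : (1 + 2 * cb k) ≠ 0 := by linarith
      field_simp
      ring
    rw [h1, pow_succ, div_le_iff₀ (by linarith)]
    have h2 : (0 : ℝ) < (1 / 2) ^ k := by positivity
    nlinarith

lemma cb_tendsto {η : ℝ} (hη : 0 < η) : ∃ h0 : ℕ, ∀ k, h0 ≤ k → cb k - 1 / 2 ≤ η := by
  obtain ⟨n, hn⟩ := exists_pow_lt_of_lt_one hη (show (1 / 2 : ℝ) < 1 by norm_num)
  refine ⟨n, fun k hk => (cb_sub k).trans ?_⟩
  have : (1 / 2 : ℝ) ^ k ≤ (1 / 2) ^ n := pow_le_pow_of_le_one (by norm_num) (by norm_num) hk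
  linarith

lemma Bin_Cc {e : List ℕ → Bool} : ∀ (k : ℕ) (v : List ℕ), Bin e k v → Cc e k v = cb k := by
  intro k
  induction k with
  | zero => intro v _; simp [Cc, cb]
  | succ k ih =>
    intro v hv
    obtain ⟨h1, h2, h3⟩ := hv
    simp only [Cc, cb, h1, deg_true]
    rw [sum_range_succ, sum_range_succ, sum_range_zero, ih _ h2, ih _ h3]
    congr 1 <;> ring

lemma Bin_child {e : List ℕ → Bool} {k : ℕ} {v : List ℕ} (h : Bin e (k + 1) v) {j : ℕ}
    (hj : j ∈ range (deg (e v))) : Bin e k (j :: v) := by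
  obtain ⟨h1, h2, h3⟩ := h
  rw [h1, deg_true] at hj
  simp only [Finset.mem_range] at hj
  interval_cases j
  · exact h2
  · exact h3

lemma Bin_Sc {e : List ℕ → Bool} {k : ℕ} {v : List ℕ} (h : Bin e (k + 1) v) :
    Sc e k v = 2 * cb k := by
  obtain ⟨h1, h2, h3⟩ := h
  unfold Sc
  rw [h1, deg_true, sum_range_succ, sum_range_succ, sum_range_zero, Bin_Cc _ _ h2, Bin_Cc _ _ h3]
  ring

lemma Bin_wt {e : List ℕ → Bool} {k : ℕ} {v : List ℕ} (h : Bin e (k + 1) v) {j : ℕ}
    (hj : j ∈ range (deg (e v))) : wt e k v j = 1 / 2 := by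
  have := cb_bounds k
  unfold wt
  rw [Bin_Sc h, Bin_Cc _ _ (Bin_child h hj)]
  have : cb k ≠ 0 := by linarith
  field_simp

lemma Bin_kch {e : List ℕ → Bool} {k : ℕ} {v : List ℕ} {κ : ℝ} (h : Bin e (k + 1) v) {j : ℕ}
    (hj : j ∈ range (deg (e v))) : kch e k v κ j = (1 + κ / (1 + 2 * cb k)) / 2 := by
  unfold kch
  rw [Bin_Sc h, Bin_wt h hj]
  ring

/-- one step of the binary recursion for pure exponentials -/
lemma bin_step {e : List ℕ → Bool} {k : ℕ} {v : List ℕ} {κ t : ℝ} (h : Bin e (k + 1) v)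
    (hκ : Adm e (k + 1) v κ) (ht : 0 ≤ t)
    (hle : ∀ j ∈ range (deg (e v)), ∀ s ∈ Set.Icc (0 : ℝ) 1,
      Gr e k (j :: v) (kch e k v κ j) s ≤ Real.exp (-(t * (kch e k v κ j * cb k * s)))) :
    ∀ s ∈ Set.Icc (0 : ℝ) 1, Gr e (k + 1) v κ s ≤
      Real.exp (-(t * (κ * cb (k + 1) * s))) *
        (1 + s * Fb ((cb k, κ / (1 + 2 * cb k)), (t, s))) := by
  intro s hs
  obtain ⟨hq0, hq1, hq2, hq3⟩ := q_bounds hκ
  have hS := Bin_Sc h
  rw [hS] at hq0 hq1 hq2 hq3
  have hcb := cb_bounds k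
  set C := cb k with hC
  set q := κ / (1 + 2 * C) with hq
  have hqs0 : 0 ≤ q * s := mul_nonneg hq0.le hs.1
  have hqs1 : q * s ≤ q := mul_le_of_le_one_right hq0.le hs.2
  -- the three exponentials
  set b := Real.exp (-(t * C * (q * s))) with hb
  have hb0 : 0 < b := Real.exp_pos _
  have hb1 : b ≤ 1 := by
    apply Real.exp_le_one_iff.2
    have : 0 ≤ t * C * (q * s) := by
      apply mul_nonneg (mul_nonneg ht (by linarith)) hqs0
    linarith
  set a := Real.exp (-(t * C * ((1 - q) / 2))) with ha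
  have ha0 : 0 < a := Real.exp_pos _
  have ha1 : a ≤ 1 := by
    apply Real.exp_le_one_iff.2
    have : 0 ≤ t * C * ((1 - q) / 2) := by
      apply mul_nonneg (mul_nonneg ht (by linarith)); linarith
    linarith
  have hkey : ∀ j ∈ range (deg (e v)), ∀ y, 0 ≤ y → y ≤ kch e k v κ j →
      0 ≤ Gr e k (j :: v) (kch e k v κ j) (y / kch e k v κ j) ∧
      Gr e k (j :: v) (kch e k v κ j) (y / kch e k v κ j) ≤ Real.exp (-(t * C * y)) := by
    intro j hj y hy0 hy1
    have hk := kch_pos hκ hj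
    have hk0 : kch e k v κ j ≠ 0 := by linarith
    have hmem : y / kch e k v κ j ∈ Set.Icc (0 : ℝ) 1 :=
      ⟨by positivity, by rw [div_le_one (by linarith)]; exact hy1⟩
    refine ⟨(Gr_mem e k _ _ _ (kch_adm hκ hj) hmem).1, (hle j hj _ hmem).trans (le_of_eq ?_)⟩
    congr 2
    field_simp
  have hmix : ∀ i ∈ range (deg (e v)), ∀ j ∈ range (deg (e v)), mixL
      (fun j => Gr e k (j :: v) (kch e k v κ j) (q * s / kch e k v κ j))
      (fun j => (1 - q) * wt e k v j)
      (fun y => (1 - y) * Gr e k (i :: v) (kch e k v κ i) (y / kch e k v κ i)) [j] (q * s) ≤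
      b * ((1 - q * s) * b) + (1 - b) * (((1 + q) / 2 - q * s) * (b * a)) := by
    intro i hi j hj
    have hki := Bin_kch (κ := κ) h hi
    have hkj := Bin_kch (κ := κ) h hj
    rw [← hC, ← hq] at hki hkj
    simp only [mixL]
    rw [Bin_wt h hj]
    obtain ⟨hB0, hB1⟩ := hkey j hj (q * s) hqs0 (by rw [hkj]; linarith)
    obtain ⟨hT0, hT0'⟩ := hkey i hi (q * s) hqs0 (by rw [hki]; linarith)
    obtain ⟨hT1, hT1'⟩ := hkey i hi (q * s + (1 - q) * (1 / 2)) (by nlinarith)
      (by rw [hki]; linarith)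
    rw [← hb] at hB1 hT0'
    have hab : Real.exp (-(t * C * (q * s + (1 - q) * (1 / 2)))) = b * a := by
      rw [hb, ha, ← Real.exp_add]; congr 1; ring
    rw [hab] at hT1'
    set B := Gr e k (j :: v) (kch e k v κ j) (q * s / kch e k v κ j)
    set X := Gr e k (i :: v) (kch e k v κ i) (q * s / kch e k v κ i)
    set Y := Gr e k (i :: v) (kch e k v κ i) ((q * s + (1 - q) * (1 / 2)) / kch e k v κ i)
    have h1 : (1 - q * s) * X ≤ (1 - q * s) * b := mul_le_mul_of_nonneg_left hT0' (by linarith)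
    have h2 : (1 - (q * s + (1 - q) * (1 / 2))) * Y ≤ ((1 + q) / 2 - q * s) * (b * a) := by
      have : 1 - (q * s + (1 - q) * (1 / 2)) = (1 + q) / 2 - q * s := by ring
      rw [this]
      exact mul_le_mul_of_nonneg_left hT1' (by linarith)
    have h3 : ((1 + q) / 2 - q * s) * (b * a) ≤ (1 - q * s) * b := by
      have h4 : b * a ≤ b := mul_le_of_le_one_right hb0.le ha1
      exact mul_le_mul (by linarith) h4 (by positivity) (by linarith)
    have h5 : B ≤ 1 := hB1.trans hb1
    calc B * ((1 - q * s) * X) + (1 - B) * ((1 - (q * s + (1 - q) * (1 / 2))) * Y)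
        ≤ B * ((1 - q * s) * b) + (1 - B) * (((1 + q) / 2 - q * s) * (b * a)) := by
          apply add_le_add (mul_le_mul_of_nonneg_left h1 hB0)
            (mul_le_mul_of_nonneg_left h2 (by linarith))
      _ ≤ b * ((1 - q * s) * b) + (1 - b) * (((1 + q) / 2 - q * s) * (b * a)) := by
          nlinarith [mul_nonneg (sub_nonneg.2 hB1) (sub_nonneg.2 h3)]
  have hfin : Real.exp (-(t * (κ * cb (k + 1) * s))) *
        (1 + s * Fb ((C, q), (t, s))) =
      b * ((1 - q * s) * b) + (1 - b) * (((1 + q) / 2 - q * s) * (b * a)) := by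
    have h1 : t * (κ * cb (k + 1) * s) = t * C * (q * s) + t * C * (q * s) := by
      simp only [cb]
      rw [hq, ← hC]
      field_simp
      ring
    have h2 : Real.exp (-(t * (κ * cb (k + 1) * s))) = b * b := by
      rw [h1, hb, ← Real.exp_add]; congr 1; ring
    have h3 : s * Fb ((C, q), (t, s)) = -(q * s) +
        (Real.exp (t * C * q * s) - 1) * ((1 + q) / 2 - q * s) * a := by
      rw [← Ex_mul (t * C * q * s)]
      simp only [Fb, ha]
      ring
    have h4 : Real.exp (t * C * q * s) * b = 1 := by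
      rw [hb, ← Real.exp_add]
      have : t * C * q * s + -(t * C * (q * s)) = 0 := by ring
      rw [this, Real.exp_zero]
    rw [h2, h3]
    have h5 : b * b * (1 + (-(q * s) + (Real.exp (t * C * q * s) - 1) *
        ((1 + q) / 2 - q * s) * a)) = b * b * (1 - q * s) +
        b * (Real.exp (t * C * q * s) * b - b) * ((1 + q) / 2 - q * s) * a := by ring
    rw [h5, h4]
    ring
  rw [hfin, Gr_succ, hS, ← hq]
  obtain ⟨h1, h2, h3⟩ := h
  have hd : deg (e v) = 2 := by rw [h1, deg_true]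
  have hr0 : (0 : ℕ) ∈ range (deg (e v)) := by rw [hd]; simp
  have hr1 : (1 : ℕ) ∈ range (deg (e v)) := by rw [hd]; simp
  have hw0 := Bin_wt ⟨h1, h2, h3⟩ hr0
  have hw1 := Bin_wt ⟨h1, h2, h3⟩ hr1
  have hm0 := hmix 0 hr0 1 hr1
  have hm1 := hmix 1 hr1 0 hr0
  rw [hd, sum_range_succ, sum_range_succ, sum_range_zero, hw0, hw1]
  have he0 : (List.range 2).erase 0 = [1] := by decide
  have he1 : (List.range 2).erase 1 = [0] := by decide
  rw [he0, he1]
  linarith

end Pool.Agent.Work.MP_9e3593_pr
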