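import Mathlib
import Pool.Agent.Work.MP_9e3593_pr.An4

/-! Analytic part, file 5: the recursion steps at vertices with 2 and with 5 children, and the
bound for a binary block. -/

set_option autoImplicit false

namespace Pool.Agent.Work.MP_9e3593_pr

open Finset MeasureTheory ProbabilityTheory

lemma exp_neg_le_inv {x : ℝ} (hx : 0 ≤ x) : Real.exp (-x) ≤ 1 / (1 + x) := by
  rw [Real.exp_neg, ← one_div]
  apply one_div_le_one_div_of_le (by linarith)
  linarith [Real.add_one_le_exp x]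

lemma two_c0 {C0 C1 : ℝ} (h0 : 1 / 2 ≤ C0) (h1 : 1 / 2 ≤ C1) {S : ℝ} (hS : S = C0 + C1) :
    1 / 12 ≤ C0 * C1 / (1 + S) := by
  rw [hS, le_div_iff₀ (by linarith)]
  nlinarith [mul_nonneg (sub_nonneg.2 h0) (sub_nonneg.2 h1)]

/-- step at a vertex with two children -/
theorem step_two (e : List ℕ → Bool) (k : ℕ) (v : List ℕ) (hv : e v = true) (Φ : ℕ → ℝ → ℝ)
    (hΦ : ∀ j, IsLap (Φ j)) :
    ∃ Ψ : ℝ → ℝ, IsLap Ψ ∧
      (∀ κ, Adm e (k + 1) v κ →
        (∀ j ∈ range (deg (e v)), ∀ s ∈ Set.Icc (0 : ℝ) 1,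
          Gr e k (j :: v) (kch e k v κ j) s ≤ Φ j (kch e k v κ j * Cc e k (j :: v) * s)) →
        ∀ s ∈ Set.Icc (0 : ℝ) 1, Gr e (k + 1) v κ s ≤ Ψ (κ * Cc e (k + 1) v * s)) ∧
      Ψ (1 / 36) ≤ 72 / 73 * ∑ i ∈ range 2, wt e k v i * (Φ i (1 / 36) + Φ i (1 / 12)) ∧
      Ψ (1 / 12) ≤ 24 / 25 * (Φ 0 (1 / 36) * Φ 1 (1 / 36) +
        ∑ i ∈ range 2, wt e k v i * Φ i (1 / 12)) := by
  have hd : deg (e v) = 2 := by rw [hv, deg_true]
  have hSeq : Sc e k v = Cc e k (0 :: v) + Cc e k (1 :: v) := by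
    unfold Sc
    rw [hd, sum_range_succ, sum_range_succ, sum_range_zero, zero_add]
  have hC0 := Cc_bounds e k (0 :: v)
  have hC1 := Cc_bounds e k (1 :: v)
  obtain ⟨Ψ, h1, h2, h3⟩ := step_general e k v Φ hΦ (1 / 12) (by norm_num) (by
    intro i hi j hj
    rw [hd] at hi hj
    simp only [Finset.mem_range] at hi hj
    have hSp := Sc_pos e k v
    have hS2 : Sc e k v ≤ 2 := by linarith
    interval_cases i <;> interval_cases j
    · rw [le_div_iff₀ (by linarith)]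
      nlinarith
    · exact two_c0 hC0.1 hC1.1 hSeq
    · rw [mul_comm]; exact two_c0 hC0.1 hC1.1 hSeq
    · rw [le_div_iff₀ (by linarith)]
      nlinarith)
  refine ⟨Ψ, h1, h2, ?_, ?_⟩
  · have hS2 : Sc e k v ≤ 2 := by linarith
    have hSp := Sc_pos e k v
    have h4 := h3 (1 / 36) (by norm_num)
    rw [hd] at h4
    have h5 := IsLap.prod_le (n := 2) hΦ (w := wt e k v) (σ := 1 / 36)
      (fun i _ => (wt_pos e k v i).le) (by rw [← hd]; exact wt_sum e k v)
    have h6 : Real.exp (-(1 / 36 / Sc e k v)) ≤ 72 / 73 := by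
      calc Real.exp (-(1 / 36 / Sc e k v)) ≤ Real.exp (-(1 / 72)) := by
            apply Real.exp_le_exp.2
            have : (1 / 72 : ℝ) ≤ 1 / 36 / Sc e k v := by
              rw [le_div_iff₀ hSp]; linarith
            linarith
        _ ≤ 1 / (1 + 1 / 72) := exp_neg_le_inv (by norm_num)
        _ = 72 / 73 := by norm_num
    have h7 : (0 : ℝ) ≤ ∑ i ∈ range 2, wt e k v i * (Φ i (1 / 36) + Φ i (1 / 12)) := by
      apply sum_nonneg
      intro i _
      exact mul_nonneg (wt_pos e k v i).le (add_nonneg ((hΦ i).nonneg _) ((hΦ i).nonneg _))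
    calc Ψ (1 / 36) ≤ Real.exp (-(1 / 36 / Sc e k v)) *
          (∏ j ∈ range 2, Φ j (wt e k v j * (1 / 36)) + ((2 : ℕ) - 1) *
            ∑ i ∈ range 2, wt e k v i * Φ i (1 / 12)) := h4
      _ ≤ Real.exp (-(1 / 36 / Sc e k v)) *
          ∑ i ∈ range 2, wt e k v i * (Φ i (1 / 36) + Φ i (1 / 12)) := by
          apply mul_le_mul_of_nonneg_left _ (Real.exp_pos _).le
          simp only [mul_add, sum_add_distrib]
          push_cast
          linarith
      _ ≤ _ := mul_le_mul_of_nonneg_right h6 h7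
  · have hS2 : Sc e k v ≤ 2 := by linarith
    have hSp := Sc_pos e k v
    have h4 := h3 (1 / 12) (by norm_num)
    rw [hd] at h4
    have h6 : Real.exp (-(1 / 12 / Sc e k v)) ≤ 24 / 25 := by
      calc Real.exp (-(1 / 12 / Sc e k v)) ≤ Real.exp (-(1 / 24)) := by
            apply Real.exp_le_exp.2
            have : (1 / 24 : ℝ) ≤ 1 / 12 / Sc e k v := by
              rw [le_div_iff₀ hSp]; linarith
            linarith
        _ ≤ 1 / (1 + 1 / 24) := exp_neg_le_inv (by norm_num)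
        _ = 24 / 25 := by norm_num
    have hw : ∀ i ∈ range 2, (1 / 3 : ℝ) ≤ wt e k v i := by
      intro i hi
      simp only [Finset.mem_range] at hi
      unfold wt
      interval_cases i
      · rw [le_div_iff₀ hSp]; linarith
      · rw [le_div_iff₀ hSp]; linarith
    have h5 : ∏ j ∈ range 2, Φ j (wt e k v j * (1 / 12)) ≤ Φ 0 (1 / 36) * Φ 1 (1 / 36) := by
      rw [prod_range_succ, prod_range_succ, prod_range_zero, one_mul]
      apply mul_le_mul
      · apply (hΦ 0).anti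
        have := hw 0 (by simp)
        linarith
      · apply (hΦ 1).anti
        have := hw 1 (by simp)
        linarith
      · exact (hΦ 1).nonneg _
      · exact (hΦ 0).nonneg _
    have h7 : (0 : ℝ) ≤ Φ 0 (1 / 36) * Φ 1 (1 / 36) +
        ∑ i ∈ range 2, wt e k v i * Φ i (1 / 12) := by
      apply add_nonneg
      · exact mul_nonneg ((hΦ 0).nonneg _) ((hΦ 1).nonneg _)
      · apply sum_nonneg
        intro i _
        exact mul_nonneg (wt_pos e k v i).le ((hΦ i).nonneg _)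
    calc Ψ (1 / 12) ≤ Real.exp (-(1 / 12 / Sc e k v)) *
          (∏ j ∈ range 2, Φ j (wt e k v j * (1 / 12)) + ((2 : ℕ) - 1) *
            ∑ i ∈ range 2, wt e k v i * Φ i (1 / 12)) := h4
      _ ≤ Real.exp (-(1 / 12 / Sc e k v)) *
          (Φ 0 (1 / 36) * Φ 1 (1 / 36) + ∑ i ∈ range 2, wt e k v i * Φ i (1 / 12)) := by
          apply mul_le_mul_of_nonneg_left _ (Real.exp_pos _).le
          push_cast
          linarith
      _ ≤ _ := mul_le_mul_of_nonneg_right h6 h7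

/-- step at a vertex with five children -/
theorem step_five (e : List ℕ → Bool) (k : ℕ) (v : List ℕ) (hv : e v = false) (Φ : ℕ → ℝ → ℝ)
    (hΦ : ∀ j, IsLap (Φ j)) :
    ∃ Ψ : ℝ → ℝ, IsLap Ψ ∧
      (∀ κ, Adm e (k + 1) v κ →
        (∀ j ∈ range (deg (e v)), ∀ s ∈ Set.Icc (0 : ℝ) 1,
          Gr e k (j :: v) (kch e k v κ j) s ≤ Φ j (kch e k v κ j * Cc e k (j :: v) * s)) →
        ∀ s ∈ Set.Icc (0 : ℝ) 1, Gr e (k + 1) v κ s ≤ Ψ (κ * Cc e (k + 1) v * s)) ∧
      Ψ (1 / 36) ≤ 5 * ∑ i ∈ range 5, wt e k v i * Φ i (1 / 36) ∧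
      Ψ (1 / 12) ≤ 5 * ∑ i ∈ range 5, wt e k v i * Φ i (1 / 36) := by
  have hd : deg (e v) = 5 := by rw [hv, deg_false]
  have hSp := Sc_pos e k v
  obtain ⟨Ψ, h1, h2, h3⟩ := step_general e k v Φ hΦ (1 / 36) (by norm_num) (by
    intro i _ j _
    have hCi := Cc_bounds e k (i :: v)
    have hCj := Cc_bounds e k (j :: v)
    have hS := Sc_le_five e k v
    rw [le_div_iff₀ (by linarith)]
    nlinarith [mul_nonneg (sub_nonneg.2 hCi.1) (sub_nonneg.2 hCj.1)])
  have h36 : Ψ (1 / 36) ≤ 5 * ∑ i ∈ range 5, wt e k v i * Φ i (1 / 36) := by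
    have h4 := h3 (1 / 36) (by norm_num)
    rw [hd] at h4
    have h5 := IsLap.prod_le (n := 5) hΦ (w := wt e k v) (σ := 1 / 36)
      (fun i _ => (wt_pos e k v i).le) (by rw [← hd]; exact wt_sum e k v)
    have h6 : Real.exp (-(1 / 36 / Sc e k v)) ≤ 1 := by
      apply Real.exp_le_one_iff.2
      have : 0 ≤ 1 / 36 / Sc e k v := by positivity
      linarith
    have h7 : (0 : ℝ) ≤ ∑ i ∈ range 5, wt e k v i * Φ i (1 / 36) := by
      apply sum_nonneg
      intro i _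
      exact mul_nonneg (wt_pos e k v i).le ((hΦ i).nonneg _)
    calc Ψ (1 / 36) ≤ Real.exp (-(1 / 36 / Sc e k v)) *
          (∏ j ∈ range 5, Φ j (wt e k v j * (1 / 36)) + ((5 : ℕ) - 1) *
            ∑ i ∈ range 5, wt e k v i * Φ i (1 / 36)) := h4
      _ ≤ Real.exp (-(1 / 36 / Sc e k v)) *
          (5 * ∑ i ∈ range 5, wt e k v i * Φ i (1 / 36)) := by
          apply mul_le_mul_of_nonneg_left _ (Real.exp_pos _).le
          push_cast
          linarith
      _ ≤ 1 * (5 * ∑ i ∈ range 5, wt e k v i * Φ i (1 / 36)) :=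
          mul_le_mul_of_nonneg_right h6 (by linarith)
      _ = _ := one_mul _
  exact ⟨Ψ, h1, h2, h36, (h1.anti (by norm_num)).trans h36⟩

lemma near {κ C R η : ℝ} (h1 : |κ - 2 / 3| ≤ R) (h2 : 1 / 2 ≤ C) (h3 : C - 1 / 2 ≤ η) :
    |κ / (1 + 2 * C) - 1 / 3| ≤ (3 * R + 2 * η) / 6 := by
  have h0 : (1 + 2 * C) ≠ 0 := by linarith
  have h4 : κ / (1 + 2 * C) - 1 / 3 = (3 * (κ - 2 / 3) - 2 * (C - 1 / 2)) / (3 * (1 + 2 * C)) := by
    field_simp
    ring
  rw [h4, abs_div, abs_of_pos (show (0 : ℝ) < 3 * (1 + 2 * C) by linarith)]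
  rw [div_le_div_iff₀ (by linarith) (by norm_num)]
  have h5 : |3 * (κ - 2 / 3) - 2 * (C - 1 / 2)| ≤ 3 * R + 2 * η := by
    rw [abs_le] at h1 ⊢
    constructor <;> linarith
  have h6 : 0 ≤ 3 * R + 2 * η := (abs_nonneg _).trans h5
  nlinarith

lemma mid {e : List ℕ → Bool} {ε η T : ℝ} (hε : 0 < ε) (hη : 0 < η) (hT : 0 ≤ T)
    (hF : ∀ C q : ℝ, |C - 1 / 2| ≤ η → |q - 1 / 3| ≤ η → ∀ t ∈ Set.Icc (0 : ℝ) T,
      ∀ s ∈ Set.Icc (0 : ℝ) 1, Fb ((C, q), (t, s)) ≤ -ε) {h0 : ℕ}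
    (hh0 : ∀ k, h0 ≤ k → cb k - 1 / 2 ≤ η) : ∀ (j : ℕ) (v : List ℕ) (κ : ℝ),
    Bin e (h0 + j) v → Adm e (h0 + j) v κ → |κ - 2 / 3| ≤ η → ∀ s ∈ Set.Icc (0 : ℝ) 1,
    Gr e (h0 + j) v κ s ≤ Real.exp (-(min (ε * j) T * (κ * cb (h0 + j) * s))) := by
  intro j
  induction j with
  | zero =>
    intro v κ _ hκ _ s hs
    have : min (ε * ((0 : ℕ) : ℝ)) T = 0 := by simp [hT]
    rw [this]
    simpa using (Gr_mem e _ v κ s hκ hs).2
  | succ j ih =>
    intro v κ hv hκ hnear s hs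
    rw [← add_assoc] at hv hκ ⊢
    have hcb := cb_bounds (h0 + j)
    have hcbη := hh0 (h0 + j) (by omega)
    have hq := near hnear hcb.1 hcbη
    have hq' : |κ / (1 + 2 * cb (h0 + j)) - 1 / 3| ≤ η := by linarith
    set t := min (ε * (j : ℝ)) T with ht
    have ht0 : 0 ≤ t := le_min (by positivity) hT
    have htT : t ≤ T := min_le_right _ _
    have hstep := bin_step hv hκ ht0 (by
      intro i hi s' hs'
      apply ih (i :: v) _ (Bin_child hv hi) (kch_adm hκ hi) _ s' hs'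
      rw [Bin_kch hv hi]
      have : (1 + κ / (1 + 2 * cb (h0 + j))) / 2 - 2 / 3 =
        (κ / (1 + 2 * cb (h0 + j)) - 1 / 3) / 2 := by ring
      rw [this, abs_div, abs_two]
      linarith) s hs
    have hFb := hF (cb (h0 + j)) (κ / (1 + 2 * cb (h0 + j)))
      (by rw [abs_of_nonneg (by linarith)]; exact hcbη) hq' t ⟨ht0, htT⟩ s hs
    have hcb' := cb_bounds (h0 + j + 1)
    have hκ1 := hκ.1
    have hκ0 := hκ.pos
    set φ := κ * cb (h0 + j + 1) with hφ
    have hφ0 : 0 ≤ φ := mul_nonneg (by linarith) (by linarith)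
    have hφ1 : φ ≤ 1 := mul_le_one₀ hκ1 (by linarith) hcb'.2
    calc Gr e (h0 + j + 1) v κ s
        ≤ Real.exp (-(t * (φ * s))) *
          (1 + s * Fb ((cb (h0 + j), κ / (1 + 2 * cb (h0 + j))), (t, s))) := hstep
      _ ≤ Real.exp (-(t * (φ * s))) * Real.exp (-(ε * (φ * s))) := by
          apply mul_le_mul_of_nonneg_left _ (Real.exp_pos _).le
          have h1 : 1 + s * Fb ((cb (h0 + j), κ / (1 + 2 * cb (h0 + j))), (t, s)) ≤
              -(ε * (φ * s)) + 1 := by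
            have h2 : s * Fb ((cb (h0 + j), κ / (1 + 2 * cb (h0 + j))), (t, s)) ≤ s * (-ε) :=
              mul_le_mul_of_nonneg_left hFb hs.1
            have h3 : ε * (φ * s) ≤ ε * (1 * s) := by
              apply mul_le_mul_of_nonneg_left _ hε.le
              exact mul_le_mul_of_nonneg_right hφ1 hs.1
            linarith
          exact h1.trans (Real.add_one_le_exp _)
      _ = Real.exp (-((t + ε) * (φ * s))) := by rw [← Real.exp_add]; congr 1; ring
      _ ≤ Real.exp (-(min (ε * ((j + 1 : ℕ) : ℝ)) T * (φ * s))) := by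
          apply Real.exp_le_exp.2
          have h4 : min (ε * ((j + 1 : ℕ) : ℝ)) T ≤ t + ε := by
            push_cast
            rw [mul_add, mul_one, ht, ← min_add_add_right]
            apply min_le_min le_rfl
            linarith
          have h5 : 0 ≤ φ * s := mul_nonneg hφ0 hs.1
          have := mul_le_mul_of_nonneg_right h4 h5
          linarith

/-- extension of a pair of functions to a sequence -/
lemma exists_seq {P : ℕ → (ℝ → ℝ) → Prop} {n : ℕ} (h : ∀ j ∈ range n, ∃ Φ, IsLap Φ ∧ P j Φ) :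
    ∃ Φ : ℕ → ℝ → ℝ, (∀ j, IsLap (Φ j)) ∧ ∀ j ∈ range n, P j (Φ j) := by
  classical
  refine ⟨fun j => if hj : j ∈ range n then (h j hj).choose else fun _ => 1, ?_, ?_⟩
  · intro j
    by_cases hj : j ∈ range n
    · simp only [hj, dif_pos]; exact (h j hj).choose_spec.1
    · simp only [hj, dif_neg, not_false_iff]; exact isLap_one
  · intro j hj
    simp only [hj, dif_pos]
    exact (h j hj).choose_spec.2

/-- the bound for a binary block -/
theorem block : ∃ D0 : ℕ, ∀ (e : List ℕ → Bool) (v : List ℕ), Bin e D0 v →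
    ∃ Φ : ℝ → ℝ, IsLap Φ ∧ (∀ κ, Adm e D0 v κ → ∀ s ∈ Set.Icc (0 : ℝ) 1,
      Gr e D0 v κ s ≤ Φ (κ * Cc e D0 v * s)) ∧ Φ (1 / 36) + 100 * Φ (1 / 12) ≤ 1 / 10 ^ 6 := by
  obtain ⟨ε, hε, η, hη, hF⟩ := exists_eps 720 (by norm_num)
  obtain ⟨h0, hh0⟩ := cb_tendsto hη
  obtain ⟨J, hJ⟩ := exists_nat_ge (720 / ε)
  have hJ' : (720 : ℝ) ≤ ε * J := by
    rw [div_le_iff₀ hε] at hJ
    linarith
  obtain ⟨d0, hd0⟩ : ∃ d0 : ℕ, 1 ≤ η * 2 ^ d0 := by
    obtain ⟨n, hn⟩ := pow_unbounded_of_one_lt (1 / η) (show (1 : ℝ) < 2 by norm_num)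
    refine ⟨n, ?_⟩
    rw [div_lt_iff₀ hη] at hn
    linarith
  have main : ∀ (d : ℕ) (e : List ℕ → Bool) (v : List ℕ), Bin e (h0 + J + d) v →
      ∃ Φ : ℝ → ℝ, IsLap Φ ∧ (∀ κ, Adm e (h0 + J + d) v κ → |κ - 2 / 3| ≤ η * 2 ^ d →
        ∀ s ∈ Set.Icc (0 : ℝ) 1, Gr e (h0 + J + d) v κ s ≤ Φ (κ * Cc e (h0 + J + d) v * s)) ∧
        Φ (1 / 36) + 100 * Φ (1 / 12) ≤ 1 / 10 ^ 6 := by
    intro d
    induction d with
    | zero =>
      intro e v hv
      refine ⟨fun σ => Real.exp (-(σ * 720)), isLap_exp (by norm_num), ?_, ?_⟩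
      · intro κ hκ hnear s hs
        rw [pow_zero, mul_one] at hnear
        have := mid hε hη (by norm_num) hF hh0 J v κ hv hκ hnear s hs
        rw [min_eq_right hJ'] at this
        rw [add_zero, Bin_Cc _ _ (by simpa using hv)]
        refine this.trans (le_of_eq ?_)
        congr 2
        ring
      · have h1 : Real.exp (-(1 / 36 * 720)) ≤ (1 / 2) ^ 20 := by
          have : Real.exp (-(1 / 36 * 720)) = (Real.exp (-1)) ^ 20 := by
            rw [← Real.exp_nat_mul]; congr 1; norm_num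
          rw [this]
          apply pow_le_pow_left₀ (Real.exp_pos _).le
          have := exp_neg_le_inv (x := 1) (by norm_num)
          linarith
        have h2 : Real.exp (-(1 / 12 * 720)) ≤ (1 / 2) ^ 60 := by
          have : Real.exp (-(1 / 12 * 720)) = (Real.exp (-1)) ^ 60 := by
            rw [← Real.exp_nat_mul]; congr 1; norm_num
          rw [this]
          apply pow_le_pow_left₀ (Real.exp_pos _).le
          have := exp_neg_le_inv (x := 1) (by norm_num)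
          linarith
        have h3 : ((1 : ℝ) / 2) ^ 20 + 100 * (1 / 2) ^ 60 ≤ 1 / 10 ^ 6 := by norm_num
        linarith
    | succ d ih =>
      intro e v hv
      rw [← add_assoc] at hv ⊢
      have he : e v = true := hv.1
      have hd : deg (e v) = 2 := by rw [he, deg_true]
      obtain ⟨Φ, hΦ, hP⟩ := exists_seq (n := 2) (P := fun j Φ =>
        (∀ κ, Adm e (h0 + J + d) (j :: v) κ → |κ - 2 / 3| ≤ η * 2 ^ d →
        ∀ s ∈ Set.Icc (0 : ℝ) 1, Gr e (h0 + J + d) (j :: v) κ s ≤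
          Φ (κ * Cc e (h0 + J + d) (j :: v) * s)) ∧
        Φ (1 / 36) + 100 * Φ (1 / 12) ≤ 1 / 10 ^ 6) (by
          intro j hj
          obtain ⟨Φ, h1, h2, h3⟩ := ih e (j :: v) (Bin_child hv (by rw [hd]; exact hj))
          exact ⟨Φ, h1, h2, h3⟩)
      obtain ⟨Ψ, hΨ, hΨ1, hΨ2, hΨ3⟩ := step_two e (h0 + J + d) v he Φ hΦ
      refine ⟨Ψ, hΨ, ?_, ?_⟩
      · intro κ hκ hnear
        apply hΨ1 κ hκ
        intro j hj s hs
        apply (hP j (by rw [← hd]; exact hj)).1 _ (kch_adm hκ hj) _ s hs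
        rw [Bin_kch hv hj]
        have hcb := cb_bounds (h0 + J + d)
        have hcbη := hh0 (h0 + J + d) (by omega)
        have hq := near hnear hcb.1 hcbη
        have : (1 + κ / (1 + 2 * cb (h0 + J + d))) / 2 - 2 / 3 =
          (κ / (1 + 2 * cb (h0 + J + d)) - 1 / 3) / 2 := by ring
        rw [this, abs_div, abs_two]
        rw [pow_succ] at hq
        have h2d : (1 : ℝ) ≤ 2 ^ d := one_le_pow₀ (by norm_num)
        have h3 : η ≤ η * 2 ^ d := le_mul_of_one_le_right hη.le h2d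
        linarith
      · have hw : ∀ j ∈ range 2, wt e (h0 + J + d) v j = 1 / 2 := by
          intro j hj
          exact Bin_wt hv (by rw [hd]; exact hj)
        rw [sum_range_succ, sum_range_succ, sum_range_zero, hw 0 (by simp), hw 1 (by simp)] at hΨ2 hΨ3
        have h0' := (hP 0 (by simp)).2
        have h1' := (hP 1 (by simp)).2
        have p0 := (hΦ 0).nonneg (1 / 36)
        have p1 := (hΦ 1).nonneg (1 / 36)
        have p2 := (hΦ 0).nonneg (1 / 12)
        have p3 := (hΦ 1).nonneg (1 / 12)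
        have h5 : Φ 0 (1 / 36) * Φ 1 (1 / 36) ≤
            1 / 10 ^ 6 * ((Φ 0 (1 / 36) + Φ 1 (1 / 36)) / 2) := by
          have h6 : Φ 0 (1 / 36) ≤ 1 / 10 ^ 6 := by linarith
          have h7 : Φ 1 (1 / 36) ≤ 1 / 10 ^ 6 := by linarith
          nlinarith [mul_le_mul_of_nonneg_left h7 p0, mul_le_mul_of_nonneg_right h6 p1]
        nlinarith
  refine ⟨h0 + J + d0, ?_⟩
  intro e v hv
  obtain ⟨Φ, h1, h2, h3⟩ := main d0 e v hv
  refine ⟨Φ, h1, ?_, h3⟩
  intro κ hκ
  apply h2 κ hκ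
  have := hκ.pos
  have := hκ.1
  rw [abs_le]
  constructor <;> linarith

end Pool.Agent.Work.MP_9e3593_pr
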