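import Mathlib

/-! Decoupling for product measures with countable coordinates. -/

set_option autoImplicit false

namespace Pool.Agent.Work.MP_9e3593_pr

open Finset MeasureTheory ProbabilityTheory

section
variable {ι α : Type*} [MeasurableSpace α] [MeasurableSingletonClass α] [Countable α]

/-- extension of a partial configuration by a default configuration -/
noncomputable def extS (x0 : ι → α) (S : Finset ι) (a : S → α) : ι → α := by
  classical
  exact fun i => if h : i ∈ S then a ⟨i, h⟩ else x0 i

lemma extS_restrict (x0 : ι → α) (S : Finset ι) (t : ι → α) (i : ι) (hi : i ∈ S) :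
    extS x0 S (S.restrict t) i = t i := by
  simp [extS, hi, Finset.restrict]

lemma measurable_of_dep (S : Finset ι) {β : Type*} [MeasurableSpace β] (h : (ι → α) → β)
    (hS : ∀ t t', (∀ i ∈ S, t i = t' i) → h t = h t') : Measurable h := by
  classical
  by_cases hne : Nonempty (ι → α)
  · obtain ⟨x0⟩ := hne
    have h1 : h = (fun a : S → α => h (extS x0 S a)) ∘ S.restrict := by
      funext t
      simp only [Function.comp]
      apply hS
      intro i hi
      rw [extS_restrict x0 S t i hi]
    rw [h1]
    apply Measurable.comp
    · exact measurable_of_countable _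
    · exact Finset.measurable_restrict S
  · have : IsEmpty (ι → α) := not_nonempty_iff.mp hne
    exact measurable_of_empty h

theorem ki2 (μ : ι → Measure α) [∀ i, IsProbabilityMeasure (μ i)] (S T : Finset ι)
    (hST : Disjoint S T) (h : (ι → α) → (ι → α) → ℝ)
    (hS : ∀ t t' s, (∀ i ∈ S, t i = t' i) → h t s = h t' s)
    (hT : ∀ t s s', (∀ i ∈ T, s i = s' i) → h t s = h t s')
    (C : ℝ) (hb : ∀ t s, |h t s| ≤ C) :
    ∫ t, h t t ∂Measure.infinitePi μ
      = ∫ t, ∫ s, h t s ∂Measure.infinitePi μ ∂Measure.infinitePi μ := by
  classical
  have hne : Nonempty (ι → α) := by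
    by_contra hcon
    have : IsEmpty (ι → α) := not_nonempty_iff.mp hcon
    have h1 : Measure.infinitePi μ Set.univ = 1 := measure_univ
    rw [Set.eq_empty_of_isEmpty Set.univ] at h1
    simp at h1
  obtain ⟨x0⟩ := hne
  set P := Measure.infinitePi μ with hP
  let g : (S → α) × (T → α) → ℝ := fun p => h (extS x0 S p.1) (extS x0 T p.2)
  have hg : ∀ t s, h t s = g (S.restrict t, T.restrict s) := by
    intro t s
    simp only [g]
    rw [hS t (extS x0 S (S.restrict t)) s (fun i hi => (extS_restrict x0 S t i hi).symm)]
    rw [hT _ s (extS x0 T (T.restrict s)) (fun i hi => (extS_restrict x0 T s i hi).symm)]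
  have hgm : Measurable g := measurable_of_countable _
  have hind : iIndepFun (fun (i : ι) (ω : ι → α) => ω i) P :=
    iIndepFun_infinitePi (P := μ) (X := fun _ a => a) (fun i => measurable_id)
  have h2 := hind.indepFun_finset S T hST (fun i => measurable_pi_apply i)
  have h3 : Measure.map (fun ω => (S.restrict ω, T.restrict ω)) P
      = (Measure.map S.restrict P).prod (Measure.map T.restrict P) := by
    have := (indepFun_iff_map_prod_eq_prod_map_map
      (Finset.measurable_restrict S).aemeasurable (Finset.measurable_restrict T).aemeasurable).mp h2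
    exact this
  have hPS : IsProbabilityMeasure (Measure.map S.restrict P) :=
    Measure.isProbabilityMeasure_map (Finset.measurable_restrict S).aemeasurable
  have hPT : IsProbabilityMeasure (Measure.map T.restrict P) :=
    Measure.isProbabilityMeasure_map (Finset.measurable_restrict T).aemeasurable
  have hgi : Integrable g ((Measure.map S.restrict P).prod (Measure.map T.restrict P)) := by
    apply Integrable.of_bound hgm.aestronglyMeasurable C
    filter_upwards with p
    exact hb _ _
  calc ∫ t, h t t ∂P = ∫ t, g (S.restrict t, T.restrict t) ∂P := by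
        simp_rw [hg]
    _ = ∫ p, g p ∂(Measure.map (fun ω => (S.restrict ω, T.restrict ω)) P) := by
        rw [integral_map]
        · exact ((Finset.measurable_restrict S).prodMk (Finset.measurable_restrict T)).aemeasurable
        · exact hgm.aestronglyMeasurable
    _ = ∫ p, g p ∂((Measure.map S.restrict P).prod (Measure.map T.restrict P)) := by rw [h3]
    _ = ∫ a, ∫ b, g (a, b) ∂(Measure.map T.restrict P) ∂(Measure.map S.restrict P) :=
        integral_prod _ hgi
    _ = ∫ t, ∫ b, g (S.restrict t, b) ∂(Measure.map T.restrict P) ∂P := by
        rw [integral_map (Finset.measurable_restrict S).aemeasurable]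
        exact (measurable_of_countable _).aestronglyMeasurable
    _ = ∫ t, ∫ s, g (S.restrict t, T.restrict s) ∂P ∂P := by
        congr 1
        funext t
        rw [integral_map (Finset.measurable_restrict T).aemeasurable]
        exact (measurable_of_countable _).aestronglyMeasurable
    _ = ∫ t, ∫ s, h t s ∂P ∂P := by simp_rw [hg]

end

end Pool.Agent.Work.MP_9e3593_pr
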