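import Mathlib
import Pool.Agent.Work.MP_9e3593_pr.An5
import Pool.Agent.Work.MP_9e3593_pr.KI2

/-! Analytic part, file 6: the annealed recursion. -/

set_option autoImplicit false

namespace Pool.Agent.Work.MP_9e3593_pr

open Finset MeasureTheory ProbabilityTheory

/-! ### dependence on finitely many coordinates -/

/-- the coordinates in the subtree of `v` of height `k` -/
def desc : ℕ → List ℕ → Finset (List ℕ)
  | 0, _ => ∅
  | k + 1, v => insert v ((range 5).biUnion (fun i => desc k (i :: v)))

lemma mem_desc_self (k : ℕ) (v : List ℕ) : v ∈ desc (k + 1) v := by simp [desc]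

lemma desc_child {k : ℕ} {v : List ℕ} {i : ℕ} (hi : i < 5) : desc k (i :: v) ⊆ desc (k + 1) v := by
  intro w hw
  simp only [desc, Finset.mem_insert, Finset.mem_biUnion, Finset.mem_range]
  exact Or.inr ⟨i, hi, hw⟩

lemma suffix_of_mem_desc : ∀ (k : ℕ) (v w : List ℕ), w ∈ desc k v → v <:+ w := by
  intro k
  induction k with
  | zero => intro v w hw; simp [desc] at hw
  | succ k ih =>
    intro v w hw
    simp only [desc, Finset.mem_insert, Finset.mem_biUnion, Finset.mem_range] at hw
    rcases hw with rfl | ⟨i, _, hi⟩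
    · exact List.suffix_rfl
    · exact (List.suffix_cons i v).trans (ih _ _ hi)

lemma not_mem_desc_child {k : ℕ} {v : List ℕ} {i : ℕ} : v ∉ desc k (i :: v) := by
  intro h
  have := (suffix_of_mem_desc _ _ _ h).length_le
  simp at this

lemma disjoint_desc {k : ℕ} {v : List ℕ} {i j : ℕ} (hij : i ≠ j) :
    Disjoint (desc k (i :: v)) (desc k (j :: v)) := by
  rw [Finset.disjoint_left]
  intro w h1 h2
  have h3 := suffix_of_mem_desc _ _ _ h1
  have h4 := suffix_of_mem_desc _ _ _ h2
  obtain ⟨l1, hl1⟩ := h3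
  obtain ⟨l2, hl2⟩ := h4
  have h5 := List.append_inj' (hl1.trans hl2.symm) (by simp)
  exact hij (List.cons.inj h5.2).1

lemma Cc_dep : ∀ (k : ℕ) (v : List ℕ) (e e' : List ℕ → Bool), (∀ w ∈ desc k v, e w = e' w) →
    Cc e k v = Cc e' k v := by
  intro k
  induction k with
  | zero => intro v e e' _; simp [Cc]
  | succ k ih =>
    intro v e e' h
    have h1 := h v (mem_desc_self k v)
    have h2 : ∑ c ∈ range (deg (e v)), Cc e k (c :: v) = ∑ c ∈ range (deg (e' v)), Cc e' k (c :: v) := by
      rw [h1]
      apply sum_congr rfl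
      intro c hc
      apply ih
      intro w hw
      apply h
      apply desc_child _ hw
      have := deg_le (e' v)
      simp only [Finset.mem_range] at hc
      omega
    simp only [Cc]
    rw [h2]

lemma Sc_dep {k : ℕ} {v : List ℕ} {e e' : List ℕ → Bool} (h : ∀ w ∈ desc (k + 1) v, e w = e' w) :
    Sc e k v = Sc e' k v := by
  unfold Sc
  rw [h v (mem_desc_self k v)]
  apply sum_congr rfl
  intro c hc
  apply Cc_dep
  intro w hw
  apply h
  apply desc_child _ hw
  have := deg_le (e' v)
  simp only [Finset.mem_range] at hc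
  omega

lemma wt_dep {k : ℕ} {v : List ℕ} {e e' : List ℕ → Bool} (h : ∀ w ∈ desc (k + 1) v, e w = e' w)
    {i : ℕ} (hi : i < 5) : wt e k v i = wt e' k v i := by
  unfold wt
  rw [Sc_dep h, Cc_dep k (i :: v) e e' (fun w hw => h w (desc_child hi hw))]

lemma Bin_dep : ∀ (k : ℕ) (v : List ℕ) (e e' : List ℕ → Bool), (∀ w ∈ desc k v, e w = e' w) →
    (Bin e k v ↔ Bin e' k v) := by
  intro k
  induction k with
  | zero => intro v e e' _; simp [Bin]
  | succ k ih =>
    intro v e e' h
    have h1 := h v (mem_desc_self k v)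
    have h2 := ih (0 :: v) e e' (fun w hw => h w (desc_child (by norm_num) hw))
    have h3 := ih (1 :: v) e e' (fun w hw => h w (desc_child (by norm_num) hw))
    simp only [Bin, h1, h2, h3]

open Classical in
/-- the numerical bounds for the mixtures -/
noncomputable def psi (D : ℕ) (e : List ℕ → Bool) : ℕ → List ℕ → ℝ × ℝ
  | 0, v => if Bin e D v then (1 / 10 ^ 6, 1 / 10 ^ 8) else (1, 1)
  | k + 1, v =>
    if e v = true then
      (72 / 73 * ∑ i ∈ range 2, wt e (D + k) v i * ((psi D e k (i :: v)).1 + (psi D e k (i :: v)).2),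
       24 / 25 * ((psi D e k (0 :: v)).1 * (psi D e k (1 :: v)).1 +
        ∑ i ∈ range 2, wt e (D + k) v i * (psi D e k (i :: v)).2))
    else
      (5 * ∑ i ∈ range 5, wt e (D + k) v i * (psi D e k (i :: v)).1,
       5 * ∑ i ∈ range 5, wt e (D + k) v i * (psi D e k (i :: v)).1)

lemma psi_dep (D : ℕ) : ∀ (k : ℕ) (v : List ℕ) (e e' : List ℕ → Bool),
    (∀ w ∈ desc (D + k) v, e w = e' w) → psi D e k v = psi D e' k v := by
  intro k
  induction k with
  | zero =>
    intro v e e' h
    have := Bin_dep D v e e' (by simpa using h)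
    by_cases hb : Bin e D v
    · simp only [psi, hb, this.1 hb, if_true]
    · have hb' : ¬ Bin e' D v := fun h => hb (this.2 h)
      simp only [psi, hb, hb', if_false]
  | succ k ih =>
    intro v e e' h
    rw [← add_assoc] at h
    have h1 := h v (mem_desc_self _ v)
    have h2 : ∀ i, i < 5 → psi D e k (i :: v) = psi D e' k (i :: v) := by
      intro i hi
      exact ih _ e e' (fun w hw => h w (desc_child hi hw))
    have h3 : ∀ i, i < 5 → wt e (D + k) v i = wt e' (D + k) v i := fun i hi => wt_dep h hi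
    simp only [psi, h1, h2 0 (by norm_num), h2 1 (by norm_num)]
    have h4 : ∑ i ∈ range 2, wt e (D + k) v i * ((psi D e k (i :: v)).1 + (psi D e k (i :: v)).2) =
        ∑ i ∈ range 2, wt e' (D + k) v i *
          ((psi D e' k (i :: v)).1 + (psi D e' k (i :: v)).2) := by
      apply sum_congr rfl
      intro i hi
      simp only [Finset.mem_range] at hi
      rw [h2 i (by omega), h3 i (by omega)]
    have h5 : ∑ i ∈ range 2, wt e (D + k) v i * (psi D e k (i :: v)).2 =
        ∑ i ∈ range 2, wt e' (D + k) v i * (psi D e' k (i :: v)).2 := by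
      apply sum_congr rfl
      intro i hi
      simp only [Finset.mem_range] at hi
      rw [h2 i (by omega), h3 i (by omega)]
    have h6 : ∑ i ∈ range 5, wt e (D + k) v i * (psi D e k (i :: v)).1 =
        ∑ i ∈ range 5, wt e' (D + k) v i * (psi D e' k (i :: v)).1 := by
      apply sum_congr rfl
      intro i hi
      simp only [Finset.mem_range] at hi
      rw [h2 i (by omega), h3 i (by omega)]
    rw [h4, h5, h6]

lemma psi_nonneg (D : ℕ) (e : List ℕ → Bool) : ∀ (k : ℕ) (v : List ℕ),
    0 ≤ (psi D e k v).1 ∧ 0 ≤ (psi D e k v).2 := by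
  intro k
  induction k with
  | zero =>
    intro v
    simp only [psi]
    split_ifs <;> norm_num
  | succ k ih =>
    intro v
    have hw := fun i => (wt_pos e (D + k) v i).le
    simp only [psi]
    split_ifs
    · constructor
      · apply mul_nonneg (by norm_num)
        apply sum_nonneg
        intro i _
        exact mul_nonneg (hw i) (add_nonneg (ih _).1 (ih _).2)
      · apply mul_nonneg (by norm_num)
        apply add_nonneg (mul_nonneg (ih _).1 (ih _).1)
        apply sum_nonneg
        intro i _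
        exact mul_nonneg (hw i) (ih _).2
    · constructor <;>
      · apply mul_nonneg (by norm_num)
        apply sum_nonneg
        intro i _
        exact mul_nonneg (hw i) (ih _).1

lemma wt_le_one (e : List ℕ → Bool) (k : ℕ) (v : List ℕ) (i : ℕ) : wt e k v i ≤ 1 := by
  unfold wt
  rw [div_le_one (Sc_pos e k v)]
  linarith [Cc_le e k (i :: v), Sc_ge_one e k v]

lemma psi_bdd (D : ℕ) : ∀ (k : ℕ), ∃ M : ℝ, 0 ≤ M ∧ ∀ (e : List ℕ → Bool) (v : List ℕ),
    (psi D e k v).1 ≤ M ∧ (psi D e k v).2 ≤ M := by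
  intro k
  induction k with
  | zero =>
    refine ⟨1, by norm_num, ?_⟩
    intro e v
    simp only [psi]
    split_ifs <;> norm_num
  | succ k ih =>
    obtain ⟨M, hM, h⟩ := ih
    refine ⟨100 * M + 100 * (M * M), by positivity, ?_⟩
    intro e v
    have hn := psi_nonneg D e k
    have hw := fun i => (wt_pos e (D + k) v i).le
    have hw1 := wt_le_one e (D + k) v
    have h1 : ∀ i, wt e (D + k) v i * (psi D e k (i :: v)).1 ≤ M := by
      intro i
      calc _ ≤ 1 * M := mul_le_mul (hw1 i) (h e _).1 (hn _).1 zero_le_one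
        _ = M := one_mul _
    have h2 : ∀ i, wt e (D + k) v i * (psi D e k (i :: v)).2 ≤ M := by
      intro i
      calc _ ≤ 1 * M := mul_le_mul (hw1 i) (h e _).2 (hn _).2 zero_le_one
        _ = M := one_mul _
    have h3 : (psi D e k (0 :: v)).1 * (psi D e k (1 :: v)).1 ≤ M * M :=
      mul_le_mul (h e _).1 (h e _).1 (hn _).1 hM
    have hMM : 0 ≤ M * M := by positivity
    simp only [psi]
    split_ifs
    · simp only [sum_range_succ, sum_range_zero, mul_add]
      have a0 := h1 0
      have a1 := h1 1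
      have b0 := h2 0
      have b1 := h2 1
      constructor <;> linarith
    · simp only [sum_range_succ, sum_range_zero]
      have a0 := h1 0
      have a1 := h1 1
      have a2 := h1 2
      have a3 := h1 3
      have a4 := h1 4
      constructor <;> linarith

/-- existence of the dominating mixtures -/
lemma exists_dom {D : ℕ} (hD : ∀ (e : List ℕ → Bool) (v : List ℕ), Bin e D v →
    ∃ Φ : ℝ → ℝ, IsLap Φ ∧ (∀ κ, Adm e D v κ → ∀ s ∈ Set.Icc (0 : ℝ) 1,
      Gr e D v κ s ≤ Φ (κ * Cc e D v * s)) ∧ Φ (1 / 36) + 100 * Φ (1 / 12) ≤ 1 / 10 ^ 6)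
    (e : List ℕ → Bool) : ∀ (k : ℕ) (v : List ℕ),
    ∃ Φ : ℝ → ℝ, IsLap Φ ∧ ((∀ κ, Adm e (D + k) v κ → ∀ s ∈ Set.Icc (0 : ℝ) 1,
      Gr e (D + k) v κ s ≤ Φ (κ * Cc e (D + k) v * s)) ∧
      Φ (1 / 36) ≤ (psi D e k v).1 ∧ Φ (1 / 12) ≤ (psi D e k v).2) := by
  intro k
  induction k with
  | zero =>
    intro v
    by_cases hb : Bin e D v
    · obtain ⟨Φ, h1, h2, h3⟩ := hD e v hb
      have p1 := h1.nonneg (1 / 36)
      have p2 := h1.nonneg (1 / 12)
      refine ⟨Φ, h1, h2, ?_, ?_⟩
      · simp only [psi, hb, if_true]; linarith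
      · simp only [psi, hb, if_true]
        norm_num at h3 ⊢
        linarith
    · refine ⟨fun _ => 1, isLap_one, ?_, ?_, ?_⟩
      · intro κ hκ s hs
        exact (Gr_mem e _ v κ s hκ hs).2
      · simp [psi, hb]
      · simp [psi, hb]
  | succ k ih =>
    intro v
    obtain ⟨Φ, hΦ, hP⟩ := exists_seq (n := 5) (P := fun j Φ =>
      (∀ κ, Adm e (D + k) (j :: v) κ → ∀ s ∈ Set.Icc (0 : ℝ) 1,
      Gr e (D + k) (j :: v) κ s ≤ Φ (κ * Cc e (D + k) (j :: v) * s)) ∧
      Φ (1 / 36) ≤ (psi D e k (j :: v)).1 ∧ Φ (1 / 12) ≤ (psi D e k (j :: v)).2)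
      (fun j _ => ih (j :: v))
    have hP' : ∀ j ∈ range (deg (e v)), j ∈ range 5 := by
      intro j hj
      have := deg_le (e v)
      simp only [Finset.mem_range] at hj ⊢
      omega
    have hw := fun i => (wt_pos e (D + k) v i).le
    have hn := psi_nonneg D e k
    cases hv : e v with
    | true =>
      obtain ⟨Ψ, h1, h2, h3, h4⟩ := step_two e (D + k) v hv Φ hΦ
      refine ⟨Ψ, h1, ?_, ?_, ?_⟩
      · intro κ hκ s hs
        apply h2 κ hκ _ s hs
        intro j hj s' hs'
        exact (hP j (hP' j hj)).1 _ (kch_adm hκ hj) s' hs'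
      · simp only [psi, hv, if_true]
        refine h3.trans ?_
        apply mul_le_mul_of_nonneg_left _ (by norm_num)
        apply sum_le_sum
        intro i hi
        apply mul_le_mul_of_nonneg_left _ (hw i)
        have hi5 : i ∈ range 5 := by simp only [Finset.mem_range] at hi ⊢; omega
        exact add_le_add (hP i hi5).2.1 (hP i hi5).2.2
      · simp only [psi, hv, if_true]
        refine h4.trans ?_
        apply mul_le_mul_of_nonneg_left _ (by norm_num)
        apply add_le_add
        · exact mul_le_mul (hP 0 (by simp)).2.1 (hP 1 (by simp)).2.1 ((hΦ 1).nonneg _) (hn _).1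
        · apply sum_le_sum
          intro i hi
          apply mul_le_mul_of_nonneg_left _ (hw i)
          have hi5 : i ∈ range 5 := by simp only [Finset.mem_range] at hi ⊢; omega
          exact (hP i hi5).2.2
    | false =>
      obtain ⟨Ψ, h1, h2, h3, h4⟩ := step_five e (D + k) v hv Φ hΦ
      have h5 : (5 : ℝ) * ∑ i ∈ range 5, wt e (D + k) v i * Φ i (1 / 36) ≤
          5 * ∑ i ∈ range 5, wt e (D + k) v i * (psi D e k (i :: v)).1 := by
        apply mul_le_mul_of_nonneg_left _ (by norm_num)
        apply sum_le_sum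
        intro i hi
        exact mul_le_mul_of_nonneg_left (hP i hi).2.1 (hw i)
      refine ⟨Ψ, h1, ?_, ?_, ?_⟩
      · intro κ hκ s hs
        apply h2 κ hκ _ s hs
        intro j hj s' hs'
        exact (hP j (hP' j hj)).1 _ (kch_adm hκ hj) s' hs'
      · simp only [psi, hv]
        exact h3.trans h5
      · simp only [psi, hv]
        exact h4.trans h5

end Pool.Agent.Work.MP_9e3593_pr
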