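import Mathlib
import Pool.Agent.Work.MP_9e3593_pr.An6

/-! Analytic part, file 7: expectation of the numerical bounds; the main analytic theorem. -/

set_option autoImplicit false

namespace Pool.Agent.Work.MP_9e3593_pr

open Finset MeasureTheory ProbabilityTheory

/-- the law of the environment -/
noncomputable abbrev PP (p : ℝ) : Measure (List ℕ → Bool) :=
  Measure.infinitePi (fun _ : List ℕ => bern p)

lemma intg_of_dep {p : ℝ} [IsProbabilityMeasure (bern p)] (S : Finset (List ℕ))
    (F : (List ℕ → Bool) → ℝ) (hF : ∀ e e', (∀ w ∈ S, e w = e' w) → F e = F e') (M : ℝ)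
    (hM : ∀ e, |F e| ≤ M) : Integrable F (PP p) := by
  apply Integrable.of_bound (measurable_of_dep S F hF).aestronglyMeasurable M
  filter_upwards with e
  exact hM e

lemma int_false {p : ℝ} (h0 : 0 ≤ p) (h1 : p ≤ 1) (v : List ℕ) :
    ∫ e, (if e v = false then (1 : ℝ) else 0) ∂(PP p) = 1 - p := by
  have := bern_prob h0 h1
  have hmp := measurePreserving_eval_infinitePi (fun _ : List ℕ => bern p) v
  have h2 : ∫ e, (if e v = false then (1 : ℝ) else 0) ∂(PP p) =
      ∫ b, (if b = false then (1 : ℝ) else 0) ∂(bern p) := by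
    have h3 := integral_map (μ := PP p) (φ := Function.eval v)
      (f := fun b : Bool => if b = false then (1 : ℝ) else 0) hmp.measurable.aemeasurable
      (measurable_of_countable _).aestronglyMeasurable
    rw [hmp.map_eq] at h3
    exact h3.symm
  rw [h2]
  have h3 : (fun b : Bool => if b = false then (1 : ℝ) else 0) =
      Set.indicator {false} (fun _ => (1 : ℝ)) := by
    funext b; cases b <;> simp
  rw [h3, integral_indicator_const _ (MeasurableSet.singleton _)]
  simp only [bern, Measure.real, Measure.coe_add, Measure.coe_smul, Pi.add_apply, Pi.smul_apply,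
    smul_eq_mul]
  rw [Measure.dirac_apply' _ (MeasurableSet.singleton _),
    Measure.dirac_apply' _ (MeasurableSet.singleton _)]
  simp
  linarith

lemma int_mul_indep {p : ℝ} [IsProbabilityMeasure (bern p)] (S T : Finset (List ℕ))
    (hST : Disjoint S T) (F G : (List ℕ → Bool) → ℝ)
    (hF : ∀ e e', (∀ w ∈ S, e w = e' w) → F e = F e')
    (hG : ∀ e e', (∀ w ∈ T, e w = e' w) → G e = G e') (M M' : ℝ)
    (hM : ∀ e, |F e| ≤ M) (hM' : ∀ e, |G e| ≤ M') :
    ∫ e, F e * G e ∂(PP p) = (∫ e, F e ∂(PP p)) * ∫ e, G e ∂(PP p) := by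
  have hM0 : 0 ≤ M := (abs_nonneg _).trans (hM (fun _ => true))
  have := ki2 (fun _ : List ℕ => bern p) S T hST (fun t s => F t * G s)
    (fun t t' s h => by rw [hF t t' h]) (fun t s s' h => by rw [hG s s' h]) (M * M')
    (fun t s => by rw [abs_mul]; exact mul_le_mul (hM t) (hM' s) (abs_nonneg _) hM0)
  rw [this]
  have h2 : ∀ t, ∫ s, F t * G s ∂(PP p) = F t * ∫ s, G s ∂(PP p) := fun t =>
    integral_const_mul _ _
  simp_rw [h2]
  exact integral_mul_const _ _

/-- the random variables `C ψ^a` and `C ψ^b` -/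
noncomputable def YA (D k : ℕ) (v : List ℕ) (e : List ℕ → Bool) : ℝ :=
  Cc e (D + k) v * (psi D e k v).1

noncomputable def YB (D k : ℕ) (v : List ℕ) (e : List ℕ → Bool) : ℝ :=
  Cc e (D + k) v * (psi D e k v).2

lemma YA_dep (D k : ℕ) (v : List ℕ) (e e' : List ℕ → Bool)
    (h : ∀ w ∈ desc (D + k) v, e w = e' w) : YA D k v e = YA D k v e' := by
  unfold YA
  rw [Cc_dep _ _ _ _ h, psi_dep _ _ _ _ _ h]

lemma YB_dep (D k : ℕ) (v : List ℕ) (e e' : List ℕ → Bool)
    (h : ∀ w ∈ desc (D + k) v, e w = e' w) : YB D k v e = YB D k v e' := by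
  unfold YB
  rw [Cc_dep _ _ _ _ h, psi_dep _ _ _ _ _ h]

lemma YA_nonneg (D k : ℕ) (v : List ℕ) (e : List ℕ → Bool) : 0 ≤ YA D k v e :=
  mul_nonneg (Cc_pos _ _ _).le (psi_nonneg D e k v).1

lemma YB_nonneg (D k : ℕ) (v : List ℕ) (e : List ℕ → Bool) : 0 ≤ YB D k v e :=
  mul_nonneg (Cc_pos _ _ _).le (psi_nonneg D e k v).2

lemma Y_bdd (D k : ℕ) : ∃ M : ℝ, 0 ≤ M ∧ ∀ (v : List ℕ) (e : List ℕ → Bool),
    |YA D k v e| ≤ M ∧ |YB D k v e| ≤ M := by
  obtain ⟨M, hM, h⟩ := psi_bdd D k
  refine ⟨M, hM, ?_⟩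
  intro v e
  rw [abs_of_nonneg (YA_nonneg _ _ _ _), abs_of_nonneg (YB_nonneg _ _ _ _)]
  have hn := psi_nonneg D e k v
  constructor
  · calc _ ≤ 1 * M := mul_le_mul (Cc_le _ _ _) (h e v).1 hn.1 zero_le_one
      _ = M := one_mul _
  · calc _ ≤ 1 * M := mul_le_mul (Cc_le _ _ _) (h e v).2 hn.2 zero_le_one
      _ = M := one_mul _

lemma YA_int {p : ℝ} [IsProbabilityMeasure (bern p)] (D k : ℕ) (v : List ℕ) :
    Integrable (YA D k v) (PP p) := by
  obtain ⟨M, _, h⟩ := Y_bdd D k
  exact intg_of_dep (desc (D + k) v) _ (YA_dep D k v) M (fun e => (h v e).1)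

lemma YB_int {p : ℝ} [IsProbabilityMeasure (bern p)] (D k : ℕ) (v : List ℕ) :
    Integrable (YB D k v) (PP p) := by
  obtain ⟨M, _, h⟩ := Y_bdd D k
  exact intg_of_dep (desc (D + k) v) _ (YB_dep D k v) M (fun e => (h v e).2)

lemma Cw_two (e : List ℕ → Bool) (k : ℕ) (v : List ℕ) (i : ℕ) :
    Cc e (k + 1) v * wt e k v i ≤ 1 / 2 * Cc e k (i :: v) := by
  have hS := Sc_ge_one e k v
  have hC := Cc_pos e k (i :: v)
  rw [Cc_succ]
  unfold wt
  have : Sc e k v / (1 + Sc e k v) * (Cc e k (i :: v) / Sc e k v) =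
      Cc e k (i :: v) / (1 + Sc e k v) := by field_simp
  rw [this, div_le_iff₀ (by linarith)]
  nlinarith

lemma Cw_five {e : List ℕ → Bool} {v : List ℕ} (hv : e v = false) (k : ℕ) (i : ℕ) :
    Cc e (k + 1) v * wt e k v i ≤ 2 / 7 * Cc e k (i :: v) := by
  have hS := Sc_ge_deg e k v
  rw [hv, deg_false] at hS
  push_cast at hS
  have hC := Cc_pos e k (i :: v)
  rw [Cc_succ]
  unfold wt
  have : Sc e k v / (1 + Sc e k v) * (Cc e k (i :: v) / Sc e k v) =
      Cc e k (i :: v) / (1 + Sc e k v) := by field_simp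
  rw [this, div_le_iff₀ (by linarith)]
  nlinarith

lemma YA_step (D k : ℕ) (v : List ℕ) (e : List ℕ → Bool) :
    YA D (k + 1) v e ≤ 36 / 73 * ∑ i ∈ range 2, (YA D k (i :: v) e + YB D k (i :: v) e) +
      (if e v = false then (1 : ℝ) else 0) * (10 / 7 * ∑ i ∈ range 5, YA D k (i :: v) e) := by
  have hn := psi_nonneg D e k
  have hA := fun i => YA_nonneg D k (i :: v) e
  have hB := fun i => YB_nonneg D k (i :: v) e
  unfold YA YB at *
  rw [← add_assoc]
  cases hv : e v with
  | true =>
    have h1 : ∀ i, Cc e (D + k + 1) v * (wt e (D + k) v i *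
        ((psi D e k (i :: v)).1 + (psi D e k (i :: v)).2)) ≤ 1 / 2 *
        (Cc e (D + k) (i :: v) * (psi D e k (i :: v)).1 +
          Cc e (D + k) (i :: v) * (psi D e k (i :: v)).2) := by
      intro i
      have := mul_le_mul_of_nonneg_right (Cw_two e (D + k) v i)
        (add_nonneg (hn (i :: v)).1 (hn (i :: v)).2)
      linarith
    have h10 := h1 0
    have h11 := h1 1
    simp only [psi, hv, if_true, Bool.true_eq_false, if_false, zero_mul, add_zero, sum_range_succ,
      sum_range_zero, zero_add]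
    linarith
  | false =>
    have h1 : ∀ i, Cc e (D + k + 1) v * (wt e (D + k) v i * (psi D e k (i :: v)).1) ≤ 2 / 7 *
        (Cc e (D + k) (i :: v) * (psi D e k (i :: v)).1) := by
      intro i
      have := mul_le_mul_of_nonneg_right (Cw_five hv (D + k) i) (hn (i :: v)).1
      linarith
    have h10 := h1 0
    have h11 := h1 1
    have h12 := h1 2
    have h13 := h1 3
    have h14 := h1 4
    have a0 := hA 0
    have a1 := hA 1
    have b0 := hB 0
    have b1 := hB 1
    simp only [psi, hv, if_true, Bool.false_eq_true, if_false, one_mul, sum_range_succ,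
      sum_range_zero, zero_add]
    linarith

lemma YB_step (D k : ℕ) (v : List ℕ) (e : List ℕ → Bool) :
    YB D (k + 1) v e ≤ 24 / 25 * (4 * (YA D k (0 :: v) e * YA D k (1 :: v) e) +
      1 / 2 * ∑ i ∈ range 2, YB D k (i :: v) e) +
      (if e v = false then (1 : ℝ) else 0) * (10 / 7 * ∑ i ∈ range 5, YA D k (i :: v) e) := by
  have hn := psi_nonneg D e k
  have hA := fun i => YA_nonneg D k (i :: v) e
  have hB := fun i => YB_nonneg D k (i :: v) e
  unfold YA YB at *
  rw [← add_assoc]
  cases hv : e v with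
  | true =>
    have h1 : ∀ i, Cc e (D + k + 1) v * (wt e (D + k) v i * (psi D e k (i :: v)).2) ≤ 1 / 2 *
        (Cc e (D + k) (i :: v) * (psi D e k (i :: v)).2) := by
      intro i
      have := mul_le_mul_of_nonneg_right (Cw_two e (D + k) v i) (hn (i :: v)).2
      linarith
    have h10 := h1 0
    have h11 := h1 1
    have h2 : Cc e (D + k + 1) v * ((psi D e k (0 :: v)).1 * (psi D e k (1 :: v)).1) ≤
        4 * (Cc e (D + k) (0 :: v) * (psi D e k (0 :: v)).1 *
          (Cc e (D + k) (1 :: v) * (psi D e k (1 :: v)).1)) := by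
      have hx := (hn (0 :: v)).1
      have hy := (hn (1 :: v)).1
      have hxy := mul_nonneg hx hy
      have hc0 := Cc_ge e (D + k) (0 :: v)
      have hc1 := Cc_ge e (D + k) (1 :: v)
      have hc01 : 1 ≤ 4 * (Cc e (D + k) (0 :: v) * Cc e (D + k) (1 :: v)) := by nlinarith
      calc Cc e (D + k + 1) v * ((psi D e k (0 :: v)).1 * (psi D e k (1 :: v)).1)
          ≤ 1 * ((psi D e k (0 :: v)).1 * (psi D e k (1 :: v)).1) :=
            mul_le_mul_of_nonneg_right (Cc_le _ _ _) hxy
        _ ≤ (4 * (Cc e (D + k) (0 :: v) * Cc e (D + k) (1 :: v))) *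
            ((psi D e k (0 :: v)).1 * (psi D e k (1 :: v)).1) :=
            mul_le_mul_of_nonneg_right hc01 hxy
        _ = _ := by ring
    simp only [psi, hv, if_true, Bool.true_eq_false, if_false, zero_mul, add_zero, sum_range_succ,
      sum_range_zero, zero_add]
    linarith
  | false =>
    have h1 : ∀ i, Cc e (D + k + 1) v * (wt e (D + k) v i * (psi D e k (i :: v)).1) ≤ 2 / 7 *
        (Cc e (D + k) (i :: v) * (psi D e k (i :: v)).1) := by
      intro i
      have := mul_le_mul_of_nonneg_right (Cw_five hv (D + k) i) (hn (i :: v)).1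
      linarith
    have h10 := h1 0
    have h11 := h1 1
    have h12 := h1 2
    have h13 := h1 3
    have h14 := h1 4
    have a01 := mul_nonneg (hA 0) (hA 1)
    have b0 := hB 0
    have b1 := hB 1
    simp only [psi, hv, if_true, Bool.false_eq_true, if_false, one_mul, sum_range_succ,
      sum_range_zero, zero_add]
    linarith

lemma int_five {p : ℝ} (h0 : 0 ≤ p) (h1 : p ≤ 1) (D k : ℕ) (v : List ℕ) {X : ℝ}
    (hX : ∀ v, ∫ e, YA D k v e ∂(PP p) ≤ X) :
    Integrable (fun e => (if e v = false then (1 : ℝ) else 0) *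
      (10 / 7 * ∑ i ∈ range 5, YA D k (i :: v) e)) (PP p) ∧
    ∫ e, (if e v = false then (1 : ℝ) else 0) * (10 / 7 * ∑ i ∈ range 5, YA D k (i :: v) e) ∂(PP p)
      ≤ 8 * (1 - p) * X := by
  have := bern_prob h0 h1
  obtain ⟨M, hM, hb⟩ := Y_bdd D k
  have hdepF : ∀ e e' : List ℕ → Bool, (∀ w ∈ ({v} : Finset (List ℕ)), e w = e' w) →
      (if e v = false then (1 : ℝ) else 0) = (if e' v = false then (1 : ℝ) else 0) := by
    intro e e' h
    rw [h v (by simp)]
  have hdepG : ∀ e e' : List ℕ → Bool,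
      (∀ w ∈ (range 5).biUnion (fun i => desc (D + k) (i :: v)), e w = e' w) →
      (10 / 7 * ∑ i ∈ range 5, YA D k (i :: v) e) = (10 / 7 * ∑ i ∈ range 5, YA D k (i :: v) e') := by
    intro e e' h
    congr 1
    apply sum_congr rfl
    intro i hi
    apply YA_dep
    intro w hw
    apply h
    simp only [Finset.mem_biUnion]
    exact ⟨i, hi, hw⟩
  have hdisj : Disjoint ({v} : Finset (List ℕ))
      ((range 5).biUnion (fun i => desc (D + k) (i :: v))) := by
    rw [Finset.disjoint_singleton_left]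
    simp only [Finset.mem_biUnion, not_exists, not_and]
    intro i _
    exact not_mem_desc_child
  have hbF : ∀ e : List ℕ → Bool, |(if e v = false then (1 : ℝ) else 0)| ≤ 1 := by
    intro e; split_ifs <;> simp
  have hbG : ∀ e : List ℕ → Bool, |10 / 7 * ∑ i ∈ range 5, YA D k (i :: v) e| ≤ 10 / 7 * (5 * M) := by
    intro e
    rw [abs_mul, abs_of_pos (by norm_num : (0 : ℝ) < 10 / 7)]
    apply mul_le_mul_of_nonneg_left _ (by norm_num)
    calc |∑ i ∈ range 5, YA D k (i :: v) e| ≤ ∑ i ∈ range 5, |YA D k (i :: v) e| :=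
          abs_sum_le_sum_abs _ _
      _ ≤ ∑ i ∈ range 5, M := sum_le_sum (fun i _ => (hb (i :: v) e).1)
      _ = 5 * M := by simp
  constructor
  · apply intg_of_dep (insert v ((range 5).biUnion (fun i => desc (D + k) (i :: v)))) _ _
      (1 * (10 / 7 * (5 * M)))
    · intro e
      rw [abs_mul]
      exact mul_le_mul (hbF e) (hbG e) (abs_nonneg _) zero_le_one
    · intro e e' h
      rw [hdepF e e' (fun w hw => h w (by
        simp only [Finset.mem_singleton] at hw; simp [hw])),
        hdepG e e' (fun w hw => h w (Finset.mem_insert_of_mem hw))]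
  · rw [int_mul_indep {v} _ hdisj _ _ hdepF hdepG 1 (10 / 7 * (5 * M)) hbF hbG, int_false h0 h1]
    rw [integral_const_mul, integral_finsetSum _ (fun i _ => YA_int D k (i :: v))]
    have h2 : ∑ i ∈ range 5, ∫ e, YA D k (i :: v) e ∂(PP p) ≤ 5 * X := by
      calc _ ≤ ∑ i ∈ range 5, X := sum_le_sum (fun i _ => hX (i :: v))
        _ = 5 * X := by simp
    have h3 : 0 ≤ ∑ i ∈ range 5, ∫ e, YA D k (i :: v) e ∂(PP p) :=
      sum_nonneg (fun i _ => integral_nonneg (fun e => YA_nonneg D k (i :: v) e))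
    have h4 : 0 ≤ 1 - p := by linarith
    nlinarith [mul_nonneg h4 h3, mul_le_mul_of_nonneg_left h2 h4]

lemma int_step {p : ℝ} (h0 : 0 ≤ p) (h1 : p ≤ 1) (D k : ℕ) {X Y : ℝ} (hX0 : 0 ≤ X)
    (hX : ∀ v, ∫ e, YA D k v e ∂(PP p) ≤ X) (hY : ∀ v, ∫ e, YB D k v e ∂(PP p) ≤ Y) :
    (∀ v, ∫ e, YA D (k + 1) v e ∂(PP p) ≤ 72 / 73 * (X + Y) + 8 * (1 - p) * X) ∧
    (∀ v, ∫ e, YB D (k + 1) v e ∂(PP p) ≤ 24 / 25 * (4 * X ^ 2 + Y) + 8 * (1 - p) * X) := by
  have := bern_prob h0 h1
  obtain ⟨M, hM, hb⟩ := Y_bdd D k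
  constructor
  · intro v
    obtain ⟨h5i, h5⟩ := int_five h0 h1 D k v hX
    have hi1 : Integrable (fun e => 36 / 73 * ∑ i ∈ range 2,
        (YA D k (i :: v) e + YB D k (i :: v) e)) (PP p) := by
      apply Integrable.const_mul
      apply integrable_finsetSum
      intro i _
      exact (YA_int D k (i :: v)).add (YB_int D k (i :: v))
    calc ∫ e, YA D (k + 1) v e ∂(PP p)
        ≤ ∫ e, (36 / 73 * ∑ i ∈ range 2, (YA D k (i :: v) e + YB D k (i :: v) e) +
          (if e v = false then (1 : ℝ) else 0) *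
          (10 / 7 * ∑ i ∈ range 5, YA D k (i :: v) e)) ∂(PP p) := by
          apply integral_mono (YA_int D (k + 1) v) (hi1.add h5i)
          intro e
          exact YA_step D k v e
      _ = 36 / 73 * ∑ i ∈ range 2, (∫ e, YA D k (i :: v) e ∂(PP p) +
            ∫ e, YB D k (i :: v) e ∂(PP p)) +
          ∫ e, (if e v = false then (1 : ℝ) else 0) *
          (10 / 7 * ∑ i ∈ range 5, YA D k (i :: v) e) ∂(PP p) := by
          have hsi : ∀ i : ℕ, Integrable (fun e => YA D k (i :: v) e + YB D k (i :: v) e) (PP p) :=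
            fun i => (YA_int D k (i :: v)).add (YB_int D k (i :: v))
          rw [integral_add hi1 h5i, integral_const_mul, integral_finsetSum _ (fun i _ => hsi i)]
          congr 2
          apply sum_congr rfl
          intro i _
          exact integral_add (YA_int D k (i :: v)) (YB_int D k (i :: v))
      _ ≤ _ := by
          have h6 : ∑ i ∈ range 2, (∫ e, YA D k (i :: v) e ∂(PP p) +
            ∫ e, YB D k (i :: v) e ∂(PP p)) ≤ 2 * (X + Y) := by
            calc _ ≤ ∑ i ∈ range 2, (X + Y) :=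
                  sum_le_sum (fun i _ => add_le_add (hX (i :: v)) (hY (i :: v)))
              _ = 2 * (X + Y) := by simp; ring
          linarith
  · intro v
    obtain ⟨h5i, h5⟩ := int_five h0 h1 D k v hX
    have hprod := int_mul_indep (p := p) (desc (D + k) (0 :: v)) (desc (D + k) (1 :: v))
      (disjoint_desc (by norm_num)) (YA D k (0 :: v)) (YA D k (1 :: v)) (YA_dep D k (0 :: v))
      (YA_dep D k (1 :: v)) M M (fun e => (hb _ e).1) (fun e => (hb _ e).1)
    have hprodi : Integrable (fun e => YA D k (0 :: v) e * YA D k (1 :: v) e) (PP p) := by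
      apply intg_of_dep (desc (D + k) (0 :: v) ∪ desc (D + k) (1 :: v)) _ _ (M * M)
      · intro e
        rw [abs_mul]
        exact mul_le_mul (hb _ e).1 (hb _ e).1 (abs_nonneg _) hM
      · intro e e' h
        rw [YA_dep D k (0 :: v) e e' (fun w hw => h w (Finset.mem_union_left _ hw)),
          YA_dep D k (1 :: v) e e' (fun w hw => h w (Finset.mem_union_right _ hw))]
    have hsi : Integrable (fun e => ∑ i ∈ range 2, YB D k (i :: v) e) (PP p) :=
      integrable_finsetSum _ (fun i _ => YB_int D k (i :: v))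
    have hi1 : Integrable (fun e => 24 / 25 * (4 * (YA D k (0 :: v) e * YA D k (1 :: v) e) +
        1 / 2 * ∑ i ∈ range 2, YB D k (i :: v) e)) (PP p) :=
      ((hprodi.const_mul 4).add (hsi.const_mul (1 / 2))).const_mul (24 / 25)
    calc ∫ e, YB D (k + 1) v e ∂(PP p)
        ≤ ∫ e, (24 / 25 * (4 * (YA D k (0 :: v) e * YA D k (1 :: v) e) +
          1 / 2 * ∑ i ∈ range 2, YB D k (i :: v) e) +
          (if e v = false then (1 : ℝ) else 0) *
          (10 / 7 * ∑ i ∈ range 5, YA D k (i :: v) e)) ∂(PP p) := by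
          apply integral_mono (YB_int D (k + 1) v) (hi1.add h5i)
          intro e
          exact YB_step D k v e
      _ = 24 / 25 * (4 * ((∫ e, YA D k (0 :: v) e ∂(PP p)) * ∫ e, YA D k (1 :: v) e ∂(PP p)) +
          1 / 2 * ∑ i ∈ range 2, ∫ e, YB D k (i :: v) e ∂(PP p)) +
          ∫ e, (if e v = false then (1 : ℝ) else 0) *
          (10 / 7 * ∑ i ∈ range 5, YA D k (i :: v) e) ∂(PP p) := by
          rw [integral_add hi1 h5i, integral_const_mul,
            integral_add (hprodi.const_mul 4) (hsi.const_mul (1 / 2)), integral_const_mul,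
            integral_const_mul, hprod, integral_finsetSum _ (fun i _ => YB_int D k (i :: v))]
      _ ≤ _ := by
          have h6 : ∑ i ∈ range 2, ∫ e, YB D k (i :: v) e ∂(PP p) ≤ 2 * Y := by
            calc _ ≤ ∑ i ∈ range 2, Y := sum_le_sum (fun i _ => hY (i :: v))
              _ = 2 * Y := by simp
          have h7 : (∫ e, YA D k (0 :: v) e ∂(PP p)) * ∫ e, YA D k (1 :: v) e ∂(PP p) ≤ X ^ 2 := by
            rw [pow_two]
            exact mul_le_mul (hX _) (hX _) (integral_nonneg (fun e => YA_nonneg D k _ e)) hX0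
          linarith

open Classical in
lemma int_notBin {p : ℝ} (h0 : 0 ≤ p) (h1 : p ≤ 1) : ∀ (k : ℕ) (v : List ℕ),
    Integrable (fun e => if Bin e k v then (0 : ℝ) else 1) (PP p) ∧
    ∫ e, (if Bin e k v then (0 : ℝ) else 1) ∂(PP p) ≤ (2 ^ k - 1) * (1 - p) := by
  have := bern_prob h0 h1
  have hint : ∀ (k : ℕ) (v : List ℕ),
      Integrable (fun e => if Bin e k v then (0 : ℝ) else 1) (PP p) := by
    intro k v
    apply intg_of_dep (desc k v) _ _ 1
    · intro e; split_ifs <;> simp
    · intro e e' h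
      have := Bin_dep k v e e' h
      by_cases hb : Bin e k v
      · simp only [hb, this.1 hb, if_true]
      · have hb' : ¬ Bin e' k v := fun h => hb (this.2 h)
        simp only [hb, hb', if_false]
  intro k
  induction k with
  | zero =>
    intro v
    refine ⟨hint 0 v, ?_⟩
    simp [Bin]
  | succ k ih =>
    intro v
    refine ⟨hint (k + 1) v, ?_⟩
    have hfi : Integrable (fun e : List ℕ → Bool => if e v = false then (1 : ℝ) else 0) (PP p) := by
      apply intg_of_dep {v} _ _ 1
      · intro e; split_ifs <;> simp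
      · intro e e' h; rw [h v (by simp)]
    have hsum : Integrable (fun e => (if Bin e k (0 :: v) then (0 : ℝ) else 1) +
        (if Bin e k (1 :: v) then (0 : ℝ) else 1)) (PP p) := (hint k (0 :: v)).add (hint k (1 :: v))
    calc ∫ e, (if Bin e (k + 1) v then (0 : ℝ) else 1) ∂(PP p)
        ≤ ∫ e, ((if e v = false then (1 : ℝ) else 0) +
          ((if Bin e k (0 :: v) then (0 : ℝ) else 1) +
          (if Bin e k (1 :: v) then (0 : ℝ) else 1))) ∂(PP p) := by
          apply integral_mono (hint (k + 1) v) (hfi.add hsum)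
          intro e
          show (if Bin e (k + 1) v then (0 : ℝ) else 1) ≤ (if e v = false then (1 : ℝ) else 0) +
            ((if Bin e k (0 :: v) then (0 : ℝ) else 1) + (if Bin e k (1 :: v) then (0 : ℝ) else 1))
          by_cases hv : e v = false
          · simp only [hv, if_true]
            split_ifs <;> norm_num
          · have hv' : e v = true := by simpa using hv
            by_cases hb0 : Bin e k (0 :: v)
            · by_cases hb1 : Bin e k (1 :: v)
              · have : Bin e (k + 1) v := ⟨hv', hb0, hb1⟩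
                simp [this, hv, hb0, hb1]
              · simp only [hb1, if_false]
                split_ifs <;> norm_num
            · simp only [hb0, if_false]
              split_ifs <;> norm_num
      _ = (1 - p) + (∫ e, (if Bin e k (0 :: v) then (0 : ℝ) else 1) ∂(PP p) +
          ∫ e, (if Bin e k (1 :: v) then (0 : ℝ) else 1) ∂(PP p)) := by
          rw [integral_add hfi hsum, int_false h0 h1,
            integral_add (hint k (0 :: v)) (hint k (1 :: v))]
      _ ≤ (1 - p) + ((2 ^ k - 1) * (1 - p) + (2 ^ k - 1) * (1 - p)) := by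
          have := (ih (0 :: v)).2
          have := (ih (1 :: v)).2
          linarith
      _ = _ := by ring

/-- The main analytic theorem. -/
theorem analytic_main : ∃ p : ℝ, 0 ≤ p ∧ p < 1 ∧ Filter.Tendsto (fun N : ℕ =>
    ∫ e, ∑ c ∈ Finset.range (deg (e [])), wt e N [] c * Gr e N [c] 1 (1/18)
      ∂(MeasureTheory.Measure.infinitePi (fun _ : List ℕ => bern p))) Filter.atTop (nhds 0) := by
  classical
  obtain ⟨D, hD⟩ := block
  set δ : ℝ := 1 / (10 ^ 8 * 2 ^ D) with hδ
  have h2D : (1 : ℝ) ≤ 2 ^ D := one_le_pow₀ (by norm_num)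
  have hδ0 : 0 < δ := by positivity
  have hδ1 : δ ≤ 1 / 10 ^ 8 := by
    rw [hδ]
    apply one_div_le_one_div_of_le (by norm_num)
    linarith
  have hδ2 : 2 ^ D * δ = 1 / 10 ^ 8 := by
    rw [hδ]; field_simp
  set p : ℝ := 1 - δ with hp
  have hp0 : 0 ≤ p := by
    have : (1 : ℝ) / 10 ^ 8 ≤ 1 := by norm_num
    linarith
  have hp1 : p < 1 := by linarith
  refine ⟨p, hp0, hp1, ?_⟩
  have := bern_prob hp0 hp1.le
  have hpδ : 1 - p = δ := by rw [hp]; ring
  -- the recursion
  have key : ∀ k : ℕ, ∃ X Y : ℝ, 0 ≤ X ∧ 0 ≤ Y ∧ X + 100 * Y ≤ 1 / 10 ^ 5 * (995 / 1000) ^ k ∧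
      (∀ v, ∫ e, YA D k v e ∂(PP p) ≤ X) ∧ (∀ v, ∫ e, YB D k v e ∂(PP p) ≤ Y) := by
    intro k
    induction k with
    | zero =>
      refine ⟨1 / 10 ^ 6 + 1 / 10 ^ 8, 1 / 10 ^ 8 + 1 / 10 ^ 8, by norm_num, by norm_num,
        by norm_num, ?_, ?_⟩
      · intro v
        obtain ⟨hi, hle⟩ := int_notBin hp0 hp1.le D v
        calc ∫ e, YA D 0 v e ∂(PP p)
            ≤ ∫ e, (1 / 10 ^ 6 + (if Bin e D v then (0 : ℝ) else 1)) ∂(PP p) := by
              apply integral_mono (YA_int D 0 v) ((integrable_const _).add hi)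
              intro e
              show YA D 0 v e ≤ 1 / 10 ^ 6 + (if Bin e D v then (0 : ℝ) else 1)
              have hC := Cc_bounds e (D + 0) v
              by_cases hb : Bin e D v
              · simp only [YA, psi, hb, if_true]
                nlinarith
              · simp only [YA, psi, hb, if_false]
                linarith
          _ = 1 / 10 ^ 6 + ∫ e, (if Bin e D v then (0 : ℝ) else 1) ∂(PP p) := by
              rw [integral_add (integrable_const _) hi]
              simp
          _ ≤ _ := by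
              rw [hpδ] at hle
              nlinarith
      · intro v
        obtain ⟨hi, hle⟩ := int_notBin hp0 hp1.le D v
        calc ∫ e, YB D 0 v e ∂(PP p)
            ≤ ∫ e, (1 / 10 ^ 8 + (if Bin e D v then (0 : ℝ) else 1)) ∂(PP p) := by
              apply integral_mono (YB_int D 0 v) ((integrable_const _).add hi)
              intro e
              show YB D 0 v e ≤ 1 / 10 ^ 8 + (if Bin e D v then (0 : ℝ) else 1)
              have hC := Cc_bounds e (D + 0) v
              by_cases hb : Bin e D v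
              · simp only [YB, psi, hb, if_true]
                nlinarith
              · simp only [YB, psi, hb, if_false]
                linarith
          _ = 1 / 10 ^ 8 + ∫ e, (if Bin e D v then (0 : ℝ) else 1) ∂(PP p) := by
              rw [integral_add (integrable_const _) hi]
              simp
          _ ≤ _ := by
              rw [hpδ] at hle
              nlinarith
    | succ k ih =>
      obtain ⟨X, Y, hX0, hY0, hXY, hX, hY⟩ := ih
      obtain ⟨h1, h2⟩ := int_step hp0 hp1.le D k hX0 hX hY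
      rw [hpδ] at h1 h2
      have hr : (995 / 1000 : ℝ) ^ k ≤ 1 := pow_le_one₀ (by norm_num) (by norm_num)
      have hX1 : X ≤ 1 / 10 ^ 5 := by
        have : X + 100 * Y ≤ 1 / 10 ^ 5 * 1 :=
          hXY.trans (mul_le_mul_of_nonneg_left hr (by norm_num))
        linarith
      refine ⟨_, _, ?_, ?_, ?_, h1, h2⟩
      · positivity
      · positivity
      · have h3 : X ^ 2 ≤ 1 / 10 ^ 5 * X := by
          rw [pow_two]; exact mul_le_mul_of_nonneg_right hX1 hX0
        have h4 : δ * X ≤ 1 / 10 ^ 8 * X := mul_le_mul_of_nonneg_right hδ1 hX0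
        have h5 : 72 / 73 * (X + Y) + 8 * δ * X + 100 * (24 / 25 * (4 * X ^ 2 + Y) + 8 * δ * X) ≤
            995 / 1000 * (X + 100 * Y) := by
          norm_num at h3 h4 ⊢
          linarith
        calc _ ≤ 995 / 1000 * (X + 100 * Y) := h5
          _ ≤ 995 / 1000 * (1 / 10 ^ 5 * (995 / 1000) ^ k) :=
            mul_le_mul_of_nonneg_left hXY (by norm_num)
          _ = _ := by rw [pow_succ]; ring
  -- conclusion
  rw [← Filter.tendsto_add_atTop_iff_nat D]
  have hlim : Filter.Tendsto (fun k : ℕ => 5 * (1 / 10 ^ 5 * (995 / 1000 : ℝ) ^ k))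
      Filter.atTop (nhds 0) := by
    have h1 := tendsto_pow_atTop_nhds_zero_of_lt_one (r := (995 / 1000 : ℝ)) (by norm_num)
      (by norm_num)
    have h2 := (h1.const_mul (1 / 10 ^ 5 : ℝ)).const_mul 5
    simpa using h2
  have hGr : ∀ (k : ℕ) (e : List ℕ → Bool) (c : ℕ),
      0 ≤ wt e (k + D) [] c * Gr e (k + D) [c] 1 (1 / 18) ∧
      wt e (k + D) [] c * Gr e (k + D) [c] 1 (1 / 18) ≤ YA D k [c] e := by
    intro k e c
    have hs : (1 / 18 : ℝ) ∈ Set.Icc (0 : ℝ) 1 := ⟨by norm_num, by norm_num⟩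
    have hmem := Gr_mem e (k + D) [c] 1 (1 / 18) (Adm_one e _ _) hs
    have hw := wt_pos e (k + D) [] c
    refine ⟨mul_nonneg hw.le hmem.1, ?_⟩
    rw [add_comm k D] at hmem hw ⊢
    obtain ⟨Φ, hΦ, h1, h2, _⟩ := exists_dom hD e k [c]
    have hC := Cc_bounds e (D + k) [c]
    have h3 := h1 1 (Adm_one e _ _) (1 / 18) hs
    have h4 : Φ (1 * Cc e (D + k) [c] * (1 / 18)) ≤ Φ (1 / 36) := hΦ.anti (by linarith)
    have h5 : wt e (D + k) [] c ≤ Cc e (D + k) [c] := by
      unfold wt
      apply div_le_self (Cc_pos _ _ _).le (Sc_ge_one _ _ _)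
    unfold YA
    exact mul_le_mul h5 (h3.trans (h4.trans h2)) hmem.1 (Cc_pos _ _ _).le
  apply tendsto_of_tendsto_of_tendsto_of_le_of_le tendsto_const_nhds hlim
  · intro k
    apply integral_nonneg
    intro e
    apply sum_nonneg
    intro c _
    exact (hGr k e c).1
  · intro k
    obtain ⟨X, Y, hX0, hY0, hXY, hX, hY⟩ := key k
    have hi : Integrable (fun e => ∑ c ∈ range 5, YA D k [c] e) (PP p) :=
      integrable_finsetSum _ (fun c _ => YA_int D k [c])
    calc ∫ e, ∑ c ∈ Finset.range (deg (e [])), wt e (k + D) [] c * Gr e (k + D) [c] 1 (1/18)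
          ∂(PP p) ≤ ∫ e, ∑ c ∈ range 5, YA D k [c] e ∂(PP p) := by
          apply integral_mono_of_nonneg _ hi
          · filter_upwards with e
            calc ∑ c ∈ Finset.range (deg (e [])), wt e (k + D) [] c * Gr e (k + D) [c] 1 (1/18)
                ≤ ∑ c ∈ Finset.range (deg (e [])), YA D k [c] e :=
                  sum_le_sum (fun c _ => (hGr k e c).2)
              _ ≤ ∑ c ∈ range 5, YA D k [c] e :=
                  sum_le_sum_of_subset_of_nonneg (range_mono (deg_le _))
                    (fun c _ _ => YA_nonneg D k [c] e)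
          · filter_upwards with e
            apply sum_nonneg
            intro c _
            exact (hGr k e c).1
      _ = ∑ c ∈ range 5, ∫ e, YA D k [c] e ∂(PP p) :=
          integral_finsetSum _ (fun c _ => YA_int D k [c])
      _ ≤ ∑ c ∈ range 5, X := sum_le_sum (fun c _ => hX [c])
      _ = 5 * X := by simp
      _ ≤ 5 * (1 / 10 ^ 5 * (995 / 1000 : ℝ) ^ k) := by linarith

end Pool.Agent.Work.MP_9e3593_pr
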