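import Pool.Agent.Work.MP_9e3593_pr.Joint

/-! Final assembly: the frog model statement from the analytic theorem. -/

set_option autoImplicit false
set_option linter.unusedSectionVars false

namespace Pool.Agent.Work.MP_9e3593_pr.Fr

open Finset MeasureTheory ProbabilityTheory Filter Topology

/-- root-visiting reachable vertices -/
def RS (q : (List ℕ → Bool) × (List ℕ → ℕ → A)) : Set (List ℕ) :=
  {u | Rch q.1 q.2 u ∧ ∃ m, Xw q.1 u m (q.2 u) = []}

lemma prod_ind_ge {β : Type*} (L : List β) (b : β → Prop) [DecidablePred b] {x : ℝ} (hx0 : 0 ≤ x)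
    (hx1 : x ≤ 1) (M : ℕ) (h : (L.filter b).length ≤ M) :
    x ^ M ≤ (L.map (fun z => if b z then x else 1)).prod := by
  induction L generalizing M with
  | nil => simpa using pow_le_one₀ hx0 hx1
  | cons z L ih =>
    rw [List.map_cons, List.prod_cons]
    by_cases hz : b z
    · rw [List.filter_cons_of_pos (by simpa using hz)] at h
      simp only [List.length_cons] at h
      obtain ⟨M', rfl⟩ : ∃ M', M = M' + 1 := ⟨M - 1, by omega⟩
      rw [if_pos hz, pow_succ, mul_comm]
      exact mul_le_mul_of_nonneg_left (ih M' (by omega)) hx0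
    · rw [List.filter_cons_of_neg (by simpa using hz)] at h
      rw [if_neg hz, one_mul]
      exact ih M h

lemma Phi_ge (k : ℕ) {s : ℝ} (hs0 : 0 ≤ s) (hs1 : s ≤ 1)
    (q : (List ℕ → Bool) × (List ℕ → ℕ → A)) (hf : (RS q).Finite) (M : ℕ)
    (hM : (RS q).ncard ≤ M) : (1 - s) ^ M ≤ Phi k s q := by
  obtain ⟨e, σ⟩ := q
  have hx1 : (1 - s) ^ M ≤ 1 := pow_le_one₀ (by linarith) (by linarith)
  unfold Phi Wf
  simp only
  cases hex : Ex e (k + 1) [] (σ []) with
  | none => exact hx1
  | some ℓ =>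
    simp only
    cases hrev : ℓ.reverse with
    | nil => exact hx1
    | cons c ρ =>
      simp only
      split_ifs with hc
      · unfold Psi
        apply prod_ind_ge _ (fun z => Ex e (k + 1) z (σ z) = none) (by linarith) (by linarith)
        set L := act e (entE (fun z => Ex e (k + 1) z (σ z))) k [c] ρ with hL
        have hnd : (L.filter (fun z => Ex e (k + 1) z (σ z) = none)).Nodup :=
          (act_nodup e _ k [c] ρ).filter _
        rw [← List.toFinset_card_of_nodup hnd]
        have hsub : ((L.filter (fun z => Ex e (k + 1) z (σ z) = none)).toFinset : Set (List ℕ)) ⊆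
            RS (e, σ) := by
          intro z hz
          simp only [List.coe_toFinset, Set.mem_ofPred_eq, List.mem_filter, decide_eq_true_eq] at hz
          have hℓ : ℓ = ρ.reverse ++ [c] := by
            have := congrArg List.reverse hrev
            rw [List.reverse_reverse] at this
            rw [this]
            simp
          have hℓ0 : ℓ ≠ [] := by rw [hℓ]; simp
          obtain ⟨m, hm⟩ := Ex_some_hit e (k + 1) [] ℓ (σ []) hℓ0 hex
          have hR0 : Rch e σ [] := Relation.ReflTransGen.refl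
          have hRℓ : Rch e σ (ρ.reverse ++ [c]) := by
            rw [← hℓ, ← hm]
            exact Rch_step e σ [] hR0 m
          have hRz := act_reach e (k + 1) σ k [c] ρ (by simp) hRℓ z hz.1
          exact ⟨hRz, Ex_none_hit e (k + 1) z (σ z) hz.2⟩
        have := Set.ncard_le_ncard hsub hf
        rw [Set.ncard_coe_finset] at this
        exact this.trans hM
      · exact hx1

lemma Phi_mem (k : ℕ) {s : ℝ} (hs0 : 0 ≤ s) (hs1 : s ≤ 1)
    (q : (List ℕ → Bool) × (List ℕ → ℕ → A)) : 0 ≤ Phi k s q ∧ Phi k s q ≤ 1 :=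
  Wf_mem q.1 k hs0 hs1 _ _

lemma RS_infinite {p : ℝ} (h0 : 0 ≤ p) (h1 : p ≤ 1) {s : ℝ} (hs0 : 0 < s) (hs1 : s < 1)
    (hlim : Tendsto (fun N : ℕ => ∫ e, ∑ c ∈ range (deg (e [])), wt e N [] c * Gr e N [c] 1 s
      ∂(Measure.infinitePi (fun _ : List ℕ => bern p))) atTop (𝓝 0)) :
    ∀ᵐ q ∂((Measure.infinitePi (fun _ : List ℕ => bern p)).prod QS), (RS q).Infinite := by
  have hb := bern_prob h0 h1
  set Q := (Measure.infinitePi (fun _ : List ℕ => bern p)).prod QS with hQ
  have hint : ∀ k, Integrable (Phi k s) Q := by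
    intro k
    apply Integrable.of_bound (measurable_Phi k s).aestronglyMeasurable 1
    filter_upwards with q
    have := Phi_mem k hs0.le hs1.le q
    rw [Real.norm_eq_abs, abs_le]; constructor <;> linarith
  have hEP : ∀ k, ∫ q, Phi k s q ∂Q = ∫ e, ∑ c ∈ range (deg (e [])), wt e k [] c * Gr e k [c] 1 s
      ∂(Measure.infinitePi (fun _ : List ℕ => bern p)) := by
    intro k
    rw [hQ, integral_prod _ (hint k)]
    congr 1
    funext e
    exact quenched unifA_nuA e k hs0.le hs1.le
  have hzero : ∀ M : ℕ, Q {q | (RS q).Finite ∧ (RS q).ncard ≤ M} = 0 := by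
    intro M
    have hx : 0 < (1 - s) ^ M := by
      apply pow_pos
      linarith
    have hbound : ∀ k, (Q {q | (RS q).Finite ∧ (RS q).ncard ≤ M}) ≤
        ENNReal.ofReal ((∫ q, Phi k s q ∂Q) / (1 - s) ^ M) := by
      intro k
      calc Q {q | (RS q).Finite ∧ (RS q).ncard ≤ M} ≤ Q {q | (1 - s) ^ M ≤ Phi k s q} := by
            apply measure_mono
            intro q hq
            exact Phi_ge k hs0.le hs1.le q hq.1 M hq.2
        _ = ENNReal.ofReal (Q.real {q | (1 - s) ^ M ≤ Phi k s q}) := by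
            rw [measureReal_def, ENNReal.ofReal_toReal (measure_ne_top _ _)]
        _ ≤ _ := by
            apply ENNReal.ofReal_le_ofReal
            rw [le_div_iff₀ hx, mul_comm]
            apply mul_meas_ge_le_integral_of_nonneg _ (hint k)
            exact ae_of_all _ (fun q => (Phi_mem k hs0.le hs1.le q).1)
    have hl : Tendsto (fun k => ENNReal.ofReal ((∫ q, Phi k s q ∂Q) / (1 - s) ^ M)) atTop (𝓝 0) := by
      have h2 : Tendsto (fun k => (∫ q, Phi k s q ∂Q) / (1 - s) ^ M) atTop (𝓝 (0 / (1 - s) ^ M)) := by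
        apply Tendsto.div_const
        simp_rw [hEP]
        exact hlim
      rw [zero_div] at h2
      have h3 := ENNReal.tendsto_ofReal h2
      rw [ENNReal.ofReal_zero] at h3
      exact h3
    have h4 := ge_of_tendsto' hl hbound
    exact le_antisymm h4 (zero_le)
  have hall : ∀ᵐ q ∂Q, ∀ M : ℕ, ¬ ((RS q).Finite ∧ (RS q).ncard ≤ M) := by
    rw [ae_all_iff]
    intro M
    rw [ae_iff]
    simp only [not_not]
    exact hzero M
  filter_upwards [hall] with q hq
  intro hfin
  exact hq _ ⟨hfin, le_rfl⟩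

theorem frog_of_analytic {p : ℝ} (h0 : 0 ≤ p) (h1 : p < 1) {s : ℝ} (hs0 : 0 < s) (hs1 : s < 1)
    (hlim : Tendsto (fun N : ℕ => ∫ e, ∑ c ∈ range (deg (e [])), wt e N [] c * Gr e N [c] 1 s
      ∂(Measure.infinitePi (fun _ : List ℕ => bern p))) atTop (𝓝 0))
    (Ω : Type) [MeasurableSpace Ω] (P : Measure Ω) [IsProbabilityMeasure P]
    (V : List ℕ × ℕ → Ω → ℝ) (X : List ℕ → ℕ → Ω → List ℕ)
    (hV : iIndepFun V P)
    (hlaw : ∀ i, Measure.map (V i) P = (volume : Measure ℝ).restrict (Set.Icc (0:ℝ) 1))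
    (hX0 : ∀ v ω, X v 0 ω = v)
    (hXs : ∀ v n ω, X v (n+1) ω =
        if X v n ω = [] then
          [⌊V (v, n+1) ω * (if V (X v n ω, 0) ω < p then (2:ℝ) else 5)⌋₊]
        else if ⌊V (v, n+1) ω * (if V (X v n ω, 0) ω < p then (3:ℝ) else 6)⌋₊ = 0 then
          (X v n ω).tail
        else
          (⌊V (v, n+1) ω * (if V (X v n ω, 0) ω < p then (3:ℝ) else 6)⌋₊ - 1) :: X v n ω) :
    ∀ᵐ ω ∂P, Set.Infinite {q : List ℕ × ℕ |
        Relation.ReflTransGen (fun u w => ∃ m, X u m ω = w) [] q.1 ∧ X q.1 q.2 ω = []} := by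
  obtain ⟨hae, hmap⟩ := law_V P V hV hlaw p
  -- all variables in [0,1)
  have hlt : ∀ᵐ ω ∂P, ∀ i, V i ω < 1 := by
    rw [ae_all_iff]
    intro i
    have h2 : ∀ᵐ u ∂(Measure.map (V i) P), u < 1 := by
      rw [hlaw i]
      rw [ae_restrict_iff' measurableSet_Icc]
      have hne : ∀ᵐ u : ℝ ∂volume, u ≠ 1 := by
        rw [ae_iff]
        simp
      filter_upwards [hne] with u hu hmem
      exact lt_of_le_of_ne hmem.2 hu
    exact ae_of_ae_map (hae i) h2
  -- transfer
  have hgm : AEMeasurable (fun ω (i : List ℕ × ℕ) => g0 p (V i ω)) P :=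
    aemeasurable_pi_iff.mpr (fun i => (measurable_g0 p).comp_aemeasurable (hae i))
  have hR : Measurable (fun D : List ℕ × ℕ → Bool × A => (R1 D, R2 D)) :=
    measurable_R1.prodMk measurable_R2
  have hlawR : Measure.map (fun ω => (R1 (fun i => g0 p (V i ω)), R2 (fun i => g0 p (V i ω)))) P =
      (Measure.infinitePi (fun _ : List ℕ => bern p)).prod QS := by
    rw [← law_R h0 h1.le, ← hmap, AEMeasurable.map_map_of_aemeasurable hR.aemeasurable hgm]
    rfl
  have hinf := RS_infinite h0 h1.le hs0 hs1 hlim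
  rw [← hlawR] at hinf
  have hinf' := ae_of_ae_map (hR.comp_aemeasurable hgm) hinf
  filter_upwards [hlt, hinf'] with ω hω hωinf
  -- identification of the walks
  set e : List ℕ → Bool := R1 (fun i => g0 p (V i ω)) with he
  set σ : List ℕ → ℕ → A := R2 (fun i => g0 p (V i ω)) with hσ
  have hdeg : ∀ x : List ℕ, e x = decide (V (x, 0) ω < p) := fun x => rfl
  have hst : ∀ z n, σ z n = dis (V (z, n + 1) ω) := fun z n => rfl
  have hfl : ∀ i (n : ℕ), 0 < n → ⌊V i ω * (n : ℝ)⌋₊ % n = ⌊V i ω * (n : ℝ)⌋₊ := fun i n hn =>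
    Nat.mod_eq_of_lt (floor_lt_of_lt_one _ (hω i) n hn)
  have hXeq : ∀ v n, X v n ω = Xw e v n (σ v) := by
    intro v n
    induction n with
    | zero => rw [hX0]; rfl
    | succ n ih =>
      rw [hXs, Xw, ← ih, hst]
      set x := X v n ω with hx
      unfold stp
      by_cases hp : V (x, 0) ω < p
      · have hex : e x = true := by rw [hdeg]; simpa using hp
        simp only [hp, if_true, hex, rch, ich, dis, Fin.ofNat]
        have h2 := hfl (v, n + 1) 2 (by norm_num)
        have h3 := hfl (v, n + 1) 3 (by norm_num)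
        push_cast at h2 h3
        rw [h2, h3]
      · have hex : e x = false := by rw [hdeg]; simpa using hp
        simp only [hp, if_false, hex, rch, ich, dis, Fin.ofNat, Bool.false_eq_true]
        have h2 := hfl (v, n + 1) 5 (by norm_num)
        have h3 := hfl (v, n + 1) 6 (by norm_num)
        push_cast at h2 h3
        rw [h2, h3]
  have hrel : (fun u w => ∃ m, X u m ω = w) = (fun u w => ∃ m, Xw e u m (σ u) = w) := by
    funext u w
    simp only [hXeq]
  rw [hrel]
  apply Set.Infinite.of_image Prod.fst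
  apply hωinf.mono
  rintro u ⟨hu, m, hm⟩
  refine ⟨(u, m), ⟨hu, ?_⟩, rfl⟩
  show X u m ω = []
  rw [hXeq]
  exact hm

end Pool.Agent.Work.MP_9e3593_pr.Fr
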