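import Pool.Agent.Work.MP_9e3593_pr.Scan

/-! The activation algorithm. -/

set_option autoImplicit false
set_option linter.unusedSectionVars false

namespace Pool.Agent.Work.MP_9e3593_pr.Fr

open Finset MeasureTheory ProbabilityTheory

/-- internal vertices of the subtree of `v` with `k` levels -/
def VT (e : List ℕ → Bool) : ℕ → List ℕ → Finset (List ℕ)
  | 0, _ => ∅
  | k + 1, v => insert v ((Finset.range (deg (e v))).biUnion fun c => VT e k (c :: v))

lemma VT_succ (e : List ℕ → Bool) (k : ℕ) (v : List ℕ) :
    VT e (k + 1) v = insert v ((Finset.range (deg (e v))).biUnion fun c => VT e k (c :: v)) := rfl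

lemma VT_suffix (e : List ℕ → Bool) (k : ℕ) : ∀ (v z : List ℕ), z ∈ VT e k v →
    v <:+ z ∧ z.length < v.length + k := by
  induction k with
  | zero => intro v z hz; simp [VT] at hz
  | succ k ih =>
    intro v z hz
    rw [VT_succ, Finset.mem_insert, Finset.mem_biUnion] at hz
    rcases hz with rfl | ⟨c, _, hz⟩
    · exact ⟨List.suffix_refl _, by omega⟩
    · obtain ⟨h1, h2⟩ := ih _ _ hz
      refine ⟨(List.suffix_cons c v).trans h1, ?_⟩
      rw [List.length_cons] at h2
      omega

lemma VT_length_le (e : List ℕ → Bool) (k : ℕ) (v z : List ℕ) (hz : z ∈ VT e k v) :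
    v.length ≤ z.length := (VT_suffix e k v z hz).1.length_le

lemma self_notMem_VT (e : List ℕ → Bool) (k : ℕ) (v : List ℕ) (c : ℕ) : v ∉ VT e k (c :: v) := by
  intro h
  have := VT_length_le e k _ _ h
  simp at this

lemma suffix_cons_inj {c c' : ℕ} {v z : List ℕ} (h : (c :: v) <:+ z) (h' : (c' :: v) <:+ z) :
    c = c' := by
  have h1 := List.suffix_of_suffix_length_le h h' (by simp)
  have h2 := h1.eq_of_length (by simp)
  simpa using h2

lemma VT_disjoint (e : List ℕ → Bool) (k : ℕ) (v : List ℕ) {c c' : ℕ} (h : c ≠ c') :
    Disjoint (VT e k (c :: v)) (VT e k (c' :: v)) := by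
  rw [Finset.disjoint_left]
  intro z hz hz'
  exact h (suffix_cons_inj (VT_suffix e k _ _ hz).1 (VT_suffix e k _ _ hz').1)

/-- first entry into child `j` at level `d`, from the list `Z` -/
def fstE (ent : List ℕ → ℕ → Option (List ℕ)) (d j : ℕ) (Z : List (List ℕ)) : Option (List ℕ) :=
  Z.findSome? (fun z => dec j (ent z d))

/-- the activation algorithm -/
def act (e : List ℕ → Bool) (ent : List ℕ → ℕ → Option (List ℕ)) :
    ℕ → List ℕ → List ℕ → List (List ℕ)
  | 0, _, _ => []
  | _ + 1, _, [] => []
  | k + 1, v, c :: ρ =>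
    if c < deg (e v) then
      (v :: act e ent k (c :: v) ρ) ++ ((List.range (deg (e v))).erase c).flatMap (fun j =>
        match fstE ent v.length j (v :: act e ent k (c :: v) ρ) with
        | some ρ' => act e ent k (j :: v) ρ'
        | none => [])
    else []

/-- optional list -/
def optl (A : List ℕ → List (List ℕ)) : Option (List ℕ) → List (List ℕ)
  | some ρ' => A ρ'
  | none => []

lemma act_cons (e : List ℕ → Bool) (ent : List ℕ → ℕ → Option (List ℕ)) (k : ℕ) (v : List ℕ) (c : ℕ)
    (ρ : List ℕ) (hc : c < deg (e v)) :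
    act e ent (k + 1) v (c :: ρ) =
      (v :: act e ent k (c :: v) ρ) ++ ((List.range (deg (e v))).erase c).flatMap (fun j =>
        optl (act e ent k (j :: v)) (fstE ent v.length j (v :: act e ent k (c :: v) ρ))) := by
  rw [act, if_pos hc]
  congr 1

lemma act_mem (e : List ℕ → Bool) (ent : List ℕ → ℕ → Option (List ℕ)) (k : ℕ) :
    ∀ (v ρ z : List ℕ), z ∈ act e ent k v ρ → z ∈ VT e k v := by
  induction k with
  | zero => intro v ρ z hz; simp [act] at hz
  | succ k ih =>
    intro v ρ z hz
    cases ρ with
    | nil => simp [act] at hz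
    | cons c ρ =>
      by_cases hc : c < deg (e v)
      · rw [act_cons e ent k v c ρ hc, List.mem_append, List.mem_cons, List.mem_flatMap] at hz
        rw [VT_succ, Finset.mem_insert, Finset.mem_biUnion]
        rcases hz with (rfl | hz) | ⟨j, hj, hz⟩
        · left; rfl
        · right
          exact ⟨c, by simpa using hc, ih _ _ _ hz⟩
        · right
          refine ⟨j, ?_, ?_⟩
          · have := List.mem_of_mem_erase hj
            simpa using this
          · cases hf : fstE ent v.length j (v :: act e ent k (c :: v) ρ) with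
            | none => rw [hf] at hz; simp [optl] at hz
            | some ρ' => rw [hf] at hz; exact ih _ _ _ hz
      · rw [act, if_neg hc] at hz
        simp at hz

lemma act_nodup (e : List ℕ → Bool) (ent : List ℕ → ℕ → Option (List ℕ)) (k : ℕ) :
    ∀ (v ρ : List ℕ), (act e ent k v ρ).Nodup := by
  induction k with
  | zero => intro v ρ; simp [act]
  | succ k ih =>
    intro v ρ
    cases ρ with
    | nil => simp [act]
    | cons c ρ =>
      by_cases hc : c < deg (e v)
      · rw [act_cons e ent k v c ρ hc]
        have hopt : ∀ j z, z ∈ optl (act e ent k (j :: v)) (fstE ent v.length j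
            (v :: act e ent k (c :: v) ρ)) → z ∈ VT e k (j :: v) := by
          intro j z hz
          cases hf : fstE ent v.length j (v :: act e ent k (c :: v) ρ) with
          | none => rw [hf] at hz; simp [optl] at hz
          | some ρ' => rw [hf] at hz; exact act_mem e ent k _ _ _ hz
        apply List.Nodup.append
        · rw [List.nodup_cons]
          exact ⟨fun h => self_notMem_VT e k v c (act_mem e ent k _ _ _ h), ih _ _⟩
        · rw [List.nodup_flatMap]
          constructor
          · intro j _
            cases fstE ent v.length j (v :: act e ent k (c :: v) ρ) with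
            | none => simp [optl]
            | some ρ' => exact ih _ _
          · have hnd : ((List.range (deg (e v))).erase c).Nodup := List.nodup_range.erase c
            apply List.Pairwise.imp_of_mem _ hnd
            intro j j' _ _ hne z hz hz'
            exact (Finset.disjoint_left.mp (VT_disjoint e k v hne)) (hopt j z hz) (hopt j' z hz')
        · intro z hz hz'
          rw [List.mem_flatMap] at hz'
          obtain ⟨j, hj, hz'⟩ := hz'
          have h1 := hopt j z hz'
          rw [List.mem_cons] at hz
          rcases hz with rfl | hz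
          · exact self_notMem_VT e k _ j h1
          · have hne : c ≠ j := by
              rintro rfl
              exact (List.Nodup.not_mem_erase List.nodup_range) hj
            exact (Finset.disjoint_left.mp (VT_disjoint e k v hne)) (act_mem e ent k _ _ _ hz) h1
      · rw [act, if_neg hc]
        simp

lemma fstE_congr (ent ent' : List ℕ → ℕ → Option (List ℕ)) (d j : ℕ) (Z : List (List ℕ))
    (h : ∀ z ∈ Z, ent z d = ent' z d) : fstE ent d j Z = fstE ent' d j Z := by
  unfold fstE
  induction Z with
  | nil => rfl
  | cons z Z ih =>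
    rw [List.findSome?_cons, List.findSome?_cons, h z (by simp),
      ih (fun z hz => h z (List.mem_cons_of_mem _ hz))]

lemma act_congr (e : List ℕ → Bool) (ent ent' : List ℕ → ℕ → Option (List ℕ)) (k : ℕ) :
    ∀ (v ρ : List ℕ), (∀ z ∈ VT e k v, ∀ d, v.length ≤ d → d ≤ z.length → ent z d = ent' z d) →
      act e ent k v ρ = act e ent' k v ρ := by
  induction k with
  | zero => intro v ρ _; rfl
  | succ k ih =>
    intro v ρ h
    cases ρ with
    | nil => rfl
    | cons c ρ =>
      by_cases hc : c < deg (e v)
      · have hsub : ∀ j, j < deg (e v) → ∀ z ∈ VT e k (j :: v), z ∈ VT e (k + 1) v := by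
          intro j hj z hz
          rw [VT_succ, Finset.mem_insert, Finset.mem_biUnion]
          exact Or.inr ⟨j, by simpa using hj, hz⟩
        have hch : ∀ j, j < deg (e v) → ∀ ρ, act e ent k (j :: v) ρ = act e ent' k (j :: v) ρ := by
          intro j hj ρ
          apply ih
          intro z hz d hd hd'
          apply h z (hsub j hj z hz) d _ hd'
          rw [List.length_cons] at hd
          omega
        rw [act_cons e ent k v c ρ hc, act_cons e ent' k v c ρ hc, hch c hc ρ]
        congr 1
        have hf : ∀ j, fstE ent v.length j (v :: act e ent' k (c :: v) ρ)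
            = fstE ent' v.length j (v :: act e ent' k (c :: v) ρ) := by
          intro j
          apply fstE_congr
          intro z hz
          rw [List.mem_cons] at hz
          rcases hz with rfl | hz
          · exact h z (by rw [VT_succ]; simp) _ le_rfl le_rfl
          · have hz' := act_mem e ent' k _ _ _ hz
            exact h z (hsub c hc z hz') _ le_rfl (by
              have := VT_length_le e k _ _ hz'
              rw [List.length_cons] at this
              omega)
        apply List.flatMap_congr
        intro j hj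
        have hj' : j < deg (e v) := by
          have := List.mem_of_mem_erase hj
          simpa using this
        rw [hf j]
        cases fstE ent' v.length j (v :: act e ent' k (c :: v) ρ) with
        | none => rfl
        | some ρ' => exact hch j hj' ρ'
      · rw [act, act, if_neg hc, if_neg hc]

/-- all decisions at levels `≥ m0` are up -/
def up (D : List ℕ × ℕ → Option (List ℕ)) (z : List ℕ) (m0 : ℕ) : Prop :=
  ∀ m ∈ Finset.Icc m0 z.length, D (z, m) = none

instance (D : List ℕ × ℕ → Option (List ℕ)) (z : List ℕ) (m0 : ℕ) : Decidable (up D z m0) := by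
  unfold up; infer_instance

/-- entry decision of `z` at level `d` -/
def entD (D : List ℕ × ℕ → Option (List ℕ)) (z : List ℕ) (d : ℕ) : Option (List ℕ) :=
  if up D z (d + 1) then D (z, d) else none

/-- the weight -/
noncomputable def Fw (e : List ℕ → Bool) (k : ℕ) (v ρ : List ℕ) (D : List ℕ × ℕ → Option (List ℕ))
    (s : ℝ) : ℝ :=
  ((act e (entD D) k v ρ).map (fun z => if up D z v.length then 1 - s else 1)).prod

/-- coordinates for the subtree of `v` with levels in `[m0, N]` -/
def CT (e : List ℕ → Bool) (k : ℕ) (v : List ℕ) (m0 N : ℕ) : Finset (List ℕ × ℕ) :=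
  (VT e k v) ×ˢ (Finset.Icc m0 N)

lemma up_congr (D D' : List ℕ × ℕ → Option (List ℕ)) (z : List ℕ) (m0 : ℕ)
    (h : ∀ m, m0 ≤ m → m ≤ z.length → D (z, m) = D' (z, m)) : up D z m0 ↔ up D' z m0 := by
  unfold up
  constructor
  · intro hu m hm
    rw [← h m (Finset.mem_Icc.mp hm).1 (Finset.mem_Icc.mp hm).2]
    exact hu m hm
  · intro hu m hm
    rw [h m (Finset.mem_Icc.mp hm).1 (Finset.mem_Icc.mp hm).2]
    exact hu m hm

lemma entD_congr (D D' : List ℕ × ℕ → Option (List ℕ)) (z : List ℕ) (d : ℕ)
    (h : ∀ m, d ≤ m → m ≤ z.length → D (z, m) = D' (z, m)) (hd : d ≤ z.length) :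
    entD D z d = entD D' z d := by
  unfold entD
  rw [h d le_rfl hd]
  by_cases hu : up D z (d + 1)
  · rw [if_pos hu, if_pos ((up_congr D D' z (d + 1) (fun m hm hm' => h m (by omega) hm')).mp hu)]
  · rw [if_neg hu, if_neg (fun h' => hu
      ((up_congr D D' z (d + 1) (fun m hm hm' => h m (by omega) hm')).mpr h'))]

lemma actD_congr (e : List ℕ → Bool) (k : ℕ) (v ρ : List ℕ) (D D' : List ℕ × ℕ → Option (List ℕ))
    (h : ∀ z ∈ VT e k v, ∀ m, v.length ≤ m → m ≤ z.length → D (z, m) = D' (z, m)) :
    act e (entD D) k v ρ = act e (entD D') k v ρ := by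
  apply act_congr
  intro z hz d hd hd'
  apply entD_congr _ _ _ _ _ hd'
  intro m hm hm'
  exact h z hz m (by omega) hm'

lemma Fw_congr (e : List ℕ → Bool) (k : ℕ) (v ρ : List ℕ) (D D' : List ℕ × ℕ → Option (List ℕ))
    (s : ℝ) (h : ∀ z ∈ VT e k v, ∀ m, v.length ≤ m → m ≤ z.length → D (z, m) = D' (z, m)) :
    Fw e k v ρ D s = Fw e k v ρ D' s := by
  unfold Fw
  rw [actD_congr e k v ρ D D' h]
  congr 1
  apply List.map_congr_left
  intro z hz
  have hz' := act_mem e _ k _ _ _ hz
  have := up_congr D D' z v.length (fun m hm hm' => h z hz' m hm hm')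
  by_cases hu : up D z v.length
  · rw [if_pos hu, if_pos (this.mp hu)]
  · rw [if_neg hu, if_neg (fun h' => hu (this.mpr h'))]

lemma Fw_mem (e : List ℕ → Bool) (k : ℕ) (v ρ : List ℕ) (D : List ℕ × ℕ → Option (List ℕ))
    {s : ℝ} (hs0 : 0 ≤ s) (hs1 : s ≤ 1) : 0 ≤ Fw e k v ρ D s ∧ Fw e k v ρ D s ≤ 1 := by
  apply list_prod_mem
  intro z _
  split_ifs
  · constructor <;> linarith
  · constructor <;> norm_num

end Pool.Agent.Work.MP_9e3593_pr.Fr
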