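import Pool.Agent.Work.MP_9e3593_pr.Reach

/-! Coupling of the walks with the decision model, for a fixed environment. -/

set_option autoImplicit false
set_option linter.unusedSectionVars false

namespace Pool.Agent.Work.MP_9e3593_pr.Fr

open Finset MeasureTheory ProbabilityTheory

lemma integral_congr_dep {ι α : Type*} [MeasurableSpace α] [MeasurableSingletonClass α]
    [Countable α] (μ μ' : ι → Measure α) [∀ i, IsProbabilityMeasure (μ i)]
    [∀ i, IsProbabilityMeasure (μ' i)] (S : Finset ι) (h : ∀ i ∈ S, μ i = μ' i)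
    (Ψ : (ι → α) → ℝ) (hS : ∀ t t', (∀ i ∈ S, t i = t' i) → Ψ t = Ψ t') :
    ∫ t, Ψ t ∂Measure.infinitePi μ = ∫ t, Ψ t ∂Measure.infinitePi μ' := by
  classical
  have hne : Nonempty (ι → α) := by
    by_contra hcon
    have : IsEmpty (ι → α) := not_nonempty_iff.mp hcon
    have h1 : Measure.infinitePi μ Set.univ = 1 := measure_univ
    rw [Set.eq_empty_of_isEmpty Set.univ] at h1
    simp at h1
  obtain ⟨x0⟩ := hne
  have h1 : ∀ t, Ψ t = (fun a : S → α => Ψ (extS x0 S a)) (S.restrict t) := by
    intro t
    apply hS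
    intro i hi
    rw [extS_restrict x0 S t i hi]
  have e1 : ∀ P : Measure (ι → α), ∫ t, Ψ t ∂P =
      ∫ t, (fun a : S → α => Ψ (extS x0 S a)) (S.restrict t) ∂P := by
    intro P
    congr 1
    funext t
    exact h1 t
  rw [e1, e1]
  have e2 := integral_restrict_infinitePi (X := fun _ : ι => α) (μ := μ) (s := S)
    (f := fun a : S → α => Ψ (extS x0 S a)) (measurable_of_countable _).aestronglyMeasurable
  have e3 := integral_restrict_infinitePi (X := fun _ : ι => α) (μ := μ') (s := S)
    (f := fun a : S → α => Ψ (extS x0 S a)) (measurable_of_countable _).aestronglyMeasurable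
  refine e2.trans (Eq.trans ?_ e3.symm)
  have h2 : (fun i : S => μ i) = (fun i : S => μ' i) := by
    funext i
    exact h i i.2
  rw [h2]

lemma eps_proj (D : List ℕ × ℕ → Option (List ℕ)) (z : List ℕ) :
    eps D z = eps (fun p => D (z, p.2)) z := by
  unfold eps
  exact epsV_congr _ _ _ _ (fun m _ _ => rfl)

lemma measurable_eps1 (z : List ℕ) :
    Measurable (fun d : ℕ → Option (List ℕ) => eps (fun p => d p.2) z) := by
  apply measurable_of_dep (Finset.Icc 1 z.length)
  intro t t' h
  unfold eps
  apply epsV_congr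
  intro m hm hm'
  exact h m (by rw [Finset.mem_Icc]; exact ⟨hm, hm'⟩)

lemma measurable_eps (z : List ℕ) :
    Measurable (fun D : List ℕ × ℕ → Option (List ℕ) => eps D z) := by
  apply measurable_of_dep (({z} : Finset (List ℕ)) ×ˢ Finset.Icc 1 z.length)
  intro t t' h
  unfold eps
  apply epsV_congr
  intro m hm hm'
  exact h (z, m) (by
    simp only [Finset.mem_product, Finset.mem_singleton, Finset.mem_Icc, true_and]
    exact ⟨hm, hm'⟩)

lemma eps_joint (μ : List ℕ × ℕ → Measure (Option (List ℕ))) [hμ : ∀ i, IsProbabilityMeasure (μ i)] :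
    (Measure.infinitePi μ).map (fun D z => eps D z) =
      Measure.infinitePi (fun z => (Measure.infinitePi μ).map (fun D => eps D z)) := by
  let C := MeasurableEquiv.curry (List ℕ) ℕ (Option (List ℕ))
  have hC : (Measure.infinitePi μ).map C =
      Measure.infinitePi (fun z => Measure.infinitePi (fun m => μ (z, m))) :=
    Measure.infinitePi_map_curry (fun z m => μ (z, m))
  have h1 : (fun (D : List ℕ × ℕ → Option (List ℕ)) (z : List ℕ) => eps D z) =
      (fun (ω : List ℕ → ℕ → Option (List ℕ)) (z : List ℕ) => eps (fun p => ω z p.2) z) ∘ C := by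
    funext D z
    exact eps_proj D z
  have hm : ∀ z, Measurable (fun d : ℕ → Option (List ℕ) => eps (fun p => d p.2) z) :=
    measurable_eps1
  have hm2 : Measurable (fun (ω : List ℕ → ℕ → Option (List ℕ)) (z : List ℕ) =>
      eps (fun p => ω z p.2) z) := by
    apply measurable_pi_lambda
    intro z
    exact (hm z).comp (measurable_pi_apply z)
  rw [h1, ← Measure.map_map hm2 C.measurable, hC]
  rw [Measure.infinitePi_map_pi (fun z => Measure.infinitePi (fun m => μ (z, m)))
    (f := fun z (d : ℕ → Option (List ℕ)) => eps (fun p => d p.2) z) hm]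
  congr 1
  funext z
  have h2 : (fun D : List ℕ × ℕ → Option (List ℕ) => eps D z) =
      (fun d : ℕ → Option (List ℕ) => eps (fun p => d p.2) z) ∘
        ((fun ω : List ℕ → ℕ → Option (List ℕ) => ω z) ∘ C) := by
    funext D
    exact eps_proj D z
  rw [h2, ← Measure.map_map (hm z) ((measurable_pi_apply z).comp C.measurable),
    ← Measure.map_map (measurable_pi_apply z) C.measurable, hC, Measure.infinitePi_map_eval]

/-! ### existence of the model -/

lemma Cc_ge_half (e : List ℕ → Bool) (k : ℕ) : ∀ v, 1 / 2 ≤ Cc e k v := by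
  induction k with
  | zero => intro v; simp [Cc]; norm_num
  | succ k ih =>
    intro v
    rw [Cc_succ]
    have h1 : 1 ≤ Sc e k v := by
      unfold Sc
      have h2 : ∑ c ∈ range (deg (e v)), (1/2 : ℝ) ≤ ∑ c ∈ range (deg (e v)), Cc e k (c :: v) :=
        Finset.sum_le_sum (fun i _ => ih _)
      rw [Finset.sum_const, Finset.card_range, nsmul_eq_mul] at h2
      have h3 : (2:ℝ) ≤ deg (e v) := by exact_mod_cast deg_ge _
      linarith
    rw [div_le_div_iff₀ (by norm_num) (by linarith)]
    linarith

lemma Sc_ge_one (e : List ℕ → Bool) (k : ℕ) (v : List ℕ) : 1 ≤ Sc e k v := by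
  unfold Sc
  have h2 : ∑ c ∈ range (deg (e v)), (1/2 : ℝ) ≤ ∑ c ∈ range (deg (e v)), Cc e k (c :: v) :=
    Finset.sum_le_sum (fun i _ => Cc_ge_half e k _)
  rw [Finset.sum_const, Finset.card_range, nsmul_eq_mul] at h2
  have h3 : (2:ℝ) ≤ deg (e v) := by exact_mod_cast deg_ge _
  linarith

lemma wt_le_one' (e : List ℕ → Bool) (k : ℕ) (v : List ℕ) (i : ℕ) : wt e k v i ≤ 1 := by
  unfold wt
  rw [div_le_one (Sc_pos e k v)]
  exact (Cc_le_one e k _).trans (Sc_ge_one e k v)

/-- kappa -/
noncomputable def kapG (e : List ℕ → Bool) (N : ℕ) : List ℕ → ℝ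
  | [] => 1
  | c :: v => if v = [] then 1 else kch e (N - v.length - 1) v (kapG e N v) c

lemma kapG_mem (e : List ℕ → Bool) (N : ℕ) (v : List ℕ) : 0 ≤ kapG e N v ∧ kapG e N v ≤ 1 := by
  induction v with
  | nil => simp [kapG]
  | cons c v ih =>
    rw [kapG]
    split_ifs
    · norm_num
    · refine ⟨?_, kch_le_one e _ v ih.2 c⟩
      rw [kch_eq]
      have h1 := wt_le_one' e (N - v.length - 1) v c
      have h2 := wt_pos e (N - v.length - 1) v c
      have h3 := qv_nonneg e (N - v.length - 1) v ih.1
      have h4 := qv_lt_one e (N - v.length - 1) v ih.2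
      nlinarith

/-- the laws of the decisions -/
noncomputable def muG (e : List ℕ → Bool) (N : ℕ) (p : List ℕ × ℕ) : Measure (Option (List ℕ)) :=
  if p.2 = 0 ∨ p.1.length < p.2 then Measure.dirac none
  else if p.2 = p.1.length then ownM e (N - p.1.length - 1) p.1 (kapG e N p.1)
  else match anc (p.2 + 1) p.1 with
    | [] => Measure.dirac none
    | c :: u => if c < deg (e u) then kickM e (N - u.length - 1) u (kapG e N u) c
      else Measure.dirac none

instance muG_prob (e : List ℕ → Bool) (N : ℕ) (p : List ℕ × ℕ) :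
    IsProbabilityMeasure (muG e N p) := by
  unfold muG
  split_ifs with h1 h2
  · infer_instance
  · exact ownM_prob e _ _ (kapG_mem e N p.1).1 (kapG_mem e N p.1).2
  · cases anc (p.2 + 1) p.1 with
    | nil => simp only; infer_instance
    | cons c u =>
      simp only
      split_ifs with h3
      · exact kickM_prob e _ _ (kapG_mem e N u).1 (kapG_mem e N u).2 c h3
      · infer_instance

lemma model_G (e : List ℕ → Bool) (N : ℕ) : Model e N (kapG e N) (muG e N) where
  k0 := fun v _ => (kapG_mem e N v).1
  k1 := fun v _ => (kapG_mem e N v).2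
  kc := by
    intro v j hv _ _
    rw [kapG, if_neg hv]
  own := by
    intro v hv _
    have : v.length ≠ 0 := by simpa using hv
    unfold muG
    rw [if_neg (by simp only; omega), if_pos (by rfl)]
  kick := by
    intro v c z hv hc hs _
    have h0 : v.length ≠ 0 := by simpa using hv
    have hl := hs.length_le
    simp only [List.length_cons] at hl
    unfold muG
    simp only
    rw [if_neg (by omega), if_neg (by omega)]
    have := anc_eq (c :: v) z hs
    simp only [List.length_cons] at this
    rw [this]
    simp only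
    rw [if_pos hc]

/-! ### support -/

lemma VT_tree (e : List ℕ → Bool) (k : ℕ) : ∀ (v z : List ℕ), z ∈ VT e k v →
    ∀ (c : ℕ) (u : List ℕ), v <:+ u → (c :: u) <:+ z → c < deg (e u) := by
  induction k with
  | zero => intro v z hz; simp [VT] at hz
  | succ k ih =>
    intro v z hz c u hvu hcu
    rw [VT_succ, Finset.mem_insert, Finset.mem_biUnion] at hz
    rcases hz with rfl | ⟨j, hj, hz⟩
    · have h1 := hvu.length_le
      have h2 := hcu.length_le
      simp only [List.length_cons] at h2
      omega
    · have hjz := (VT_suffix e k _ _ hz).1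
      by_cases huv : u = v
      · subst huv
        have : c = j := suffix_cons_inj hcu hjz
        rw [this]
        simpa using hj
      · apply ih (j :: v) z hz c u _ hcu
        have hl : v.length < u.length := by
          rcases lt_or_eq_of_le hvu.length_le with h | h
          · exact h
          · exact absurd (hvu.eq_of_length h).symm huv
        exact List.suffix_of_suffix_length_le hjz ((List.suffix_cons c u).trans hcu)
          (by simp only [List.length_cons]; omega)

lemma kick_support (e : List ℕ → Bool) (k : ℕ) (v : List ℕ) {κ : ℝ} (h0 : 0 ≤ κ) (h1 : κ ≤ 1)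
    (c : ℕ) (hc : c < deg (e v)) :
    ∀ᵐ a ∂(kickM e k v κ c), ∀ ρ, a = some ρ → ∃ j ρ', ρ = j :: ρ' ∧ j ≠ c := by
  classical
  have := kickM_prob e k v h0 h1 c hc
  let B : Set (Option (List ℕ)) := {a | ¬ ∀ ρ, a = some ρ → ∃ j ρ', ρ = j :: ρ' ∧ j ≠ c}
  have hint := integral_kickM e k v h0 h1 c hc (B.indicator 1)
  have hn : B.indicator (1 : Option (List ℕ) → ℝ) none = 0 := by
    rw [Set.indicator_of_notMem]
    simp [B]
  have hs : ∀ j ∈ (range (deg (e v))).erase c, EL e k (j :: v)
      (fun ρ => B.indicator (1 : Option (List ℕ) → ℝ) (some (j :: ρ))) = 0 := by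
    intro j hj
    have : (fun ρ => B.indicator (1 : Option (List ℕ) → ℝ) (some (j :: ρ))) = fun _ => 0 := by
      funext ρ
      rw [Set.indicator_of_notMem]
      simp only [B, Set.mem_ofPred_eq, not_not]
      intro ρ' hρ'
      simp only [Option.some.injEq] at hρ'
      exact ⟨j, ρ, hρ'.symm, Finset.ne_of_mem_erase hj⟩
    rw [this, EL_const]
  rw [hn, mul_zero, zero_add, Finset.sum_eq_zero (fun j hj => by rw [hs j hj, mul_zero])] at hint
  rw [integral_indicator_one MeasurableSet.of_discrete] at hint
  rw [ae_iff]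
  have h3 : (kickM e k v κ c).real B = 0 := hint
  rw [measureReal_def, ENNReal.toReal_eq_zero_iff] at h3
  rcases h3 with h3 | h3
  · exact h3
  · exact absurd h3 (measure_ne_top _ _)

section
variable {e : List ℕ → Bool} {N : ℕ} {kap : List ℕ → ℝ}
  {μ : List ℕ × ℕ → Measure (Option (List ℕ))} [hμ : ∀ i, IsProbabilityMeasure (μ i)]

lemma support_ae (H : Model e N kap μ) (c : ℕ) (hc : c < deg (e [])) (k : ℕ) (hk : 1 + k = N) :
    ∀ᵐ D ∂Measure.infinitePi μ, ∀ z ∈ VT e k [c],
      (∀ (c' : ℕ) (u : List ℕ), (c' :: u) <:+ z → u ≠ [] → ∀ ρ, D (z, u.length) = some ρ →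
        ∃ j ρ', ρ = j :: ρ' ∧ j ≠ c') := by
  rw [ae_all_iff]
  intro z
  by_cases hz : z ∈ VT e k [c]
  · have : ∀ᵐ D ∂Measure.infinitePi μ, ∀ (c' : ℕ) (u : List ℕ), (c' :: u) <:+ z → u ≠ [] →
        ∀ ρ, D (z, u.length) = some ρ → ∃ j ρ', ρ = j :: ρ' ∧ j ≠ c' := by
      rw [ae_all_iff]
      intro c'
      rw [ae_all_iff]
      intro u
      by_cases hs : (c' :: u) <:+ z
      · by_cases hu : u ≠ []
        · have hsuf := VT_suffix e k _ _ hz
          have hcu : [c] <:+ u := by
            apply List.suffix_of_suffix_length_le hsuf.1 ((List.suffix_cons c' u).trans hs)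
            have : u.length ≠ 0 := by simpa using hu
            simp only [List.length_cons, List.length_nil]
            omega
          have hc' := VT_tree e k _ _ hz c' u hcu hs
          have hzN : z.length < N := by
            have := hsuf.2
            simp only [List.length_cons, List.length_nil] at this
            omega
          have h1 := H.kick u c' z hu hc' hs hzN
          have h2 := kick_support e (N - u.length - 1) u (H.k0 u hu) (H.k1 u hu) c' hc'
          rw [← h1, ← Measure.infinitePi_map_eval μ (z, u.length)] at h2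
          have h3 := ae_of_ae_map (measurable_pi_apply _).aemeasurable h2
          filter_upwards [h3] with D hD
          intro _ _
          exact hD
        · filter_upwards with D _ h
          exact absurd h hu
      · filter_upwards with D h
        exact absurd h hs
    filter_upwards [this] with D hD _
    exact hD
  · filter_upwards with D h
    exact absurd h hz

/-- the functional of the outcomes, for fixed entry path -/
noncomputable def Psi (e : List ℕ → Bool) (k c : ℕ) (ρ : List ℕ) (s : ℝ)
    (ε : List ℕ → Option (List ℕ)) : ℝ :=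
  ((act e (entE ε) k [c] ρ).map (fun z => if ε z = none then 1 - s else 1)).prod

lemma entE_congr (ε ε' : List ℕ → Option (List ℕ)) (z : List ℕ) (d : ℕ) (h : ε z = ε' z) :
    entE ε z d = entE ε' z d := by
  unfold entE
  rw [h]

lemma actE_congr (e : List ℕ → Bool) (k : ℕ) (v ρ : List ℕ) (ε ε' : List ℕ → Option (List ℕ))
    (h : ∀ z ∈ VT e k v, ε z = ε' z) : act e (entE ε) k v ρ = act e (entE ε') k v ρ := by
  apply act_congr
  intro z hz d _ _
  exact entE_congr ε ε' z d (h z hz)

lemma Psi_congr (e : List ℕ → Bool) (k c : ℕ) (ρ : List ℕ) (s : ℝ)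
    (ε ε' : List ℕ → Option (List ℕ)) (h : ∀ z ∈ VT e k [c], ε z = ε' z) :
    Psi e k c ρ s ε = Psi e k c ρ s ε' := by
  unfold Psi
  rw [actE_congr e k [c] ρ ε ε' h]
  congr 1
  apply List.map_congr_left
  intro z hz
  rw [h z (act_mem e _ k _ _ _ hz)]

lemma Psi_mem (e : List ℕ → Bool) (k c : ℕ) (ρ : List ℕ) {s : ℝ} (hs0 : 0 ≤ s) (hs1 : s ≤ 1)
    (ε : List ℕ → Option (List ℕ)) : 0 ≤ Psi e k c ρ s ε ∧ Psi e k c ρ s ε ≤ 1 := by
  apply list_prod_mem
  intro z _
  split_ifs
  · constructor <;> linarith
  · constructor <;> norm_num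

lemma Psi_eps (H : Model e N kap μ) (c : ℕ) (hc : c < deg (e [])) (k : ℕ) (hk : 1 + k = N)
    (ρ : List ℕ) (s : ℝ) :
    ∫ D, Psi e k c ρ s (fun z => eps D z) ∂Measure.infinitePi μ =
      ∫ D, Fw e k [c] ρ D s ∂Measure.infinitePi μ := by
  apply integral_congr_ae
  filter_upwards [support_ae H c hc k hk] with D hD
  unfold Psi Fw
  have h1 : act e (entE (fun z => eps D z)) k [c] ρ = act e (entD D) k [c] ρ := by
    apply act_congr
    intro z hz d hd hd'
    simp only [List.length_cons, List.length_nil] at hd
    exact entE_eps D z (hD z hz) d (by omega) hd'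
  rw [h1]
  congr 1
  apply List.map_congr_left
  intro z _
  have := eps_none_iff D z
  simp only [List.length_cons, List.length_nil, zero_add]
  by_cases hu : up D z 1
  · rw [if_pos hu, if_pos (this.mpr hu)]
  · rw [if_neg hu, if_neg (fun h => hu (this.mp h))]

end

section
variable {ν : Measure A} [hν : IsProbabilityMeasure ν]

/-- law of the exits -/
noncomputable def exM (ν : Measure A) (e : List ℕ → Bool) (N : ℕ) (z : List ℕ) :
    Measure (Option (List ℕ)) :=
  (Measure.infinitePi (fun _ : ℕ => ν)).map (Ex e N z)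

instance exM_prob (e : List ℕ → Bool) (N : ℕ) (z : List ℕ) : IsProbabilityMeasure (exM ν e N z) :=
  Measure.isProbabilityMeasure_map (measurable_Ex e N z).aemeasurable

lemma ex_joint (e : List ℕ → Bool) (N : ℕ) :
    (Measure.infinitePi (fun _ : List ℕ => Measure.infinitePi (fun _ : ℕ => ν))).map
      (fun σ z => Ex e N z (σ z)) = Measure.infinitePi (exM ν e N) := by
  rw [Measure.infinitePi_map_pi (fun _ : List ℕ => Measure.infinitePi (fun _ : ℕ => ν))
    (f := fun z => Ex e N z) (fun z => measurable_Ex e N z)]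
  rfl

lemma measurable_exj (e : List ℕ → Bool) (N : ℕ) :
    Measurable (fun (σ : List ℕ → ℕ → A) z => Ex e N z (σ z)) := by
  apply measurable_pi_lambda
  intro z
  exact (measurable_Ex e N z).comp (measurable_pi_apply z)

lemma integral_indicator_map {Ω : Type*} [MeasurableSpace Ω] (P : Measure Ω)
    (f : Ω → Option (List ℕ)) (hf : Measurable f) (s : Set (Option (List ℕ))) :
    (P.map f).real s = ∫ ω, s.indicator 1 (f ω) ∂P := by
  rw [← integral_indicator_one (μ := P.map f) (s := s) MeasurableSet.of_discrete,
    integral_map hf.aemeasurable (measurable_of_countable _).aestronglyMeasurable]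

lemma ex_eq_eps (hU : UnifA ν) {e : List ℕ → Bool} {N : ℕ} {kap : List ℕ → ℝ}
    {μ : List ℕ × ℕ → Measure (Option (List ℕ))} [hμ : ∀ i, IsProbabilityMeasure (μ i)]
    (H : Model e N kap μ) (hk1 : ∀ c, kap [c] = 1) (hN : 0 < N) (z : List ℕ) (hz0 : z ≠ [])
    (hzN : z.length < N) (hzT : ∀ (c : ℕ) (u : List ℕ), (c :: u) <:+ z → c < deg (e u)) :
    exM ν e N z = (Measure.infinitePi μ).map (fun D => eps D z) := by
  classical
  have h1 : IsProbabilityMeasure ((Measure.infinitePi μ).map (fun D => eps D z)) :=
    Measure.isProbabilityMeasure_map (measurable_eps z).aemeasurable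
  apply Measure.ext
  intro s _
  have h2 : (exM ν e N z).real s = ((Measure.infinitePi μ).map (fun D => eps D z)).real s := by
    have hF : ∀ o, 0 ≤ s.indicator (1 : Option (List ℕ) → ℝ) o ∧
        s.indicator (1 : Option (List ℕ) → ℝ) o ≤ 1 := by
      intro o
      by_cases ho : o ∈ s
      · rw [Set.indicator_of_mem ho]; norm_num
      · rw [Set.indicator_of_notMem ho]; norm_num
    unfold exM
    rw [integral_indicator_map _ _ (measurable_Ex e N z), integral_indicator_map _ _ (measurable_eps z),
      exit_z hU e N hN z hzN.le hz0 _ hF, eps_law H hk1 z hz0 hzN hzT _ hF]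
  rw [measureReal_def, measureReal_def, ENNReal.toReal_eq_toReal_iff' (measure_ne_top _ _)
    (measure_ne_top _ _)] at h2
  exact h2

/-- the full functional -/
noncomputable def Wf (e : List ℕ → Bool) (k : ℕ) (s : ℝ) (ε : List ℕ → Option (List ℕ))
    (o : Option (List ℕ)) : ℝ :=
  match o with
  | none => 1
  | some ℓ => match ℓ.reverse with
    | [] => 1
    | c :: ρ => if c < deg (e []) then Psi e k c ρ s ε else 1

lemma Wf_mem (e : List ℕ → Bool) (k : ℕ) {s : ℝ} (hs0 : 0 ≤ s) (hs1 : s ≤ 1)
    (ε : List ℕ → Option (List ℕ)) (o : Option (List ℕ)) :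
    0 ≤ Wf e k s ε o ∧ Wf e k s ε o ≤ 1 := by
  unfold Wf
  cases o with
  | none => norm_num
  | some ℓ =>
    simp only
    cases ℓ.reverse with
    | nil => norm_num
    | cons c ρ =>
      simp only
      split_ifs
      · exact Psi_mem e k c ρ hs0 hs1 ε
      · norm_num

lemma Wf_congr (e : List ℕ → Bool) (k : ℕ) (s : ℝ)
    (ε ε' : List ℕ → Option (List ℕ)) (o : Option (List ℕ))
    (h : ∀ c < deg (e []), ∀ z ∈ VT e k [c], ε z = ε' z) :
    Wf e k s ε o = Wf e k s ε' o := by
  unfold Wf
  cases o with
  | none => rfl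
  | some ℓ =>
    simp only
    cases ℓ.reverse with
    | nil => rfl
    | cons c ρ =>
      simp only
      split_ifs with hc
      · exact Psi_congr e k c ρ s ε ε' (h c hc)
      · rfl

theorem quenched (hU : UnifA ν) (e : List ℕ → Bool) (k : ℕ) {s : ℝ} (hs0 : 0 ≤ s) (hs1 : s ≤ 1) :
    ∫ σ, Wf e k s (fun z => Ex e (k + 1) z (σ z)) (Ex e (k + 1) [] (σ []))
      ∂(Measure.infinitePi (fun _ : List ℕ => Measure.infinitePi (fun _ : ℕ => ν))) =
    ∑ c ∈ range (deg (e [])), wt e k [] c * Gr e k [c] 1 s := by
  classical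
  set N := k + 1 with hN
  set P := Measure.infinitePi (exM ν e N) with hP
  let T : Finset (List ℕ) := (range (deg (e []))).biUnion (fun c => VT e k [c])
  have hT0 : ([] : List ℕ) ∉ T := by
    simp only [T, Finset.mem_biUnion, not_exists, not_and]
    intro c _ h
    exact self_notMem_VT e k [] c h
  -- move to the outcome space
  have h1 : ∫ σ, Wf e k s (fun z => Ex e N z (σ z)) (Ex e N [] (σ []))
      ∂(Measure.infinitePi (fun _ : List ℕ => Measure.infinitePi (fun _ : ℕ => ν))) =
      ∫ ε, Wf e k s ε (ε []) ∂P := by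
    rw [hP, ← ex_joint e N, integral_map (measurable_exj e N).aemeasurable]
    apply Measurable.aestronglyMeasurable
    apply measurable_of_dep (insert [] T)
    intro t t' h
    rw [h [] (by simp)]
    apply Wf_congr
    intro c hc z hz
    apply h
    rw [Finset.mem_insert]
    right
    simp only [T, Finset.mem_biUnion]
    exact ⟨c, by simpa using hc, hz⟩
  rw [h1]
  have h2 := ki2 (exM ν e N) {[]} T (by simpa using hT0) (fun ε1 ε2 => Wf e k s ε2 (ε1 []))
    (fun t t' s' hh => by rw [hh [] (by simp)])
    (fun t s' s'' hh => by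
      apply Wf_congr
      intro c hc z hz
      apply hh
      simp only [T, Finset.mem_biUnion]
      exact ⟨c, by simpa using hc, hz⟩) 1
    (fun t s' => by
      have := Wf_mem e k hs0 hs1 s' (t [])
      rw [abs_le]; constructor <;> linarith)
  rw [← hP] at h2
  rw [h2]
  let F' : Option (List ℕ) → ℝ := fun o => ∫ ε, Wf e k s ε o ∂P
  have hWi : ∀ o, Integrable (fun ε => Wf e k s ε o) P := by
    intro o
    apply integrable_of_dep (exM ν e N) T _ _ 1
    · intro t
      have := Wf_mem e k hs0 hs1 t o
      rw [abs_le]; constructor <;> linarith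
    · intro t t' hh
      apply Wf_congr
      intro c hc z hz
      apply hh
      simp only [T, Finset.mem_biUnion]
      exact ⟨c, by simpa using hc, hz⟩
  have hF' : ∀ o, 0 ≤ F' o ∧ F' o ≤ 1 := by
    intro o
    constructor
    · exact integral_nonneg (fun ε => (Wf_mem e k hs0 hs1 ε o).1)
    · have h3 : F' o ≤ ∫ ε, (1:ℝ) ∂P := by
        apply integral_mono (hWi o) (integrable_const _)
        intro ε
        exact (Wf_mem e k hs0 hs1 ε o).2
      simpa using h3
  have h3 : ∫ t, ∫ s', Wf e k s s' (t []) ∂P ∂P = ∫ o, F' o ∂(exM ν e N []) := by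
    rw [hP, ← Measure.infinitePi_map_eval (exM ν e N) [],
      integral_map (measurable_pi_apply _).aemeasurable
        (measurable_of_countable _).aestronglyMeasurable]
  rw [h3]
  unfold exM
  rw [integral_map (measurable_Ex e N []).aemeasurable
    (measurable_of_countable _).aestronglyMeasurable, exit_root hU e N (by omega) F' hF']
  unfold NU
  rw [hN, EL]
  apply Finset.sum_congr rfl
  intro c hc
  rw [Finset.mem_range] at hc
  congr 1
  have hpgf := pgf (model_G e N) k [c] (by simp)
    (by simp only [List.length_cons, List.length_nil, hN]; omega) s hs0 hs1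
  have hk1 : kapG e N [c] = 1 := by simp [kapG]
  rw [hk1] at hpgf
  rw [← hpgf]
  congr 1
  funext ρ
  have h4 : F' (some ((c :: ρ).reverse ++ [])) = ∫ ε, Psi e k c ρ s ε ∂P := by
    simp only [F', Wf, List.append_nil, List.reverse_reverse, if_pos hc]
  rw [h4, ← Psi_eps (model_G e N) c hc k (by omega)]
  have h5 : ∫ D, Psi e k c ρ s (fun z => eps D z) ∂Measure.infinitePi (muG e N) =
      ∫ ε, Psi e k c ρ s ε ∂(Measure.infinitePi (fun z =>
        (Measure.infinitePi (muG e N)).map (fun D => eps D z))) := by
    rw [← eps_joint, integral_map]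
    · exact (measurable_pi_lambda _ (fun z => measurable_eps z)).aemeasurable
    · apply Measurable.aestronglyMeasurable
      exact measurable_of_dep (VT e k [c]) _ (fun t t' h => Psi_congr e k c ρ s t t' h)
  rw [h5, hP]
  have : ∀ z, IsProbabilityMeasure ((Measure.infinitePi (muG e N)).map (fun D => eps D z)) :=
    fun z => Measure.isProbabilityMeasure_map (measurable_eps z).aemeasurable
  apply integral_congr_dep _ _ (VT e k [c])
  · intro z hz
    have hsuf := VT_suffix e k _ _ hz
    apply ex_eq_eps hU (model_G e N) (fun c => by simp [kapG]) (by omega) z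
    · rintro rfl
      have := hsuf.1.length_le
      simp at this
    · have := hsuf.2
      simp only [List.length_cons, List.length_nil] at this
      omega
    · intro c' u hs
      by_cases hu : u = []
      · subst hu
        have : c' = c := suffix_cons_inj hs hsuf.1
        rw [this]
        exact hc
      · apply VT_tree e k _ _ hz c' u _ hs
        apply List.suffix_of_suffix_length_le hsuf.1 ((List.suffix_cons c' u).trans hs)
        have : u.length ≠ 0 := by simpa using hu
        simp only [List.length_cons, List.length_nil]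
        omega
  · intro t t' h
    exact Psi_congr e k c ρ s t t' h

end

end Pool.Agent.Work.MP_9e3593_pr.Fr
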