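import Pool.Agent.Work.MP_9e3593_pr.Couple

/-! Discretisation of the uniform variables. -/

set_option autoImplicit false
set_option linter.unusedSectionVars false

namespace Pool.Agent.Work.MP_9e3593_pr.Fr

open Finset MeasureTheory ProbabilityTheory

/-- uniform law on [0,1] -/
noncomputable def uni : Measure ℝ := (volume : Measure ℝ).restrict (Set.Icc (0:ℝ) 1)

instance : IsProbabilityMeasure uni := by
  constructor
  simp [uni]

/-- discretisation -/
noncomputable def dis (u : ℝ) : A :=
  (Fin.ofNat 2 ⌊u * 2⌋₊, Fin.ofNat 3 ⌊u * 3⌋₊, Fin.ofNat 5 ⌊u * 5⌋₊, Fin.ofNat 6 ⌊u * 6⌋₊)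

lemma measurable_dis : Measurable dis := by
  have h : ∀ (n : ℕ) [NeZero n] (c : ℝ), Measurable (fun u : ℝ => Fin.ofNat n ⌊u * c⌋₊) := by
    intro n _ c
    have h1 : Measurable (fun u : ℝ => ⌊u * c⌋₊) :=
      Nat.measurable_floor.comp (measurable_id.mul_const c)
    exact (measurable_of_countable (fun m : ℕ => Fin.ofNat n m)).comp h1
  exact (h 2 2).prodMk ((h 3 3).prodMk ((h 5 5).prodMk (h 6 6)))

lemma floor_lt_of_lt_one (u : ℝ) (hu : u < 1) (n : ℕ) (hn : 0 < n) :
    ⌊u * n⌋₊ < n := by
  rw [Nat.floor_lt' (by omega)]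
  have : (0:ℝ) < n := by exact_mod_cast hn
  nlinarith

lemma unif_floor (n : ℕ) (hn : 0 < n) (φ : ℕ → ℝ) :
    ∫ u, φ (⌊u * n⌋₊ % n) ∂uni = (∑ j ∈ range n, φ j) / n := by
  have hn' : (0:ℝ) < n := by exact_mod_cast hn
  have hmeas : Measurable (fun u : ℝ => φ (⌊u * n⌋₊ % n)) := by
    have h1 : Measurable (fun u : ℝ => ⌊u * n⌋₊) :=
      Nat.measurable_floor.comp (measurable_id.mul_const _)
    exact (measurable_of_countable (fun m : ℕ => φ (m % n))).comp h1
  have hbd : ∀ u : ℝ, ‖φ (⌊u * n⌋₊ % n)‖ ≤ ∑ j ∈ range n, ‖φ j‖ := by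
    intro u
    exact Finset.single_le_sum (f := fun j => ‖φ j‖) (fun j _ => norm_nonneg _)
      (Finset.mem_range.mpr (Nat.mod_lt _ hn))
  unfold uni
  rw [integral_Icc_eq_integral_Ioc, ← intervalIntegral.integral_of_le (by norm_num)]
  have hint : ∀ a b : ℝ, IntervalIntegrable (fun u : ℝ => φ (⌊u * n⌋₊ % n)) volume a b := by
    intro a b
    rw [intervalIntegrable_iff]
    have hfin : IsFiniteMeasure ((volume : Measure ℝ).restrict (Set.uIoc a b)) := by
      constructor
      rw [Measure.restrict_apply_univ, Set.uIoc, Real.volume_Ioc]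
      exact ENNReal.ofReal_lt_top
    apply Integrable.of_bound (C := ∑ j ∈ range n, ‖φ j‖) hmeas.aestronglyMeasurable
    filter_upwards with u
    exact hbd u
  have hsum := intervalIntegral.sum_integral_adjacent_intervals (μ := volume)
    (f := fun u : ℝ => φ (⌊u * n⌋₊ % n)) (a := fun j : ℕ => (j:ℝ) / n) (n := n)
    (fun k _ => hint _ _)
  have h0 : ((0:ℕ):ℝ) / n = 0 := by simp
  have h1 : ((n:ℕ):ℝ) / n = 1 := div_self hn'.ne'
  rw [h0, h1] at hsum
  rw [← hsum, Finset.sum_div]
  apply Finset.sum_congr rfl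
  intro j hj
  rw [Finset.mem_range] at hj
  have hval : ∫ u in ((j:ℝ)/n)..(((j+1 : ℕ) : ℝ)/n), φ (⌊u * n⌋₊ % n) =
      ∫ u in ((j:ℝ)/n)..(((j+1 : ℕ) : ℝ)/n), φ j := by
    apply intervalIntegral.integral_congr_ae
    have hne : ∀ᵐ u : ℝ ∂volume, u ≠ ((j+1 : ℕ) : ℝ)/n := by
      rw [ae_iff]
      simp
    filter_upwards [hne] with u hu hmem
    rw [Set.uIoc_of_le (by
      apply div_le_div_of_nonneg_right _ hn'.le
      push_cast
      linarith)] at hmem
    have h3 : ⌊u * n⌋₊ = j := by
      rw [Nat.floor_eq_iff (by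
        have : 0 ≤ (j:ℝ)/n := by positivity
        have := hmem.1
        apply mul_nonneg (by linarith) hn'.le)]
      constructor
      · have := hmem.1.le
        rw [div_le_iff₀ hn'] at this
        exact this
      · have h4 : u < ((j+1 : ℕ) : ℝ)/n := lt_of_le_of_ne hmem.2 hu
        rw [lt_div_iff₀ hn'] at h4
        push_cast at h4
        exact h4
    rw [h3, Nat.mod_eq_of_lt hj]
  show ∫ u in ((j:ℝ)/n)..(((j+1 : ℕ) : ℝ)/n), φ (⌊u * n⌋₊ % n) = _
  rw [hval, intervalIntegral.integral_const, smul_eq_mul]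
  push_cast
  field_simp
  ring

/-- law of the discretised uniform -/
noncomputable def nuA : Measure A := uni.map dis

instance : IsProbabilityMeasure nuA := Measure.isProbabilityMeasure_map measurable_dis.aemeasurable

lemma unifA_nuA : UnifA nuA where
  r := by
    intro b φ
    unfold nuA
    rw [integral_map measurable_dis.aemeasurable (measurable_of_countable _).aestronglyMeasurable]
    cases b
    · have := unif_floor 5 (by norm_num) φ
      simp only [rch, dis, Bool.false_eq_true, if_false, Fin.ofNat, deg]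
      exact_mod_cast this
    · have := unif_floor 2 (by norm_num) φ
      simp only [rch, dis, if_true, Fin.ofNat, deg]
      exact_mod_cast this
  i := by
    intro b φ
    unfold nuA
    rw [integral_map measurable_dis.aemeasurable (measurable_of_countable _).aestronglyMeasurable]
    cases b
    · have := unif_floor 6 (by norm_num) φ
      simp only [ich, dis, Bool.false_eq_true, if_false, Fin.ofNat, deg]
      norm_num at this ⊢
      exact this
    · have := unif_floor 3 (by norm_num) φ
      simp only [ich, dis, if_true, Fin.ofNat, deg]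
      norm_num at this ⊢
      exact this

/-- combined coordinate -/
noncomputable def g0 (p : ℝ) (u : ℝ) : Bool × A := (decide (u < p), dis u)

lemma measurable_g0 (p : ℝ) : Measurable (g0 p) := by
  apply Measurable.prodMk _ measurable_dis
  apply measurable_to_bool
  have : (fun u : ℝ => decide (u < p)) ⁻¹' {true} = Set.Iio p := by
    ext u
    simp
  rw [this]
  exact measurableSet_Iio

noncomputable def nuB (p : ℝ) : Measure (Bool × A) := uni.map (g0 p)

instance (p : ℝ) : IsProbabilityMeasure (nuB p) :=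
  Measure.isProbabilityMeasure_map (measurable_g0 p).aemeasurable

lemma nuB_fst {p : ℝ} (h0 : 0 ≤ p) (h1 : p ≤ 1) : (nuB p).map Prod.fst = bern p := by
  have hb := bern_prob h0 h1
  unfold nuB
  rw [Measure.map_map measurable_fst (measurable_g0 p)]
  have hm : Measurable (Prod.fst ∘ g0 p) := measurable_fst.comp (measurable_g0 p)
  have : IsProbabilityMeasure (uni.map (Prod.fst ∘ g0 p)) :=
    Measure.isProbabilityMeasure_map hm.aemeasurable
  have htrue : (uni.map (Prod.fst ∘ g0 p)) {true} = ENNReal.ofReal p := by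
    rw [Measure.map_apply hm (measurableSet_singleton _)]
    have : (Prod.fst ∘ g0 p) ⁻¹' {true} = Set.Iio p := by
      ext u
      simp [g0]
    rw [this]
    unfold uni
    rw [Measure.restrict_apply measurableSet_Iio]
    have h2 : volume (Set.Iio p ∩ Set.Icc (0:ℝ) 1) = volume (Set.Ico 0 p) := by
      congr 1
      ext u
      simp only [Set.mem_inter_iff, Set.mem_Iio, Set.mem_Icc, Set.mem_Ico]
      constructor
      · rintro ⟨h3, h4, _⟩; exact ⟨h4, h3⟩
      · rintro ⟨h3, h4⟩; exact ⟨h4, h3, by linarith⟩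
    rw [h2, Real.volume_Ico, sub_zero]
  have htrue' : bern p {true} = ENNReal.ofReal p := by
    unfold bern
    simp
  apply Measure.ext
  intro s _
  -- reduce to singletons
  have hfalse : ∀ (m : Measure Bool) [IsProbabilityMeasure m], m {false} = 1 - m {true} := by
    intro m _
    have : ({false} : Set Bool) = {true}ᶜ := by ext b; cases b <;> simp
    rw [this, prob_compl_eq_one_sub (measurableSet_singleton _)]
  have key : ∀ b : Bool, (uni.map (Prod.fst ∘ g0 p)) {b} = bern p {b} := by
    intro b
    cases b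
    · rw [hfalse, hfalse, htrue, htrue']
    · rw [htrue, htrue']
  have : uni.map (Prod.fst ∘ g0 p) = bern p := Measure.ext_of_singleton key
  rw [this]

lemma nuB_snd (p : ℝ) : (nuB p).map Prod.snd = nuA := by
  unfold nuB nuA
  rw [Measure.map_map measurable_snd (measurable_g0 p)]
  rfl

end Pool.Agent.Work.MP_9e3593_pr.Fr
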