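import Pool.Agent.Work.MP_9e3593_pr.Law

/-! The generating function of the activated set. -/

set_option autoImplicit false
set_option linter.unusedSectionVars false

namespace Pool.Agent.Work.MP_9e3593_pr.Fr

open Finset MeasureTheory ProbabilityTheory

/-! ### decoupling lemma for several blocks -/

lemma integrable_of_dep {ι α : Type*} [MeasurableSpace α] [MeasurableSingletonClass α] [Countable α]
    (μ : ι → Measure α) [∀ i, IsProbabilityMeasure (μ i)] (S : Finset ι) (h : (ι → α) → ℝ)
    (hS : ∀ t t', (∀ i ∈ S, t i = t' i) → h t = h t') (C : ℝ) (hb : ∀ t, |h t| ≤ C) :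
    Integrable h (Measure.infinitePi μ) := by
  apply Integrable.of_bound (measurable_of_dep S h hS).aestronglyMeasurable C
  filter_upwards with t
  exact hb t

theorem decouple_list {ι α β : Type*} [MeasurableSpace α] [MeasurableSingletonClass α] [Countable α]
    (μ : ι → Measure α) [∀ i, IsProbabilityMeasure (μ i)] (T : ℕ → Finset ι)
    (M : ℕ → β → (ι → α) → ℝ) (hM : ∀ j b t t', (∀ i ∈ T j, t i = t' i) → M j b t = M j b t')
    (hM01 : ∀ j b t, 0 ≤ M j b t ∧ M j b t ≤ 1)
    (J : List ℕ) (hJ : J.Nodup) (hT : ∀ i ∈ J, ∀ j ∈ J, i ≠ j → Disjoint (T i) (T j)) :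
    ∀ (S0 : Finset ι) (hS0 : ∀ j ∈ J, Disjoint S0 (T j))
    (Φ : (ι → α) → ℝ) (hΦ : ∀ t t', (∀ i ∈ S0, t i = t' i) → Φ t = Φ t')
    (hΦ01 : ∀ t, 0 ≤ Φ t ∧ Φ t ≤ 1)
    (ε : ℕ → (ι → α) → β) (hε : ∀ j t t', (∀ i ∈ S0, t i = t' i) → ε j t = ε j t'),
    ∫ t, Φ t * (J.map (fun j => M j (ε j t) t)).prod ∂Measure.infinitePi μ =
    ∫ t, Φ t * (J.map (fun j => ∫ s, M j (ε j t) s ∂Measure.infinitePi μ)).prod
      ∂Measure.infinitePi μ := by
  classical
  have hm : ∀ j b, 0 ≤ ∫ s, M j b s ∂Measure.infinitePi μ ∧ ∫ s, M j b s ∂Measure.infinitePi μ ≤ 1 := by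
    intro j b
    constructor
    · exact integral_nonneg (fun s => (hM01 j b s).1)
    · have h1 : ∫ s, M j b s ∂Measure.infinitePi μ ≤ ∫ s, (1:ℝ) ∂Measure.infinitePi μ := by
        apply integral_mono
        · exact integrable_of_dep μ (T j) _ (hM j b) 1 (fun t => by
            rw [abs_le]; constructor <;> linarith [(hM01 j b t).1, (hM01 j b t).2])
        · exact integrable_const _
        · intro s
          exact (hM01 j b s).2
      simpa using h1
  induction J with
  | nil => intro S0 _ Φ _ _ ε _; simp
  | cons j J ih =>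
    intro S0 hS0 Φ hΦ hΦ01 ε hε
    have hnd := List.nodup_cons.mp hJ
    have h1 := ih hnd.2 (fun a ha b hb hab => hT a (List.mem_cons_of_mem _ ha) b
      (List.mem_cons_of_mem _ hb) hab) (S0 ∪ T j) (fun a ha => by
        rw [Finset.disjoint_union_left]
        exact ⟨hS0 a (List.mem_cons_of_mem _ ha), hT j (by simp) a (List.mem_cons_of_mem _ ha)
          (fun hja => hnd.1 (hja ▸ ha))⟩)
      (fun t => Φ t * M j (ε j t) t)
      (fun t t' htt' => by
        rw [hΦ t t' (fun i hi => htt' i (Finset.mem_union_left _ hi)),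
          hε j t t' (fun i hi => htt' i (Finset.mem_union_left _ hi)),
          hM j (ε j t') t t' (fun i hi => htt' i (Finset.mem_union_right _ hi))])
      (fun t => ⟨mul_nonneg (hΦ01 t).1 (hM01 _ _ _).1,
        mul_le_one₀ (hΦ01 t).2 (hM01 _ _ _).1 (hM01 _ _ _).2⟩) ε
      (fun a t t' htt' => hε a t t' (fun i hi => htt' i (Finset.mem_union_left _ hi)))
    calc ∫ t, Φ t * ((j :: J).map (fun j => M j (ε j t) t)).prod ∂Measure.infinitePi μ
        = ∫ t, Φ t * M j (ε j t) t * (J.map (fun j => M j (ε j t) t)).prod
          ∂Measure.infinitePi μ := by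
          congr 1
          funext t
          rw [List.map_cons, List.prod_cons]
          ring
      _ = ∫ t, Φ t * M j (ε j t) t * (J.map (fun j => ∫ s, M j (ε j t) s
          ∂Measure.infinitePi μ)).prod ∂Measure.infinitePi μ := h1
      _ = ∫ t, ∫ s, Φ t * (J.map (fun j => ∫ s, M j (ε j t) s
          ∂Measure.infinitePi μ)).prod * M j (ε j t) s ∂Measure.infinitePi μ
            ∂Measure.infinitePi μ := by
          rw [← ki2 μ S0 (T j) (hS0 j (by simp)) (fun t s => Φ t * (J.map (fun j =>
            ∫ s, M j (ε j t) s ∂Measure.infinitePi μ)).prod * M j (ε j t) s) _ _ 1 _]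
          · congr 1
            funext t
            ring
          · intro t t' s htt'
            rw [hΦ t t' htt', hε j t t' htt']
            congr 3
            apply List.map_congr_left
            intro i _
            rw [hε i t t' htt']
          · intro t s s' hss'
            rw [hM j _ s s' hss']
          · intro t s
            have h2 := list_prod_mem J (fun j => ∫ s, M j (ε j t) s ∂Measure.infinitePi μ)
              (fun b _ => hm b _)
            have h3 := mul_nonneg (mul_nonneg (hΦ01 t).1 h2.1) (hM01 j (ε j t) s).1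
            have h4 := mul_le_one₀ (mul_le_one₀ (hΦ01 t).2 h2.1 h2.2) (hM01 j (ε j t) s).1
              (hM01 j (ε j t) s).2
            rw [abs_le]
            constructor <;> linarith
      _ = _ := by
          congr 1
          funext t
          rw [integral_const_mul, List.map_cons, List.prod_cons]
          ring

lemma prod_map_flatMap {β γ : Type*} (J : List β) (f : β → List γ) (g : γ → ℝ) :
    ((J.flatMap f).map g).prod = (J.map (fun j => ((f j).map g).prod)).prod := by
  induction J with
  | nil => rfl
  | cons j J ih => rw [List.flatMap_cons, List.map_append, List.prod_append, ih]; rfl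

/-! ### mixL and integrals -/

lemma mixL_congr_dom {B B' al : ℕ → ℝ} {t t' : ℝ → ℝ} {J : List ℕ} (hB : ∀ j ∈ J, B j = B' j)
    (hal : ∀ j ∈ J, 0 ≤ al j) (y : ℝ)
    (ht : ∀ y', y ≤ y' → y' ≤ y + (J.map al).sum → t y' = t' y') :
    mixL B al t J y = mixL B' al t' J y := by
  induction J generalizing y with
  | nil => exact ht y le_rfl (by simp)
  | cons j js ih =>
    have hj := hal j (by simp)
    have hs : 0 ≤ (js.map al).sum := by
      apply List.sum_nonneg
      intro x hx
      rw [List.mem_map] at hx
      obtain ⟨a, ha, rfl⟩ := hx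
      exact hal a (List.mem_cons_of_mem _ ha)
    simp only [mixL]
    simp only [List.map_cons, List.sum_cons] at ht
    rw [ih (fun i hi => hB i (List.mem_cons_of_mem _ hi))
      (fun i hi => hal i (List.mem_cons_of_mem _ hi)) y (fun y' h1 h2 => ht y' h1 (by linarith)),
      ih (fun i hi => hB i (List.mem_cons_of_mem _ hi))
      (fun i hi => hal i (List.mem_cons_of_mem _ hi)) (y + al j)
      (fun y' h1 h2 => ht y' (by linarith) (by linarith)), hB j (by simp)]

lemma integrable_mixL {Ω : Type*} [MeasurableSpace Ω] (P : Measure Ω) (B al : ℕ → ℝ)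
    (f : ℝ → Ω → ℝ) {J : List ℕ} (hal : ∀ j ∈ J, 0 ≤ al j) (y : ℝ)
    (hf : ∀ y', y ≤ y' → y' ≤ y + (J.map al).sum → Integrable (f y') P) :
    Integrable (fun ω => mixL B al (fun y => f y ω) J y) P ∧
    ∫ ω, mixL B al (fun y => f y ω) J y ∂P = mixL B al (fun y => ∫ ω, f y ω ∂P) J y := by
  induction J generalizing y with
  | nil => exact ⟨hf y le_rfl (by simp), rfl⟩
  | cons j js ih =>
    have hj := hal j (by simp)
    have hs : 0 ≤ (js.map al).sum := by
      apply List.sum_nonneg
      intro x hx
      rw [List.mem_map] at hx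
      obtain ⟨a, ha, rfl⟩ := hx
      exact hal a (List.mem_cons_of_mem _ ha)
    simp only [List.map_cons, List.sum_cons] at hf
    obtain ⟨i1, e1⟩ := ih (fun i hi => hal i (List.mem_cons_of_mem _ hi)) y
      (fun y' h1 h2 => hf y' h1 (by linarith))
    obtain ⟨i2, e2⟩ := ih (fun i hi => hal i (List.mem_cons_of_mem _ hi)) (y + al j)
      (fun y' h1 h2 => hf y' (by linarith) (by linarith))
    simp only [mixL]
    refine ⟨(i1.const_mul _).add (i2.const_mul _), ?_⟩
    rw [integral_add (i1.const_mul _) (i2.const_mul _), integral_const_mul, integral_const_mul,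
      e1, e2]

lemma EL_mixL (e : List ℕ → Bool) (k : ℕ) (v : List ℕ) (B al : ℕ → ℝ)
    (f : ℝ → List ℕ → ℝ) (J : List ℕ) (y : ℝ) :
    EL e k v (fun ρ => mixL B al (fun y => f y ρ) J y) = mixL B al (fun y => EL e k v (f y)) J y := by
  induction J generalizing y with
  | nil => rfl
  | cons j js ih =>
    simp only [mixL]
    rw [EL_add, EL_const_mul, EL_const_mul, ih, ih]

/-! ### the model -/

structure Model (e : List ℕ → Bool) (N : ℕ) (kap : List ℕ → ℝ)
    (μ : List ℕ × ℕ → Measure (Option (List ℕ))) : Prop where
  k0 : ∀ v, v ≠ [] → 0 ≤ kap v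
  k1 : ∀ v, v ≠ [] → kap v ≤ 1
  kc : ∀ v j, v ≠ [] → v.length < N → j < deg (e v) →
    kap (j :: v) = kch e (N - v.length - 1) v (kap v) j
  own : ∀ v, v ≠ [] → v.length < N → μ (v, v.length) = ownM e (N - v.length - 1) v (kap v)
  kick : ∀ v c z, v ≠ [] → c < deg (e v) → (c :: v) <:+ z → z.length < N →
    μ (z, v.length) = kickM e (N - v.length - 1) v (kap v) c

/-- weight with another level -/
noncomputable def Gw (e : List ℕ → Bool) (k : ℕ) (v ρ : List ℕ) (D : List ℕ × ℕ → Option (List ℕ))
    (m0 : ℕ) (s : ℝ) : ℝ :=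
  ((act e (entD D) k v ρ).map (fun z => if up D z m0 then 1 - s else 1)).prod

lemma Gw_mem (e : List ℕ → Bool) (k : ℕ) (v ρ : List ℕ) (D : List ℕ × ℕ → Option (List ℕ))
    (m0 : ℕ) {s : ℝ} (hs0 : 0 ≤ s) (hs1 : s ≤ 1) :
    0 ≤ Gw e k v ρ D m0 s ∧ Gw e k v ρ D m0 s ≤ 1 := by
  apply list_prod_mem
  intro z _
  split_ifs
  · constructor <;> linarith
  · constructor <;> norm_num

lemma Gw_congr (e : List ℕ → Bool) (k : ℕ) (v ρ : List ℕ) (D D' : List ℕ × ℕ → Option (List ℕ))
    (m0 : ℕ) (hm0 : m0 ≤ v.length) (s : ℝ)
    (h : ∀ z ∈ VT e k v, ∀ m, m0 ≤ m → m ≤ z.length → D (z, m) = D' (z, m)) :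
    Gw e k v ρ D m0 s = Gw e k v ρ D' m0 s := by
  unfold Gw
  rw [actD_congr e k v ρ D D' (fun z hz m hm hm' => h z hz m (by omega) hm')]
  congr 1
  apply List.map_congr_left
  intro z hz
  have hz' := act_mem e _ k _ _ _ hz
  have := up_congr D D' z m0 (fun m hm hm' => h z hz' m hm hm')
  by_cases hu : up D z m0
  · rw [if_pos hu, if_pos (this.mp hu)]
  · rw [if_neg hu, if_neg (fun h' => hu (this.mpr h'))]

lemma up_iff (D : List ℕ × ℕ → Option (List ℕ)) (z : List ℕ) (d : ℕ) (hd : d ≤ z.length) :
    up D z d ↔ up D z (d + 1) ∧ D (z, d) = none := by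
  unfold up
  constructor
  · intro h
    refine ⟨fun m hm => h m ?_, h d ?_⟩
    · rw [Finset.mem_Icc] at hm ⊢; omega
    · rw [Finset.mem_Icc]; omega
  · rintro ⟨h1, h2⟩ m hm
    rw [Finset.mem_Icc] at hm
    by_cases hmd : m = d
    · rw [hmd]; exact h2
    · exact h1 m (by rw [Finset.mem_Icc]; omega)

/-- the guard -/
def gd (D : List ℕ × ℕ → Option (List ℕ)) (d : ℕ) : List ℕ × ℕ → Prop := fun i => up D i.1 (d + 1)

instance (D : List ℕ × ℕ → Option (List ℕ)) (d : ℕ) : DecidablePred (gd D d) := by
  intro i; unfold gd; infer_instance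

/-- index list at level d -/
def il (d : ℕ) (Z : List (List ℕ)) : List (List ℕ × ℕ) := Z.map (fun z => (z, d))

lemma wprod_il (D : List ℕ × ℕ → Option (List ℕ)) (d : ℕ) (s : ℝ) (Z : List (List ℕ))
    (hZ : ∀ z ∈ Z, d ≤ z.length) :
    wprod (gd D d) s (il d Z) D = (Z.map (fun z => if up D z d then 1 - s else 1)).prod := by
  unfold wprod il
  rw [List.map_map]
  congr 1
  apply List.map_congr_left
  intro z hz
  simp only [Function.comp, gd]
  have := up_iff D z d (hZ z hz)
  by_cases h1 : up D z (d + 1)
  · by_cases h2 : D (z, d) = none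
    · rw [if_pos h1, if_pos h2, if_pos (this.mpr ⟨h1, h2⟩)]
    · rw [if_pos h1, if_neg h2, if_neg (fun h => h2 (this.mp h).2)]
  · rw [if_neg h1, if_neg (fun h => h1 (this.mp h).1)]

lemma fstG_il (D : List ℕ × ℕ → Option (List ℕ)) (d : ℕ) (Z : List (List ℕ)) (j : ℕ) :
    fstG (gd D d) (il d Z) D j = fstE (entD D) d j Z := by
  unfold fstG fstE il
  rw [List.findSome?_map]
  congr 1
  funext z
  simp only [Function.comp, gd, entD]
  split_ifs <;> rfl

lemma nodup_il (d : ℕ) (Z : List (List ℕ)) (hZ : Z.Nodup) : (il d Z).Nodup := by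
  unfold il
  exact hZ.map (fun a b h => by simpa using h)

section
variable {e : List ℕ → Bool} {N : ℕ} {kap : List ℕ → ℝ}
  {μ : List ℕ × ℕ → Measure (Option (List ℕ))} [hμ : ∀ i, IsProbabilityMeasure (μ i)]

/-- integration of one level: general form -/
lemma level_step (H : Model e N kap μ) {k : ℕ} {v : List ℕ} (hv : v ≠ []) (hk : v.length + (k + 1) = N)
    {c : ℕ} (hc : c < deg (e v)) {s : ℝ} (hs0 : 0 ≤ s) (hs1 : s ≤ 1) (own : Bool) (ρ : List ℕ)
    (g : ℕ → List ℕ → ℝ) (hg : ∀ j ρ, 0 ≤ g j ρ ∧ g j ρ ≤ 1) (J : List ℕ) (hJ : J.Nodup)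
    (hJ0 : ∀ j ∈ J, j ∈ (List.range (deg (e v))).erase c) :
    ∫ D, wprod (gd D v.length) s (il v.length ((if own then [v] else []) ++
        act e (entD D) k (c :: v) ρ)) D *
      cprod (gd D v.length) g (il v.length ((if own then [v] else []) ++
        act e (entD D) k (c :: v) ρ)) D J ∂Measure.infinitePi μ =
    ∫ D, mixL (fun j => EL e k (j :: v) (g j)) (fun j => (1 - qv e k v (kap v)) * wt e k v j)
      (fun y => (if own then 1 - y else 1) * Fw e k (c :: v) ρ D (y / kap (c :: v))) J
        (qv e k v (kap v) * s) ∂Measure.infinitePi μ := by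
  classical
  set d := v.length with hd
  have hkN : N - d - 1 = k := by omega
  have hkap : kap (c :: v) = kch e k v (kap v) c := by
    rw [H.kc v c hv (by omega) hc, ← hd, hkN]
  have hZsub : ∀ D z, z ∈ (if own then [v] else []) ++ act e (entD D) k (c :: v) ρ →
      z = v ∨ z ∈ VT e k (c :: v) := by
    intro D z hz
    rw [List.mem_append] at hz
    rcases hz with hz | hz
    · left
      cases own
      · simp at hz
      · simpa using hz
    · right
      exact act_mem e _ k _ _ _ hz
  have hupv : ∀ D : List ℕ × ℕ → Option (List ℕ), up D v (d + 1) := by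
    intro D m hm
    rw [Finset.mem_Icc] at hm
    omega
  let S : Finset (List ℕ × ℕ) := CT e k (c :: v) (d + 1) N
  let T : Finset (List ℕ × ℕ) := (insert v (VT e k (c :: v))) ×ˢ {d}
  have hST : Disjoint S T := by
    rw [Finset.disjoint_left]
    rintro ⟨z, m⟩ h1 h2
    simp only [S, T, CT, Finset.mem_product, Finset.mem_Icc, Finset.mem_singleton] at h1 h2
    omega
  have hlenN : ∀ z ∈ VT e k (c :: v), z.length < N := by
    intro z hz
    have := (VT_suffix e k _ _ hz).2
    simp only [List.length_cons] at this
    omega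
  have hactS : ∀ D D' : List ℕ × ℕ → Option (List ℕ), (∀ i ∈ S, D i = D' i) →
      act e (entD D) k (c :: v) ρ = act e (entD D') k (c :: v) ρ := by
    intro D D' hDD
    apply actD_congr
    intro z hz m hm hm'
    apply hDD
    simp only [S, CT, Finset.mem_product, Finset.mem_Icc]
    simp only [List.length_cons] at hm
    have := hlenN z hz
    exact ⟨hz, by omega, by omega⟩
  have hupS : ∀ D D' : List ℕ × ℕ → Option (List ℕ), (∀ i ∈ S, D i = D' i) →
      ∀ z, (z = v ∨ z ∈ VT e k (c :: v)) → (up D z (d + 1) ↔ up D' z (d + 1)) := by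
    intro D D' hDD z hz
    rcases hz with rfl | hz
    · exact ⟨fun _ => hupv _, fun _ => hupv _⟩
    · apply up_congr
      intro m hm hm'
      apply hDD
      simp only [S, CT, Finset.mem_product, Finset.mem_Icc]
      have := hlenN z hz
      exact ⟨hz, by omega, by omega⟩
  let Z : (List ℕ × ℕ → Option (List ℕ)) → List (List ℕ × ℕ) := fun D =>
    il d ((if own then [v] else []) ++ act e (entD D) k (c :: v) ρ)
  have hZT : ∀ D, ∀ i ∈ Z D, i ∈ T := by
    intro D i hi
    simp only [Z, il, List.mem_map] at hi
    obtain ⟨z, hz, rfl⟩ := hi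
    simp only [T, Finset.mem_product, Finset.mem_insert, Finset.mem_singleton, and_true]
    exact hZsub D z hz
  rw [ki2 μ S T hST (fun D D' => wprod (gd D d) s (Z D) D' * cprod (gd D d) g (Z D) D' J)
    (fun D1 D2 D' hD => by
      have hZ : Z D1 = Z D2 := by simp only [Z]; rw [hactS D1 D2 hD]
      have hgd : ∀ i ∈ Z D2, (gd D1 d i ↔ gd D2 d i) := by
        intro i hi
        have := hZT D2 i hi
        simp only [T, Finset.mem_product, Finset.mem_insert, Finset.mem_singleton] at this
        exact hupS D1 D2 hD i.1 this.1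
      rw [hZ]
      congr 1
      · unfold wprod
        congr 1
        apply List.map_congr_left
        intro i hi
        have := hgd i hi
        by_cases hb : gd D1 d i
        · rw [if_pos hb, if_pos (this.mp hb)]
        · rw [if_neg hb, if_neg (fun h => hb (this.mpr h))]
      · unfold cprod
        congr 1
        apply List.map_congr_left
        intro j _
        congr 1
        unfold fstG
        revert hgd
        generalize Z D2 = ZZ
        intro hgd
        induction ZZ with
        | nil => rfl
        | cons i ZZ ih =>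
          rw [List.findSome?_cons, List.findSome?_cons, ih (fun i hi => hgd i
            (List.mem_cons_of_mem _ hi))]
          have := hgd i (by simp)
          by_cases hb : gd D1 d i
          · rw [if_pos hb, if_pos (this.mp hb)]
          · rw [if_neg hb, if_neg (fun h => hb (this.mpr h))])
    (fun D D1 D2 hD => by
      rw [wprod_congr _ s (Z D) D1 D2 (fun i hi => hD i (hZT D i hi)),
        cprod_congr _ g (Z D) D1 D2 (fun i hi => hD i (hZT D i hi))]) 1
    (fun D D' => by
      have h1 := wprod_mem (gd D d) hs0 hs1 (Z D) D'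
      have h2 := cprod_mem (gd D d) hg (Z D) D' J
      have h3 := mul_nonneg h1.1 h2.1
      have h4 := mul_le_one₀ h1.2 h2.1 h2.2
      rw [abs_le]
      constructor <;> linarith)]
  congr 1
  funext D
  -- the law
  have hlaw : ∀ i ∈ Z D, gd D d i → IsLaw (μ i) (if i.1 = v then 1 else 1 / kap (c :: v))
      (qv e k v (kap v)) (fun j => (1 - qv e k v (kap v)) * wt e k v j)
      (fun j => EL e k (j :: v)) ((List.range (deg (e v))).erase c) := by
    intro i hi _
    have h1 := hZT D i hi
    simp only [T, Finset.mem_product, Finset.mem_insert, Finset.mem_singleton] at h1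
    obtain ⟨h1, h2⟩ := h1
    obtain ⟨z, m⟩ := i
    simp only at h1 h2
    subst h2
    by_cases hzv : z = v
    · subst hzv
      simp only [if_true]
      rw [hd, H.own z hv (by omega), ← hd, hkN]
      exact isLaw_own e k z (H.k0 z hv) (H.k1 z hv) c
    · have hz : z ∈ VT e k (c :: v) := by
        rcases h1 with h1 | h1
        · exact absurd h1 hzv
        · exact h1
      rw [hd, H.kick v c z hv hc (VT_suffix e k _ _ hz).1 (hlenN z hz), ← hd, hkN]
      simp only [if_neg hzv]
      rw [hkap]
      exact isLaw_kick e k v (H.k0 v hv) (H.k1 v hv) c hc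
  have hnd : (Z D).Nodup := by
    apply nodup_il
    cases own
    · simpa using act_nodup e _ k _ _
    · simp only [if_true, List.singleton_append]
      rw [List.nodup_cons]
      exact ⟨fun h => self_notMem_VT e k v c (act_mem e _ k _ _ _ h), act_nodup e _ k _ _⟩
  rw [scan μ (gd D d) (fun i => if i.1 = v then 1 else 1 / kap (c :: v)) (qv e k v (kap v))
    (fun j => (1 - qv e k v (kap v)) * wt e k v j) (fun j => EL e k (j :: v))
    (fun j F c => EL_mul_const e k (j :: v) F c) g hg hs0 hs1 _ (Z D) hnd hlaw J hJ hJ0]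
  apply mixL_congr (fun _ _ => rfl) (fun _ _ => rfl)
  intro y
  simp only [Z, il]
  rw [List.map_append, List.map_append, List.prod_append]
  congr 1
  · cases own
    · simp
    · simp only [if_true, List.map_cons, List.map_nil, List.prod_cons, List.prod_nil, mul_one,
        one_mul]
      exact if_pos (hupv D)
  · unfold Fw
    rw [List.map_map]
    congr 1
    apply List.map_congr_left
    intro z hz
    have hz' := act_mem e _ k _ _ _ hz
    have hne : z ≠ v := by
      rintro rfl
      exact self_notMem_VT e k z c hz'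
    simp only [Function.comp, gd, if_neg hne]
    by_cases hu : up D z (d + 1)
    · rw [if_pos hu, if_pos (show up D z (c :: v).length from hu)]
      ring
    · rw [if_neg hu, if_neg (show ¬ up D z (c :: v).length from hu)]

lemma qv_le_kch (e : List ℕ → Bool) (k : ℕ) (v : List ℕ) {κ : ℝ} (h1 : κ ≤ 1) (j : ℕ)
    (hj : j < deg (e v)) : qv e k v κ ≤ kch e k v κ j := by
  rw [kch_eq]
  have h2 := wt_le_one e k v j hj
  have h3 := (qv_lt_one e k v h1).le
  nlinarith

/-- thinning of one block -/
lemma thin (H : Model e N kap μ) {k : ℕ} {v : List ℕ} (hv : v ≠ []) (hk : v.length + (k + 1) = N)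
    {c : ℕ} (hc : c < deg (e v)) {s : ℝ} (hs0 : 0 ≤ s) (hs1 : s ≤ 1) (ρ : List ℕ) :
    ∫ D, Gw e k (c :: v) ρ D v.length s ∂Measure.infinitePi μ =
    ∫ D, Fw e k (c :: v) ρ D (qv e k v (kap v) * s / kap (c :: v)) ∂Measure.infinitePi μ := by
  have h := level_step H hv hk hc hs0 hs1 false ρ (fun _ _ => 0) (fun _ _ => by norm_num) []
    (by simp) (by simp)
  simp only [mixL, cprod, List.map_nil, List.prod_nil, mul_one, Bool.false_eq_true, if_false,
    List.nil_append, one_mul] at h
  rw [← h]
  congr 1
  funext D
  rw [wprod_il D v.length s _ (fun z hz => by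
    have := VT_length_le e k _ _ (act_mem e _ k _ _ _ hz)
    simp only [List.length_cons] at this
    omega)]
  rfl

theorem pgf (H : Model e N kap μ) : ∀ (k : ℕ) (v : List ℕ), v ≠ [] → v.length + k = N →
    ∀ (s : ℝ), 0 ≤ s → s ≤ 1 →
    EL e k v (fun ρ => ∫ D, Fw e k v ρ D s ∂Measure.infinitePi μ) = Gr e k v (kap v) s := by
  classical
  intro k
  induction k with
  | zero =>
    intro v _ _ s _ _
    simp [EL, Gr, Fw, act]
  | succ k ih =>
    intro v hv hk s hs0 hs1
    rw [EL, Gr_succ]
    apply Finset.sum_congr rfl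
    intro c hc
    rw [Finset.mem_range] at hc
    congr 1
    set d := v.length with hd
    have hkN : N - d - 1 = k := by omega
    have hkap : ∀ j < deg (e v), kap (j :: v) = kch e k v (kap v) j := by
      intro j hj
      rw [H.kc v j hv (by omega) hj, ← hd, hkN]
    set q := qv e k v (kap v) with hq
    have hq0 : 0 ≤ q := qv_nonneg e k v (H.k0 v hv)
    have hq1 : q < 1 := qv_lt_one e k v (H.k1 v hv)
    let J := (List.range (deg (e v))).erase c
    have hJnd : J.Nodup := List.nodup_range.erase c
    have hJlt : ∀ j ∈ J, j < deg (e v) ∧ j ≠ c := by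
      intro j hj
      simp only [J] at hj
      rw [List.Nodup.mem_erase_iff List.nodup_range] at hj
      exact ⟨by simpa using hj.2, hj.1⟩
    let g : ℕ → List ℕ → ℝ := fun j ρ' => ∫ D, Gw e k (j :: v) ρ' D d s ∂Measure.infinitePi μ
    have hGint : ∀ j ρ', Integrable (fun D => Gw e k (j :: v) ρ' D d s) (Measure.infinitePi μ) := by
      intro j ρ'
      apply integrable_of_dep μ (CT e k (j :: v) d N) _ _ 1
      · intro D
        have := Gw_mem e k (j :: v) ρ' D d hs0 hs1
        rw [abs_le]; constructor <;> linarith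
      · intro D D' hDD
        apply Gw_congr _ _ _ _ _ _ _ (by simp [hd])
        intro z hz m hm hm'
        apply hDD
        have := (VT_suffix e k _ _ hz).2
        simp only [List.length_cons] at this
        simp only [CT, Finset.mem_product, Finset.mem_Icc]
        exact ⟨hz, hm, by omega⟩
    have hg : ∀ j ρ', 0 ≤ g j ρ' ∧ g j ρ' ≤ 1 := by
      intro j ρ'
      constructor
      · exact integral_nonneg (fun D => (Gw_mem e k _ _ D d hs0 hs1).1)
      · have h1 : g j ρ' ≤ ∫ D, (1:ℝ) ∂Measure.infinitePi μ := by
          apply integral_mono (hGint j ρ') (integrable_const _)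
          intro D
          exact (Gw_mem e k _ _ D d hs0 hs1).2
        simpa using h1
    -- B j
    have hB : ∀ j ∈ J, EL e k (j :: v) (g j) = Gr e k (j :: v) (kch e k v (kap v) j)
        (q * s / kch e k v (kap v) j) := by
      intro j hj
      have hj' := (hJlt j hj).1
      have h1 : g j = fun ρ' => ∫ D, Fw e k (j :: v) ρ' D (q * s / kap (j :: v))
          ∂Measure.infinitePi μ := by
        funext ρ'
        exact thin H hv (by omega) hj' hs0 hs1 ρ'
      have hkp : 0 < kch e k v (kap v) j := kch_pos e k v (H.k0 v hv) j hj'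
      rw [h1, ih (j :: v) (by simp) (by simp only [List.length_cons]; omega)]
      · rw [hkap j hj']
      · rw [hkap j hj']
        positivity
      · rw [hkap j hj', div_le_one hkp]
        have := qv_le_kch e k v (H.k1 v hv) j hj'
        calc q * s ≤ q * 1 := mul_le_mul_of_nonneg_left hs1 hq0
          _ = q := mul_one q
          _ ≤ _ := this
    -- the integral for fixed ρ
    have hmain : ∀ ρ, ∫ D, Fw e (k + 1) v (c :: ρ) D s ∂Measure.infinitePi μ =
        ∫ D, mixL (fun j => EL e k (j :: v) (g j)) (fun j => (1 - q) * wt e k v j)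
        (fun y => (1 - y) * Fw e k (c :: v) ρ D (y / kap (c :: v))) J (q * s)
          ∂Measure.infinitePi μ := by
      intro ρ
      have h2 := level_step H hv (by omega : v.length + (k + 1) = N) hc hs0 hs1 true ρ g hg J hJnd
        (fun j hj => hj)
      simp only [if_true, List.singleton_append] at h2
      rw [← hd, ← hq] at h2
      rw [← h2]
      -- decouple the blocks
      let Z : (List ℕ × ℕ → Option (List ℕ)) → List (List ℕ) := fun D =>
        v :: act e (entD D) k (c :: v) ρ
      let M : ℕ → Option (List ℕ) → (List ℕ × ℕ → Option (List ℕ)) → ℝ := fun j o D =>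
        optv (fun ρ' => Gw e k (j :: v) ρ' D d s) o
      let S0 : Finset (List ℕ × ℕ) := (insert v (VT e k (c :: v))) ×ˢ (Finset.Icc d N)
      have hlenN : ∀ j, ∀ z ∈ VT e k (j :: v), z.length < N ∧ d ≤ z.length := by
        intro j z hz
        have h1 := (VT_suffix e k _ _ hz).2
        have h2 := VT_length_le e k _ _ hz
        simp only [List.length_cons] at h1 h2
        omega
      have hZv : ∀ D, ∀ z ∈ Z D, z = v ∨ z ∈ VT e k (c :: v) := by
        intro D z hz
        simp only [Z, List.mem_cons] at hz
        rcases hz with hz | hz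
        · exact Or.inl hz
        · exact Or.inr (act_mem e _ k _ _ _ hz)
      have hZlen : ∀ D, ∀ z ∈ Z D, d ≤ z.length := by
        intro D z hz
        rcases hZv D z hz with rfl | hz
        · exact le_rfl
        · exact (hlenN c z hz).2
      have hagree : ∀ D D' : List ℕ × ℕ → Option (List ℕ), (∀ i ∈ S0, D i = D' i) →
          ∀ z, (z = v ∨ z ∈ VT e k (c :: v)) → ∀ m, d ≤ m → m ≤ z.length → D (z, m) = D' (z, m) := by
        intro D D' hDD z hz m hm hm'
        apply hDD
        simp only [S0, Finset.mem_product, Finset.mem_insert, Finset.mem_Icc]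
        rcases hz with rfl | hz
        · exact ⟨Or.inl rfl, hm, by omega⟩
        · have := (hlenN c z hz).1
          exact ⟨Or.inr hz, hm, by omega⟩
      have hZS : ∀ D D' : List ℕ × ℕ → Option (List ℕ), (∀ i ∈ S0, D i = D' i) → Z D = Z D' := by
        intro D D' hDD
        simp only [Z]
        rw [actD_congr e k (c :: v) ρ D D' (fun z hz m hm hm' => hagree D D' hDD z (Or.inr hz) m
          (by simp only [List.length_cons] at hm; omega) hm')]
      have hdec := decouple_list μ (fun j => CT e k (j :: v) d N) M
        (fun j o D D' hDD => by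
          cases o with
          | none => rfl
          | some ρ' =>
            simp only [M, optv]
            apply Gw_congr _ _ _ _ _ _ _ (by simp [hd])
            intro z hz m hm hm'
            apply hDD
            have := (hlenN j z hz).1
            simp only [CT, Finset.mem_product, Finset.mem_Icc]
            exact ⟨hz, hm, by omega⟩)
        (fun j o D => optv_mem (fun ρ' => Gw_mem e k _ _ D d hs0 hs1) o) J hJnd
        (fun i _ j _ hij => by
          have := VT_disjoint e k v hij
          rw [Finset.disjoint_left] at this ⊢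
          rintro ⟨z, m⟩ h1 h2
          simp only [CT, Finset.mem_product] at h1 h2
          exact this h1.1 h2.1)
        S0 (fun j hj => by
          rw [Finset.disjoint_left]
          rintro ⟨z, m⟩ h1 h2
          simp only [S0, CT, Finset.mem_product, Finset.mem_insert] at h1 h2
          rcases h1.1 with h3 | h3
          · subst h3
            exact self_notMem_VT e k z j h2.1
          · exact (Finset.disjoint_left.mp (VT_disjoint e k v (hJlt j hj).2.symm)) h3 h2.1)
        (fun D => wprod (gd D d) s (il d (Z D)) D)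
        (fun D D' hDD => by
          rw [wprod_il D d s _ (hZlen D), wprod_il D' d s _ (hZlen D'), hZS D D' hDD]
          congr 1
          apply List.map_congr_left
          intro z hz
          have := up_congr D D' z d (fun m hm hm' => hagree D D' hDD z (hZv D' z hz) m hm hm')
          by_cases hu : up D z d
          · rw [if_pos hu, if_pos (this.mp hu)]
          · rw [if_neg hu, if_neg (fun h' => hu (this.mpr h'))])
        (fun D => wprod_mem _ hs0 hs1 _ _)
        (fun j D => fstE (entD D) d j (Z D))
        (fun j D D' hDD => by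
          rw [hZS D D' hDD]
          apply fstE_congr
          intro z hz
          apply entD_congr
          · exact fun m hm hm' => hagree D D' hDD z (hZv D' z hz) m hm hm'
          · exact hZlen D' z hz)
      have hL : ∀ D, Fw e (k + 1) v (c :: ρ) D s = wprod (gd D d) s (il d (Z D)) D *
          (J.map (fun j => M j (fstE (entD D) d j (Z D)) D)).prod := by
        intro D
        unfold Fw
        rw [act_cons e _ k v c ρ hc, List.map_append, List.prod_append, wprod_il D d s _ (hZlen D)]
        congr 1
        rw [prod_map_flatMap]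
        congr 1
        apply List.map_congr_left
        intro j _
        rw [← hd]
        cases fstE (entD D) d j (Z D) with
        | none => simp [M, optv, optl]
        | some ρ' => rfl
      simp_rw [hL]
      rw [hdec]
      congr 1
      funext D
      congr 1
      unfold cprod
      congr 1
      apply List.map_congr_left
      intro j _
      rw [fstG_il]
      show ∫ s, M j (fstE (entD D) d j (Z D)) s ∂Measure.infinitePi μ =
        optv (g j) (fstE (entD D) d j (Z D))
      cases fstE (entD D) d j (Z D) with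
      | none => simp [M, optv]
      | some ρ' => rfl
    rw [show (fun ρ => ∫ D, Fw e (k + 1) v (c :: ρ) D s ∂Measure.infinitePi μ) = fun ρ =>
      ∫ D, mixL (fun j => EL e k (j :: v) (g j)) (fun j => (1 - q) * wt e k v j)
        (fun y => (1 - y) * Fw e k (c :: v) ρ D (y / kap (c :: v))) J (q * s)
          ∂Measure.infinitePi μ from funext hmain]
    have hal : ∀ j ∈ J, 0 ≤ (1 - q) * wt e k v j := fun j _ =>
      mul_nonneg (by linarith) (wt_pos e k v j).le
    have hkc : 0 < kch e k v (kap v) c := kch_pos e k v (H.k0 v hv) c hc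
    have hsum : (J.map (fun j => (1 - q) * wt e k v j)).sum = (1 - q) * (1 - wt e k v c) := by
      have h1 : (J.map (fun j => (1 - q) * wt e k v j)).sum =
          ∑ j ∈ J.toFinset, (1 - q) * wt e k v j := (List.sum_toFinset _ hJnd).symm
      rw [h1, ← Finset.mul_sum, ← sum_wt_erase e k v c hc]
      congr 1
      apply Finset.sum_congr _ (fun _ _ => rfl)
      ext j
      simp only [J, List.mem_toFinset, Finset.mem_erase, Finset.mem_range]
      rw [List.Nodup.mem_erase_iff List.nodup_range]
      simp
    have hdom : ∀ y', q * s ≤ y' → y' ≤ q * s + (J.map (fun j => (1 - q) * wt e k v j)).sum →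
        0 ≤ y' / kap (c :: v) ∧ y' / kap (c :: v) ≤ 1 := by
      intro y' h1 h2
      rw [hkap c hc, div_le_one hkc]
      rw [hsum] at h2
      have h3 : 0 ≤ q * s := mul_nonneg hq0 hs0
      constructor
      · exact div_nonneg (by linarith) hkc.le
      · rw [kch_eq, ← hq]
        have : q * s ≤ q * 1 := mul_le_mul_of_nonneg_left hs1 hq0
        linarith
    have hint : ∀ ρ, ∫ D, mixL (fun j => EL e k (j :: v) (g j)) (fun j => (1 - q) * wt e k v j)
        (fun y => (1 - y) * Fw e k (c :: v) ρ D (y / kap (c :: v))) J (q * s)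
          ∂Measure.infinitePi μ =
        mixL (fun j => EL e k (j :: v) (g j)) (fun j => (1 - q) * wt e k v j)
        (fun y => (1 - y) * ∫ D, Fw e k (c :: v) ρ D (y / kap (c :: v)) ∂Measure.infinitePi μ)
          J (q * s) := by
      intro ρ
      rw [(integrable_mixL (Measure.infinitePi μ) (fun j => EL e k (j :: v) (g j))
        (fun j => (1 - q) * wt e k v j)
        (fun y D => (1 - y) * Fw e k (c :: v) ρ D (y / kap (c :: v))) hal (q * s) _).2]
      · simp_rw [integral_const_mul]
      · intro y' h1 h2
        apply Integrable.const_mul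
        apply integrable_of_dep μ (CT e k (c :: v) (d + 1) N) _ _ 1
        · intro D
          have := Fw_mem e k (c :: v) ρ D (hdom y' h1 h2).1 (hdom y' h1 h2).2
          rw [abs_le]; constructor <;> linarith
        · intro D D' hDD
          apply Fw_congr
          intro z hz m hm hm'
          apply hDD
          have := (VT_suffix e k _ _ hz).2
          simp only [List.length_cons] at this hm
          simp only [CT, Finset.mem_product, Finset.mem_Icc]
          exact ⟨hz, by omega, by omega⟩
    simp_rw [hint]
    rw [EL_mixL e k (c :: v) _ _ (fun y ρ => (1 - y) * ∫ D, Fw e k (c :: v) ρ D (y / kap (c :: v))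
      ∂Measure.infinitePi μ)]
    apply mixL_congr_dom hB hal
    intro y' h1 h2
    rw [EL_const_mul, ih (c :: v) (by simp) (by simp only [List.length_cons]; omega) _
      (hdom y' h1 h2).1 (hdom y' h1 h2).2, hkap c hc]

end

end Pool.Agent.Work.MP_9e3593_pr.Fr
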