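import Pool.Agent.Work.MP_9e3593_pr.Walk
import Pool.Agent.Work.MP_9e3593_pr.Pgf

/-! The harmonic function, exit law of the walk and of the decision model. -/

set_option autoImplicit false
set_option linter.unusedSectionVars false

namespace Pool.Agent.Work.MP_9e3593_pr.Fr

open Finset MeasureTheory ProbabilityTheory

/-- mean of `F` over the leaf reached from `u` -/
noncomputable def NU (e : List ℕ → Bool) (k : ℕ) (u : List ℕ) (F : Option (List ℕ) → ℝ) : ℝ :=
  EL e k u (fun ρ => F (some (ρ.reverse ++ u)))

lemma NU_succ (e : List ℕ → Bool) (k : ℕ) (u : List ℕ) (F : Option (List ℕ) → ℝ) :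
    NU e (k + 1) u F = ∑ c ∈ range (deg (e u)), wt e k u c * NU e k (c :: u) F := by
  unfold NU
  rw [EL]
  apply Finset.sum_congr rfl
  intro c _
  congr 2
  funext ρ
  simp

lemma NU_mem (e : List ℕ → Bool) (k : ℕ) (u : List ℕ) (F : Option (List ℕ) → ℝ)
    (hF : ∀ o, 0 ≤ F o ∧ F o ≤ 1) : 0 ≤ NU e k u F ∧ NU e k u F ≤ 1 := by
  constructor
  · have := EL_mono e k u (fun _ => 0) (fun ρ => F (some (ρ.reverse ++ u))) (fun ρ => (hF _).1)
    rwa [EL_const] at this
  · have := EL_mono e k u (fun ρ => F (some (ρ.reverse ++ u))) (fun _ => 1) (fun ρ => (hF _).2)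
    rwa [EL_const] at this

/-- harmonic extension -/
noncomputable def Hx (e : List ℕ → Bool) (N : ℕ) (F : Option (List ℕ) → ℝ) (h0 : ℝ) :
    List ℕ → ℝ
  | [] => h0
  | c :: v => (1 - Cc e (N - (v.length + 1)) (c :: v)) * Hx e N F h0 v +
      Cc e (N - (v.length + 1)) (c :: v) * NU e (N - (v.length + 1)) (c :: v) F

lemma Hx_mem (e : List ℕ → Bool) (N : ℕ) (F : Option (List ℕ) → ℝ) (h0 : ℝ)
    (hF : ∀ o, 0 ≤ F o ∧ F o ≤ 1) (h01 : 0 ≤ h0 ∧ h0 ≤ 1) (x : List ℕ) :
    0 ≤ Hx e N F h0 x ∧ Hx e N F h0 x ≤ 1 := by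
  induction x with
  | nil => exact h01
  | cons c v ih =>
    rw [Hx]
    have h1 := NU_mem e (N - (v.length + 1)) (c :: v) F hF
    have h2 := Cc_pos e (N - (v.length + 1)) (c :: v)
    have h3 := Cc_le_one e (N - (v.length + 1)) (c :: v)
    constructor
    · have := mul_nonneg (sub_nonneg.mpr h3) ih.1
      have := mul_nonneg h2.le h1.1
      linarith
    · have := mul_le_mul_of_nonneg_left ih.2 (sub_nonneg.mpr h3)
      have := mul_le_mul_of_nonneg_left h1.2 h2.le
      linarith

lemma Hx_sum (e : List ℕ → Bool) (N : ℕ) (F : Option (List ℕ) → ℝ) (h0 : ℝ) (k : ℕ) (x : List ℕ)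
    (hk : N - (x.length + 1) = k) :
    ∑ j ∈ range (deg (e x)), Hx e N F h0 (j :: x) =
      deg (e x) * Hx e N F h0 x - Sc e k x * Hx e N F h0 x + Sc e k x * NU e (k + 1) x F := by
  have hS := Sc_pos e k x
  have h1 : ∑ j ∈ range (deg (e x)), Hx e N F h0 (j :: x) =
      ∑ j ∈ range (deg (e x)), (Hx e N F h0 x - Cc e k (j :: x) * Hx e N F h0 x +
        Sc e k x * (wt e k x j * NU e k (j :: x) F)) := by
    apply Finset.sum_congr rfl
    intro j _
    rw [Hx, hk]
    have : Sc e k x * (wt e k x j * NU e k (j :: x) F) = Cc e k (j :: x) * NU e k (j :: x) F := by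
      unfold wt
      field_simp
    rw [this]
    ring
  rw [h1, Finset.sum_add_distrib, Finset.sum_sub_distrib, ← Finset.mul_sum, ← NU_succ,
    ← Finset.sum_mul]
  simp only [Finset.sum_const, Finset.card_range, nsmul_eq_mul]
  rfl

lemma Hx_harm (e : List ℕ → Bool) (N : ℕ) (F : Option (List ℕ) → ℝ) (h0 : ℝ) (x : List ℕ)
    (hx : x ≠ []) (hN : x.length < N) :
    (Hx e N F h0 x.tail + ∑ j ∈ range (deg (e x)), Hx e N F h0 (j :: x)) / (deg (e x) + 1) =
      Hx e N F h0 x := by
  obtain ⟨c, v, rfl⟩ := List.exists_cons_of_ne_nil hx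
  have hd : (0:ℝ) < deg (e (c :: v)) + 1 := by positivity
  rw [div_eq_iff hd.ne', List.tail_cons]
  obtain ⟨k, hk⟩ : ∃ k, N - ((c :: v).length + 1) = k := ⟨_, rfl⟩
  rw [Hx_sum e N F h0 k (c :: v) hk]
  have hk' : N - (v.length + 1) = k + 1 := by
    simp only [List.length_cons] at hk hN
    omega
  have hS := Sc_pos e k (c :: v)
  have h1 : Hx e N F h0 (c :: v) = (1 / (1 + Sc e k (c :: v))) * Hx e N F h0 v +
      (Sc e k (c :: v) / (1 + Sc e k (c :: v))) * NU e (k + 1) (c :: v) F := by
    rw [Hx, hk', Cc_succ]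
    congr 1
    congr 1
    rw [eq_div_iff (by linarith), sub_mul, div_mul_cancel₀ _ (by linarith)]
    ring
  have h2 : (1 + Sc e k (c :: v)) * Hx e N F h0 (c :: v) = Hx e N F h0 v +
      Sc e k (c :: v) * NU e (k + 1) (c :: v) F := by
    rw [h1]
    field_simp
  linarith

lemma Hx_harm_root (e : List ℕ → Bool) (N : ℕ) (hN : 0 < N) (F : Option (List ℕ) → ℝ) :
    (∑ j ∈ range (deg (e [])), Hx e N F (NU e N [] F) [j]) / deg (e []) =
      Hx e N F (NU e N [] F) [] := by
  have hd : (0:ℝ) < deg (e []) := by exact_mod_cast deg_pos _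
  rw [div_eq_iff hd.ne']
  obtain ⟨k, rfl⟩ : ∃ k, N = k + 1 := ⟨N - 1, by omega⟩
  rw [Hx_sum e (k + 1) F _ k [] (by simp)]
  rw [Hx]
  ring

lemma Hx_bdry (e : List ℕ → Bool) (N : ℕ) (F : Option (List ℕ) → ℝ) (h0 : ℝ) (x : List ℕ)
    (hx : x ≠ []) (hN : x.length = N) : Hx e N F h0 x = F (some x) := by
  obtain ⟨c, v, rfl⟩ := List.exists_cons_of_ne_nil hx
  have : N - (v.length + 1) = 0 := by
    simp only [List.length_cons] at hN
    omega
  rw [Hx, this]
  simp [Cc, NU, EL]

section
variable {ν : Measure A} [hν : IsProbabilityMeasure ν] (hU : UnifA ν)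
include hU

theorem exit_z (e : List ℕ → Bool) (N : ℕ) (hN : 0 < N) (z : List ℕ) (hz : z.length ≤ N)
    (hz0 : z ≠ []) (F : Option (List ℕ) → ℝ) (hF : ∀ o, 0 ≤ F o ∧ F o ≤ 1) :
    ∫ ω, F (Ex e N z ω) ∂Measure.infinitePi (fun _ : ℕ => ν) = Hx e N F (F none) z := by
  apply exit_law hU e N z hz F hF
  · intro x _
    exact Hx_mem e N F _ hF (hF none) x
  · intro x hx hS
    rcases hS with h | ⟨rfl, _⟩
    · have hx0 : x ≠ [] := by
        rintro rfl
        simp at h
        omega
      rw [Hx_bdry e N F _ x hx0 (le_antisymm hx h), toO, if_neg hx0]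
    · simp [Hx, toO]
  · intro x hx hS
    have hx0 : x ≠ [] := fun h => hS (Or.inr ⟨h, hz0⟩)
    have hxN : x.length < N := by
      by_contra h
      exact hS (Or.inl (by omega))
    rw [stp_int hU e x hx0, Hx_harm e N F _ x hx0 hxN]

theorem exit_root (e : List ℕ → Bool) (N : ℕ) (hN : 0 < N)
    (F : Option (List ℕ) → ℝ) (hF : ∀ o, 0 ≤ F o ∧ F o ≤ 1) :
    ∫ ω, F (Ex e N [] ω) ∂Measure.infinitePi (fun _ : ℕ => ν) = NU e N [] F := by
  have := exit_law hU e N [] (by simp) F hF (Hx e N F (NU e N [] F))
    (fun x _ => Hx_mem e N F _ hF (NU_mem e N [] F hF) x)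
    (fun x hx hS => by
      rcases hS with h | ⟨_, h⟩
      · have hx0 : x ≠ [] := by
          rintro rfl
          simp at h
          omega
        rw [Hx_bdry e N F _ x hx0 (le_antisymm hx h), toO, if_neg hx0]
      · exact absurd rfl h)
    (fun x hx hS => by
      have hxN : x.length < N := by
        by_contra h
        exact hS (Or.inl (by omega))
      by_cases hx0 : x = []
      · subst hx0
        rw [stp_int_root hU e, Hx_harm_root e N hN]
      · rw [stp_int hU e x hx0, Hx_harm e N F _ x hx0 hxN])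
  rw [this, Hx]

end

/-! ### the decision model -/

/-- outcome from the decisions at ancestors `u` of `z` and above -/
def epsV (D : List ℕ × ℕ → Option (List ℕ)) (z : List ℕ) : List ℕ → Option (List ℕ)
  | [] => none
  | c :: u => match D (z, u.length + 1) with
    | some ρ => some (ρ.reverse ++ (c :: u))
    | none => epsV D z u

lemma epsV_cons_some (D : List ℕ × ℕ → Option (List ℕ)) (z : List ℕ) (c : ℕ) (u ρ : List ℕ)
    (h : D (z, u.length + 1) = some ρ) : epsV D z (c :: u) = some (ρ.reverse ++ (c :: u)) := by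
  rw [epsV, h]

lemma epsV_cons_none (D : List ℕ × ℕ → Option (List ℕ)) (z : List ℕ) (c : ℕ) (u : List ℕ)
    (h : D (z, u.length + 1) = none) : epsV D z (c :: u) = epsV D z u := by
  rw [epsV, h]

/-- final outcome -/
def eps (D : List ℕ × ℕ → Option (List ℕ)) (z : List ℕ) : Option (List ℕ) := epsV D z z

lemma epsV_congr (D D' : List ℕ × ℕ → Option (List ℕ)) (z : List ℕ) (u : List ℕ)
    (h : ∀ m, 1 ≤ m → m ≤ u.length → D (z, m) = D' (z, m)) : epsV D z u = epsV D' z u := by
  induction u with
  | nil => rfl
  | cons c u ih =>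
    rw [epsV, epsV, h (u.length + 1) (by omega) (by simp),
      ih (fun m h1 h2 => h m h1 (by simp only [List.length_cons]; omega))]

section
variable {e : List ℕ → Bool} {N : ℕ} {kap : List ℕ → ℝ}
  {μ : List ℕ × ℕ → Measure (Option (List ℕ))} [hμ : ∀ i, IsProbabilityMeasure (μ i)]

lemma epsV_int (z : List ℕ) (c : ℕ) (u : List ℕ) (F : Option (List ℕ) → ℝ)
    (hF : ∀ o, 0 ≤ F o ∧ F o ≤ 1) :
    ∫ D, F (epsV D z (c :: u)) ∂Measure.infinitePi μ =
    ∫ a, (match a with
      | some ρ => F (some (ρ.reverse ++ (c :: u)))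
      | none => ∫ D, F (epsV D z u) ∂Measure.infinitePi μ) ∂(μ (z, u.length + 1)) := by
  classical
  let h : Option (List ℕ) → (List ℕ × ℕ → Option (List ℕ)) → ℝ := fun a D =>
    match a with
      | some ρ => F (some (ρ.reverse ++ (c :: u)))
      | none => F (epsV D z u)
  have h1 : ∀ D, F (epsV D z (c :: u)) = h (D (z, u.length + 1)) D := by
    intro D
    simp only [h]
    cases hD : D (z, u.length + 1) with
    | none => rw [epsV_cons_none D z c u hD]
    | some ρ => rw [epsV_cons_some D z c u ρ hD]
  simp_rw [h1]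
  rw [ki2 μ {(z, u.length + 1)} (({z} : Finset (List ℕ)) ×ˢ Finset.Icc 1 u.length)
    (by
      rw [Finset.disjoint_left]
      rintro ⟨z', m⟩ h1 h2
      simp only [Finset.mem_singleton, Prod.mk.injEq, Finset.mem_product, Finset.mem_Icc] at h1 h2
      omega)
    (fun t s => h (t (z, u.length + 1)) s)
    (fun t t' s hh => by rw [hh _ (by simp)])
    (fun t s s' hh => by
      simp only [h]
      cases t (z, u.length + 1) with
      | some ρ => rfl
      | none =>
        simp only
        rw [epsV_congr s s' z u (fun m hm hm' => hh (z, m) (by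
          simp only [Finset.mem_product, Finset.mem_singleton, Finset.mem_Icc, true_and]
          exact ⟨hm, hm'⟩))]) 1
    (fun t s => by
      have : 0 ≤ h (t (z, u.length + 1)) s ∧ h (t (z, u.length + 1)) s ≤ 1 := by
        simp only [h]
        cases t (z, u.length + 1) with
        | some ρ => exact hF _
        | none => exact hF _
      rw [abs_le]; constructor <;> linarith)]
  have h2 : ∫ t, ∫ s, h (t (z, u.length + 1)) s ∂Measure.infinitePi μ ∂Measure.infinitePi μ =
      ∫ a, ∫ s, h a s ∂Measure.infinitePi μ ∂(μ (z, u.length + 1)) := by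
    rw [← Measure.infinitePi_map_eval μ (z, u.length + 1),
      integral_map (measurable_pi_apply _).aemeasurable
        (measurable_of_countable _).aestronglyMeasurable]
  rw [h2]
  congr 1
  funext a
  cases a with
  | some ρ => simp [h]
  | none => rfl

theorem eps_law (H : Model e N kap μ) (hk1 : ∀ c, kap [c] = 1) (z : List ℕ) (hz0 : z ≠ [])
    (hzN : z.length < N) (hzT : ∀ (c : ℕ) (u : List ℕ), (c :: u) <:+ z → c < deg (e u))
    (F : Option (List ℕ) → ℝ) (hF : ∀ o, 0 ≤ F o ∧ F o ≤ 1) :
    ∫ D, F (eps D z) ∂Measure.infinitePi μ = Hx e N F (F none) z := by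
  -- one step of Hx
  have hHx : ∀ (c : ℕ) (u : List ℕ), (c :: u) <:+ z → Hx e N F (F none) (c :: u) =
      (1 - qv e (N - (c :: u).length - 1) (c :: u) (kap (c :: u))) *
        NU e (N - (c :: u).length - 1 + 1) (c :: u) F +
      qv e (N - (c :: u).length - 1) (c :: u) (kap (c :: u)) *
        (∫ D, F (epsV D z u) ∂Measure.infinitePi μ) ∧
      (∀ c' , (c' :: c :: u) <:+ z → Hx e N F (F none) (c :: u) =
        kap (c' :: c :: u) * (∫ D, F (epsV D z (c :: u)) ∂Measure.infinitePi μ) +
        (1 - kap (c' :: c :: u)) * NU e (N - (c :: u).length - 1) (c' :: c :: u) F) := by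
    intro c u
    induction u generalizing c with
    | nil =>
      intro hs
      set k := N - ([c] : List ℕ).length - 1 with hk
      have hNk : N - (([] : List ℕ).length + 1) = k + 1 := by
        have := hs.length_le
        simp only [List.length_cons, List.length_nil] at this hk ⊢
        omega
      have h1 : Hx e N F (F none) [c] = (1 - qv e k [c] (kap [c])) * NU e (k + 1) [c] F +
          qv e k [c] (kap [c]) * (∫ D, F (epsV D z []) ∂Measure.infinitePi μ) := by
        rw [Hx, hNk, hk1, Cc_succ, Hx]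
        have hS := Sc_pos e k [c]
        have : (1 - Sc e k [c] / (1 + Sc e k [c])) = qv e k [c] 1 := by
          unfold qv
          rw [eq_div_iff (by linarith), sub_mul, div_mul_cancel₀ _ (by linarith)]
          ring
        have h2 : Sc e k [c] / (1 + Sc e k [c]) = 1 - qv e k [c] 1 := by linarith
        rw [h2]
        simp only [epsV, integral_const, smul_eq_mul, probReal_univ, one_mul]
        ring
      refine ⟨h1, ?_⟩
      intro c' hs'
      have hc' := hzT c' [c] hs'
      have hlen := hs'.length_le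
      simp only [List.length_cons, List.length_nil] at hlen
      have hkc : kap [c', c] = kch e k [c] (kap [c]) c' := by
        rw [H.kc [c] c' (by simp) (by simp only [List.length_cons, List.length_nil]; omega) hc']
      have hkp := kch_pos e k [c] (H.k0 [c] (by simp)) c' hc'
      rw [h1, epsV_int z c [] F hF]
      have hmu : μ (z, ([] : List ℕ).length + 1) = kickM e k [c] (kap [c]) c' :=
        H.kick [c] c' z (by simp) hc' hs' hzN
      rw [hmu, integral_kickM e k [c] (H.k0 [c] (by simp)) (H.k1 [c] (by simp)) c' hc', hkc, mul_add,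
        Finset.mul_sum]
      have h3 : ∀ j ∈ (range (deg (e [c]))).erase c', kch e k [c] (kap [c]) c' *
          ((1 - qv e k [c] (kap [c])) * wt e k [c] j / kch e k [c] (kap [c]) c' *
          EL e k (j :: [c]) (fun ρ => F (some ((j :: ρ).reverse ++ [c])))) =
          (1 - qv e k [c] (kap [c])) * (wt e k [c] j * NU e k (j :: [c]) F) := by
        intro j _
        have h4 : EL e k (j :: [c]) (fun ρ => F (some ((j :: ρ).reverse ++ [c]))) =
            NU e k (j :: [c]) F := by
          unfold NU
          congr 1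
          funext ρ
          simp
        rw [h4]
        field_simp
      rw [Finset.sum_congr rfl h3, ← Finset.mul_sum]
      have h5 : ∑ j ∈ (range (deg (e [c]))).erase c', wt e k [c] j * NU e k (j :: [c]) F =
          NU e (k + 1) [c] F - wt e k [c] c' * NU e k (c' :: [c]) F := by
        rw [NU_succ, ← Finset.add_sum_erase (range (deg (e [c]))) _ (Finset.mem_range.mpr hc')]
        ring
      rw [h5]
      have h6 : kch e k [c] (kap [c]) c' * (qv e k [c] (kap [c]) / kch e k [c] (kap [c]) c' *
          ∫ D, F (epsV D z []) ∂Measure.infinitePi μ) =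
          qv e k [c] (kap [c]) * ∫ D, F (epsV D z []) ∂Measure.infinitePi μ := by
        field_simp
      rw [h6, kch_eq]
      ring
    | cons c0 u ih =>
      intro hs
      have hs0 : (c0 :: u) <:+ z := (List.suffix_cons c (c0 :: u)).trans hs
      obtain ⟨_, ih2⟩ := ih c0 hs0
      have ih3 := ih2 c hs
      set k := N - (c :: c0 :: u).length - 1 with hk
      have hlen := hs.length_le
      simp only [List.length_cons] at hlen hk
      have hNk : N - ((c0 :: u).length + 1) = k + 1 := by
        simp only [List.length_cons]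
        omega
      have hNk' : N - (c0 :: u).length - 1 = k + 1 := by
        simp only [List.length_cons]
        omega
      rw [hNk'] at ih3
      have h1 : Hx e N F (F none) (c :: c0 :: u) = (1 - qv e k (c :: c0 :: u) (kap (c :: c0 :: u))) *
          NU e (k + 1) (c :: c0 :: u) F + qv e k (c :: c0 :: u) (kap (c :: c0 :: u)) *
          (∫ D, F (epsV D z (c0 :: u)) ∂Measure.infinitePi μ) := by
        rw [Hx, hNk, Cc_succ, ih3]
        have hS := Sc_pos e k (c :: c0 :: u)
        have h2 : (1 - Sc e k (c :: c0 :: u) / (1 + Sc e k (c :: c0 :: u))) =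
            1 / (1 + Sc e k (c :: c0 :: u)) := by
          rw [eq_div_iff (by linarith), sub_mul, div_mul_cancel₀ _ (by linarith)]
          ring
        have h3 : Sc e k (c :: c0 :: u) / (1 + Sc e k (c :: c0 :: u)) =
            1 - 1 / (1 + Sc e k (c :: c0 :: u)) := by linarith
        rw [h2, h3]
        unfold qv
        ring
      refine ⟨h1, ?_⟩
      intro c' hs'
      set w := c :: c0 :: u with hw
      have hc' := hzT c' w hs'
      have hlen' := hs'.length_le
      simp only [List.length_cons, hw] at hlen'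
      have hwN : w.length < N := by
        simp only [hw, List.length_cons]
        omega
      have hkw : N - w.length - 1 = k := by
        rw [hk, hw]
        simp only [List.length_cons]
      have hkc : kap (c' :: w) = kch e k w (kap w) c' := by
        rw [H.kc w c' (by simp [hw]) hwN hc', hkw]
      have hkp := kch_pos e k w (H.k0 w (by simp [hw])) c' hc'
      rw [h1, epsV_int z c (c0 :: u) F hF]
      have hmu : μ (z, (c0 :: u).length + 1) = kickM e k w (kap w) c' := by
        have := H.kick w c' z (by simp [hw]) hc' hs' hzN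
        rw [hkw] at this
        exact this
      rw [hmu, integral_kickM e k w (H.k0 w (by simp [hw])) (H.k1 w (by simp [hw])) c' hc', hkc,
        mul_add, Finset.mul_sum]
      have h3 : ∀ j ∈ (range (deg (e w))).erase c', kch e k w (kap w) c' *
          ((1 - qv e k w (kap w)) * wt e k w j / kch e k w (kap w) c' *
          EL e k (j :: w) (fun ρ => F (some ((j :: ρ).reverse ++ (c :: c0 :: u))))) =
          (1 - qv e k w (kap w)) * (wt e k w j * NU e k (j :: w) F) := by
        intro j _
        have h4 : EL e k (j :: w) (fun ρ => F (some ((j :: ρ).reverse ++ (c :: c0 :: u)))) =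
            NU e k (j :: w) F := by
          unfold NU
          congr 1
          funext ρ
          simp [hw]
        rw [h4]
        field_simp
      rw [Finset.sum_congr rfl h3, ← Finset.mul_sum]
      have h5 : ∑ j ∈ (range (deg (e w))).erase c', wt e k w j * NU e k (j :: w) F =
          NU e (k + 1) w F - wt e k w c' * NU e k (c' :: w) F := by
        rw [NU_succ, ← Finset.add_sum_erase (range (deg (e w))) _ (Finset.mem_range.mpr hc')]
        ring
      rw [h5]
      have h6 : kch e k w (kap w) c' * (qv e k w (kap w) / kch e k w (kap w) c' *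
          ∫ D, F (epsV D z (c0 :: u)) ∂Measure.infinitePi μ) =
          qv e k w (kap w) * ∫ D, F (epsV D z (c0 :: u)) ∂Measure.infinitePi μ := by
        field_simp
      rw [h6, kch_eq]
      ring
  obtain ⟨c, u, rfl⟩ := List.exists_cons_of_ne_nil hz0
  unfold eps
  rw [epsV_int (c :: u) c u F hF, (hHx c u (List.suffix_refl _)).1]
  have hmu : μ (c :: u, u.length + 1) = ownM e (N - (c :: u).length - 1) (c :: u) (kap (c :: u)) :=
    H.own (c :: u) (by simp) hzN
  rw [hmu, integral_ownM e _ _ (H.k0 _ (by simp)) (H.k1 _ (by simp)), NU_succ, Finset.mul_sum,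
    add_comm]
  congr 1
  apply Finset.sum_congr rfl
  intro j _
  have h4 : EL e (N - (c :: u).length - 1) (j :: c :: u)
      (fun ρ => F (some ((j :: ρ).reverse ++ (c :: u)))) =
      NU e (N - (c :: u).length - 1) (j :: c :: u) F := by
    unfold NU
    congr 1
    funext ρ
    simp
  rw [h4]
  ring

end

end Pool.Agent.Work.MP_9e3593_pr.Fr
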