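import Pool.Agent.Work.MP_9e3593_pr.Disc

/-! Joint law of environment and steps; dependence on finitely many environment variables. -/

set_option autoImplicit false
set_option linter.unusedSectionVars false

namespace Pool.Agent.Work.MP_9e3593_pr.Fr

open Finset MeasureTheory ProbabilityTheory

/-- split the coordinates -/
def R1 (D : List ℕ × ℕ → Bool × A) : List ℕ → Bool := fun v => (D (v, 0)).1
def R2 (D : List ℕ × ℕ → Bool × A) : List ℕ → ℕ → A := fun z n => (D (z, n + 1)).2

lemma measurable_R1 : Measurable R1 := by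
  apply measurable_pi_lambda
  intro v
  exact measurable_fst.comp (measurable_pi_apply _)

lemma measurable_R2 : Measurable R2 := by
  apply measurable_pi_lambda
  intro z
  apply measurable_pi_lambda
  intro n
  exact measurable_snd.comp (measurable_pi_apply _)

/-- law of the steps -/
noncomputable def QS : Measure (List ℕ → ℕ → A) :=
  Measure.infinitePi (fun _ : List ℕ => Measure.infinitePi (fun _ : ℕ => nuA))

instance : IsProbabilityMeasure QS := by unfold QS; infer_instance

lemma law_R1 {p : ℝ} (h0 : 0 ≤ p) (h1 : p ≤ 1) :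
    (Measure.infinitePi (fun _ : List ℕ × ℕ => nuB p)).map R1 =
      Measure.infinitePi (fun _ : List ℕ => bern p) := by
  have hb := bern_prob h0 h1
  have h2 : R1 = (fun (x : List ℕ → Bool × A) v => (x v).1) ∘
      (fun (D : List ℕ × ℕ → Bool × A) v => D (v, 0)) := rfl
  have hm1 : Measurable (fun (x : List ℕ → Bool × A) v => (x v).1) :=
    measurable_pi_lambda _ (fun v => measurable_fst.comp (measurable_pi_apply _))
  have hm2 : Measurable (fun (D : List ℕ × ℕ → Bool × A) (v : List ℕ) => D (v, 0)) :=
    measurable_pi_lambda _ (fun v => measurable_pi_apply _)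
  rw [h2, ← Measure.map_map hm1 hm2,
    Measure.map_infinitePi_infinitePi_of_inj (P := fun _ : List ℕ × ℕ => nuB p)
      (f := fun v : List ℕ => (v, 0)) (fun a b h => by simpa using h),
    Measure.infinitePi_map_pi (fun _ : List ℕ => nuB p) (f := fun _ => Prod.fst)
      (fun _ => measurable_fst)]
  congr 1
  funext v
  exact nuB_fst h0 h1

lemma law_R2 (p : ℝ) :
    (Measure.infinitePi (fun _ : List ℕ × ℕ => nuB p)).map R2 = QS := by
  let C := MeasurableEquiv.curry (List ℕ) ℕ A
  have h2 : R2 = C ∘ (fun (x : List ℕ × ℕ → Bool × A) i => (x i).2) ∘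
      (fun (D : List ℕ × ℕ → Bool × A) i => D (i.1, i.2 + 1)) := rfl
  have hm1 : Measurable (fun (x : List ℕ × ℕ → Bool × A) i => (x i).2) :=
    measurable_pi_lambda _ (fun v => measurable_snd.comp (measurable_pi_apply _))
  have hm2 : Measurable (fun (D : List ℕ × ℕ → Bool × A) (i : List ℕ × ℕ) => D (i.1, i.2 + 1)) :=
    measurable_pi_lambda _ (fun v => measurable_pi_apply _)
  rw [h2, ← Measure.map_map C.measurable (hm1.comp hm2), ← Measure.map_map hm1 hm2,
    Measure.map_infinitePi_infinitePi_of_inj (P := fun _ : List ℕ × ℕ => nuB p)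
      (f := fun i : List ℕ × ℕ => (i.1, i.2 + 1)) (fun a b h => by
        simp only [Prod.mk.injEq, add_left_inj] at h
        exact Prod.ext h.1 h.2),
    Measure.infinitePi_map_pi (fun _ : List ℕ × ℕ => nuB p) (f := fun _ => Prod.snd)
      (fun _ => measurable_snd)]
  have h3 : (fun _ : List ℕ × ℕ => (nuB p).map Prod.snd) = fun _ => nuA := by
    funext _
    exact nuB_snd p
  rw [h3]
  exact Measure.infinitePi_map_curry (fun (_ : List ℕ) (_ : ℕ) => nuA)

lemma indep_R (p : ℝ) : IndepFun R1 R2 (Measure.infinitePi (fun _ : List ℕ × ℕ => nuB p)) := by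
  let P := Measure.infinitePi (fun _ : List ℕ × ℕ => nuB p)
  let m : List ℕ × ℕ → MeasurableSpace (List ℕ × ℕ → Bool × A) := fun i =>
    MeasurableSpace.comap (fun D => D i) inferInstance
  have hind : iIndepFun (fun (i : List ℕ × ℕ) (D : List ℕ × ℕ → Bool × A) => D i) P :=
    iIndepFun_infinitePi (P := fun _ : List ℕ × ℕ => nuB p) (X := fun _ a => a)
      (fun i => measurable_id)
  have h1 : iIndep m P := hind.iIndep
  have hle : ∀ i, m i ≤ MeasurableSpace.pi := by
    intro i
    rw [← measurable_iff_comap_le]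
    exact measurable_pi_apply i
  let S : Set (List ℕ × ℕ) := {i | i.2 = 0}
  let T : Set (List ℕ × ℕ) := {i | i.2 ≠ 0}
  have hST : Disjoint S T := by
    rw [Set.disjoint_left]
    intro i h1 h2
    exact h2 h1
  have h2 := indep_iSup_of_disjoint hle h1 hST
  rw [IndepFun_iff_Indep]
  apply indep_of_indep_of_le_left _ _
  · exact ⨆ n ∈ S, m n
  · apply indep_of_indep_of_le_right h2
    rw [← measurable_iff_comap_le]
    refine @measurable_pi_lambda _ _ _ (⨆ n ∈ T, m n) _ _ (fun z => ?_)
    refine @measurable_pi_lambda _ _ _ (⨆ n ∈ T, m n) _ _ (fun n => ?_)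
    have h3 : Measurable[m (z, n + 1)] (fun D : List ℕ × ℕ → Bool × A => (D (z, n + 1)).2) := by
      have : Measurable[m (z, n + 1)] (fun D : List ℕ × ℕ → Bool × A => D (z, n + 1)) := by
        rw [measurable_iff_comap_le]
      exact measurable_snd.comp this
    exact h3.mono (le_iSup₂_of_le (z, n + 1) (by simp [T]) le_rfl) le_rfl
  · rw [← measurable_iff_comap_le]
    refine @measurable_pi_lambda _ _ _ (⨆ n ∈ S, m n) _ _ (fun v => ?_)
    have h3 : Measurable[m (v, 0)] (fun D : List ℕ × ℕ → Bool × A => (D (v, 0)).1) := by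
      have : Measurable[m (v, 0)] (fun D : List ℕ × ℕ → Bool × A => D (v, 0)) := by
        rw [measurable_iff_comap_le]
      exact measurable_fst.comp this
    exact h3.mono (le_iSup₂_of_le (v, 0) (by simp [S]) le_rfl) le_rfl

lemma law_R {p : ℝ} (h0 : 0 ≤ p) (h1 : p ≤ 1) :
    (Measure.infinitePi (fun _ : List ℕ × ℕ => nuB p)).map (fun D => (R1 D, R2 D)) =
      (Measure.infinitePi (fun _ : List ℕ => bern p)).prod QS := by
  rw [(indepFun_iff_map_prod_eq_prod_map_map measurable_R1.aemeasurable
    measurable_R2.aemeasurable).mp (indep_R p), law_R1 h0 h1, law_R2 p]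

/-! ### transfer from the original space -/

lemma law_V {Ω : Type} [MeasurableSpace Ω] (P : Measure Ω) [IsProbabilityMeasure P]
    (V : List ℕ × ℕ → Ω → ℝ) (hV : iIndepFun V P)
    (hlaw : ∀ i, Measure.map (V i) P = (volume : Measure ℝ).restrict (Set.Icc (0:ℝ) 1))
    (p : ℝ) :
    (∀ i, AEMeasurable (V i) P) ∧
    Measure.map (fun ω i => g0 p (V i ω)) P = Measure.infinitePi (fun _ : List ℕ × ℕ => nuB p) := by
  have hae : ∀ i, AEMeasurable (V i) P := by
    intro i
    by_contra hcon
    have h1 := Measure.map_of_not_aemeasurable hcon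
    rw [hlaw i] at h1
    have h2 : uni Set.univ = 0 := by
      unfold uni
      rw [h1]
      simp
    rw [measure_univ] at h2
    exact one_ne_zero h2
  refine ⟨hae, ?_⟩
  have h1 : iIndepFun (fun i ω => g0 p (V i ω)) P :=
    hV.comp (fun _ => g0 p) (fun _ => measurable_g0 p)
  have h2 : ∀ i, AEMeasurable (fun ω => g0 p (V i ω)) P := fun i =>
    (measurable_g0 p).comp_aemeasurable (hae i)
  rw [h1.map_fun_eq_infinitePi_map₀' h2]
  congr 1
  funext i
  have h3 := AEMeasurable.map_map_of_aemeasurable (measurable_g0 p).aemeasurable (hae i)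
  rw [hlaw i] at h3
  exact h3.symm

/-! ### dependence on the environment -/

/-- entries < 5 -/
def B5 (x : List ℕ) : Prop := ∀ a ∈ x, a < 5

lemma B5_cons {c : ℕ} {v : List ℕ} (hc : c < 5) (hv : B5 v) : B5 (c :: v) := by
  intro a ha
  rw [List.mem_cons] at ha
  rcases ha with rfl | ha
  · exact hc
  · exact hv a ha

lemma B5_nil : B5 [] := by intro a ha; simp at ha

lemma deg_le (b : Bool) : deg b ≤ 5 := by unfold deg; split_ifs <;> norm_num

lemma VT_B5 (e : List ℕ → Bool) (k : ℕ) : ∀ (v z : List ℕ), B5 v → z ∈ VT e k v → B5 z := by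
  induction k with
  | zero => intro v z _ hz; simp [VT] at hz
  | succ k ih =>
    intro v z hv hz
    rw [VT_succ, Finset.mem_insert, Finset.mem_biUnion] at hz
    rcases hz with rfl | ⟨c, hc, hz⟩
    · exact hv
    · rw [Finset.mem_range] at hc
      exact ih (c :: v) z (B5_cons (lt_of_lt_of_le hc (deg_le _)) hv) hz

lemma mem_BT (k : ℕ) : ∀ (v z : List ℕ), v <:+ z → B5 z → z.length < v.length + k →
    z ∈ VT (fun _ => false) k v := by
  induction k with
  | zero =>
    intro v z hs _ hl
    have := hs.length_le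
    omega
  | succ k ih =>
    intro v z hs hz hl
    rw [VT_succ, Finset.mem_insert, Finset.mem_biUnion]
    by_cases hzv : z = v
    · exact Or.inl hzv
    · right
      have hlt : v.length < z.length := by
        rcases lt_or_eq_of_le hs.length_le with h | h
        · exact h
        · exact absurd (hs.eq_of_length h).symm hzv
      obtain ⟨c, hc⟩ := anc_succ v.length z hlt
      rw [anc_eq v z hs] at hc
      have hcz : (c :: v) <:+ z := hc ▸ anc_suffix _ _
      refine ⟨c, ?_, ?_⟩
      · simp only [deg, Bool.false_eq_true, if_false, Finset.mem_range]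
        exact hz c (hcz.subset (by simp))
      · exact ih (c :: v) z hcz hz (by simp only [List.length_cons]; omega)

/-- agreement of environments -/
def Agr (N : ℕ) (e e' : List ℕ → Bool) : Prop := ∀ x : List ℕ, B5 x → x.length < N → e x = e' x

lemma act_env (N : ℕ) (e e' : List ℕ → Bool) (he : Agr N e e')
    (ent : List ℕ → ℕ → Option (List ℕ)) (k : ℕ) :
    ∀ (v ρ : List ℕ), B5 v → v.length + k ≤ N → act e ent k v ρ = act e' ent k v ρ := by
  induction k with
  | zero => intro v ρ _ _; rfl
  | succ k ih =>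
    intro v ρ hv hN
    cases ρ with
    | nil => rfl
    | cons c ρ =>
      have hev : e v = e' v := he v hv (by omega)
      by_cases hc : c < deg (e v)
      · have hc' : c < deg (e' v) := hev ▸ hc
        have hch : ∀ j, j < deg (e v) → ∀ ρ, act e ent k (j :: v) ρ = act e' ent k (j :: v) ρ := by
          intro j hj ρ
          exact ih (j :: v) ρ (B5_cons (lt_of_lt_of_le hj (deg_le _)) hv)
            (by simp only [List.length_cons]; omega)
        rw [act_cons e ent k v c ρ hc, act_cons e' ent k v c ρ hc', hch c hc ρ, hev]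
        congr 1
        apply List.flatMap_congr
        intro j hj
        have hj' : j < deg (e v) := by
          have := List.mem_of_mem_erase hj
          rw [hev]
          simpa using this
        cases fstE ent v.length j (v :: act e' ent k (c :: v) ρ) with
        | none => rfl
        | some ρ' => exact hch j hj' ρ'
      · rw [act, act, if_neg hc, if_neg (hev ▸ hc)]

lemma stp_env (e e' : List ℕ → Bool) (x : List ℕ) (a : A) (h : e x = e' x) :
    stp e x a = stp e' x a := by
  unfold stp
  rw [h]

lemma stp_B5 (e : List ℕ → Bool) (x : List ℕ) (a : A) (h : B5 x) : B5 (stp e x a) := by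
  unfold stp
  split_ifs with h1 h2
  · apply B5_cons _ B5_nil
    unfold rch
    split_ifs
    · have := a.1.2; omega
    · have := a.2.2.1.2; omega
  · intro b hb
    exact h b (List.mem_of_mem_tail hb)
  · apply B5_cons _ h
    unfold ich
    split_ifs
    · have := a.2.1.2; omega
    · have := a.2.2.2.2; omega

lemma Yw_env (N : ℕ) (e e' : List ℕ → Bool) (he : Agr N e e') (z : List ℕ) (hz : B5 z)
    (n : ℕ) (ω : ℕ → A) : Yw e N z n ω = Yw e' N z n ω ∧ B5 (Yw e N z n ω) := by
  induction n with
  | zero => exact ⟨rfl, hz⟩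
  | succ n ih =>
    rw [Yw, Yw, ← ih.1]
    split_ifs with h
    · exact ⟨rfl, ih.2⟩
    · have h1 : (Yw e N z n ω).length < N := by
        by_contra h2
        exact h (Or.inl (by omega))
      exact ⟨stp_env e e' _ _ (he _ ih.2 h1), stp_B5 e _ _ ih.2⟩

lemma Ex_env (N : ℕ) (e e' : List ℕ → Bool) (he : Agr N e e') (z : List ℕ) (hz : B5 z)
    (ω : ℕ → A) : Ex e N z ω = Ex e' N z ω := by
  by_cases hex : ∃ n, St N z (Yw e N z n ω)
  · obtain ⟨n, hn⟩ := hex
    have h1 := (Yw_env N e e' he z hz n ω).1
    rw [Ex_eq e N z ω n hn, Ex_eq e' N z ω n (h1 ▸ hn), h1]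
  · have hex' : ¬ ∃ n, St N z (Yw e' N z n ω) := by
      rintro ⟨n, hn⟩
      exact hex ⟨n, (Yw_env N e e' he z hz n ω).1 ▸ hn⟩
    rw [Ex_ne e N z ω hex, Ex_ne e' N z ω hex']

/-- the functional as function of environment and steps -/
noncomputable def Phi (k : ℕ) (s : ℝ) (q : (List ℕ → Bool) × (List ℕ → ℕ → A)) : ℝ :=
  Wf q.1 k s (fun z => Ex q.1 (k + 1) z (q.2 z)) (Ex q.1 (k + 1) [] (q.2 []))

lemma Phi_env (k : ℕ) (s : ℝ) (e e' : List ℕ → Bool) (he : Agr (k + 1) e e')
    (σ : List ℕ → ℕ → A) : Phi k s (e, σ) = Phi k s (e', σ) := by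
  unfold Phi
  simp only
  rw [Ex_env (k + 1) e e' he [] B5_nil]
  unfold Wf
  cases Ex e' (k + 1) [] (σ []) with
  | none => rfl
  | some ℓ =>
    simp only
    cases ℓ.reverse with
    | nil => rfl
    | cons c ρ =>
      simp only
      have hev : e [] = e' [] := he [] B5_nil (by simp)
      rw [hev]
      split_ifs with hc
      · have hB : B5 [c] := B5_cons (lt_of_lt_of_le hc (deg_le _)) B5_nil
        rw [Psi_congr e k c ρ s (fun z => Ex e (k + 1) z (σ z)) (fun z => Ex e' (k + 1) z (σ z))
          (fun z hz => Ex_env (k + 1) e e' he z (VT_B5 e k [c] z hB hz) (σ z))]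
        unfold Psi
        rw [act_env (k + 1) e e' he _ k [c] ρ hB
          (by simp only [List.length_cons, List.length_nil]; omega)]
      · rfl

lemma measurable_Phi (k : ℕ) (s : ℝ) : Measurable (Phi k s) := by
  classical
  let S : Finset (List ℕ) := VT (fun _ => false) (k + 1) []
  let x0 : List ℕ → Bool := fun _ => true
  let Φ' : (S → Bool) × (List ℕ → ℕ → A) → ℝ := fun q => Phi k s (extS x0 S q.1, q.2)
  have h1 : Phi k s = Φ' ∘ (fun q : (List ℕ → Bool) × (List ℕ → ℕ → A) =>
      ((S.restrict q.1 : S → Bool), q.2)) := by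
    funext q
    obtain ⟨e, σ⟩ := q
    simp only [Function.comp, Φ']
    apply Phi_env
    intro x hx hl
    have hxS : x ∈ S := mem_BT (k + 1) [] x (List.nil_suffix) hx (by simpa using hl)
    exact (extS_restrict x0 S e x hxS).symm
  rw [h1]
  apply Measurable.comp
  · apply measurable_from_prod_countable_right
    intro b
    simp only [Φ']
    unfold Phi
    simp only
    let e := extS x0 S b
    have h2 : (fun σ : List ℕ → ℕ → A => Wf e k s (fun z => Ex e (k + 1) z (σ z))
        (Ex e (k + 1) [] (σ []))) = (fun ε : List ℕ → Option (List ℕ) => Wf e k s ε (ε [])) ∘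
        (fun (σ : List ℕ → ℕ → A) z => Ex e (k + 1) z (σ z)) := rfl
    show Measurable (fun σ : List ℕ → ℕ → A => Wf e k s (fun z => Ex e (k + 1) z (σ z))
        (Ex e (k + 1) [] (σ [])))
    rw [h2]
    apply Measurable.comp _ (measurable_exj e (k + 1))
    let T : Finset (List ℕ) := (range (deg (e []))).biUnion (fun c => VT e k [c])
    apply measurable_of_dep (insert [] T)
    intro t t' h
    rw [h [] (by simp)]
    apply Wf_congr
    intro c hc z hz
    apply h
    rw [Finset.mem_insert]
    right
    simp only [T, Finset.mem_biUnion]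
    exact ⟨c, by simpa using hc, hz⟩
  · exact ((Finset.measurable_restrict S).comp measurable_fst).prodMk measurable_snd

end Pool.Agent.Work.MP_9e3593_pr.Fr
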