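import Pool.Agent.Work.MP_9e3593_pr.Alg

/-! Laws of the decisions. -/

set_option autoImplicit false
set_option linter.unusedSectionVars false

namespace Pool.Agent.Work.MP_9e3593_pr.Fr

open Finset MeasureTheory ProbabilityTheory

/-! ### conductances -/

lemma deg_pos (b : Bool) : 0 < deg b := by unfold deg; split_ifs <;> norm_num

lemma deg_ge (b : Bool) : 2 ≤ deg b := by unfold deg; split_ifs <;> norm_num

lemma Cc_pos (e : List ℕ → Bool) (k : ℕ) : ∀ v, 0 < Cc e k v := by
  induction k with
  | zero => intro v; simp [Cc]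
  | succ k ih =>
    intro v
    rw [Cc_succ]
    have : 0 < Sc e k v := by
      unfold Sc
      apply Finset.sum_pos (fun i _ => ih _)
      rw [Finset.nonempty_range_iff]
      exact (deg_pos _).ne'
    positivity

lemma Sc_pos (e : List ℕ → Bool) (k : ℕ) (v : List ℕ) : 0 < Sc e k v := by
  unfold Sc
  apply Finset.sum_pos (fun i _ => Cc_pos e k _)
  rw [Finset.nonempty_range_iff]
  exact (deg_pos _).ne'

lemma Cc_le_one (e : List ℕ → Bool) (k : ℕ) (v : List ℕ) : Cc e k v ≤ 1 := by
  cases k with
  | zero => simp [Cc]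
  | succ k =>
    rw [Cc_succ, div_le_one (by linarith [Sc_pos e k v])]
    linarith

lemma Cc_lt_one (e : List ℕ → Bool) (k : ℕ) (v : List ℕ) : Cc e (k + 1) v < 1 := by
  rw [Cc_succ, div_lt_one (by linarith [Sc_pos e k v])]
  linarith

lemma wt_pos (e : List ℕ → Bool) (k : ℕ) (v : List ℕ) (i : ℕ) : 0 < wt e k v i :=
  div_pos (Cc_pos _ _ _) (Sc_pos _ _ _)

lemma sum_wt (e : List ℕ → Bool) (k : ℕ) (v : List ℕ) :
    ∑ i ∈ range (deg (e v)), wt e k v i = 1 := by
  unfold wt
  rw [← Finset.sum_div]
  exact div_self (Sc_pos e k v).ne'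

lemma wt_le_one (e : List ℕ → Bool) (k : ℕ) (v : List ℕ) (i : ℕ) (hi : i < deg (e v)) :
    wt e k v i ≤ 1 := by
  rw [← sum_wt e k v]
  exact Finset.single_le_sum (f := fun i => wt e k v i) (fun j _ => (wt_pos e k v j).le)
    (by simpa using hi)

/-- q -/
noncomputable def qv (e : List ℕ → Bool) (k : ℕ) (v : List ℕ) (κ : ℝ) : ℝ := κ / (1 + Sc e k v)

lemma qv_nonneg (e : List ℕ → Bool) (k : ℕ) (v : List ℕ) {κ : ℝ} (h : 0 ≤ κ) : 0 ≤ qv e k v κ :=
  div_nonneg h (by linarith [Sc_pos e k v])

lemma qv_lt_one (e : List ℕ → Bool) (k : ℕ) (v : List ℕ) {κ : ℝ} (h : κ ≤ 1) : qv e k v κ < 1 := by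
  unfold qv
  rw [div_lt_one (by linarith [Sc_pos e k v])]
  linarith [Sc_pos e k v]

lemma kch_eq (e : List ℕ → Bool) (k : ℕ) (v : List ℕ) (κ : ℝ) (j : ℕ) :
    kch e k v κ j = 1 - (1 - qv e k v κ) * wt e k v j := rfl

lemma kch_le_one (e : List ℕ → Bool) (k : ℕ) (v : List ℕ) {κ : ℝ} (h : κ ≤ 1) (j : ℕ) :
    kch e k v κ j ≤ 1 := by
  rw [kch_eq]
  have := mul_nonneg (sub_nonneg.mpr (qv_lt_one e k v h).le) (wt_pos e k v j).le
  linarith

lemma wt_lt_one (e : List ℕ → Bool) (k : ℕ) (v : List ℕ) (j : ℕ) (hj : j < deg (e v)) :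
    wt e k v j < 1 := by
  rw [← sum_wt e k v]
  have : ∃ i, i ∈ range (deg (e v)) ∧ i ≠ j := by
    have h2 := deg_ge (e v)
    by_cases h0 : j = 0
    · exact ⟨1, by simp; omega, by omega⟩
    · exact ⟨0, by simp; omega, by omega⟩
  obtain ⟨i, hi, hne⟩ := this
  exact Finset.single_lt_sum (f := fun i => wt e k v i) hne (by simpa using hj) hi (wt_pos e k v i)
    (fun k' _ _ => (wt_pos e k v k').le)

lemma kch_pos (e : List ℕ → Bool) (k : ℕ) (v : List ℕ) {κ : ℝ} (h0 : 0 ≤ κ) (j : ℕ)
    (hj : j < deg (e v)) : 0 < kch e k v κ j := by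
  rw [kch_eq]
  have h1 := wt_lt_one e k v j hj
  have h2 := qv_nonneg e k v h0
  have h3 := wt_pos e k v j
  nlinarith

/-! ### path expectation -/

/-- expectation over the entry path -/
noncomputable def EL (e : List ℕ → Bool) : ℕ → List ℕ → (List ℕ → ℝ) → ℝ
  | 0, _, F => F []
  | k + 1, v, F => ∑ c ∈ range (deg (e v)), wt e k v c * EL e k (c :: v) (fun ρ => F (c :: ρ))

lemma EL_mul_const (e : List ℕ → Bool) (k : ℕ) : ∀ (v : List ℕ) (F : List ℕ → ℝ) (c : ℝ),
    EL e k v (fun ρ => F ρ * c) = EL e k v F * c := by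
  induction k with
  | zero => intro v F c; rfl
  | succ k ih =>
    intro v F c
    simp only [EL]
    rw [Finset.sum_mul]
    apply Finset.sum_congr rfl
    intro i _
    rw [ih]
    ring

lemma EL_const_mul (e : List ℕ → Bool) (k : ℕ) (v : List ℕ) (F : List ℕ → ℝ) (c : ℝ) :
    EL e k v (fun ρ => c * F ρ) = c * EL e k v F := by
  rw [mul_comm, ← EL_mul_const]
  congr 1
  funext ρ
  ring

lemma EL_add (e : List ℕ → Bool) (k : ℕ) : ∀ (v : List ℕ) (F G : List ℕ → ℝ),
    EL e k v (fun ρ => F ρ + G ρ) = EL e k v F + EL e k v G := by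
  induction k with
  | zero => intro v F c; rfl
  | succ k ih =>
    intro v F G
    simp only [EL]
    rw [← Finset.sum_add_distrib]
    apply Finset.sum_congr rfl
    intro i _
    rw [ih]
    ring

lemma EL_const (e : List ℕ → Bool) (k : ℕ) : ∀ (v : List ℕ) (c : ℝ), EL e k v (fun _ => c) = c := by
  induction k with
  | zero => intro v c; rfl
  | succ k ih =>
    intro v c
    simp only [EL, ih]
    rw [← Finset.sum_mul, sum_wt, one_mul]

lemma EL_mono (e : List ℕ → Bool) (k : ℕ) : ∀ (v : List ℕ) (F G : List ℕ → ℝ), (∀ ρ, F ρ ≤ G ρ) →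
    EL e k v F ≤ EL e k v G := by
  induction k with
  | zero => intro v F G h; exact h _
  | succ k ih =>
    intro v F G h
    simp only [EL]
    apply Finset.sum_le_sum
    intro i _
    exact mul_le_mul_of_nonneg_left (ih _ _ _ (fun ρ => h _)) (wt_pos _ _ _ _).le

/-- law of the entry path -/
noncomputable def nuM (e : List ℕ → Bool) : ℕ → List ℕ → Measure (List ℕ)
  | 0, _ => Measure.dirac []
  | k + 1, v => ∑ c ∈ range (deg (e v)), ENNReal.ofReal (wt e k v c) •
      (nuM e k (c :: v)).map (fun ρ => c :: ρ)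

instance nuM_fin (e : List ℕ → Bool) (k : ℕ) (v : List ℕ) : IsFiniteMeasure (nuM e k v) := by
  induction k generalizing v with
  | zero => rw [nuM]; infer_instance
  | succ k ih =>
    rw [nuM]
    have : ∀ c, IsFiniteMeasure (ENNReal.ofReal (wt e k v c) •
      (nuM e k (c :: v)).map (fun ρ => c :: ρ)) := by
      intro c
      have := ih (c :: v)
      apply Measure.smul_finite
      exact ENNReal.ofReal_ne_top
    infer_instance

lemma integrable_nuM (e : List ℕ → Bool) (k : ℕ) : ∀ (v : List ℕ) (F : List ℕ → ℝ),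
    Integrable F (nuM e k v) := by
  induction k with
  | zero => intro v F; rw [nuM]; exact integrable_dirac (by simp)
  | succ k ih =>
    intro v F
    rw [nuM, integrable_finsetSum_measure]
    intro i _
    apply Integrable.smul_measure _ ENNReal.ofReal_ne_top
    rw [integrable_map_measure (measurable_of_countable F).aestronglyMeasurable
      (measurable_of_countable _).aemeasurable]
    exact ih _ _

lemma integral_nuM (e : List ℕ → Bool) (k : ℕ) : ∀ (v : List ℕ) (F : List ℕ → ℝ),
    ∫ ρ, F ρ ∂(nuM e k v) = EL e k v F := by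
  induction k with
  | zero => intro v F; rw [nuM, EL, integral_dirac]
  | succ k ih =>
    intro v F
    rw [nuM, EL, integral_finsetSum_measure]
    · apply Finset.sum_congr rfl
      intro i _
      rw [integral_smul_measure, integral_map (measurable_of_countable _).aemeasurable
        (measurable_of_countable F).aestronglyMeasurable, ih,
        ENNReal.toReal_ofReal (wt_pos _ _ _ _).le, smul_eq_mul]
    · intro i _
      apply Integrable.smul_measure _ ENNReal.ofReal_ne_top
      rw [integrable_map_measure (measurable_of_countable F).aestronglyMeasurable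
        (measurable_of_countable _).aemeasurable]
      exact integrable_nuM e k _ _

instance nuM_prob (e : List ℕ → Bool) (k : ℕ) (v : List ℕ) : IsProbabilityMeasure (nuM e k v) := by
  constructor
  have h1 := integral_nuM e k v (fun _ => 1)
  rw [EL_const] at h1
  simp only [integral_const, smul_eq_mul, mul_one] at h1
  have := (measureReal_def (nuM e k v) Set.univ)
  rw [h1] at this
  rw [← ENNReal.ofReal_toReal (measure_ne_top (nuM e k v) Set.univ), ← this]
  simp

/-- law of the own decision at `v` (children of height `k`) -/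
noncomputable def ownM (e : List ℕ → Bool) (k : ℕ) (v : List ℕ) (κ : ℝ) :
    Measure (Option (List ℕ)) :=
  ENNReal.ofReal (qv e k v κ) • Measure.dirac none +
    ENNReal.ofReal (1 - qv e k v κ) • (nuM e (k + 1) v).map some

/-- law of the decision at `v` of a frog coming from child `c` -/
noncomputable def kickM (e : List ℕ → Bool) (k : ℕ) (v : List ℕ) (κ : ℝ) (c : ℕ) :
    Measure (Option (List ℕ)) :=
  ENNReal.ofReal (qv e k v κ / kch e k v κ c) • Measure.dirac none +
    ∑ j ∈ (range (deg (e v))).erase c, ENNReal.ofReal ((1 - qv e k v κ) * wt e k v j / kch e k v κ c) •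
      (nuM e k (j :: v)).map (fun ρ => some (j :: ρ))

lemma integrable_ownM (e : List ℕ → Bool) (k : ℕ) (v : List ℕ) (κ : ℝ)
    (F : Option (List ℕ) → ℝ) : Integrable F (ownM e k v κ) := by
  unfold ownM
  apply Integrable.add_measure
  · exact Integrable.smul_measure (integrable_dirac (by simp)) ENNReal.ofReal_ne_top
  · apply Integrable.smul_measure _ ENNReal.ofReal_ne_top
    rw [integrable_map_measure (measurable_of_countable F).aestronglyMeasurable
      (measurable_of_countable _).aemeasurable]
    exact integrable_nuM e _ _ _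

lemma integral_ownM (e : List ℕ → Bool) (k : ℕ) (v : List ℕ) {κ : ℝ} (h0 : 0 ≤ κ) (h1 : κ ≤ 1)
    (F : Option (List ℕ) → ℝ) :
    ∫ a, F a ∂(ownM e k v κ) = qv e k v κ * F none +
      ∑ j ∈ range (deg (e v)), (1 - qv e k v κ) * wt e k v j *
        EL e k (j :: v) (fun ρ => F (some (j :: ρ))) := by
  unfold ownM
  rw [integral_add_measure, integral_smul_measure, integral_smul_measure, integral_dirac,
    integral_map (measurable_of_countable _).aemeasurable
        (measurable_of_countable F).aestronglyMeasurable, integral_nuM,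
    ENNReal.toReal_ofReal (qv_nonneg e k v h0), ENNReal.toReal_ofReal
      (sub_nonneg.mpr (qv_lt_one e k v h1).le), EL, smul_eq_mul, smul_eq_mul, Finset.mul_sum]
  · congr 1
    apply Finset.sum_congr rfl
    intro i _
    ring
  · exact Integrable.smul_measure (integrable_dirac (by simp)) ENNReal.ofReal_ne_top
  · apply Integrable.smul_measure _ ENNReal.ofReal_ne_top
    rw [integrable_map_measure (measurable_of_countable F).aestronglyMeasurable
      (measurable_of_countable _).aemeasurable]
    exact integrable_nuM e _ _ _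

lemma integrable_kickM (e : List ℕ → Bool) (k : ℕ) (v : List ℕ) (κ : ℝ) (c : ℕ)
    (F : Option (List ℕ) → ℝ) : Integrable F (kickM e k v κ c) := by
  unfold kickM
  apply Integrable.add_measure
  · exact Integrable.smul_measure (integrable_dirac (by simp)) ENNReal.ofReal_ne_top
  · rw [integrable_finsetSum_measure]
    intro i _
    apply Integrable.smul_measure _ ENNReal.ofReal_ne_top
    rw [integrable_map_measure (measurable_of_countable F).aestronglyMeasurable
      (measurable_of_countable _).aemeasurable]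
    exact integrable_nuM e _ _ _

lemma integral_kickM (e : List ℕ → Bool) (k : ℕ) (v : List ℕ) {κ : ℝ} (h0 : 0 ≤ κ) (h1 : κ ≤ 1)
    (c : ℕ) (hc : c < deg (e v)) (F : Option (List ℕ) → ℝ) :
    ∫ a, F a ∂(kickM e k v κ c) = qv e k v κ / kch e k v κ c * F none +
      ∑ j ∈ (range (deg (e v))).erase c, (1 - qv e k v κ) * wt e k v j / kch e k v κ c *
        EL e k (j :: v) (fun ρ => F (some (j :: ρ))) := by
  have hk := kch_pos e k v h0 c hc
  unfold kickM
  rw [integral_add_measure, integral_smul_measure, integral_dirac, integral_finsetSum_measure,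
    ENNReal.toReal_ofReal (div_nonneg (qv_nonneg e k v h0) hk.le), smul_eq_mul]
  · congr 1
    apply Finset.sum_congr rfl
    intro i _
    rw [integral_smul_measure, integral_map (measurable_of_countable _).aemeasurable
        (measurable_of_countable F).aestronglyMeasurable, integral_nuM, ENNReal.toReal_ofReal,
        smul_eq_mul]
    exact div_nonneg (mul_nonneg (sub_nonneg.mpr (qv_lt_one e k v h1).le) (wt_pos _ _ _ _).le) hk.le
  · intro i _
    apply Integrable.smul_measure _ ENNReal.ofReal_ne_top
    rw [integrable_map_measure (measurable_of_countable F).aestronglyMeasurable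
      (measurable_of_countable _).aemeasurable]
    exact integrable_nuM e _ _ _
  · exact Integrable.smul_measure (integrable_dirac (by simp)) ENNReal.ofReal_ne_top
  · rw [integrable_finsetSum_measure]
    intro i _
    apply Integrable.smul_measure _ ENNReal.ofReal_ne_top
    rw [integrable_map_measure (measurable_of_countable F).aestronglyMeasurable
      (measurable_of_countable _).aemeasurable]
    exact integrable_nuM e _ _ _

lemma sum_wt_erase (e : List ℕ → Bool) (k : ℕ) (v : List ℕ) (c : ℕ) (hc : c < deg (e v)) :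
    ∑ j ∈ (range (deg (e v))).erase c, wt e k v j = 1 - wt e k v c := by
  have := Finset.add_sum_erase (range (deg (e v))) (fun j => wt e k v j) (Finset.mem_range.mpr hc)
  rw [sum_wt] at this
  linarith

lemma ownM_prob (e : List ℕ → Bool) (k : ℕ) (v : List ℕ) {κ : ℝ} (h0 : 0 ≤ κ) (h1 : κ ≤ 1) :
    IsProbabilityMeasure (ownM e k v κ) := by
  have hfin : IsFiniteMeasure (ownM e k v κ) := by
    have := integrable_ownM e k v κ (fun _ => 1)
    rwa [integrable_const_iff_isFiniteMeasure (by norm_num)] at this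
  constructor
  have h2 := integral_ownM e k v h0 h1 (fun _ => 1)
  simp only [EL_const, mul_one] at h2
  rw [← Finset.mul_sum, sum_wt] at h2
  simp only [integral_const, smul_eq_mul, mul_one] at h2
  have h3 := (measureReal_def (ownM e k v κ) Set.univ)
  rw [h2] at h3
  rw [← ENNReal.ofReal_toReal (measure_ne_top (ownM e k v κ) Set.univ), ← h3]
  simp

lemma kickM_prob (e : List ℕ → Bool) (k : ℕ) (v : List ℕ) {κ : ℝ} (h0 : 0 ≤ κ) (h1 : κ ≤ 1)
    (c : ℕ) (hc : c < deg (e v)) : IsProbabilityMeasure (kickM e k v κ c) := by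
  have hk := kch_pos e k v h0 c hc
  have hfin : IsFiniteMeasure (kickM e k v κ c) := by
    have := integrable_kickM e k v κ c (fun _ => 1)
    rwa [integrable_const_iff_isFiniteMeasure (by norm_num)] at this
  constructor
  have h2 := integral_kickM e k v h0 h1 c hc (fun _ => 1)
  simp only [EL_const, mul_one] at h2
  rw [← Finset.sum_div, ← Finset.mul_sum, sum_wt_erase e k v c hc] at h2
  simp only [integral_const, smul_eq_mul, mul_one] at h2
  have h3 := (measureReal_def (kickM e k v κ c) Set.univ)
  rw [h2] at h3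
  rw [← ENNReal.ofReal_toReal (measure_ne_top (kickM e k v κ c) Set.univ), ← h3, ← add_div,
    div_eq_one_iff_eq hk.ne' |>.mpr]
  · simp
  · rw [kch_eq]; ring

lemma sum_law_aux (s : Finset ℕ) (J' : List ℕ) (hnd : J'.Nodup) (hsub : ∀ j ∈ J', j ∈ s)
    (w E : ℕ → ℝ) (F0 : ℝ) (h : ∀ j ∈ s, j ∉ J' → E j = F0) :
    ∑ j ∈ s, w j * E j = (J'.map (fun j => w j * E j)).sum +
      (∑ j ∈ s, w j - (J'.map w).sum) * F0 := by
  classical
  have h1 : ∀ f : ℕ → ℝ, (J'.map f).sum = ∑ j ∈ J'.toFinset, f j := by
    intro f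
    rw [List.sum_toFinset _ hnd]
  rw [h1, h1]
  have hss : J'.toFinset ⊆ s := by
    intro j hj
    exact hsub j (by simpa using hj)
  rw [← Finset.sum_sdiff hss, ← Finset.sum_sdiff hss (f := w)]
  have : ∑ x ∈ s \ J'.toFinset, w x * E x = (∑ x ∈ s \ J'.toFinset, w x) * F0 := by
    rw [Finset.sum_mul]
    apply Finset.sum_congr rfl
    intro j hj
    rw [Finset.mem_sdiff] at hj
    rw [h j hj.1 (by simpa using hj.2)]
  rw [this]
  ring

/-- the own law satisfies the law hypothesis with `r = 1` -/
lemma isLaw_own (e : List ℕ → Bool) (k : ℕ) (v : List ℕ) {κ : ℝ} (h0 : 0 ≤ κ) (h1 : κ ≤ 1)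
    (c : ℕ) :
    IsLaw (ownM e k v κ) 1 (qv e k v κ) (fun j => (1 - qv e k v κ) * wt e k v j)
      (fun j => EL e k (j :: v)) ((List.range (deg (e v))).erase c) := by
  intro F F0 J' hnd hsub hF _
  rw [integral_ownM e k v h0 h1 F]
  rw [sum_law_aux (range (deg (e v))) J' hnd (fun j hj => by
    have := List.mem_of_mem_erase (hsub j hj)
    simpa using this) (fun j => (1 - qv e k v κ) * wt e k v j)
    (fun j => EL e k (j :: v) (fun ρ => F (some (j :: ρ)))) F0 (fun j _ hj => by
      have : (fun ρ => F (some (j :: ρ))) = fun _ => F0 := by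
        funext ρ
        exact hF j hj ρ
      rw [this, EL_const])]
  rw [← Finset.mul_sum, sum_wt]
  simp only [one_mul]
  ring

/-- the kick law satisfies the law hypothesis with `r = 1/κ_c` -/
lemma isLaw_kick (e : List ℕ → Bool) (k : ℕ) (v : List ℕ) {κ : ℝ} (h0 : 0 ≤ κ) (h1 : κ ≤ 1)
    (c : ℕ) (hc : c < deg (e v)) :
    IsLaw (kickM e k v κ c) (1 / kch e k v κ c) (qv e k v κ)
      (fun j => (1 - qv e k v κ) * wt e k v j)
      (fun j => EL e k (j :: v)) ((List.range (deg (e v))).erase c) := by
  have hk := kch_pos e k v h0 c hc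
  intro F F0 J' hnd hsub hF _
  rw [integral_kickM e k v h0 h1 c hc F]
  rw [sum_law_aux ((range (deg (e v))).erase c) J' hnd (fun j hj => by
    have h2 := hsub j hj
    rw [List.Nodup.mem_erase_iff List.nodup_range] at h2
    rw [Finset.mem_erase]
    exact ⟨h2.1, by simpa using h2.2⟩) (fun j => (1 - qv e k v κ) * wt e k v j / kch e k v κ c)
    (fun j => EL e k (j :: v) (fun ρ => F (some (j :: ρ)))) F0 (fun j _ hj => by
      have : (fun ρ => F (some (j :: ρ))) = fun _ => F0 := by
        funext ρ
        exact hF j hj ρ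
      rw [this, EL_const])]
  rw [← Finset.sum_div, ← Finset.mul_sum, sum_wt_erase e k v c hc]
  have h5 : (1 - qv e k v κ) * (1 - wt e k v c) / kch e k v κ c =
      1 - 1 / kch e k v κ c * qv e k v κ := by
    rw [eq_sub_iff_add_eq, one_div, div_eq_mul_inv, inv_mul_eq_div, ← div_eq_mul_inv, ← add_div,
      div_eq_one_iff_eq hk.ne', kch_eq]
    ring
  rw [h5]
  have h6 : (J'.map (fun j => (1 - qv e k v κ) * wt e k v j / kch e k v κ c *
      EL e k (j :: v) (fun ρ => F (some (j :: ρ))))) =
      (J'.map (fun j => 1 / kch e k v κ c * ((1 - qv e k v κ) * wt e k v j) *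
      EL e k (j :: v) (fun ρ => F (some (j :: ρ))))) := by
    apply List.map_congr_left
    intro j _
    ring
  have h7 : (J'.map (fun j => (1 - qv e k v κ) * wt e k v j / kch e k v κ c)) =
      (J'.map (fun j => 1 / kch e k v κ c * ((1 - qv e k v κ) * wt e k v j))) := by
    apply List.map_congr_left
    intro j _
    ring
  rw [h6, h7]
  ring

end Pool.Agent.Work.MP_9e3593_pr.Fr
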