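import Pool.Agent.Work.MP_9e3593_pr.Harm

/-! Reachability and the activation algorithm. -/

set_option autoImplicit false
set_option linter.unusedSectionVars false

namespace Pool.Agent.Work.MP_9e3593_pr.Fr

open Finset MeasureTheory ProbabilityTheory

/-- ancestor at depth `m` -/
def anc (m : ℕ) (z : List ℕ) : List ℕ := z.drop (z.length - m)

lemma anc_suffix (m : ℕ) (z : List ℕ) : anc m z <:+ z := List.drop_suffix _ _

lemma anc_length (m : ℕ) (z : List ℕ) (h : m ≤ z.length) : (anc m z).length = m := by
  unfold anc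
  rw [List.length_drop]
  omega

lemma anc_mono (m n : ℕ) (z : List ℕ) (h : m ≤ n) (hn : n ≤ z.length) : anc m z <:+ anc n z := by
  apply List.suffix_of_suffix_length_le (anc_suffix m z) (anc_suffix n z)
  rw [anc_length m z (by omega), anc_length n z hn]
  exact h

lemma anc_eq (v z : List ℕ) (h : v <:+ z) : anc v.length z = v := by
  have h1 := List.suffix_of_suffix_length_le (anc_suffix v.length z) h
    (by rw [anc_length _ _ h.length_le])
  exact h1.eq_of_length (by rw [anc_length _ _ h.length_le])

lemma anc_succ (m : ℕ) (z : List ℕ) (h : m + 1 ≤ z.length) :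
    ∃ c, anc (m + 1) z = c :: anc m z := by
  have h1 := anc_length (m + 1) z h
  obtain ⟨c, u, hu⟩ : ∃ c u, anc (m + 1) z = c :: u := by
    cases hh : anc (m + 1) z with
    | nil => rw [hh] at h1; simp at h1
    | cons c u => exact ⟨c, u, rfl⟩
  refine ⟨c, ?_⟩
  rw [hu]
  congr 1
  have hs : u <:+ z := ((List.suffix_cons c u).trans (hu ▸ anc_suffix (m + 1) z))
  have hl : u.length = m := by
    rw [hu] at h1
    simpa using h1
  rw [← hl]
  exact (anc_eq u z hs).symm

/-- entry decision from the final outcome -/
noncomputable def entE (ε : List ℕ → Option (List ℕ)) (z : List ℕ) (d : ℕ) : Option (List ℕ) := by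
  classical
  exact match ε z with
  | none => none
  | some ℓ => if anc d z <:+ ℓ ∧ (d = z.length ∨ ¬ anc (d + 1) z <:+ ℓ) then
      some ((ℓ.take (ℓ.length - d)).reverse) else none

lemma entE_none (ε : List ℕ → Option (List ℕ)) (z : List ℕ) (d : ℕ) (h : ε z = none) :
    entE ε z d = none := by
  unfold entE; rw [h]

lemma entE_some (ε : List ℕ → Option (List ℕ)) (z : List ℕ) (d : ℕ) (ℓ : List ℕ)
    (h : ε z = some ℓ) (h1 : anc d z <:+ ℓ) (h2 : d = z.length ∨ ¬ anc (d + 1) z <:+ ℓ) :
    entE ε z d = some ((ℓ.take (ℓ.length - d)).reverse) := by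
  unfold entE; rw [h]; simp only; rw [if_pos ⟨h1, h2⟩]

lemma entE_some_neg (ε : List ℕ → Option (List ℕ)) (z : List ℕ) (d : ℕ) (ℓ : List ℕ)
    (h : ε z = some ℓ) (h1 : ¬ (anc d z <:+ ℓ ∧ (d = z.length ∨ ¬ anc (d + 1) z <:+ ℓ))) :
    entE ε z d = none := by
  unfold entE; rw [h]; simp only; rw [if_neg h1]

lemma entE_cases (ε : List ℕ → Option (List ℕ)) (z : List ℕ) (d : ℕ) (ρ : List ℕ)
    (h : entE ε z d = some ρ) : ∃ ℓ, ε z = some ℓ ∧ anc d z <:+ ℓ ∧
      ρ = (ℓ.take (ℓ.length - d)).reverse := by
  cases hε : ε z with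
  | none => rw [entE_none ε z d hε] at h; simp at h
  | some ℓ =>
    refine ⟨ℓ, rfl, ?_⟩
    by_cases h1 : anc d z <:+ ℓ ∧ (d = z.length ∨ ¬ anc (d + 1) z <:+ ℓ)
    · rw [entE_some ε z d ℓ hε h1.1 h1.2] at h
      exact ⟨h1.1, by simpa using h.symm⟩
    · rw [entE_some_neg ε z d ℓ hε h1] at h
      simp at h

lemma epsV_spec (D : List ℕ × ℕ → Option (List ℕ)) (z u : List ℕ) :
    ((∀ m, 1 ≤ m → m ≤ u.length → D (z, m) = none) ∧ epsV D z u = none) ∨
    ∃ m ρ, 1 ≤ m ∧ m ≤ u.length ∧ D (z, m) = some ρ ∧
      (∀ m', m < m' → m' ≤ u.length → D (z, m') = none) ∧ epsV D z u = some (ρ.reverse ++ anc m u) := by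
  induction u with
  | nil =>
    left
    refine ⟨?_, rfl⟩
    intro m h1 h2
    simp at h2
    omega
  | cons c u ih =>
    cases hD : D (z, u.length + 1) with
    | some ρ =>
      right
      refine ⟨u.length + 1, ρ, by omega, by simp, hD, ?_, ?_⟩
      · intro m' h1 h2
        simp only [List.length_cons] at h2
        omega
      · rw [epsV_cons_some D z c u ρ hD]
        unfold anc
        simp
    | none =>
      rcases ih with ⟨h1, h2⟩ | ⟨m, ρ, h1, h2, h3, h4, h5⟩
      · left
        refine ⟨?_, by rw [epsV_cons_none D z c u hD]; exact h2⟩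
        intro m hm hm'
        simp only [List.length_cons] at hm'
        by_cases hmu : m = u.length + 1
        · rw [hmu]; exact hD
        · exact h1 m hm (by omega)
      · right
        refine ⟨m, ρ, h1, by simp; omega, h3, ?_, ?_⟩
        · intro m' hm hm'
          simp only [List.length_cons] at hm'
          by_cases hmu : m' = u.length + 1
          · rw [hmu]; exact hD
          · exact h4 m' hm (by omega)
        · rw [epsV_cons_none D z c u hD, h5]
          congr 2
          unfold anc
          have : (c :: u).length - m = (u.length - m) + 1 := by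
            simp only [List.length_cons]
            omega
          rw [this, List.drop_succ_cons]

lemma eps_none_iff (D : List ℕ × ℕ → Option (List ℕ)) (z : List ℕ) :
    eps D z = none ↔ up D z 1 := by
  unfold eps up
  rcases epsV_spec D z z with ⟨h1, h2⟩ | ⟨m, ρ, h1, h2, h3, h4, h5⟩
  · constructor
    · intro _ m hm
      rw [Finset.mem_Icc] at hm
      exact h1 m hm.1 hm.2
    · intro _
      exact h2
  · constructor
    · intro h
      rw [h5] at h
      simp at h
    · intro h
      have := h m (by rw [Finset.mem_Icc]; exact ⟨h1, h2⟩)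
      rw [h3] at this
      simp at this

lemma entE_eps (D : List ℕ × ℕ → Option (List ℕ)) (z : List ℕ)
    (hsup : ∀ (c : ℕ) (u : List ℕ), (c :: u) <:+ z → u ≠ [] → ∀ ρ, D (z, u.length) = some ρ →
      ∃ j ρ', ρ = j :: ρ' ∧ j ≠ c)
    (d : ℕ) (hd1 : 1 ≤ d) (hd : d ≤ z.length) : entE (eps D) z d = entD D z d := by
  rcases epsV_spec D z z with ⟨h1, h2⟩ | ⟨m, ρ, h1, h2, h3, h4, h5⟩
  · rw [entE_none (eps D) z d h2]
    unfold entD
    split_ifs
    · exact (h1 d hd1 hd).symm
    · rfl
  · have hnot : m < z.length → ¬ anc (m + 1) z <:+ (ρ.reverse ++ anc m z) := by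
      intro hm hs
      obtain ⟨c, hc⟩ := anc_succ m z hm
      have hml : (anc m z).length = m := anc_length m z h2
      obtain ⟨j, ρ', hρ, hj⟩ := hsup c (anc m z) (by rw [← hc]; exact anc_suffix _ _)
        (by intro h0; rw [h0] at hml; simp at hml; omega) ρ (by rw [hml]; exact h3)
      rw [hρ, hc] at hs
      have hs2 : (j :: anc m z) <:+ ((j :: ρ').reverse ++ anc m z) := by
        rw [List.reverse_cons, List.append_assoc]
        exact List.suffix_append _ _
      exact hj (suffix_cons_inj hs2 hs)
    have hε : eps D z = some (ρ.reverse ++ anc m z) := h5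
    rcases lt_trichotomy d m with hdm | hdm | hdm
    · rw [entE_some_neg _ _ _ _ hε]
      · unfold entD
        rw [if_neg]
        intro hu
        have := hu m (by rw [Finset.mem_Icc]; omega)
        rw [h3] at this
        simp at this
      · rintro ⟨_, h7 | h7⟩
        · omega
        · exact h7 ((anc_mono (d + 1) m z hdm h2).trans (List.suffix_append _ _))
    · subst hdm
      rw [entE_some _ _ _ _ hε (List.suffix_append _ _)]
      · unfold entD
        rw [if_pos, h3]
        · congr 1
          rw [List.length_append, anc_length d z h2, Nat.add_sub_cancel, List.take_left,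
            List.reverse_reverse]
        · intro m' hm'
          rw [Finset.mem_Icc] at hm'
          exact h4 m' (by omega) hm'.2
      · by_cases hz : d = z.length
        · exact Or.inl hz
        · exact Or.inr (hnot (by omega))
    · rw [entE_some_neg _ _ _ _ hε]
      · unfold entD
        rw [h4 d hdm hd]
        split_ifs <;> rfl
      · rintro ⟨h6, _⟩
        exact hnot (by omega) ((anc_mono (m + 1) d z hdm hd).trans h6)

/-! ### reachability -/

/-- reachable vertices -/
def Rch (e : List ℕ → Bool) (σ : List ℕ → ℕ → A) (w : List ℕ) : Prop :=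
  Relation.ReflTransGen (fun u w => ∃ m, Xw e u m (σ u) = w) [] w

lemma stp_cases (e : List ℕ → Bool) (x : List ℕ) (a : A) :
    stp e x a = x.tail ∨ ∃ j, stp e x a = j :: x := by
  unfold stp
  split_ifs with h h'
  · right; exact ⟨_, by rw [h]⟩
  · left; rfl
  · right; exact ⟨_, rfl⟩

lemma walk_hits (e : List ℕ → Bool) (z u : List ℕ) (ω : ℕ → A) (m : ℕ)
    (h : u <:+ Xw e z m ω) (h0 : ¬ u <:+ z) : ∃ m', Xw e z m' ω = u := by
  induction m with
  | zero => exact absurd h h0
  | succ m ih =>
    by_cases hm : u <:+ Xw e z m ω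
    · exact ih hm
    · refine ⟨m + 1, ?_⟩
      rw [Xw] at h ⊢
      rcases stp_cases e (Xw e z m ω) (ω m) with h1 | ⟨j, h1⟩
      · rw [h1] at h
        exact absurd (h.trans (List.tail_suffix _)) hm
      · rw [h1] at h ⊢
        rcases List.suffix_cons_iff.mp h with h2 | h2
        · exact h2.symm
        · exact absurd h2 hm

lemma Rch_suffix (e : List ℕ → Bool) (σ : List ℕ → ℕ → A) (w : List ℕ) (h : Rch e σ w) :
    ∀ u, u <:+ w → Rch e σ u := by
  unfold Rch at h ⊢
  induction h with
  | refl =>
    intro u hu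
    rw [List.suffix_nil.mp hu]
  | tail h1 h2 ih =>
    intro u hu
    obtain ⟨m, hm⟩ := h2
    rename_i b c
    by_cases hub : u <:+ b
    · exact ih u hub
    · rw [← hm] at hu
      obtain ⟨m', hm'⟩ := walk_hits e b u (σ b) m hu hub
      exact h1.tail ⟨m', hm'⟩

lemma Rch_step (e : List ℕ → Bool) (σ : List ℕ → ℕ → A) (w : List ℕ) (h : Rch e σ w) (m : ℕ) :
    Rch e σ (Xw e w m (σ w)) := h.tail ⟨m, rfl⟩

lemma Ex_some_hit (e : List ℕ → Bool) (N : ℕ) (z ℓ : List ℕ) (ω : ℕ → A) (hℓ : ℓ ≠ [])
    (h : Ex e N z ω = some ℓ) : ∃ m, Xw e z m ω = ℓ := by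
  by_cases hex : ∃ n, St N z (Yw e N z n ω)
  · obtain ⟨n, hn⟩ := hex
    rw [Ex_eq e N z ω n hn] at h
    unfold toO at h
    split_ifs at h with h0
    obtain ⟨m, hm⟩ := Yw_eq_Xw e N z n ω
    refine ⟨m, ?_⟩
    rw [← hm]
    simpa using h
  · rw [Ex_ne e N z ω hex] at h
    simp only [Option.some.injEq] at h
    exact absurd h.symm hℓ

lemma Ex_none_hit (e : List ℕ → Bool) (N : ℕ) (z : List ℕ) (ω : ℕ → A)
    (h : Ex e N z ω = none) : ∃ m, Xw e z m ω = [] := by
  by_cases hex : ∃ n, St N z (Yw e N z n ω)
  · obtain ⟨n, hn⟩ := hex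
    rw [Ex_eq e N z ω n hn] at h
    unfold toO at h
    split_ifs at h with h0
    obtain ⟨m, hm⟩ := Yw_eq_Xw e N z n ω
    exact ⟨m, by rw [← hm]; exact h0⟩
  · rw [Ex_ne e N z ω hex] at h
    simp at h

lemma dec_eq_some {j : ℕ} {o : Option (List ℕ)} {ρ : List ℕ} (h : dec j o = some ρ) :
    o = some (j :: ρ) := by
  cases o with
  | none => simp at h
  | some l =>
    cases l with
    | nil => simp at h
    | cons i l =>
      rw [dec_some_cons] at h
      split_ifs at h with hij
      rw [hij]
      simpa using h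

theorem act_reach (e : List ℕ → Bool) (N : ℕ) (σ : List ℕ → ℕ → A) (k : ℕ) :
    ∀ (v ρ : List ℕ), v ≠ [] → Rch e σ (ρ.reverse ++ v) →
      ∀ z ∈ act e (entE (fun z => Ex e N z (σ z))) k v ρ, Rch e σ z := by
  induction k with
  | zero => intro v ρ _ _ z hz; simp [act] at hz
  | succ k ih =>
    intro v ρ hv hR z hz
    cases ρ with
    | nil => simp [act] at hz
    | cons c ρ =>
      by_cases hc : c < deg (e v)
      · have hRv : Rch e σ v := Rch_suffix e σ _ hR v (List.suffix_append _ _)
        have hRc : Rch e σ (ρ.reverse ++ (c :: v)) := by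
          have : (c :: ρ).reverse ++ v = ρ.reverse ++ (c :: v) := by simp
          rw [← this]; exact hR
        have hch : ∀ z ∈ (v :: act e (entE (fun z => Ex e N z (σ z))) k (c :: v) ρ), Rch e σ z := by
          intro z hz
          rw [List.mem_cons] at hz
          rcases hz with rfl | hz
          · exact hRv
          · exact ih (c :: v) ρ (by simp) hRc z hz
        rw [act_cons e _ k v c ρ hc, List.mem_append, List.mem_flatMap] at hz
        rcases hz with hz | ⟨j, hj, hz⟩
        · exact hch z hz
        · cases hf : fstE (entE (fun z => Ex e N z (σ z))) v.length j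
            (v :: act e (entE (fun z => Ex e N z (σ z))) k (c :: v) ρ) with
          | none => rw [hf] at hz; simp [optl] at hz
          | some ρ' =>
            rw [hf] at hz
            have hf' := hf
            unfold fstE at hf'
            obtain ⟨z0, hz0, hdec⟩ := List.exists_of_findSome?_eq_some hf'
            have h1 := dec_eq_some hdec
            obtain ⟨ℓ, hℓ, hs, hρ⟩ := entE_cases _ _ _ _ h1
            have hvz0 : v <:+ z0 := by
              rw [List.mem_cons] at hz0
              rcases hz0 with rfl | hz0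
              · exact List.suffix_refl _
              · exact (List.suffix_cons c v).trans (VT_suffix e k _ _ (act_mem e _ k _ _ _ hz0)).1
            rw [anc_eq v z0 hvz0] at hs
            have hℓe : ℓ = (j :: ρ').reverse ++ v := by
              rw [hρ, List.reverse_reverse]
              have h2 := List.take_append_drop (ℓ.length - v.length) ℓ
              have h3 : ℓ.drop (ℓ.length - v.length) = v := anc_eq v ℓ hs
              rw [h3] at h2
              exact h2.symm
            have hℓ0 : ℓ ≠ [] := by
              rw [hℓe]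
              simp
            obtain ⟨m, hm⟩ := Ex_some_hit e N z0 ℓ (σ z0) hℓ0 hℓ
            have hRℓ : Rch e σ ℓ := by
              rw [← hm]
              exact Rch_step e σ z0 (hch z0 hz0) m
            apply ih (j :: v) ρ' (by simp) _ z hz
            have : ρ'.reverse ++ (j :: v) = ℓ := by rw [hℓe]; simp
            rw [this]
            exact hRℓ
      · rw [act, if_neg hc] at hz
        simp at hz

end Pool.Agent.Work.MP_9e3593_pr.Fr
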