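import Pool.Agent.Work.MP_9e3593_pr.Defs
import Pool.Agent.Work.MP_9e3593_pr.KI2

/-! The scan lemma. -/

set_option autoImplicit false
set_option linter.unusedSectionVars false

namespace Pool.Agent.Work.MP_9e3593_pr.Fr

open Finset MeasureTheory ProbabilityTheory

/-! ### mixL -/

lemma mixL_const (B al : ℕ → ℝ) (c : ℝ) (J : List ℕ) (y : ℝ) :
    mixL B al (fun _ => c) J y = c := by
  induction J generalizing y with
  | nil => rfl
  | cons j js ih => simp only [mixL, ih]; ring

lemma mixL_congr {B B' al al' : ℕ → ℝ} {t t' : ℝ → ℝ} {J : List ℕ} (hB : ∀ j ∈ J, B j = B' j)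
    (hal : ∀ j ∈ J, al j = al' j) (ht : ∀ y, t y = t' y) (y : ℝ) :
    mixL B al t J y = mixL B' al' t' J y := by
  induction J generalizing y with
  | nil => exact ht y
  | cons j js ih =>
    simp only [mixL]
    rw [ih (fun i hi => hB i (List.mem_cons_of_mem _ hi))
      (fun i hi => hal i (List.mem_cons_of_mem _ hi)),
      ih (fun i hi => hB i (List.mem_cons_of_mem _ hi))
      (fun i hi => hal i (List.mem_cons_of_mem _ hi)), hB j (by simp), hal j (by simp)]

lemma mixL_mul_left (B al : ℕ → ℝ) (t : ℝ → ℝ) (c : ℝ) (J : List ℕ) (y : ℝ) :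
    mixL B al (fun y => c * t y) J y = c * mixL B al t J y := by
  induction J generalizing y with
  | nil => rfl
  | cons j js ih => simp only [mixL, ih]; ring

lemma mixL_add (B al : ℕ → ℝ) (t t' : ℝ → ℝ) (J : List ℕ) (y : ℝ) :
    mixL B al (fun y => t y + t' y) J y = mixL B al t J y + mixL B al t' J y := by
  induction J generalizing y with
  | nil => rfl
  | cons j js ih => simp only [mixL, ih]; ring

lemma mixL_step (B al : ℕ → ℝ) (T : ℝ → ℝ) (r : ℝ) (J : List ℕ) (hJ : J.Nodup) (y : ℝ) :
    mixL B al (fun y => (1 - r * y) * T y) J y =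
      (1 - r * (y + (J.map al).sum)) * mixL B al T J y +
        (J.map (fun j => r * al j * B j * mixL B al T (J.erase j) y)).sum := by
  induction J generalizing y with
  | nil => simp [mixL]
  | cons j js ih =>
    have hnd := List.nodup_cons.mp hJ
    have h1 : ((j :: js).map (fun i => r * al i * B i * mixL B al T ((j :: js).erase i) y)).sum
        = r * al j * B j * mixL B al T js y +
          (B j * (js.map (fun i => r * al i * B i * mixL B al T (js.erase i) y)).sum
          + (1 - B j) * (js.map (fun i => r * al i * B i * mixL B al T (js.erase i) (y + al j))).sum)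
          := by
      rw [List.map_cons, List.sum_cons, List.erase_cons_head]
      congr 1
      rw [← List.sum_map_mul_left, ← List.sum_map_mul_left, ← List.sum_map_add]
      congr 1
      apply List.map_congr_left
      intro i hi
      have hne : j ≠ i := fun h => hnd.1 (h ▸ hi)
      rw [List.erase_cons_tail (by simpa using hne)]
      simp only [mixL]
      ring
    rw [h1]
    simp only [mixL]
    rw [ih hnd.2, ih hnd.2, List.map_cons, List.sum_cons]
    ring

/-- decode: does the decision lead to child `j`? If yes, the relative entry path. -/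
def dec (j : ℕ) : Option (List ℕ) → Option (List ℕ)
  | none => none
  | some [] => none
  | some (i :: ρ) => if i = j then some ρ else none

@[simp] lemma dec_none (j : ℕ) : dec j none = none := rfl
@[simp] lemma dec_some_nil (j : ℕ) : dec j (some []) = none := rfl
lemma dec_some_cons (j i : ℕ) (ρ : List ℕ) : dec j (some (i :: ρ)) = if i = j then some ρ else none :=
  rfl

instance : MeasurableSpace (List ℕ) := ⊤
instance : DiscreteMeasurableSpace (List ℕ) := ⟨fun _ => trivial⟩
instance : MeasurableSpace (Option (List ℕ)) := ⊤
instance : DiscreteMeasurableSpace (Option (List ℕ)) := ⟨fun _ => trivial⟩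

/-- law hypothesis for the scan -/
def IsLaw (μ : Measure (Option (List ℕ))) (r q : ℝ) (al : ℕ → ℝ) (EJ : ℕ → (List ℕ → ℝ) → ℝ)
    (J : List ℕ) : Prop :=
  ∀ (F : Option (List ℕ) → ℝ) (F0 : ℝ) (J' : List ℕ), J'.Nodup → (∀ j ∈ J', j ∈ J) →
    (∀ j, j ∉ J' → ∀ ρ, F (some (j :: ρ)) = F0) → F (some []) = F0 →
    ∫ a, F a ∂μ = r * q * F none + (J'.map (fun j => r * al j * EJ j (fun ρ => F (some (j :: ρ))))).sum
      + (1 - r * q - (J'.map (fun j => r * al j)).sum) * F0

/-- value of an optional entry -/
def optv (g : List ℕ → ℝ) : Option (List ℕ) → ℝ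
  | none => 1
  | some ρ => g ρ

lemma list_prod_mem {β : Type*} (L : List β) (f : β → ℝ) (h : ∀ b ∈ L, 0 ≤ f b ∧ f b ≤ 1) :
    0 ≤ (L.map f).prod ∧ (L.map f).prod ≤ 1 := by
  induction L with
  | nil => simp
  | cons b L ih =>
    have h1 := h b (by simp)
    have h2 := ih (fun b hb => h b (List.mem_cons_of_mem _ hb))
    rw [List.map_cons, List.prod_cons]
    exact ⟨mul_nonneg h1.1 h2.1, mul_le_one₀ h1.2 h2.1 h2.2⟩

section
variable {ι : Type*}

/-- product of the indicators -/
noncomputable def wprod (b : ι → Prop) [DecidablePred b] (s : ℝ) (Z : List ι)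
    (D : ι → Option (List ℕ)) : ℝ :=
  (Z.map (fun i => if b i then (if D i = none then 1 - s else 1) else 1)).prod

/-- first entry into child `j` -/
def fstG (b : ι → Prop) [DecidablePred b] (Z : List ι) (D : ι → Option (List ℕ)) (j : ℕ) :
    Option (List ℕ) :=
  Z.findSome? (fun i => if b i then dec j (D i) else none)

/-- product over children -/
noncomputable def cprod (b : ι → Prop) [DecidablePred b] (g : ℕ → List ℕ → ℝ) (Z : List ι)
    (D : ι → Option (List ℕ)) (J : List ℕ) : ℝ :=
  (J.map (fun j => optv (g j) (fstG b Z D j))).prod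

lemma wprod_congr (b : ι → Prop) [DecidablePred b] (s : ℝ) (Z : List ι)
    (D D' : ι → Option (List ℕ)) (h : ∀ i ∈ Z, D i = D' i) : wprod b s Z D = wprod b s Z D' := by
  unfold wprod
  congr 1
  apply List.map_congr_left
  intro i hi
  rw [h i hi]

lemma fstG_congr (b : ι → Prop) [DecidablePred b] (Z : List ι)
    (D D' : ι → Option (List ℕ)) (h : ∀ i ∈ Z, D i = D' i) (j : ℕ) :
    fstG b Z D j = fstG b Z D' j := by
  unfold fstG
  induction Z with
  | nil => rfl
  | cons i Z ih =>
    rw [List.findSome?_cons, List.findSome?_cons, h i (by simp),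
      ih (fun i hi => h i (List.mem_cons_of_mem _ hi))]

lemma cprod_congr (b : ι → Prop) [DecidablePred b] (g : ℕ → List ℕ → ℝ) (Z : List ι)
    (D D' : ι → Option (List ℕ)) (h : ∀ i ∈ Z, D i = D' i) (J : List ℕ) :
    cprod b g Z D J = cprod b g Z D' J := by
  unfold cprod
  congr 1
  apply List.map_congr_left
  intro j _
  rw [fstG_congr b Z D D' h j]

lemma wprod_mem (b : ι → Prop) [DecidablePred b] {s : ℝ} (hs0 : 0 ≤ s) (hs1 : s ≤ 1) (Z : List ι)
    (D : ι → Option (List ℕ)) : 0 ≤ wprod b s Z D ∧ wprod b s Z D ≤ 1 := by
  apply list_prod_mem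
  intro i _
  split_ifs
  · constructor <;> linarith
  · constructor <;> norm_num
  · constructor <;> norm_num

lemma optv_mem {g : List ℕ → ℝ} (hg : ∀ ρ, 0 ≤ g ρ ∧ g ρ ≤ 1) (o : Option (List ℕ)) :
    0 ≤ optv g o ∧ optv g o ≤ 1 := by
  cases o with
  | none => simp [optv]
  | some ρ => exact hg ρ

lemma cprod_mem (b : ι → Prop) [DecidablePred b] {g : ℕ → List ℕ → ℝ}
    (hg : ∀ j ρ, 0 ≤ g j ρ ∧ g j ρ ≤ 1) (Z : List ι)
    (D : ι → Option (List ℕ)) (J : List ℕ) : 0 ≤ cprod b g Z D J ∧ cprod b g Z D J ≤ 1 := by
  apply list_prod_mem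
  intro j _
  exact optv_mem (hg j) _

theorem scan (μ : ι → Measure (Option (List ℕ))) [∀ i, IsProbabilityMeasure (μ i)]
    (b : ι → Prop) [DecidablePred b] (r : ι → ℝ) (q : ℝ) (al : ℕ → ℝ)
    (EJ : ℕ → (List ℕ → ℝ) → ℝ) (hEJ : ∀ j F c, EJ j (fun ρ => F ρ * c) = EJ j F * c)
    (g : ℕ → List ℕ → ℝ) (hg : ∀ j ρ, 0 ≤ g j ρ ∧ g j ρ ≤ 1) {s : ℝ} (hs0 : 0 ≤ s) (hs1 : s ≤ 1)
    (J0 : List ℕ) (Z : List ι) (hZ : Z.Nodup)
    (hlaw : ∀ i ∈ Z, b i → IsLaw (μ i) (r i) q al EJ J0)
    (J : List ℕ) (hJ : J.Nodup) (hJ0 : ∀ j ∈ J, j ∈ J0) :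
    ∫ D, wprod b s Z D * cprod b g Z D J ∂Measure.infinitePi μ =
      mixL (fun j => EJ j (g j)) al (fun y => (Z.map (fun i => if b i then 1 - r i * y else 1)).prod)
        J (q * s) := by
  classical
  induction Z generalizing J with
  | nil =>
    have : ∀ D : ι → Option (List ℕ), wprod b s [] D * cprod b g [] D J = 1 := by
      intro D
      have h1 : cprod b g [] D J = 1 := by
        unfold cprod
        rw [List.prod_eq_one]
        intro x hx
        rw [List.mem_map] at hx
        obtain ⟨j, _, rfl⟩ := hx
        rfl
      rw [h1]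
      simp [wprod]
    simp_rw [this]
    simp only [List.map_nil, List.prod_nil]
    rw [mixL_const]
    simp
  | cons i Z ih =>
    have hnd := List.nodup_cons.mp hZ
    have hlaw' : ∀ i ∈ Z, b i → IsLaw (μ i) (r i) q al EJ J0 := fun k hk =>
      hlaw k (List.mem_cons_of_mem _ hk)
    by_cases hbi : b i
    · -- the main case
      let H : Option (List ℕ) → (ι → Option (List ℕ)) → ℝ := fun a D =>
        (if a = none then 1 - s else 1) * wprod b s Z D *
          (J.map (fun j => optv (g j) (match dec j a with
            | some ρ => some ρ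
            | none => fstG b Z D j))).prod
      have hH : ∀ D, wprod b s (i :: Z) D * cprod b g (i :: Z) D J = H (D i) D := by
        intro D
        simp only [H, wprod, cprod, List.map_cons, List.prod_cons, if_pos hbi]
        congr 1
        congr 1
        apply List.map_congr_left
        intro j _
        congr 1
        unfold fstG
        rw [List.findSome?_cons, if_pos hbi]
        cases dec j (D i) <;> rfl
      have hmem : ∀ a D, 0 ≤ H a D ∧ H a D ≤ 1 := by
        intro a D
        have h1 : (0:ℝ) ≤ (if a = none then 1 - s else 1) ∧ (if a = none then 1 - s else 1) ≤ 1 := by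
          split_ifs
          · constructor <;> linarith
          · constructor <;> norm_num
        have h2 := wprod_mem b hs0 hs1 Z D
        have h3 : (0:ℝ) ≤ (J.map (fun j => optv (g j) (match dec j a with
            | some ρ => some ρ
            | none => fstG b Z D j))).prod ∧ (J.map (fun j => optv (g j) (match dec j a with
            | some ρ => some ρ
            | none => fstG b Z D j))).prod ≤ 1 := by
          apply list_prod_mem
          intro j _
          exact optv_mem (hg j) _
        constructor
        · exact mul_nonneg (mul_nonneg h1.1 h2.1) h3.1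
        · exact mul_le_one₀ (mul_le_one₀ h1.2 h2.1 h2.2) h3.1 h3.2
      have hdep : ∀ a D D', (∀ k ∈ Z, D k = D' k) → H a D = H a D' := by
        intro a D D' hDD
        simp only [H]
        rw [wprod_congr b s Z D D' hDD]
        congr 2
        apply List.map_congr_left
        intro j _
        rw [fstG_congr b Z D D' hDD j]
      simp_rw [hH]
      rw [ki2 μ {i} Z.toFinset (by simpa using hnd.1) (fun t s => H (t i) s)
        (fun t t' s hh => by rw [hh i (by simp)])
        (fun t s s' hh => hdep _ _ _ (fun k hk => hh k (by simpa using hk))) 1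
        (fun t s => by rw [abs_le]; constructor <;> linarith [(hmem (t i) s).1, (hmem (t i) s).2])]
      have h2 : ∫ t, ∫ s, H (t i) s ∂Measure.infinitePi μ ∂Measure.infinitePi μ
          = ∫ a, (∫ s, H a s ∂Measure.infinitePi μ) ∂(μ i) := by
        rw [← Measure.infinitePi_map_eval μ i,
          integral_map (measurable_pi_apply i).aemeasurable
            (measurable_of_countable _).aestronglyMeasurable]
      rw [h2]
      -- the values
      have hR : ∀ J' : List ℕ, J'.Nodup → (∀ j ∈ J', j ∈ J0) →
          ∫ D, wprod b s Z D * cprod b g Z D J' ∂Measure.infinitePi μ =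
          mixL (fun j => EJ j (g j)) al
            (fun y => (Z.map (fun i => if b i then 1 - r i * y else 1)).prod) J' (q * s) :=
        fun J' h1 h2 => ih hnd.2 hlaw' J' h1 h2
      have hnone : ∫ D, H none D ∂Measure.infinitePi μ = (1 - s) *
          ∫ D, wprod b s Z D * cprod b g Z D J ∂Measure.infinitePi μ := by
        rw [← integral_const_mul]
        congr 1
        funext D
        simp only [H, cprod, dec_none, if_true]
        ring
      have hother : ∀ a, a ≠ none → (∀ j ∈ J, dec j a = none) →
          ∫ D, H a D ∂Measure.infinitePi μ =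
          ∫ D, wprod b s Z D * cprod b g Z D J ∂Measure.infinitePi μ := by
        intro a ha hj
        congr 1
        funext D
        simp only [H, cprod]
        rw [if_neg ha, one_mul]
        congr 2
        apply List.map_congr_left
        intro j hj'
        rw [hj j hj']
      have hin : ∀ j0 ∈ J, ∀ ρ, ∫ D, H (some (j0 :: ρ)) D ∂Measure.infinitePi μ =
          g j0 ρ * ∫ D, wprod b s Z D * cprod b g Z D (J.erase j0) ∂Measure.infinitePi μ := by
        intro j0 hj0 ρ
        rw [← integral_const_mul]
        congr 1
        funext D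
        simp only [H, cprod]
        rw [if_neg (by simp), one_mul, ← List.prod_map_erase _ hj0]
        have h5 : ((J.erase j0).map (fun j => optv (g j) (match dec j (some (j0 :: ρ)) with
            | some ρ => some ρ
            | none => fstG b Z D j))) = (J.erase j0).map (fun j => optv (g j) (fstG b Z D j)) := by
          apply List.map_congr_left
          intro j hj
          have hne : j0 ≠ j := by
            rintro rfl
            exact (List.Nodup.not_mem_erase hJ) hj
          rw [dec_some_cons, if_neg hne]
        rw [h5, dec_some_cons, if_pos rfl]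
        simp only [optv]
        ring
      rw [hlaw i (by simp) hbi (fun a => ∫ D, H a D ∂Measure.infinitePi μ)
        (∫ D, wprod b s Z D * cprod b g Z D J ∂Measure.infinitePi μ) J hJ hJ0
        (fun j hj ρ => hother _ (by simp) (fun j' hj' => by
          rw [dec_some_cons, if_neg]; rintro rfl; exact hj hj'))
        (hother _ (by simp) (fun j' _ => rfl))]
      rw [hnone]
      have h6 : (J.map (fun j => r i * al j * EJ j (fun ρ => ∫ D, H (some (j :: ρ)) D
          ∂Measure.infinitePi μ))).sum = (J.map (fun j => r i * al j * EJ j (g j) *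
          mixL (fun j => EJ j (g j)) al
            (fun y => (Z.map (fun i => if b i then 1 - r i * y else 1)).prod) (J.erase j) (q * s))).sum
          := by
        congr 1
        apply List.map_congr_left
        intro j hj
        have : (fun ρ => ∫ D, H (some (j :: ρ)) D ∂Measure.infinitePi μ) = fun ρ => g j ρ *
          ∫ D, wprod b s Z D * cprod b g Z D (J.erase j) ∂Measure.infinitePi μ := by
          funext ρ
          exact hin j hj ρ
        rw [this, hEJ, hR _ (hJ.erase j) (fun k hk => hJ0 k (List.mem_of_mem_erase hk))]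
        ring
      rw [h6, hR J hJ hJ0]
      simp only [List.map_cons, List.prod_cons, if_pos hbi]
      rw [mixL_step _ _ _ _ J hJ, List.sum_map_mul_left]
      ring
    · have h1 : ∀ D : ι → Option (List ℕ), wprod b s (i :: Z) D = wprod b s Z D := by
        intro D
        simp [wprod, hbi]
      have h2 : ∀ D : ι → Option (List ℕ), cprod b g (i :: Z) D J = cprod b g Z D J := by
        intro D
        unfold cprod
        congr 1
        apply List.map_congr_left
        intro j _
        unfold fstG
        rw [List.findSome?_cons, if_neg hbi]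
      simp_rw [h1, h2]
      rw [ih hnd.2 hlaw' J hJ hJ0]
      simp [hbi]

end

end Pool.Agent.Work.MP_9e3593_pr.Fr
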