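import Pool.Agent.Work.MP_9e3593_pr.Law

/-! The exit law of the walk. -/

set_option autoImplicit false
set_option linter.unusedSectionVars false

namespace Pool.Agent.Work.MP_9e3593_pr.Fr

open Finset MeasureTheory ProbabilityTheory

/-- discretised uniform variable -/
abbrev A := Fin 2 × Fin 3 × Fin 5 × Fin 6

/-- choice at the root -/
def rch (b : Bool) (a : A) : ℕ := if b = true then (a.1 : ℕ) else (a.2.2.1 : ℕ)

/-- choice at an inner vertex -/
def ich (b : Bool) (a : A) : ℕ := if b = true then (a.2.1 : ℕ) else (a.2.2.2 : ℕ)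

/-- one step -/
def stp (e : List ℕ → Bool) (x : List ℕ) (a : A) : List ℕ :=
  if x = [] then [rch (e x) a]
  else if ich (e x) a = 0 then x.tail else (ich (e x) a - 1) :: x

/-- uniformity -/
structure UnifA (ν : Measure A) : Prop where
  r : ∀ (b : Bool) (φ : ℕ → ℝ), ∫ a, φ (rch b a) ∂ν = (∑ j ∈ range (deg b), φ j) / deg b
  i : ∀ (b : Bool) (φ : ℕ → ℝ), ∫ a, φ (ich b a) ∂ν = (∑ j ∈ range (deg b + 1), φ j) / (deg b + 1)

/-- stopping set -/
def St (N : ℕ) (z x : List ℕ) : Prop := N ≤ x.length ∨ (x = [] ∧ z ≠ [])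

instance (N : ℕ) (z x : List ℕ) : Decidable (St N z x) := by unfold St; infer_instance

/-- stopped walk -/
def Yw (e : List ℕ → Bool) (N : ℕ) (z : List ℕ) : ℕ → (ℕ → A) → List ℕ
  | 0, _ => z
  | n + 1, ω => if St N z (Yw e N z n ω) then Yw e N z n ω else stp e (Yw e N z n ω) (ω n)

/-- walk -/
def Xw (e : List ℕ → Bool) (z : List ℕ) : ℕ → (ℕ → A) → List ℕ
  | 0, _ => z
  | n + 1, ω => stp e (Xw e z n ω) (ω n)

lemma Yw_congr (e : List ℕ → Bool) (N : ℕ) (z : List ℕ) (n : ℕ) (ω ω' : ℕ → A)
    (h : ∀ i < n, ω i = ω' i) : Yw e N z n ω = Yw e N z n ω' := by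
  induction n with
  | zero => rfl
  | succ n ih =>
    rw [Yw, Yw, ih (fun i hi => h i (by omega)), h n (by omega)]

lemma stp_length (e : List ℕ → Bool) (x : List ℕ) (a : A) : (stp e x a).length ≤ x.length + 1 := by
  unfold stp
  split_ifs
  · simp
  · simp; omega
  · simp

lemma Yw_length (e : List ℕ → Bool) (N : ℕ) (z : List ℕ) (hz : z.length ≤ N) (n : ℕ) (ω : ℕ → A) :
    (Yw e N z n ω).length ≤ N := by
  induction n with
  | zero => exact hz
  | succ n ih =>
    rw [Yw]
    split_ifs with h
    · exact ih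
    · have h1 : ¬ N ≤ (Yw e N z n ω).length := fun hh => h (Or.inl hh)
      have := stp_length e (Yw e N z n ω) (ω n)
      omega

lemma Yw_stopped (e : List ℕ → Bool) (N : ℕ) (z : List ℕ) (n : ℕ) (ω : ℕ → A)
    (h : St N z (Yw e N z n ω)) (m : ℕ) : Yw e N z (n + m) ω = Yw e N z n ω := by
  induction m with
  | zero => rfl
  | succ m ih =>
    rw [← add_assoc, Yw, ih, if_pos h]

lemma Yw_eq_Xw (e : List ℕ → Bool) (N : ℕ) (z : List ℕ) (n : ℕ) (ω : ℕ → A) :
    ∃ m, Yw e N z n ω = Xw e z m ω := by
  have key : ∀ n, (¬ St N z (Yw e N z n ω) → Yw e N z n ω = Xw e z n ω) ∧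
      ∃ m, Yw e N z n ω = Xw e z m ω := by
    intro n
    induction n with
    | zero => exact ⟨fun _ => rfl, 0, rfl⟩
    | succ n ih =>
      by_cases h : St N z (Yw e N z n ω)
      · have h1 : Yw e N z (n + 1) ω = Yw e N z n ω := by rw [Yw, if_pos h]
        rw [h1]
        exact ⟨fun h2 => absurd h h2, ih.2⟩
      · have h1 : Yw e N z (n + 1) ω = Xw e z (n + 1) ω := by
          rw [Yw, if_neg h, Xw, ih.1 h]
        exact ⟨fun _ => h1, n + 1, h1⟩
  exact (key n).2

/-- outcome -/
def toO (x : List ℕ) : Option (List ℕ) := if x = [] then none else some x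

/-- exit -/
noncomputable def Ex (e : List ℕ → Bool) (N : ℕ) (z : List ℕ) (ω : ℕ → A) : Option (List ℕ) := by
  classical
  exact if h : ∃ n, St N z (Yw e N z n ω) then toO (Yw e N z (Nat.find h) ω) else some []

lemma Ex_eq (e : List ℕ → Bool) (N : ℕ) (z : List ℕ) (ω : ℕ → A) (n : ℕ)
    (h : St N z (Yw e N z n ω)) : Ex e N z ω = toO (Yw e N z n ω) := by
  classical
  unfold Ex
  have hex : ∃ n, St N z (Yw e N z n ω) := ⟨n, h⟩
  rw [dif_pos hex]
  congr 1
  have h1 := Nat.find_spec hex
  have h2 : Nat.find hex ≤ n := Nat.find_min' hex h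
  obtain ⟨m, hm⟩ := Nat.exists_eq_add_of_le h2
  have h3 := Yw_stopped e N z (Nat.find hex) ω h1 m
  rw [← hm] at h3
  exact h3.symm

lemma Ex_ne (e : List ℕ → Bool) (N : ℕ) (z : List ℕ) (ω : ℕ → A)
    (h : ¬ ∃ n, St N z (Yw e N z n ω)) : Ex e N z ω = some [] := by
  classical
  unfold Ex
  rw [dif_neg h]

lemma measurable_Yw (e : List ℕ → Bool) (N : ℕ) (z : List ℕ) (n : ℕ) :
    Measurable (Yw e N z n) :=
  measurable_of_dep (Finset.range n) (Yw e N z n)
    (fun t t' h => Yw_congr e N z n t t' (fun i hi => h i (by simpa using hi)))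

lemma measurable_Ex (e : List ℕ → Bool) (N : ℕ) (z : List ℕ) : Measurable (Ex e N z) := by
  classical
  -- as a measurable function of the sequence
  have hS : ∀ n, MeasurableSet {ω | St N z (Yw e N z n ω)} := fun n =>
    (measurable_Yw e N z n) (MeasurableSet.of_discrete (s := {x | St N z x}))
  have key : ∀ o : Option (List ℕ), o ≠ some [] → MeasurableSet (Ex e N z ⁻¹' {o}) := by
    intro o ho
    have : Ex e N z ⁻¹' {o} = ⋃ n, {ω | St N z (Yw e N z n ω) ∧ toO (Yw e N z n ω) = o} := by
      ext ω
      simp only [Set.mem_preimage, Set.mem_singleton_iff, Set.mem_iUnion, Set.mem_ofPred_eq]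
      constructor
      · intro h
        by_cases hex : ∃ n, St N z (Yw e N z n ω)
        · obtain ⟨n, hn⟩ := hex
          exact ⟨n, hn, by rw [← Ex_eq e N z ω n hn]; exact h⟩
        · rw [Ex_ne e N z ω hex] at h
          exact absurd h.symm ho
      · rintro ⟨n, hn, hn'⟩
        rw [Ex_eq e N z ω n hn, hn']
    rw [this]
    apply MeasurableSet.iUnion
    intro n
    exact (measurable_Yw e N z n) (MeasurableSet.of_discrete (s := {x | St N z x ∧ toO x = o}))
  apply measurable_to_countable'
  intro o
  by_cases ho : o = some []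
  · have : Ex e N z ⁻¹' {o} = (⋃ o' ∈ {o' : Option (List ℕ) | o' ≠ some []}, Ex e N z ⁻¹' {o'})ᶜ := by
      ext ω
      simp only [Set.mem_preimage, Set.mem_singleton_iff, Set.mem_compl_iff, Set.mem_iUnion,
        Set.mem_ofPred_eq, not_exists]
      constructor
      · intro h o' ho' h'
        exact ho' (by rw [← h', h, ho])
      · intro h
        by_contra hne
        exact h (Ex e N z ω) (fun hh => hne (by rw [hh, ho])) rfl
    rw [this]
    apply MeasurableSet.compl
    apply MeasurableSet.biUnion (Set.to_countable _)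
    intro o' ho'
    exact key o' ho'
  · exact key o ho

/-! ### one step expectation -/

section
variable {ν : Measure A} [hν : IsProbabilityMeasure ν] (hU : UnifA ν)
include hU

lemma stp_int (e : List ℕ → Bool) (x : List ℕ) (hx : x ≠ []) (G : List ℕ → ℝ) :
    ∫ a, G (stp e x a) ∂ν = (G x.tail + ∑ j ∈ range (deg (e x)), G (j :: x)) / (deg (e x) + 1) := by
  have h1 : ∀ a, G (stp e x a) = (fun j : ℕ => if j = 0 then G x.tail else G ((j - 1) :: x))
      (ich (e x) a) := by
    intro a
    unfold stp
    rw [if_neg hx]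
    split_ifs with h
    · simp [h]
    · simp [h]
  simp_rw [h1]
  rw [hU.i (e x) (fun j : ℕ => if j = 0 then G x.tail else G ((j - 1) :: x)),
    Finset.sum_range_succ']
  congr 1
  simp only [Nat.add_eq_zero_iff, one_ne_zero, and_false, if_false, if_true, Nat.add_sub_cancel]
  ring

lemma stp_int_root (e : List ℕ → Bool) (G : List ℕ → ℝ) :
    ∫ a, G (stp e [] a) ∂ν = (∑ j ∈ range (deg (e [])), G [j]) / deg (e []) := by
  have h1 : ∀ a, G (stp e [] a) = (fun j : ℕ => G [j]) (rch (e []) a) := by
    intro a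
    unfold stp
    rw [if_pos rfl]
  simp_rw [h1]
  rw [hU.r (e []) (fun j : ℕ => G [j])]

lemma expect_step (e : List ℕ → Bool) (N : ℕ) (z : List ℕ) (hz : z.length ≤ N) (G : List ℕ → ℝ)
    (C : ℝ) (hG : ∀ x : List ℕ, x.length ≤ N → |G x| ≤ C) (n : ℕ) :
    ∫ ω, G (Yw e N z (n + 1) ω) ∂Measure.infinitePi (fun _ : ℕ => ν) =
    ∫ ω, (if St N z (Yw e N z n ω) then G (Yw e N z n ω) else
      ∫ a, G (stp e (Yw e N z n ω) a) ∂ν) ∂Measure.infinitePi (fun _ : ℕ => ν) := by
  classical
  have hb : ∀ t s : ℕ → A, |(fun t s : ℕ → A => if St N z (Yw e N z n t) then G (Yw e N z n t) else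
      G (stp e (Yw e N z n t) (s n))) t s| ≤ C := by
    intro t s
    simp only
    have h1 := Yw_length e N z hz n t
    split_ifs with h
    · exact hG _ h1
    · apply hG
      have h2 : ¬ N ≤ (Yw e N z n t).length := fun hh => h (Or.inl hh)
      have := stp_length e (Yw e N z n t) (s n)
      omega
  have h1 := ki2 (fun _ : ℕ => ν) (Finset.range n) {n} (by simp)
    (fun t s : ℕ → A => if St N z (Yw e N z n t) then G (Yw e N z n t) else
      G (stp e (Yw e N z n t) (s n)))
    (fun t t' s h => by
      rw [Yw_congr e N z n t t' (fun i hi => h i (by simpa using hi))])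
    (fun t s s' h => by rw [h n (by simp)]) C hb
  calc ∫ ω, G (Yw e N z (n + 1) ω) ∂Measure.infinitePi (fun _ : ℕ => ν)
      = ∫ ω, (if St N z (Yw e N z n ω) then G (Yw e N z n ω) else
          G (stp e (Yw e N z n ω) (ω n))) ∂Measure.infinitePi (fun _ : ℕ => ν) := by
        congr 1
        funext ω
        rw [Yw]
        split_ifs <;> rfl
    _ = _ := by
        rw [h1]
        congr 1
        funext t
        split_ifs with h
        · simp
        · have h2 : ∫ a, G (stp e (Yw e N z n t) a) ∂ν = ∫ a, G (stp e (Yw e N z n t) a)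
              ∂(Measure.map (fun x : ℕ → A => x n) (Measure.infinitePi (fun _ : ℕ => ν))) := by
            rw [Measure.infinitePi_map_eval]
          rw [h2, integral_map (measurable_pi_apply n).aemeasurable
            (measurable_of_countable _).aestronglyMeasurable]

lemma integrable_Yw (e : List ℕ → Bool) (N : ℕ) (z : List ℕ) (hz : z.length ≤ N) (G : List ℕ → ℝ)
    (C : ℝ) (hG : ∀ x : List ℕ, x.length ≤ N → |G x| ≤ C) (n : ℕ) :
    Integrable (fun ω => G (Yw e N z n ω)) (Measure.infinitePi (fun _ : ℕ => ν)) := by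
  apply Integrable.of_bound ((measurable_of_countable G).comp
    (measurable_Yw e N z n)).aestronglyMeasurable C
  filter_upwards with ω
  exact hG _ (Yw_length e N z hz n ω)

/-- non-absorption probability -/
lemma not_absorbed (e : List ℕ → Bool) (N : ℕ) (z : List ℕ) (hz : z.length ≤ N) (n : ℕ) :
    n * ∫ ω, (if St N z (Yw e N z n ω) then (0:ℝ) else 1) ∂Measure.infinitePi (fun _ : ℕ => ν)
      ≤ 3 * N := by
  classical
  set P := Measure.infinitePi (fun _ : ℕ => ν) with hP
  let g : List ℕ → ℝ := fun x => if St N z x then 0 else 1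
  have hgb : ∀ x : List ℕ, x.length ≤ N → |g x| ≤ 1 := by
    intro x _
    simp only [g]
    split_ifs <;> simp
  have hLb : ∀ x : List ℕ, x.length ≤ N → |((x.length : ℕ) : ℝ)| ≤ N := by
    intro x hx
    rw [abs_of_nonneg (by positivity)]
    exact_mod_cast hx
  have hdrift : ∀ n, ∫ ω, ((Yw e N z n ω).length : ℝ) ∂P + (1/3) * ∫ ω, g (Yw e N z n ω) ∂P ≤
      ∫ ω, ((Yw e N z (n+1) ω).length : ℝ) ∂P := by
    intro n
    rw [expect_step hU e N z hz (fun x => (x.length : ℝ)) N hLb n, ← integral_const_mul,
      ← integral_add (integrable_Yw hU e N z hz (fun x => (x.length : ℝ)) N hLb n)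
        ((integrable_Yw hU e N z hz g 1 hgb n).const_mul _)]
    apply integral_mono
    · exact (integrable_Yw hU e N z hz (fun x => (x.length : ℝ)) N hLb n).add
        ((integrable_Yw hU e N z hz g 1 hgb n).const_mul _)
    · have hint := integrable_Yw hU e N z hz (fun x => if St N z x then (x.length : ℝ) else
        ∫ a, ((stp e x a).length : ℝ) ∂ν) (N + 1) (fun x hx => by
          split_ifs
          · exact (hLb x hx).trans (by linarith)
          · have h1 : |∫ a, ((stp e x a).length : ℝ) ∂ν| ≤ ∫ a, ((N : ℝ) + 1) ∂ν := by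
              rw [abs_of_nonneg (integral_nonneg (fun a => by positivity))]
              apply integral_mono
              · apply Integrable.of_bound (measurable_of_countable _).aestronglyMeasurable (N + 1)
                filter_upwards with a
                rw [Real.norm_of_nonneg (by positivity)]
                have := stp_length e x a
                exact_mod_cast (this.trans (by omega))
              · exact integrable_const _
              · intro a
                have := stp_length e x a
                show ((stp e x a).length : ℝ) ≤ (N : ℝ) + 1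
                have h9 : (stp e x a).length ≤ N + 1 := by omega
                exact_mod_cast h9
            simpa using h1) n
      exact hint
    · intro ω
      simp only [g]
      split_ifs with h
      · simp
      · set x := Yw e N z n ω with hx
        by_cases hx0 : x = []
        · rw [hx0, stp_int_root hU e (fun x => (x.length : ℝ))]
          simp only [List.length_cons, List.length_nil]
          have hd : (0:ℝ) < deg (e []) := by exact_mod_cast deg_pos _
          rw [Finset.sum_const, Finset.card_range]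
          simp only [nsmul_eq_mul]
          field_simp
          norm_num
        · rw [stp_int hU e x hx0 (fun x => (x.length : ℝ))]
          have hl : 1 ≤ x.length := by
            rcases x with _ | ⟨a, x⟩
            · exact absurd rfl hx0
            · simp
          simp only [List.length_cons, List.length_tail]
          rw [Finset.sum_const, Finset.card_range]
          have hd : (2:ℝ) ≤ deg (e x) := by exact_mod_cast deg_ge _
          rw [le_div_iff₀ (by linarith)]
          simp only [nsmul_eq_mul]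
          push_cast [hl]
          nlinarith
  have hmono : ∀ n, ∫ ω, g (Yw e N z (n+1) ω) ∂P ≤ ∫ ω, g (Yw e N z n ω) ∂P := by
    intro n
    apply integral_mono (integrable_Yw hU e N z hz g 1 hgb (n+1))
      (integrable_Yw hU e N z hz g 1 hgb n)
    intro ω
    simp only [g]
    by_cases h : St N z (Yw e N z n ω)
    · rw [show Yw e N z (n+1) ω = Yw e N z n ω from by rw [Yw, if_pos h]]
    · rw [if_neg h]
      split_ifs <;> norm_num
  have hanti : ∀ m n, m ≤ n → ∫ ω, g (Yw e N z n ω) ∂P ≤ ∫ ω, g (Yw e N z m ω) ∂P := by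
    intro m n hmn
    induction hmn with
    | refl => exact le_rfl
    | step _ ih => exact (hmono _).trans ih
  have hsum : ∀ n, ∫ ω, ((Yw e N z 0 ω).length : ℝ) ∂P +
      (1/3) * ∑ k ∈ range n, ∫ ω, g (Yw e N z k ω) ∂P ≤ ∫ ω, ((Yw e N z n ω).length : ℝ) ∂P := by
    intro n
    induction n with
    | zero => simp
    | succ n ih =>
      rw [Finset.sum_range_succ]
      have := hdrift n
      linarith
  have h1 := hsum n
  have h2 : ∫ ω, ((Yw e N z n ω).length : ℝ) ∂P ≤ N := by
    have h3 : ∫ ω, ((Yw e N z n ω).length : ℝ) ∂P ≤ ∫ ω, (N:ℝ) ∂P := by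
      apply integral_mono (integrable_Yw hU e N z hz (fun x => (x.length : ℝ)) N hLb n)
        (integrable_const _)
      intro ω
      show ((Yw e N z n ω).length : ℝ) ≤ N
      exact_mod_cast Yw_length e N z hz n ω
    simpa using h3
  have h4 : (n:ℝ) * ∫ ω, g (Yw e N z n ω) ∂P ≤ ∑ k ∈ range n, ∫ ω, g (Yw e N z k ω) ∂P := by
    rw [← nsmul_eq_mul, ← Finset.card_range n, ← Finset.sum_const, Finset.card_range]
    apply Finset.sum_le_sum
    intro k hk
    exact hanti k n (Finset.mem_range.mp hk).le
  have h5 : 0 ≤ ∫ ω, ((Yw e N z 0 ω).length : ℝ) ∂P := integral_nonneg (fun ω => by positivity)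
  show (n:ℝ) * ∫ ω, g (Yw e N z n ω) ∂P ≤ 3 * N
  linarith

/-- exit law, abstract form -/
theorem exit_law (e : List ℕ → Bool) (N : ℕ) (z : List ℕ) (hz : z.length ≤ N)
    (F : Option (List ℕ) → ℝ) (hF : ∀ o, 0 ≤ F o ∧ F o ≤ 1)
    (G : List ℕ → ℝ) (hG : ∀ x : List ℕ, x.length ≤ N → 0 ≤ G x ∧ G x ≤ 1)
    (hGS : ∀ x : List ℕ, x.length ≤ N → St N z x → G x = F (toO x))
    (hGh : ∀ x : List ℕ, x.length ≤ N → ¬ St N z x → ∫ a, G (stp e x a) ∂ν = G x) :
    ∫ ω, F (Ex e N z ω) ∂Measure.infinitePi (fun _ : ℕ => ν) = G z := by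
  classical
  set P := Measure.infinitePi (fun _ : ℕ => ν) with hP
  have hGb : ∀ x : List ℕ, x.length ≤ N → |G x| ≤ 1 := by
    intro x hx
    have := hG x hx
    rw [abs_le]; constructor <;> linarith
  have hconst : ∀ n, ∫ ω, G (Yw e N z n ω) ∂P = G z := by
    intro n
    induction n with
    | zero => simp [Yw]
    | succ n ih =>
      rw [expect_step hU e N z hz G 1 hGb n, ← ih]
      congr 1
      funext ω
      split_ifs with h
      · rfl
      · exact hGh _ (Yw_length e N z hz n ω) h
  have hFm : Measurable (fun ω => F (Ex e N z ω)) :=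
    (measurable_of_countable F).comp (measurable_Ex e N z)
  have hFi : Integrable (fun ω => F (Ex e N z ω)) P := by
    apply Integrable.of_bound hFm.aestronglyMeasurable 1
    filter_upwards with ω
    have := hF (Ex e N z ω)
    rw [Real.norm_eq_abs, abs_le]; constructor <;> linarith
  let g : List ℕ → ℝ := fun x => if St N z x then 0 else 1
  have hgb : ∀ x : List ℕ, x.length ≤ N → |g x| ≤ 1 := by
    intro x _
    simp only [g]
    split_ifs <;> simp
  have hdiff : ∀ n, |∫ ω, F (Ex e N z ω) ∂P - G z| ≤ ∫ ω, g (Yw e N z n ω) ∂P := by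
    intro n
    rw [← hconst n, ← integral_sub hFi (integrable_Yw hU e N z hz G 1 hGb n)]
    refine (abs_integral_le_integral_abs).trans ?_
    apply integral_mono
    · exact (hFi.sub (integrable_Yw hU e N z hz G 1 hGb n)).abs
    · exact integrable_Yw hU e N z hz g 1 hgb n
    · intro ω
      simp only [g]
      by_cases h : St N z (Yw e N z n ω)
      · rw [if_pos h, Ex_eq e N z ω n h, hGS _ (Yw_length e N z hz n ω) h]
        simp
      · rw [if_neg h, abs_le]
        have h1 := hF (Ex e N z ω)
        have h2 := hG _ (Yw_length e N z hz n ω)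
        constructor <;> linarith
  have hle : ∀ n : ℕ, |∫ ω, F (Ex e N z ω) ∂P - G z| * n ≤ 3 * N := by
    intro n
    have h1 := not_absorbed hU e N z hz n
    have h2 := hdiff n
    have h3 : |∫ ω, F (Ex e N z ω) ∂P - G z| * n ≤ (∫ ω, g (Yw e N z n ω) ∂P) * n :=
      mul_le_mul_of_nonneg_right h2 (by positivity)
    calc _ ≤ _ := h3
      _ = n * ∫ ω, g (Yw e N z n ω) ∂P := by ring
      _ ≤ _ := h1
  have hzero : |∫ ω, F (Ex e N z ω) ∂P - G z| = 0 := by
    by_contra hne
    have hpos : 0 < |∫ ω, F (Ex e N z ω) ∂P - G z| := lt_of_le_of_ne (abs_nonneg _) (Ne.symm hne)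
    obtain ⟨n, hn⟩ := exists_nat_gt (3 * N / |∫ ω, F (Ex e N z ω) ∂P - G z|)
    rw [div_lt_iff₀ hpos] at hn
    have := hle n
    linarith
  rw [abs_eq_zero, sub_eq_zero] at hzero
  exact hzero

end

end Pool.Agent.Work.MP_9e3593_pr.Fr
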